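import Pool.Agent.Helper77.DS.DDefs

/-!
# Block C: the abstract data and the final statement
-/

namespace Pool.Agent.Helper77.DS

open Set Helper36.AS

/-- A set `X` with a transformation `T` of order three, which contains the model `U3` as an open subset
`X ∩ W`, such that `T` is properly homotopic to the identity on the closed rest `X \ W`. -/
structure BData {E : Type*} [MetricSpace E] (X W : Set E) (T : E → E) (Φ : UT → E)
    (Ψ : E → UT) : Prop where
  good : Good IsCompact X
  opn : IsOpen W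
  homeo : SHomeo U3 (X ∩ W) Φ Ψ
  contT : ContinuousOn T X
  mapsT : MapsTo T X X
  T3 : ∀ x ∈ X, T (T (T x)) = x
  eqv : ∀ u ∈ U3, T (Φ u) = Φ (TU u)
  rest : MapsTo T (X \ W) (X \ W)
  hom : ∃ G : E → ℝ → E, SHomotopy IsCompact IsCompact (X \ W) (X \ W) G ∧
    ∀ x ∈ X \ W, G x 0 = x ∧ G x 1 = T x

/-- The conclusion of block C. (`x` is in fact not a coboundary, but this is not needed.) -/
def BlockC {E : Type*} [MetricSpace E] (X : Set E) (T : E → E) (vv : E → Circle) : Prop :=
  ∃ x : List E → ZMod 2, x ∈ cocycles (ZMod 2) IsCompact X 2 ∧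
    e3 T x ∈ coboundaries (ZMod 2) IsCompact X 2 ∧
    (x ∈ coboundaries (ZMod 2) IsCompact X 2 ∨
      ∀ f ∈ cocycles (ZMod 2) IsCompact X 2, e3 T f ∈ coboundaries (ZMod 2) IsCompact X 2 →
      f ∈ coboundaries (ZMod 2) IsCompact X 2 ∨ f - x ∈ coboundaries (ZMod 2) IsCompact X 2 ∨
      f - pull T x ∈ coboundaries (ZMod 2) IsCompact X 2 ∨
      f - (x + pull T x) ∈ coboundaries (ZMod 2) IsCompact X 2) ∧
    ∃ b, IsBall X 7 b ∧
      cup 1 (pull vv k1) (cup 2 x (cup 2 x (pull T x))) - b ∈
        coboundaries (ZMod 2) IsCompact X 7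

end Pool.Agent.Helper77.DS
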