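import Pool.Agent.Helper77.DS.CDefs

/-!
# DS-FrA: the frames `Lq` on `RP3` and `Ls` on the circle

`Lq`: for `A = q qᵀ`, `|q| = 1`: if `A 0 0 = q₀² > 0` then `A 0 j / √(A 0 0) = ± q j`; if `A 0 0 = 0` then `q₀ = 0`
and so on; in the last case `q₃² = 1`.
`Ls`: `rt z = exp (i φ / 2)`, `φ = arg z ∈ (-π, π]`; `rt z ^ 2 = z`; `Ls z 0 * Ls z 0 = (1 + Re z) / 2`,
`Ls z 0 * Ls z 1 = Im z / 2`, `Ls z 1 * Ls z 1 = (1 - Re z) / 2` (double angle formulas) are continuous.
`rt` is continuous at `z ≠ -1` (`Complex.continuousAt_arg`).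
-/

namespace Pool.Agent.Helper77.DS

open Set Complex

private theorem fr_row (q : Fin 4 → ℝ) (i : Fin 4) (hi : q i ≠ 0) :
    (fun j => outer q i j / √(outer q i i)) = fun j => (q i / |q i|) * q j := by
  funext j
  have h : √(outer q i i) = |q i| := by
    unfold outer
    rw [← pow_two, Real.sqrt_sq_eq_abs]
  rw [h]
  unfold outer
  ring

private theorem fr_sgn (x : ℝ) (hx : x ≠ 0) : (x / |x|) ^ 2 = 1 := by
  rw [div_pow, sq_abs]
  exact div_self (pow_ne_zero 2 hx)

private theorem fr_pos (x : ℝ) (h : 0 < x * x) : x ≠ 0 := by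
  rintro rfl
  simp at h

private theorem fr_zero (x : ℝ) (h : ¬ 0 < x * x) : x = 0 := by
  by_contra hx
  exact h (mul_self_pos.mpr hx)

private theorem fr_main (q : Fin 4 → ℝ) (hq : ∑ i, q i ^ 2 = 1) :
    ∃ s : ℝ, s ^ 2 = 1 ∧ Lq (outer q) = fun j => s * q j := by
  by_cases h0 : 0 < outer q 0 0
  · refine ⟨q 0 / |q 0|, fr_sgn _ (fr_pos _ h0), ?_⟩
    unfold Lq
    rw [if_pos h0]
    exact fr_row q 0 (fr_pos _ h0)
  by_cases h1 : 0 < outer q 1 1
  · refine ⟨q 1 / |q 1|, fr_sgn _ (fr_pos _ h1), ?_⟩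
    unfold Lq
    rw [if_neg h0, if_pos h1]
    exact fr_row q 1 (fr_pos _ h1)
  by_cases h2 : 0 < outer q 2 2
  · refine ⟨q 2 / |q 2|, fr_sgn _ (fr_pos _ h2), ?_⟩
    unfold Lq
    rw [if_neg h0, if_neg h1, if_pos h2]
    exact fr_row q 2 (fr_pos _ h2)
  have e0 := fr_zero _ h0
  have e1 := fr_zero _ h1
  have e2 := fr_zero _ h2
  have e3 : q 3 ≠ 0 := by
    intro e3
    rw [Fin.sum_univ_four, e0, e1, e2, e3] at hq
    norm_num at hq
  refine ⟨q 3 / |q 3|, fr_sgn _ e3, ?_⟩
  unfold Lq
  rw [if_neg h0, if_neg h1, if_neg h2]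
  exact fr_row q 3 e3

theorem Lq_unit {A : M4} (hA : A ∈ RP3) : ∑ i, Lq A i ^ 2 = 1 := by
  obtain ⟨q, hq, rfl⟩ := hA
  obtain ⟨s, hs, h⟩ := fr_main q hq
  rw [h]
  simp only [mul_pow, hs, one_mul]
  exact hq

theorem Lq_mul {A : M4} (hA : A ∈ RP3) (i j : Fin 4) : Lq A i * Lq A j = A i j := by
  obtain ⟨q, hq, rfl⟩ := hA
  obtain ⟨s, hs, h⟩ := fr_main q hq
  rw [h]
  have : s * q i * (s * q j) = s ^ 2 * (q i * q j) := by ring
  simp only [this, hs, one_mul, outer]

theorem Lq_of_pos {A : M4} (hA : 0 < A 0 0) (j : Fin 4) : Lq A j = A 0 j / √(A 0 0) := by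
  unfold Lq
  rw [if_pos hA]

theorem rt_sq (z : Circle) : rt z ^ 2 = (z : ℂ) := by
  unfold rt
  rw [← Complex.exp_nat_mul]
  have h := Complex.norm_mul_exp_arg_mul_I (z : ℂ)
  rw [Circle.norm_coe, Complex.ofReal_one, one_mul] at h
  conv_rhs => rw [← h]
  congr 1
  push_cast
  ring

theorem rt_norm (z : Circle) : ‖rt z‖ = 1 := by
  unfold rt
  have h : (Complex.arg (z : ℂ) : ℂ) / 2 * Complex.I = ((Complex.arg (z : ℂ) / 2 : ℝ) : ℂ) * Complex.I := by
    push_cast
    ring
  rw [h, Complex.norm_exp_ofReal_mul_I]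

private theorem rt_circ (z : Circle) : (rt z).re ^ 2 + (rt z).im ^ 2 = 1 := by
  have h := rt_norm z
  have h2 := Complex.sq_norm (rt z)
  rw [h, Complex.normSq_apply] at h2
  nlinarith [h2]

private theorem rt_re (z : Circle) : (rt z).re ^ 2 - (rt z).im ^ 2 = (z : ℂ).re := by
  rw [← rt_sq z, pow_two (rt z), Complex.mul_re]
  ring

private theorem rt_im (z : Circle) : 2 * ((rt z).re * (rt z).im) = (z : ℂ).im := by
  rw [← rt_sq z, pow_two (rt z), Complex.mul_im]
  ring

theorem Ls_unit (z : Circle) : ∑ i, Ls z i ^ 2 = 1 := by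
  rw [Fin.sum_univ_two]
  exact rt_circ z

private theorem circ_re_cont : Continuous fun z : Circle => (z : ℂ).re :=
  Complex.continuous_re.comp continuous_subtype_val

private theorem circ_im_cont : Continuous fun z : Circle => (z : ℂ).im :=
  Complex.continuous_im.comp continuous_subtype_val

theorem Ls_mul_cont (i j : Fin 2) : Continuous fun z : Circle => Ls z i * Ls z j := by
  have h00 : (fun z : Circle => Ls z 0 * Ls z 0) = fun z : Circle => (1 + (z : ℂ).re) / 2 := by
    funext z
    have h1 := rt_circ z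
    have h2 := rt_re z
    change (rt z).re * (rt z).re = _
    nlinarith [h1, h2]
  have h11 : (fun z : Circle => Ls z 1 * Ls z 1) = fun z : Circle => (1 - (z : ℂ).re) / 2 := by
    funext z
    have h1 := rt_circ z
    have h2 := rt_re z
    change (rt z).im * (rt z).im = _
    nlinarith [h1, h2]
  have h01 : (fun z : Circle => Ls z 0 * Ls z 1) = fun z : Circle => (z : ℂ).im / 2 := by
    funext z
    have h2 := rt_im z
    change (rt z).re * (rt z).im = _
    linarith [h2]
  have h10 : (fun z : Circle => Ls z 1 * Ls z 0) = fun z : Circle => (z : ℂ).im / 2 := by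
    funext z
    have h2 := rt_im z
    change (rt z).im * (rt z).re = _
    linarith [h2, mul_comm (rt z).im (rt z).re]
  have hre := circ_re_cont
  have him := circ_im_cont
  fin_cases i <;> fin_cases j
  · change Continuous fun z : Circle => Ls z 0 * Ls z 0
    rw [h00]
    exact (continuous_const.add hre).div_const 2
  · change Continuous fun z : Circle => Ls z 0 * Ls z 1
    rw [h01]
    exact him.div_const 2
  · change Continuous fun z : Circle => Ls z 1 * Ls z 0
    rw [h10]
    exact him.div_const 2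
  · change Continuous fun z : Circle => Ls z 1 * Ls z 1
    rw [h11]
    exact (continuous_const.sub hre).div_const 2

theorem rt_contAt {z : Circle} (hz : z ≠ Circle.exp Real.pi) : ContinuousAt rt z := by
  have hs : (z : ℂ) ∈ Complex.slitPlane := by
    rw [Complex.mem_slitPlane_iff]
    by_contra hcon
    push Not at hcon
    obtain ⟨h1, h2⟩ := hcon
    apply hz
    apply Circle.ext
    rw [Circle.coe_exp, Complex.exp_pi_mul_I]
    have h3 : (z : ℂ).re ^ 2 + (z : ℂ).im ^ 2 = 1 := by
      have h4 := Complex.sq_norm (z : ℂ)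
      rw [Circle.norm_coe, Complex.normSq_apply] at h4
      nlinarith [h4]
    rw [h2] at h3
    have h5 : ((z : ℂ).re - 1) * ((z : ℂ).re + 1) = 0 := by nlinarith [h3]
    have h6 : (z : ℂ).re = -1 := by
      rcases mul_eq_zero.mp h5 with h | h
      · linarith
      · linarith
    apply Complex.ext
    · rw [h6]; simp
    · rw [h2]; simp
  have h1 : ContinuousAt (fun w : Circle => Complex.arg (w : ℂ)) z :=
    ContinuousAt.comp (f := fun w : Circle => (w : ℂ)) (g := Complex.arg)
      (Complex.continuousAt_arg hs) continuous_subtype_val.continuousAt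
  have h2 : ContinuousAt (fun w : Circle => ((Complex.arg (w : ℂ) : ℝ) : ℂ) / 2 * Complex.I) z :=
    ((Complex.continuous_ofReal.continuousAt.comp h1).div_const 2).mul continuousAt_const
  exact Complex.continuous_exp.continuousAt.comp h2

theorem Ls_contAt {z : Circle} (hz : z ≠ Circle.exp Real.pi) (i : Fin 2) :
    ContinuousAt (fun z => Ls z i) z := by
  have h := rt_contAt hz
  fin_cases i
  · change ContinuousAt (fun z => (rt z).re) z
    exact Complex.continuous_re.continuousAt.comp h
  · change ContinuousAt (fun z => (rt z).im) z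
    exact Complex.continuous_im.continuousAt.comp h

/-- `⟨(Re r, Im r), (Re c, - Im c)⟩ = Re (r c)`. -/
theorem Ls_re (z : Circle) (c : ℂ) : ∑ i, Ls z i * (![c.re, -c.im] : Fin 2 → ℝ) i = (rt z * c).re := by
  rw [Fin.sum_univ_two, Complex.mul_re]
  change (rt z).re * c.re + (rt z).im * (-c.im) = _
  ring

/-- The second component of the frame vanishes only at `1`. -/
theorem Ls_one_ne {z : Circle} (hz : z ≠ 1) : Ls z 1 ≠ 0 := by
  intro h
  change (rt z).im = 0 at h
  apply hz
  have h1 := rt_circ z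
  have h2 := rt_re z
  have h3 := rt_im z
  rw [h] at h1 h2 h3
  apply Circle.ext
  apply Complex.ext
  · rw [Circle.coe_one, Complex.one_re]
    nlinarith [h1, h2]
  · rw [Circle.coe_one, Complex.one_im]
    linarith [h3]

theorem isCompact_RP3 : IsCompact RP3 := by
  have hS : IsCompact {q : Fin 4 → ℝ | ∑ i, q i ^ 2 = 1} := by
    apply Metric.isCompact_of_isClosed_isBounded
    · exact isClosed_eq (continuous_finsetSum _ fun i _ => (continuous_apply i).pow 2)
        continuous_const
    · refine (Metric.isBounded_closedBall (x := (0 : Fin 4 → ℝ)) (r := 1)).subset ?_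
      intro q hq
      rw [mem_closedBall_zero_iff, pi_norm_le_iff_of_nonneg zero_le_one]
      intro i
      have h1 : q i ^ 2 ≤ ∑ i, q i ^ 2 :=
        Finset.single_le_sum (f := fun i => q i ^ 2) (fun j _ => sq_nonneg (q j)) (Finset.mem_univ i)
      have hq' : ∑ i, q i ^ 2 = 1 := hq
      rw [hq'] at h1
      rw [Real.norm_eq_abs]
      exact (sq_le_one_iff_abs_le_one (q i)).mp h1
  have hc : Continuous outer := by
    apply continuous_pi
    intro i
    apply continuous_pi
    intro j
    exact (continuous_apply i).mul (continuous_apply j)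
  have : RP3 = outer '' {q : Fin 4 → ℝ | ∑ i, q i ^ 2 = 1} := by
    ext A
    constructor
    · rintro ⟨q, hq, rfl⟩
      exact ⟨q, hq, rfl⟩
    · rintro ⟨q, hq, rfl⟩
      exact ⟨q, hq, rfl⟩
  rw [this]
  exact hS.image hc

end Pool.Agent.Helper77.DS
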