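import Pool.Agent.Helper77.DS.CDefs

/-!
# DS-KapA: the 1-cocycle of a line bundle given by a discontinuous unit frame

`L` is a unit frame on `S` such that the projections `L_i L_j` are continuous. Near `p₀ ∈ S`:
`⟨L p, L p₀⟩² = ∑ (L_i L_j)(p) (L_i L_j)(p₀)` is close to `1`; let `s p = ⟨L p, L p₀⟩`. By the
Cauchy inequality `(⟨L p, w⟩ - s p ⟨w, L p₀⟩)² ≤ (1 - s p ²) (|w|² - ⟨w, L p₀⟩²)`, so
`⟨L p, w⟩` has the sign of `s p ⟨w, L p₀⟩` if the right hand side is less than the square of this.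
`kap_cocycle`: so near `p₀` `kap L [p, q] = e p + e q` with `e p = if s p < 0 then 1 else 0`, and
`d (kap L) [a,b,c] = kap[b,c] - kap[a,c] + kap[a,b] = 0` in `ZMod 2`.
`kap_side`: `v` continuous, `⟨L p₀, v p₀⟩ ≠ 0`: near `p₀` the sign of `⟨L p, v p⟩` is that of
`s p ⟨v p₀, L p₀⟩`, so `ind p + ind q = e p + e q` (mod 2) and
`kap L [p,q] + (ind q - ind p) = 0`.
`kap_LZat`: if `L` is continuous at `p₀` then `s p → 1 > 0`.
-/

namespace Pool.Agent.Helper77.DS

open Set Helper36.AS Filter Topology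

variable {V : Type*} [TopologicalSpace V] {S : Set V} {k : ℕ}

/-- inner product -/
private def ip (a b : Fin k → ℝ) : ℝ := ∑ i, a i * b i

private theorem ip_self_sq (a : Fin k → ℝ) : ip a a = ∑ i, a i ^ 2 :=
  Finset.sum_congr rfl fun i _ => by ring

private theorem ip_cs (a b c : Fin k → ℝ) (hc : ip c c = 1) :
    (ip a b - ip a c * ip b c) ^ 2 ≤ (ip a a - ip a c ^ 2) * (ip b b - ip b c ^ 2) := by
  have key : ∀ (x y : Fin k → ℝ) (s t : ℝ), ∑ i, (x i - s * c i) * (y i - t * c i) =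
      ip x y - t * ip x c - s * ip y c + s * t * ip c c := by
    intro x y s t
    unfold ip
    rw [Finset.mul_sum, Finset.mul_sum, Finset.mul_sum, ← Finset.sum_sub_distrib,
      ← Finset.sum_sub_distrib, ← Finset.sum_add_distrib]
    exact Finset.sum_congr rfl fun i _ => by ring
  have h := Finset.sum_mul_sq_le_sq_mul_sq Finset.univ
    (fun i => a i - ip a c * c i) (fun i => b i - ip b c * c i)
  have e1 := key a b (ip a c) (ip b c)
  have e2 : ∑ i, (a i - ip a c * c i) ^ 2 = ip a a - ip a c ^ 2 := by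
    have := key a a (ip a c) (ip a c)
    rw [hc] at this
    rw [show ip a a - ip a c ^ 2 = ip a a - ip a c * ip a c - ip a c * ip a c +
      ip a c * ip a c * 1 by ring, ← this]
    exact Finset.sum_congr rfl fun i _ => by ring
  have e3 : ∑ i, (b i - ip b c * c i) ^ 2 = ip b b - ip b c ^ 2 := by
    have := key b b (ip b c) (ip b c)
    rw [hc] at this
    rw [show ip b b - ip b c ^ 2 = ip b b - ip b c * ip b c - ip b c * ip b c +
      ip b c * ip b c * 1 by ring, ← this]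
    exact Finset.sum_congr rfl fun i _ => by ring
  rw [e1, e2, e3, hc] at h
  have e4 : ip a b - ip b c * ip a c - ip a c * ip b c + ip a c * ip b c * 1 =
      ip a b - ip a c * ip b c := by ring
  rw [e4] at h
  exact h

private theorem ip_sgn {a b c : Fin k → ℝ} (hc : ip c c = 1) (ha : ip a a = 1)
    (h : (1 - ip a c ^ 2) * (ip b b - ip b c ^ 2) < (ip a c * ip b c) ^ 2) :
    0 < ip a b * (ip a c * ip b c) := by
  have h1 := ip_cs a b c hc
  rw [ha] at h1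
  nlinarith [sq_nonneg (ip a b)]

private theorem ip_sgn' {a b c : Fin k → ℝ} (hc : ip c c = 1) (ha : ip a a = 1) (hb : ip b b = 1)
    (h1 : 1 / 2 < ip a c ^ 2) (h2 : 1 / 2 < ip b c ^ 2) : 0 < ip a b * (ip a c * ip b c) := by
  refine ip_sgn hc ha ?_
  rw [hb]
  nlinarith

private theorem sq_cont (L : V → Fin k → ℝ)
    (hc : ∀ i j, ContinuousOn (fun p => L p i * L p j) S) {p₀ : V} (hp : p₀ ∈ S) :
    ContinuousWithinAt (fun p => ip (L p) (L p₀) ^ 2) S p₀ := by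
  have e : (fun p => ip (L p) (L p₀) ^ 2) =
      fun p => ∑ i, ∑ j, (L p i * L p j) * (L p₀ i * L p₀ j) := by
    funext p
    rw [sq]
    unfold ip
    rw [Finset.sum_mul_sum]
    exact Finset.sum_congr rfl fun i _ => Finset.sum_congr rfl fun j _ => by ring
  rw [e]
  exact tendsto_finset_sum _ fun i _ => tendsto_finset_sum _ fun j _ =>
    (hc i j p₀ hp).mul_const _

private theorem near_half (L : V → Fin k → ℝ) (hL : ∀ p ∈ S, ∑ i, L p i ^ 2 = 1)
    (hc : ∀ i j, ContinuousOn (fun p => L p i * L p j) S) {p₀ : V} (hp : p₀ ∈ S) :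
    ∀ᶠ p in 𝓝[S] p₀, 1 / 2 < ip (L p) (L p₀) ^ 2 := by
  have h := sq_cont L hc hp
  refine h.eventually_const_lt ?_
  show 1 / 2 < ip (L p₀) (L p₀) ^ 2
  rw [ip_self_sq, hL p₀ hp]
  norm_num

private theorem lz2 {f : List V → ZMod 2} {p₀ : V} {P : V → Prop}
    (h : ∀ᶠ p in 𝓝[S] p₀, P p) (H : ∀ p q, p ∈ S → q ∈ S → P p → P q → f [p, q] = 0) :
    LZat S 2 f p₀ := by
  rw [eventually_nhdsWithin_iff] at h
  refine ⟨{p | p ∈ S → P p}, h, fun l hl hl' => ?_⟩
  obtain ⟨p, q, rfl⟩ := List.length_eq_two.1 hl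
  have h1 := hl' p (by simp)
  have h2 := hl' q (by simp)
  exact H p q h1.2 h2.2 (h1.1 h1.2) (h2.1 h2.2)

private theorem lz3 {f : List V → ZMod 2} {p₀ : V} {P : V → Prop}
    (h : ∀ᶠ p in 𝓝[S] p₀, P p)
    (H : ∀ p q r, p ∈ S → q ∈ S → r ∈ S → P p → P q → P r → f [p, q, r] = 0) :
    LZat S 3 f p₀ := by
  rw [eventually_nhdsWithin_iff] at h
  refine ⟨{p | p ∈ S → P p}, h, fun l hl hl' => ?_⟩
  obtain ⟨p, q, r, rfl⟩ := List.length_eq_three.1 hl
  have h1 := hl' p (by simp)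
  have h2 := hl' q (by simp)
  have h3 := hl' r (by simp)
  exact H p q r h1.2 h2.2 h3.2 (h1.1 h1.2) (h2.1 h2.2) (h3.1 h3.2)

private theorem d_two (f : List V → ZMod 2) (p q : V) : d f [p, q] = f [q] - f [p] := by
  rw [d_cons, d_cons, d_nil, sub_zero]

private theorem d_three (f : List V → ZMod 2) (p q r : V) :
    d f [p, q, r] = f [q, r] - (f [p, r] - f [p, q]) := by
  rw [d_cons, d_cons, d_cons, d_nil, sub_zero]

open Classical in
/-- the indicator function of the negative numbers, mod 2 -/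
private noncomputable def ng (x : ℝ) : ZMod 2 := if x < 0 then 1 else 0

private theorem ng_mul {x y : ℝ} (hx : x ≠ 0) (hy : y ≠ 0) : ng (x * y) = ng x + ng y := by
  unfold ng
  have h11 : (1 : ZMod 2) + 1 = 0 := by decide
  rcases lt_or_gt_of_ne hx with h1 | h1 <;> rcases lt_or_gt_of_ne hy with h2 | h2
  · rw [if_neg (not_lt.2 (mul_pos_of_neg_of_neg h1 h2).le), if_pos h1, if_pos h2, h11]
  · rw [if_pos (mul_neg_of_neg_of_pos h1 h2), if_pos h1, if_neg (not_lt.2 h2.le), add_zero]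
  · rw [if_pos (mul_neg_of_pos_of_neg h1 h2), if_pos h2, if_neg (not_lt.2 h1.le), zero_add]
  · rw [if_neg (not_lt.2 (mul_pos h1 h2).le), if_neg (not_lt.2 h1.le), if_neg (not_lt.2 h2.le),
      add_zero]

private theorem ng_congr {x y : ℝ} (h : 0 < x * y) : ng x = ng y := by
  have hx : x ≠ 0 := left_ne_zero_of_mul h.ne'
  have hy : y ≠ 0 := right_ne_zero_of_mul h.ne'
  have h1 := ng_mul hx hy
  have h2 : ng (x * y) = 0 := by
    unfold ng
    rw [if_neg (not_lt.2 h.le)]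
  rw [h2] at h1
  have h3 : ∀ a b : ZMod 2, 0 = a + b → a = b := by decide
  exact h3 _ _ h1

private theorem kap_eq (L : V → Fin k → ℝ) (p q : V) : kap L [p, q] = ng (ip (L p) (L q)) := rfl

private theorem ind_eq (s : V → ℝ) (p : V) : ind s [p] = 1 + ng (s p) := by
  have h11 : (1 : ZMod 2) + 1 = 0 := by decide
  show (if 0 ≤ s p then (1 : ZMod 2) else 0) = 1 + if s p < 0 then (1 : ZMod 2) else 0
  by_cases h : s p < 0
  · rw [if_pos h, if_neg (not_le.2 h), h11]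
  · rw [if_neg h, if_pos (not_lt.1 h), add_zero]

private theorem kap_near {L : V → Fin k → ℝ} (hL : ∀ p ∈ S, ∑ i, L p i ^ 2 = 1) {p₀ p q : V}
    (hp₀ : p₀ ∈ S) (hp : p ∈ S) (hq : q ∈ S) (h1 : 1 / 2 < ip (L p) (L p₀) ^ 2)
    (h2 : 1 / 2 < ip (L q) (L p₀) ^ 2) :
    kap L [p, q] = ng (ip (L p) (L p₀)) + ng (ip (L q) (L p₀)) := by
  have n1 : ip (L p) (L p₀) ≠ 0 := by
    intro h
    rw [h] at h1
    norm_num at h1
  have n2 : ip (L q) (L p₀) ≠ 0 := by
    intro h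
    rw [h] at h2
    norm_num at h2
  rw [kap_eq, ← ng_mul n1 n2]
  apply ng_congr
  exact ip_sgn' (by rw [ip_self_sq, hL _ hp₀]) (by rw [ip_self_sq, hL _ hp])
    (by rw [ip_self_sq, hL _ hq]) h1 h2

theorem kap_cocycle (L : V → Fin k → ℝ) (hL : ∀ p ∈ S, ∑ i, L p i ^ 2 = 1)
    (hc : ∀ i j, ContinuousOn (fun p => L p i * L p j) S) : LZ S 3 (d (kap L)) := by
  intro p₀ hp₀
  refine lz3 (near_half L hL hc hp₀) fun a b c ha hb hcS h1 h2 h3 => ?_
  rw [d_three, kap_near hL hp₀ hb hcS h2 h3, kap_near hL hp₀ ha hcS h1 h3,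
    kap_near hL hp₀ ha hb h1 h2]
  generalize ng (ip (L a) (L p₀)) = x
  generalize ng (ip (L b) (L p₀)) = y
  generalize ng (ip (L c) (L p₀)) = z
  revert x y z
  decide

theorem kap_side (L : V → Fin k → ℝ) (hL : ∀ p ∈ S, ∑ i, L p i ^ 2 = 1)
    (hc : ∀ i j, ContinuousOn (fun p => L p i * L p j) S) (v : V → Fin k → ℝ) {p₀ : V}
    (hp : p₀ ∈ S) (hv : ∀ i, ContinuousWithinAt (fun p => v p i) S p₀)
    (h0 : ∑ i, L p₀ i * v p₀ i ≠ 0) :
    LZat S 2 (kap L + d (ind fun p => ∑ i, L p i * v p i)) p₀ := by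
  have c1 := sq_cont L hc hp
  have c2 : ContinuousWithinAt (fun p => ip (v p) (L p₀)) S p₀ :=
    tendsto_finset_sum _ fun i _ => (hv i).mul_const _
  have c3 : ContinuousWithinAt (fun p => ip (v p) (v p)) S p₀ :=
    tendsto_finset_sum _ fun i _ => (hv i).mul (hv i)
  have u0 : ip (L p₀) (L p₀) = 1 := by rw [ip_self_sq, hL _ hp]
  have e0 : ∑ i, L p₀ i * v p₀ i = ip (v p₀) (L p₀) :=
    Finset.sum_congr rfl fun i _ => mul_comm _ _
  rw [e0] at h0
  have n1 := near_half L hL hc hp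
  have n2 : ∀ᶠ p in 𝓝[S] p₀, (1 - ip (L p) (L p₀) ^ 2) * (ip (v p) (v p) - ip (v p) (L p₀) ^ 2) -
      ip (L p) (L p₀) ^ 2 * ip (v p) (L p₀) ^ 2 < 0 := by
    have c4 : ContinuousWithinAt (fun p => (1 - ip (L p) (L p₀) ^ 2) *
        (ip (v p) (v p) - ip (v p) (L p₀) ^ 2) - ip (L p) (L p₀) ^ 2 * ip (v p) (L p₀) ^ 2) S p₀ :=
      ((continuousWithinAt_const.sub c1).mul (c3.sub (c2.pow 2))).sub (c1.mul (c2.pow 2))
    refine c4.eventually_lt_const ?_
    show (1 - ip (L p₀) (L p₀) ^ 2) * (ip (v p₀) (v p₀) - ip (v p₀) (L p₀) ^ 2) -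
      ip (L p₀) (L p₀) ^ 2 * ip (v p₀) (L p₀) ^ 2 < 0
    rw [u0]
    have := pow_pos (abs_pos.2 h0) 2
    rw [sq_abs] at this
    nlinarith
  have n3 : ∀ᶠ p in 𝓝[S] p₀, 0 < ip (v p) (L p₀) * ip (v p₀) (L p₀) := by
    have c5 : ContinuousWithinAt (fun p => ip (v p) (L p₀) * ip (v p₀) (L p₀)) S p₀ :=
      c2.mul_const _
    refine c5.eventually_const_lt ?_
    show 0 < ip (v p₀) (L p₀) * ip (v p₀) (L p₀)
    exact mul_self_pos.2 h0
  refine lz2 (n1.and (n2.and n3)) fun p q hpS hqS h1 h2 => ?_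
  obtain ⟨h1, h1', h1''⟩ := h1
  obtain ⟨h2, h2', h2''⟩ := h2
  have key : ∀ r ∈ S, 1 / 2 < ip (L r) (L p₀) ^ 2 →
      (1 - ip (L r) (L p₀) ^ 2) * (ip (v r) (v r) - ip (v r) (L p₀) ^ 2) -
        ip (L r) (L p₀) ^ 2 * ip (v r) (L p₀) ^ 2 < 0 →
      0 < ip (v r) (L p₀) * ip (v p₀) (L p₀) →
      ng (ip (L r) (v r)) = ng (ip (L r) (L p₀)) + ng (ip (v p₀) (L p₀)) := by
    intro r hr a1 a2 a3
    have n1 : ip (L r) (L p₀) ≠ 0 := by
      intro h
      rw [h] at a1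
      norm_num at a1
    have n2 : ip (v r) (L p₀) ≠ 0 := left_ne_zero_of_mul a3.ne'
    have b1 : 0 < ip (L r) (v r) * (ip (L r) (L p₀) * ip (v r) (L p₀)) := by
      apply ip_sgn u0 (by rw [ip_self_sq, hL _ hr])
      rw [mul_pow]
      linarith
    rw [ng_congr b1, ng_mul n1 n2, ng_congr a3]
  rw [Pi.add_apply, d_two, ind_eq, ind_eq, kap_near hL hp hpS hqS h1 h2]
  have k1 : ng (∑ i, L p i * v p i) = _ := key p hpS h1 h1' h1''
  have k2 : ng (∑ i, L q i * v q i) = _ := key q hqS h2 h2' h2''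
  rw [k1, k2]
  generalize ng (ip (L p) (L p₀)) = x
  generalize ng (ip (L q) (L p₀)) = y
  generalize ng (ip (v p₀) (L p₀)) = z
  revert x y z
  decide

theorem kap_LZat (L : V → Fin k → ℝ) (hL : ∀ p ∈ S, ∑ i, L p i ^ 2 = 1) {p₀ : V}
    (hp : p₀ ∈ S) (hc : ∀ i, ContinuousWithinAt (fun p => L p i) S p₀) :
    LZat S 2 (kap L) p₀ := by
  have c2 : ContinuousWithinAt (fun p => ip (L p) (L p₀)) S p₀ :=
    tendsto_finset_sum _ fun i _ => (hc i).mul_const _
  have n1 : ∀ᶠ p in 𝓝[S] p₀, 3 / 4 < ip (L p) (L p₀) := by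
    refine c2.eventually_const_lt ?_
    show 3 / 4 < ip (L p₀) (L p₀)
    rw [ip_self_sq, hL _ hp]
    norm_num
  refine lz2 n1 fun p q hpS hqS h1 h2 => ?_
  have h1' : 1 / 2 < ip (L p) (L p₀) ^ 2 := by nlinarith
  have h2' : 1 / 2 < ip (L q) (L p₀) ^ 2 := by nlinarith
  rw [kap_near hL hp hpS hqS h1' h2']
  unfold ng
  rw [if_neg (by linarith), if_neg (by linarith), add_zero]

/-- A function which is not zero at `p₀` and continuous there has a locally constant indicator. -/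
theorem ind_LZat (s : V → ℝ) {p₀ : V} (hs : ContinuousWithinAt s S p₀) (h0 : s p₀ ≠ 0) :
    LZat S 2 (d (ind s)) p₀ := by
  have n1 : ∀ᶠ p in 𝓝[S] p₀, 0 < s p * s p₀ := by
    have c5 : ContinuousWithinAt (fun p => s p * s p₀) S p₀ := hs.mul_const _
    refine c5.eventually_const_lt ?_
    show 0 < s p₀ * s p₀
    exact mul_self_pos.2 h0
  refine lz2 n1 fun p q hpS hqS h1 h2 => ?_
  rw [d_two, ind_eq, ind_eq, ng_congr h1, ng_congr h2, sub_self]

theorem ind_cocycle (s : V → ℝ) : LZ S 3 (d (d (ind s))) := by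
  rw [d_d']; exact LZ.zero _ _

end Pool.Agent.Helper77.DS
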