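import Pool.Agent.Helper77.DS.FinL
import Pool.Agent.Helper36.AS.Cup

/-!
# Block C: from an open subset to the whole space
-/

namespace Pool.Agent.Helper77.DS

open Set Helper36.AS

/-- The 7-fold product. -/
def pr7 {E : Type*} (T : E → E) (v f : List E → ZMod 2) : List E → ZMod 2 :=
  cup 1 v (cup 2 f (cup 2 f (pull T f)))

/-- The conclusion, in the form which is passed from a subset to the next. -/
def BC {E : Type*} [TopologicalSpace E] (X : Set E) (T : E → E) (v : List E → ZMod 2) : Prop :=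
  ∃ x : List E → ZMod 2, x ∈ cocycles (ZMod 2) IsCompact X 2 ∧
    e3 T x ∈ coboundaries (ZMod 2) IsCompact X 2 ∧
    (x ∈ coboundaries (ZMod 2) IsCompact X 2 ∨
      ∀ f ∈ cocycles (ZMod 2) IsCompact X 2, e3 T f ∈ coboundaries (ZMod 2) IsCompact X 2 →
        ∃ a b : ZMod 2, f - (a • x + b • pull T x) ∈ coboundaries (ZMod 2) IsCompact X 2) ∧
    ∃ b, IsBall X 7 b ∧ pr7 T v x - b ∈ coboundaries (ZMod 2) IsCompact X 7

theorem pull_add' {X Y : Type*} (φ : X → Y) (f g : List Y → ZMod 2) :
    pull φ (f + g) = pull φ f + pull φ g := rfl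

theorem pull_smul' {X Y : Type*} (φ : X → Y) (a : ZMod 2) (f : List Y → ZMod 2) :
    pull φ (a • f) = a • pull φ f := rfl

theorem zmod_add_self' {X : Type*} (f : List X → ZMod 2) : f + f = 0 := by
  funext l; exact CharTwo.add_self_eq_zero (f l)

theorem zmod_neg' {X : Type*} (f : List X → ZMod 2) : -f = f := by
  funext l; exact CharTwo.neg_eq (f l)

section
variable {E : Type*} [MetricSpace E] {X F : Set E} {T : E → E}

/-- `T` acts on `X`, `X \ F` and `X ∩ F`. -/
structure TData (X F : Set E) (T : E → E) : Prop where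
  s : SMap IsCompact IsCompact X X T
  s' : SMap IsCompact IsCompact (X \ F) (X \ F) T
  m : MapsTo T (X ∩ F) (X ∩ F)
  t : ∀ x ∈ X, T (T (T x)) = x

theorem ext_e3 (hT : TData X F T) {n : ℕ} {f' f : List E → ZMod 2} (h : IsExt X F n f' f) :
    IsExt X F n (e3 T f') (e3 T f) :=
  ext_add (ext_add h (ext_pull T hT.s hT.s' hT.m h))
    (ext_pull T hT.s hT.s' hT.m (ext_pull T hT.s hT.s' hT.m h))

theorem pr7_mem (hs : SMap IsCompact IsCompact X X T) {v f : List E → ZMod 2}
    (hv : v ∈ cocycles (ZMod 2) AllSupp X 1) (hf : f ∈ cocycles (ZMod 2) IsCompact X 2) :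
    pr7 T v f ∈ cocycles (ZMod 2) IsCompact X 7 := by
  have h1 : pull T f ∈ cocycles (ZMod 2) IsCompact X 2 := hs.pull_mem_cocycles hf
  have h2 := cup_mem_cocycles (cupFam_left IsCompact IsCompact X) hf h1
  have h3 := cup_mem_cocycles (cupFam_left IsCompact IsCompact X) hf h2
  exact cup_mem_cocycles (cupFam_right AllSupp IsCompact X) hv h3

theorem ext_pr7 (hT : TData X F T) {v f' f : List E → ZMod 2}
    (hv : v ∈ cocycles (ZMod 2) AllSupp X 1) (h : IsExt X F 2 f' f) :
    IsExt X F 7 (pr7 T v f') (pr7 T v f) := by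
  have hv' : v ∈ cocycles (ZMod 2) AllSupp (X \ F) 1 := ⟨hasSupp_all _ _ _, hv.2.mono sdiff_subset⟩
  refine ⟨pr7_mem hT.s' hv' h.mem', pr7_mem hT.s hv h.mem, fun p hp => ?_, fun p hp => ?_⟩
  · have h1 := h.eq p hp
    have h2 : LZat X 3 (pull T (f - f')) p :=
      (h.eq (T p) (hT.s'.maps hp)).pull (hT.s.cont p hp.1) hT.s.maps
    have e : pr7 T v f - pr7 T v f' = cup 1 v (cup 2 (f - f') (cup 2 f (pull T f)) +
        cup 2 f' (cup 2 (f - f') (pull T f) + cup 2 f' (pull T (f - f')))) := by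
      unfold pr7
      funext l
      simp only [cup, pull, Pi.sub_apply, Pi.add_apply]
      ring
    rw [e]
    have h3 : LZat X 5 (cup 2 (f - f') (pull T f) + cup 2 f' (pull T (f - f'))) p :=
      (h1.cup_left (p := 2) (q := 2) _).add (h2.cup_right (p := 2) (q := 2) _)
    have h4 : LZat X 7 (cup 2 (f - f') (cup 2 f (pull T f)) +
        cup 2 f' (cup 2 (f - f') (pull T f) + cup 2 f' (pull T (f - f')))) p :=
      (h1.cup_left (p := 2) (q := 4) _).add (h3.cup_right (p := 2) (q := 4) _)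
    exact h4.cup_right (p := 1) (q := 6) _
  · have h1 : LZat X 7 (cup 2 f (cup 2 f (pull T f))) p :=
      (h.zero p hp).cup_left (p := 2) (q := 4) _
    exact h1.cup_right (p := 1) (q := 6) _

theorem ext_sub {n : ℕ} {f' f g' g : List E → ZMod 2} (h : IsExt X F n f' f)
    (h' : IsExt X F n g' g) : IsExt X F n (f' - g') (f - g) := by
  have := ext_add h h'
  rwa [show f' - g' = f' + g' by rw [sub_eq_add_neg, zmod_neg'],
    show f - g = f + g by rw [sub_eq_add_neg, zmod_neg']]

theorem ext_smul {n : ℕ} (a : ZMod 2) {f' f : List E → ZMod 2} (h : IsExt X F n f' f) :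
    IsExt X F n (a • f') (a • f) :=
  ⟨Submodule.smul_mem _ a h.mem', Submodule.smul_mem _ a h.mem,
    fun p hp => by rw [← smul_sub]; exact (h.eq p hp).smul a, fun p hp => (h.zero p hp).smul a⟩

/-- The step from `X \ F` to `X`. -/
theorem BC.step (hF : IsClosed F) (hX : Good IsCompact X) (hT : TData X F T)
    {v : List E → ZMod 2} (hv : v ∈ cocycles (ZMod 2) AllSupp X 1)
    (kill : ∀ f ∈ cocycles (ZMod 2) IsCompact X 2, e3 T f ∈ coboundaries (ZMod 2) IsCompact X 2 →
      f ∈ coboundaries (ZMod 2) IsCompact (X ∩ F) 2)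
    (h : BC (X \ F) T v) : BC X T v := by
  obtain ⟨x', hx', hex, hcl, b', hb', hbb⟩ := h
  obtain ⟨x, hx⟩ := exists_ext hF hx'
  obtain ⟨b, hb⟩ := exists_ext hF hb'.mem
  refine ⟨x, hx.mem, ext_cob hF (ext_e3 hT hx) hex, ?_, b, hb'.ext hF hb,
    ext_cob hF (ext_sub (ext_pr7 hT hv hx) hb) hbb⟩
  rcases hcl with hcl | hcl
  · exact Or.inl (ext_cob hF hx hcl)
  refine Or.inr fun f hf hef => ?_
  obtain ⟨f₁, g₁, hfg, hfg'⟩ := ext_of_restr hF hX hf (kill f hf hef)
  -- replace by `T + T²`
  set f₂ := pull T f₁ + pull T (pull T f₁) with hf₂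
  set g₂ := pull T g₁ + pull T (pull T g₁) with hg₂
  have hE : IsExt X F 2 f₂ g₂ := ext_add (ext_pull T hT.s hT.s' hT.m hfg)
    (ext_pull T hT.s hT.s' hT.m (ext_pull T hT.s hT.s' hT.m hfg))
  have hg : f - g₂ ∈ coboundaries (ZMod 2) IsCompact X 2 := by
    have h1 : pull T (f - g₁) + pull T (pull T (f - g₁)) ∈
        coboundaries (ZMod 2) IsCompact X 2 :=
      add_mem (hT.s.pull_mem_coboundaries hfg')
        (hT.s.pull_mem_coboundaries (hT.s.pull_mem_coboundaries hfg'))
    have h2 := add_mem hef h1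
    have h3 : e3 T f + (pull T (f - g₁) + pull T (pull T (f - g₁))) = f - g₂ := by
      funext l
      simp only [e3, hg₂, pull, Pi.add_apply, Pi.sub_apply]
      have h4 := CharTwo.add_self_eq_zero (f (List.map T l))
      have h5 := CharTwo.add_self_eq_zero (f (List.map T (List.map T l)))
      linear_combination h4 + h5
    rwa [h3] at h2
  have he : e3 T f₂ ∈ coboundaries (ZMod 2) IsCompact (X \ F) 2 := by
    refine LZ.mem_coboundaries fun p _ => LZat.of_eq_zero p fun l _ hl => ?_
    have h3 : List.map T (List.map T (List.map T l)) = l := by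
      rw [List.map_map, List.map_map]
      conv_rhs => rw [← List.map_id l]
      exact List.map_congr_left fun y hy => hT.t y (hl y hy).1
    simp only [e3, hf₂, pull, Pi.add_apply]
    rw [h3]
    have h4 := CharTwo.add_self_eq_zero (f₁ (List.map T l))
    have h5 := CharTwo.add_self_eq_zero (f₁ (List.map T (List.map T l)))
    have h6 := CharTwo.add_self_eq_zero (f₁ l)
    linear_combination h4 + h5 + h6
  obtain ⟨a, b, hab⟩ := hcl f₂ hE.mem' he
  refine ⟨a, b, ?_⟩
  have h7 : IsExt X F 2 (f₂ - (a • x' + b • pull T x')) (g₂ - (a • x + b • pull T x)) :=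
    ext_sub hE (ext_add (ext_smul a hx) (ext_smul b (ext_pull T hT.s hT.s' hT.m hx)))
  have := add_mem hg (ext_cob hF h7 hab)
  rwa [sub_add_sub_cancel] at this

end

section
variable {E E' : Type*} [TopologicalSpace E] [TopologicalSpace E'] {A : Set E} {B : Set E'}
  {φ : E → E'} {ψ : E' → E}

/-- Transport by a homeomorphism. -/
theorem BC.homeo (h : SHomeo A B φ ψ) {T : E → E} {T' : E' → E'} (hA : MapsTo T A A)
    (hT : ∀ x ∈ A, T' (φ x) = φ (T x)) {v : List E → ZMod 2} {v' : List E' → ZMod 2}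
    (hB : MapsTo T' B B)
    (hv : ∀ l : List E, l.length = 2 → (∀ y ∈ l, y ∈ A) → v' (l.map φ) = v l) (hx : BC A T v) :
    BC B T' v' := by
  obtain ⟨x, hx, hex, hcl, b, hb, hbb⟩ := hx
  have key : ∀ l : List E', (∀ y ∈ l, y ∈ B) → (l.map T').map ψ = (l.map ψ).map T := by
    intro l hl
    rw [List.map_map, List.map_map]
    refine List.map_congr_left fun y hy => ?_
    simp only [Function.comp]
    have h1 : T' y = φ (T (ψ y)) := by
      rw [← hT _ (h.m₂ (hl y hy)), h.r y (hl y hy)]
    rw [h1, h.l _ (hA (h.m₂ (hl y hy)))]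
  have hmem : ∀ l : List E', (∀ y ∈ l, y ∈ B) → ∀ y ∈ l.map T', y ∈ B := by
    intro l hl y hy
    obtain ⟨z, hz, rfl⟩ := List.mem_map.1 hy
    exact hB (hl z hz)
  have key2 : ∀ (f : List E → ZMod 2) (l : List E'), (∀ y ∈ l, y ∈ B) →
      e3 T' (pull ψ f) l = pull ψ (e3 T f) l := by
    intro f l hl
    simp only [e3, pull, Pi.add_apply]
    rw [key _ (hmem l hl), key l hl]
  have hk : ∀ {n : ℕ} (f g : List E' → ZMod 2), (∀ l : List E', l.length = n + 1 →
      (∀ y ∈ l, y ∈ B) → f l = g l) → f ∈ coboundaries (ZMod 2) IsCompact B n →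
      g ∈ coboundaries (ZMod 2) IsCompact B n := by
    intro n f g hfg hf
    exact cob_congr (fun p _ => LZat.of_eq_zero p fun l hl hl' => by
      rw [Pi.sub_apply, hfg l hl hl', sub_self]) hf
  refine ⟨pull ψ x, h.push_coc hx, hk _ _ (fun l _ hl => (key2 x l hl).symm) (h.push_cob hex), ?_,
    pull ψ b, hb.homeo h, ?_⟩
  · rcases hcl with hcl | hcl
    · exact Or.inl (h.push_cob hcl)
    refine Or.inr fun f hf hef => ?_
    have h1 : pull φ f ∈ cocycles (ZMod 2) IsCompact A 2 := h.smap.pull_mem_cocycles hf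
    have key3 : ∀ l : List E, (∀ y ∈ l, y ∈ A) → (l.map T).map φ = (l.map φ).map T' := by
      intro l hl
      rw [List.map_map, List.map_map]
      exact List.map_congr_left fun y hy => (hT y (hl y hy)).symm
    have hmem' : ∀ l : List E, (∀ y ∈ l, y ∈ A) → ∀ y ∈ l.map T, y ∈ A := by
      intro l hl y hy
      obtain ⟨z, hz, rfl⟩ := List.mem_map.1 hy
      exact hA (hl z hz)
    have h2 : e3 T (pull φ f) ∈ coboundaries (ZMod 2) IsCompact A 2 := by
      refine cob_congr (f := pull φ (e3 T' f)) (fun p _ => LZat.of_eq_zero p fun l _ hl => ?_)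
        (h.smap.pull_mem_coboundaries hef)
      simp only [Pi.sub_apply, e3, pull, Pi.add_apply]
      rw [key3 _ (hmem' l hl), key3 l hl, sub_self]
    obtain ⟨a, b, hab⟩ := hcl _ h1 h2
    refine ⟨a, b, hk _ _ (fun l _ hl => ?_) (h.push_cob hab)⟩
    simp only [pull, Pi.sub_apply, Pi.add_apply, Pi.smul_apply]
    rw [key l hl]
    have : (l.map ψ).map φ = l := by
      rw [List.map_map]
      conv_rhs => rw [← List.map_id l]
      exact List.map_congr_left fun y hy => h.r y (hl y hy)
    rw [this]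
  · refine hk _ _ (fun l hl hl' => ?_) (h.push_cob hbb)
    simp only [pull, Pi.sub_apply, pr7, cup]
    have h3 : v' (l.take 2) = v ((l.map ψ).take 2) := by
      have h4 : ∀ y ∈ l.take 2, y ∈ B := fun y hy => hl' y (List.mem_of_mem_take hy)
      rw [← List.map_take, ← hv ((l.take 2).map ψ)]
      · rw [List.map_map]
        congr 1
        conv_lhs => rw [← List.map_id (l.take 2)]
        exact List.map_congr_left fun y hy => (h.r y (h4 y hy)).symm
      · rw [List.length_map, List.length_take]; omega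
      · intro y hy
        obtain ⟨z, hz, rfl⟩ := List.mem_map.1 hy
        exact h.m₂ (h4 z hz)
    have h5 : ∀ k : ℕ, (l.map ψ).drop k = (l.drop k).map ψ := fun k => List.map_drop.symm
    have h6 : ((List.drop 2 (List.drop 2 (List.drop 1 l))).map T').map ψ =
        ((List.drop 2 (List.drop 2 (List.drop 1 l))).map ψ).map T :=
      key _ fun y hy => hl' y (List.mem_of_mem_drop (List.mem_of_mem_drop (List.mem_of_mem_drop hy)))
    rw [h3, h6]
    simp only [List.map_drop, List.map_take]

end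

end Pool.Agent.Helper77.DS
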