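import Pool.Agent.Helper77.DS.FinA
import Pool.Agent.Helper77.DS.FinB
import Pool.Agent.Helper77.DS.FDefs

/-!
# Block C: the final theorem
-/

namespace Pool.Agent.Helper77.DS

open Set Complex Helper36.AS

theorem BC_O3 : BC O3 TU (pull cV k1) := by
  refine ⟨x1, x1_coc, O3_e3 x1_coc, ?_, prodc fs1, fs1_ball, prod_O3⟩
  by_cases hx : x1 ∈ coboundaries (ZMod 2) IsCompact O3 2
  · exact Or.inl hx
  · refine Or.inr fun f hf _ => ?_
    rcases O3_class x1_coc hx hf with h | h | h | h
    · exact ⟨0, 0, by simpa using h⟩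
    · exact ⟨1, 0, by simpa using h⟩
    · exact ⟨0, 1, by simpa using h⟩
    · exact ⟨1, 1, by simpa using h⟩

theorem TData_U3 : TData U3 BF TU where
  s := (TU_homeo fun _ hu => TU_mem_U3 hu).smap
  s' := by
    rw [← O3_eq_diff]
    exact (TU_homeo fun _ hu => TU_mem_O3 hu).smap
  m := fun _ hu => ⟨TU_mem_U3 hu.1, hu.2⟩
  t := fun u _ => TU3 u

theorem BC_U3 : BC U3 TU (pull cV k1) := by
  refine BC.step isClosed_BF good_U3 TData_U3 ⟨hasSupp_all _ _ _, ?_⟩ (fun f hf he => vpU hf he) ?_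
  · rw [d_pull']
    exact k1_cocycle.pull cV_continuous.continuousOn fun _ _ => mem_univ _
  · rw [← O3_eq_diff]
    exact BC_O3

section
variable {E : Type*} [MetricSpace E] {X W : Set E} {T : E → E} {Φ : UT → E} {Ψ : E → UT}

theorem good_inter_closed {F : Set E} (hX : Good IsCompact X) (hF : IsClosed F) :
    Good IsCompact (X ∩ F) := by
  intro K hK hKc _
  obtain ⟨V, hV, hKV, L, hLX, hL, hVL, -⟩ := hX K (fun x hx => (hK hx).1) hKc
    (by rw [hKc.isClosed.closure_eq]; exact inter_subset_left)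
  refine ⟨V, hV, hKV, L ∩ F, fun x hx => ⟨hLX hx.1, hx.2⟩, hL.inter_right hF,
    fun x hx => ⟨hVL ⟨hx.1, hx.2.1⟩, hx.2.2⟩, ?_⟩
  rw [(hL.inter_right hF).isClosed.closure_eq]
  exact inter_subset_left

theorem homeo_of_order3 {A : Set E} (hc : ContinuousOn T A) (hm : MapsTo T A A)
    (h3 : ∀ x ∈ A, T (T (T x)) = x) : SHomeo A A T (T ∘ T) where
  c₁ := hc
  c₂ := hc.comp hc hm
  m₁ := hm
  m₂ := fun _ hu => hm (hm hu)
  l := fun u hu => h3 u hu
  r := fun u hu => h3 u hu

/-- **Block C.** -/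
theorem block_c (D : BData X W T Φ Ψ) {vv : E → Circle} (hvv : ContinuousOn vv X)
    (hvΦ : ∀ u ∈ U3, vv (Φ u) = cV u) : BlockC X T vv := by
  have hTW : MapsTo T (X ∩ W) (X ∩ W) := by
    intro y hy
    have h1 := D.eqv (Ψ y) (D.homeo.m₂ hy)
    rw [D.homeo.r y hy] at h1
    rw [h1]
    exact D.homeo.m₁ (TU_mem_U3 (D.homeo.m₂ hy))
  have hXW : X \ Wᶜ = X ∩ W := by
    ext x; simp only [mem_sdiff, mem_compl_iff, not_not, mem_inter_iff]
  have hXW' : X ∩ Wᶜ = X \ W := rfl
  have hWc : IsClosed Wᶜ := D.opn.isClosed_compl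
  have hv : pull vv k1 ∈ cocycles (ZMod 2) AllSupp X 1 := by
    refine ⟨hasSupp_all _ _ _, ?_⟩
    rw [d_pull']
    exact k1_cocycle.pull hvv fun _ _ => mem_univ _
  have h1 : BC (X ∩ W) T (pull vv k1) := by
    refine BC.homeo D.homeo (fun u hu => TU_mem_U3 hu) D.eqv hTW (fun l _ hl => ?_) BC_U3
    simp only [pull]
    congr 1
    rw [List.map_map]
    exact List.map_congr_left fun y hy => hvΦ y (hl y hy)
  have hTD : TData X Wᶜ T := by
    refine ⟨(homeo_of_order3 D.contT D.mapsT D.T3).smap, ?_, D.rest, D.T3⟩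
    rw [hXW]
    exact (homeo_of_order3 (D.contT.mono inter_subset_left) hTW fun x hx => D.T3 x hx.1).smap
  have hg : Good IsCompact (X ∩ Wᶜ) := good_inter_closed D.good hWc
  have hsr : SMap IsCompact IsCompact (X ∩ Wᶜ) (X ∩ Wᶜ) T :=
    (homeo_of_order3 (D.contT.mono inter_subset_left) D.rest fun x hx => D.T3 x hx.1).smap
  have kill : ∀ f ∈ cocycles (ZMod 2) IsCompact X 2,
      e3 T f ∈ coboundaries (ZMod 2) IsCompact X 2 →
      f ∈ coboundaries (ZMod 2) IsCompact (X ∩ Wᶜ) 2 := by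
    intro f hf he
    have hid : ∀ g : List E → ZMod 2, pull (fun x : E => x) g = g := fun g => by
      funext l; simp [pull]
    have hf' := (SMap.incl IsCompact X Wᶜ hWc).pull_mem_cocycles hf
    have he' := (SMap.incl IsCompact X Wᶜ hWc).pull_mem_coboundaries he
    rw [hid] at hf' he'
    obtain ⟨G, hG, hG'⟩ := D.hom
    have h2 := hG.mem_coboundaries hg hf'
    have h3 : pull T f - f ∈ coboundaries (ZMod 2) IsCompact (X ∩ Wᶜ) 2 := by
      refine cob_congr (fun p _ => LZat.of_eq_zero p fun l _ hl => ?_) h2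
      have e1 : l.map (fun x => G x 1) = l.map T := List.map_congr_left fun y hy =>
        (hG' y (hl y hy)).2
      have e0 : l.map (fun x => G x 0) = l := by
        conv_rhs => rw [← List.map_id l]
        exact List.map_congr_left fun y hy => (hG' y (hl y hy)).1
      simp only [Pi.sub_apply, pull, e1, e0, sub_self]
    have h4 := hsr.pull_mem_coboundaries h3
    have h5 := sub_mem he' h4
    refine cob_congr (fun p _ => LZat.of_eq_zero p fun l _ _ => ?_) h5
    have h6 := CharTwo.add_self_eq_zero (f (List.map T l))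
    simp only [Pi.sub_apply, Pi.add_apply, pull, e3]
    linear_combination h6
  have h2 : BC X T (pull vv k1) := BC.step hWc D.good hTD hv kill (by rw [hXW]; exact h1)
  obtain ⟨x, hx, hex, hcl, b, hb, hbb⟩ := h2
  refine ⟨x, hx, hex, ?_, b, hb, hbb⟩
  rcases hcl with hcl | hcl
  · exact Or.inl hcl
  refine Or.inr fun f hf hef => ?_
  obtain ⟨a, b, hab⟩ := hcl f hf hef
  have key : ∀ a : ZMod 2, a = 0 ∨ a = 1 := by decide
  rcases key a with rfl | rfl <;> rcases key b with rfl | rfl
  · left; simpa using hab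
  · right; right; left; simpa using hab
  · right; left; simpa using hab
  · right; right; right; simpa using hab

end

end Pool.Agent.Helper77.DS
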