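import Pool.Agent.Helper77.DS.HzA

/-!
# Block C, second part: definitions (strata, ball cocycles, extension by zero)
-/

namespace Pool.Agent.Helper77.DS

open Set Complex Helper36.AS

/-- The fibre `ζ = 1` of `Z3`. -/
def FF : Set ((ℂ × ℂ) × Circle) := {w | w ∈ Z3 ∧ w.2 = 1}

/-- The closed set `x ∈ [1, ∞)`. -/
def XG : Set ((ℂ × ℂ) × Circle) := {w | w.1.1.im = 0 ∧ 1 ≤ w.1.1.re}

/-- The tripod `y³ ∈ [0, ∞)` in the plane. -/
def TP : Set ℂ := {y | (y ^ 3).im = 0 ∧ 0 ≤ (y ^ 3).re}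

/-- The three slits `v³ ∈ [2, ∞)` in the plane. -/
def KK : Set ℂ := {v | (v ^ 3).im = 0 ∧ 2 ≤ (v ^ 3).re}

/-- Line times tripod. -/
def RT : Set (ℝ × ℂ) := univ ×ˢ TP

/-- The rotation of `RT` of order three. -/
noncomputable def Rr (p : ℝ × ℂ) : ℝ × ℂ := (p.1, (om : ℂ) * p.2)

/-- The closed set in `UT` over the box. -/
def BF : Set UT := {u | cA u 1 1 ≤ 4 * cA u 0 0 ∧ cA u 2 2 ≤ 4 * cA u 0 0 ∧ cA u 3 3 ≤ cA u 0 0}

/-- The closed set over the part `S¹ × (S² minus open disk)` of the handle. -/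
def B1F : Set UT := {u | u ∈ BF ∧ (2 ≤ u.1.1.1.2 ∨ (2 - u.1.1.1.2) ^ 2 * cA u 0 0 ≤ cA u 1 1 ∨
  (2 - u.1.1.1.2) ^ 2 * cA u 0 0 ≤ cA u 2 2)}

/-- The closed set in `UT` which meets `O3` in line times tripod. -/
def GF : Set UT := {u | cA u 3 3 = 0 ∧ cA u 2 2 = 0 ∧ u.1.1.2 = 1 ∧ u.2 = 1 ∧
  u.1.2.1.im = 0 ∧ 1 ≤ u.1.2.1.re}

/-- `f` is a cocycle of degree `m` on `X` whose class is the class of a ball: its compact support lies in
the image of an open embedding of `ℝ^m`, where it is not cohomologous to zero. -/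
structure IsBall {E : Type*} [TopologicalSpace E] (X : Set E) (m : ℕ) (f : List E → ZMod 2) :
    Prop where
  mem : f ∈ cocycles (ZMod 2) IsCompact X m
  ex : ∃ (W : Set E) (j : (Fin m → ℝ) → E) (ψ : E → Fin m → ℝ), IsOpen W ∧
    SHomeo univ (X ∩ W) j ψ ∧ (∃ K ⊆ X ∩ W, IsCompact K ∧ SuppIn X (m + 1) f K) ∧
    pull j f ∉ coboundaries (ZMod 2) IsCompact univ m

/-- `f` (on `X`) is the extension by zero of `f'` (on the open subset `X \ F`). -/
structure IsExt {E : Type*} [TopologicalSpace E] (X F : Set E) (n : ℕ) (f' f : List E → ZMod 2) :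
    Prop where
  mem' : f' ∈ cocycles (ZMod 2) IsCompact (X \ F) n
  mem : f ∈ cocycles (ZMod 2) IsCompact X n
  eq : ∀ p ∈ X \ F, LZat X (n + 1) (f - f') p
  zero : ∀ p ∈ X ∩ F, LZat X (n + 1) f p

/-- `f + T f + T² f`. -/
def e3 {E : Type*} (T : E → E) (f : List E → ZMod 2) : List E → ZMod 2 :=
  f + pull T f + pull T (pull T f)

end Pool.Agent.Helper77.DS
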