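import Pool.Agent.Helper77.DS.FrA

/-!
# DS-SiA: the side function on `Z3` (pure complex algebra)

Let `w = ((x, y), ζ) ∈ Z3`, `y' = y / ζ`, `r = rt ζ`, `r² = ζ`, `x' = x conj(r)³`, so `x'² = x² ζ⁻³ = 1 + y'³`
(`x² - y³ = ζ³`). `c = 1/2`. Assume `Re y' > -1`, put `σ = (1 + y')^(1/2)` (principal root, `σ² = 1 + y'`,
`σ ≠ 0`, `(1 + y')^(-1/2) = σ⁻¹`), `q = y' - 1/2`, `B = x' / σ`. Then `B² - q² = 3/4` because
`1 + y'³ = (1 + y')(y'² - y' + 1) = (1 + y')(q² + 3/4)`.
`s6 w = Re (r (q conj x ζ conj σ⁻¹)) = Re (q conj (x conj(r)³ σ⁻¹)) = Re (q conj B)` (as `r ζ = r³`).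
Since `|B + q|² - |B - q|² = 4 Re (q conj B)` and `|B + q| |B - q| = 3/4`, `s6 w = 0` iff `|B + q|² = 3/4`;
then `v = B + q ≠ 0`, `B - q = 3/(4 v) = conj v`, so `q = (v - conj v)/2 = i Im v`, hence `Re y' = 1/2` and
`|Im y'| = |Im v| ≤ |v| = √3/2`. Conversely if `Re y' = 1/2` and `|Im y'| ≤ √3/2` then `q = i t`,
`B² = 3/4 - t² ≥ 0`, so `B` is real and `Re (q conj B) = 0`.
-/

namespace Pool.Agent.Helper77.DS

open Set Complex

private theorem cne (z : Circle) : (z : ℂ) ≠ 0 := z.coe_ne_zero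

private theorem re_zero_iff {q B : ℂ} (h : B ^ 2 = q ^ 2 + 3 / 4) :
    (q * (starRingEnd ℂ) B).re = 0 ↔ q.re = 0 ∧ q.im ^ 2 ≤ 3 / 4 := by
  have h1 := congrArg Complex.re h
  have h2 := congrArg Complex.im h
  have e34 : ((3 : ℂ) / 4) = ((3 / 4 : ℝ) : ℂ) := by push_cast; ring
  rw [e34] at h1 h2
  simp only [pow_two, Complex.mul_re, Complex.mul_im, Complex.add_re, Complex.add_im,
    Complex.ofReal_re, Complex.ofReal_im] at h1 h2
  simp only [Complex.mul_re, Complex.conj_re, Complex.conj_im]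
  generalize q.re = a at *
  generalize q.im = b at *
  generalize B.re = u at *
  generalize B.im = v at *
  have h2' : u * v = a * b := by linarith
  constructor
  · intro h0
    have h0' : a * u + b * v = 0 := by linarith
    have ha : a = 0 := by
      by_contra ha
      have e1 : b * (a ^ 2 + v ^ 2) = 0 := by
        have e2 : a * (u * v) = a * (a * b) := by rw [h2']
        have e3 : v * (a * u + b * v) = 0 := by rw [h0']; ring
        nlinarith
      have ha2 : 0 < a ^ 2 := by positivity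
      have hb : b = 0 := by
        rcases mul_eq_zero.mp e1 with e | e
        · exact e
        · exfalso; nlinarith [sq_nonneg v]
      have hu : u = 0 := by
        rw [hb] at h0'
        have : a * u = 0 := by linarith
        rcases mul_eq_zero.mp this with e | e
        · exact absurd e ha
        · exact e
      rw [hb, hu] at h1
      nlinarith [sq_nonneg v]
    refine ⟨ha, ?_⟩
    rw [ha] at h0' h2' h1
    have hbv : b * v = 0 := by linarith
    have huv : u * v = 0 := by linarith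
    by_cases hv : v = 0
    · rw [hv] at h1
      nlinarith [sq_nonneg u]
    · have hb : b = 0 := by
        rcases mul_eq_zero.mp hbv with e | e
        · exact e
        · exact absurd e hv
      rw [hb]
      norm_num
  · rintro ⟨ha, hb⟩
    rw [ha] at h2' h1 ⊢
    have huv : u * v = 0 := by linarith
    have hv : v = 0 := by
      by_contra hv
      have hu : u = 0 := by
        rcases mul_eq_zero.mp huv with e | e
        · exact e
        · exact absurd e hv
      rw [hu] at h1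
      have : 0 < v ^ 2 := by positivity
      nlinarith
    rw [hv]
    ring

private theorem conj_rt_mul (z : Circle) : (starRingEnd ℂ) (rt z) * rt z = 1 := by
  rw [mul_comm, Complex.mul_conj, Complex.normSq_eq_norm_sq, rt_norm]
  norm_num

/-- The number `B`. -/
private noncomputable def BB (w : (ℂ × ℂ) × Circle) : ℂ :=
  w.1.1 * ((starRingEnd ℂ) (rt w.2)) ^ 3 * (1 + yp w) ^ (-(1 / 2) : ℂ)

private theorem s6_BB (w : (ℂ × ℂ) × Circle) :
    s6 w = ((yp w - 1 / 2) * (starRingEnd ℂ) (BB w)).re := by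
  unfold s6 BB
  congr 1
  rw [map_mul, map_mul, map_pow, Complex.conj_conj]
  rw [← rt_sq w.2]
  ring

private theorem one_add_ne {w : (ℂ × ℂ) × Circle} (hr : -1 < (yp w).re) : 1 + yp w ≠ 0 := by
  intro h
  have := congrArg Complex.re h
  simp at this
  linarith

private theorem BB_sq {w : (ℂ × ℂ) × Circle} (hw : w ∈ Z3) (hr : -1 < (yp w).re) :
    BB w ^ 2 = (yp w - 1 / 2) ^ 2 + 3 / 4 := by
  have hne := one_add_ne hr
  have hS : ((1 + yp w) ^ (-(1 / 2) : ℂ)) ^ 2 = (1 + yp w)⁻¹ := by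
    rw [pow_two, ← Complex.cpow_add _ _ hne]
    have : (-(1 / 2) : ℂ) + -(1 / 2) = -1 := by norm_num
    rw [this, Complex.cpow_neg_one]
  have hz : (w.2 : ℂ) ≠ 0 := cne _
  have hc : ((starRingEnd ℂ) (rt w.2)) ^ 2 = (w.2 : ℂ)⁻¹ := by
    apply eq_inv_of_mul_eq_one_left
    rw [← rt_sq w.2, ← mul_pow, conj_rt_mul, one_pow]
  have hx : w.1.1 ^ 2 = (w.2 : ℂ) ^ 3 + w.1.2 ^ 3 := by
    have h : thetaZ w.1 = (w.2 : ℂ) ^ 3 := hw
    unfold thetaZ at h
    rw [← h]; ring
  have hy : w.1.2 = yp w * (w.2 : ℂ) := by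
    unfold yp
    field_simp
  have e1 : BB w ^ 2 = w.1.1 ^ 2 * (((starRingEnd ℂ) (rt w.2)) ^ 2) ^ 3 *
      ((1 + yp w) ^ (-(1 / 2) : ℂ)) ^ 2 := by
    unfold BB
    ring
  rw [e1, hS, hc, hx, hy]
  field_simp
  ring

/-- The side function vanishes exactly on the surface. -/
theorem s6_eq_zero_iff {w : (ℂ × ℂ) × Circle} (hw : w ∈ Z3) (hr : -1 < (yp w).re) :
    s6 w = 0 ↔ w ∈ Sig := by
  rw [s6_BB, re_zero_iff (BB_sq hw hr)]
  have e1 : (yp w - 1 / 2).re = (yp w).re - 1 / 2 := by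
    have : ((1 : ℂ) / 2) = ((1 / 2 : ℝ) : ℂ) := by push_cast; ring
    rw [this, Complex.sub_re, Complex.ofReal_re]
  have e2 : (yp w - 1 / 2).im = (yp w).im := by
    have : ((1 : ℂ) / 2) = ((1 / 2 : ℝ) : ℂ) := by push_cast; ring
    rw [this, Complex.sub_im, Complex.ofReal_im, sub_zero]
  rw [e1, e2]
  have h3 : (yp w).im ^ 2 ≤ 3 / 4 ↔ |(yp w).im| ≤ √3 / 2 := by
    have h34 : (3 / 4 : ℝ) = (√3 / 2) ^ 2 := by
      rw [div_pow, Real.sq_sqrt (by norm_num)]; norm_num
    rw [h34]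
    constructor
    · intro h
      exact abs_le_of_sq_le_sq h (by positivity)
    · intro h
      rw [← sq_abs (yp w).im]
      exact pow_le_pow_left₀ (abs_nonneg _) h 2
  rw [h3]
  constructor
  · rintro ⟨h1, h2⟩
    exact ⟨hw, by linarith, h2⟩
  · rintro ⟨_, h1, h2⟩
    exact ⟨by linarith, h2⟩

theorem yp_continuous : Continuous yp := by
  unfold yp
  refine Continuous.div (by fun_prop) (by fun_prop) (fun w => cne _)

private theorem inner_contAt {w : (ℂ × ℂ) × Circle} (hr : -1 < (yp w).re) :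
    ContinuousAt (fun w : (ℂ × ℂ) × Circle => (yp w - 1 / 2) * (starRingEnd ℂ) w.1.1 * (w.2 : ℂ) *
      (starRingEnd ℂ) ((1 + yp w) ^ (-(1 / 2) : ℂ))) w := by
  have hyp : ContinuousAt yp w := yp_continuous.continuousAt
  have h1 : ContinuousAt (fun w : (ℂ × ℂ) × Circle => (1 + yp w) ^ (-(1 / 2) : ℂ)) w := by
    refine ContinuousAt.cpow (continuousAt_const.add hyp) continuousAt_const ?_
    left
    simp
    linarith
  have h2 : ContinuousAt (fun w : (ℂ × ℂ) × Circle =>
      (starRingEnd ℂ) ((1 + yp w) ^ (-(1 / 2) : ℂ))) w :=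
    (Complex.continuous_conj.continuousAt).comp h1
  have h3 : ContinuousAt (fun w : (ℂ × ℂ) × Circle => (starRingEnd ℂ) w.1.1) w :=
    (Complex.continuous_conj.comp (by fun_prop)).continuousAt
  have h4 : ContinuousAt (fun w : (ℂ × ℂ) × Circle => (w.2 : ℂ)) w := by fun_prop
  exact (((hyp.sub continuousAt_const).mul h3).mul h4).mul h2

theorem s6_continuousAt {w : (ℂ × ℂ) × Circle} (hr : -1 < (yp w).re)
    (hz : w.2 ≠ Circle.exp Real.pi) : ContinuousAt s6 w := by
  have h1 : ContinuousAt (fun w : (ℂ × ℂ) × Circle => rt w.2) w := by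
    have : ContinuousAt (fun w : (ℂ × ℂ) × Circle => w.2) w := by fun_prop
    exact ContinuousAt.comp (f := fun w : (ℂ × ℂ) × Circle => w.2) (g := rt) (rt_contAt hz) this
  exact (Complex.continuous_re.continuousAt).comp (h1.mul (inner_contAt hr))

/-- The vector field whose product with the frame `Ls` is `s6`. -/
noncomputable def v6 (w : (ℂ × ℂ) × Circle) : Fin 2 → ℝ :=
  let c := (yp w - 1 / 2) * (starRingEnd ℂ) w.1.1 * (w.2 : ℂ) *
    (starRingEnd ℂ) ((1 + yp w) ^ (-(1 / 2) : ℂ))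
  ![c.re, -c.im]

theorem s6_eq (w : (ℂ × ℂ) × Circle) : s6 w = ∑ i, Ls w.2 i * v6 w i := by
  unfold s6 v6
  exact (Ls_re w.2 _).symm

theorem v6_continuousAt {w : (ℂ × ℂ) × Circle} (hr : -1 < (yp w).re) (i : Fin 2) :
    ContinuousAt (fun w => v6 w i) w := by
  have h := inner_contAt hr
  fin_cases i
  · exact (Complex.continuous_re.continuousAt).comp h
  · exact ((Complex.continuous_im.continuousAt).comp h).neg

theorem isClosed_Z3 : IsClosed Z3 := by
  unfold Z3 thetaZ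
  exact isClosed_eq (by fun_prop) (by fun_prop)

theorem isCompact_Sig : IsCompact Sig := by
  have hcl : IsClosed Sig := by
    have h1 : IsClosed {w : (ℂ × ℂ) × Circle | (yp w).re = 1 / 2} :=
      isClosed_eq (Complex.continuous_re.comp yp_continuous) continuous_const
    have h2 : IsClosed {w : (ℂ × ℂ) × Circle | |(yp w).im| ≤ √3 / 2} :=
      isClosed_le ((Complex.continuous_im.comp yp_continuous).abs) continuous_const
    exact isClosed_Z3.inter (h1.inter h2)
  have hK : IsCompact ((Metric.closedBall (0 : ℂ) 2 ×ˢ Metric.closedBall (0 : ℂ) 1) ×ˢ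
      (Set.univ : Set Circle)) :=
    ((isCompact_closedBall _ _).prod (isCompact_closedBall _ _)).prod isCompact_univ
  refine hK.of_isClosed_subset hcl ?_
  rintro w ⟨hw, h1, h2⟩
  have hz : ‖(w.2 : ℂ)‖ = 1 := Circle.norm_coe _
  have hyp : ‖yp w‖ ≤ 1 := by
    have h3 : (yp w).im ^ 2 ≤ 3 / 4 := by
      have h34 : (3 / 4 : ℝ) = (√3 / 2) ^ 2 := by
        rw [div_pow, Real.sq_sqrt (by norm_num)]; norm_num
      rw [h34, ← sq_abs (yp w).im]
      exact pow_le_pow_left₀ (abs_nonneg _) h2 2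
    have h4 : ‖yp w‖ ^ 2 ≤ 1 := by
      rw [← Complex.normSq_eq_norm_sq, Complex.normSq_apply, h1]
      nlinarith
    nlinarith [norm_nonneg (yp w)]
  have hy : ‖w.1.2‖ ≤ 1 := by
    have : w.1.2 = yp w * (w.2 : ℂ) := by
      unfold yp
      field_simp [cne w.2]
    rw [this, norm_mul, hz, mul_one]
    exact hyp
  have hx : ‖w.1.1‖ ≤ 2 := by
    have e : w.1.1 ^ 2 = (w.2 : ℂ) ^ 3 + w.1.2 ^ 3 := by
      have h : thetaZ w.1 = (w.2 : ℂ) ^ 3 := hw
      unfold thetaZ at h
      rw [← h]; ring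
    have h5 : ‖w.1.1‖ ^ 2 ≤ 2 := by
      rw [← norm_pow, e]
      calc ‖(w.2 : ℂ) ^ 3 + w.1.2 ^ 3‖ ≤ ‖(w.2 : ℂ) ^ 3‖ + ‖w.1.2 ^ 3‖ := norm_add_le _ _
        _ ≤ 1 + 1 := by
          rw [norm_pow, norm_pow, hz]
          have := pow_le_one₀ (norm_nonneg w.1.2) hy (n := 3)
          linarith [one_pow (M := ℝ) 3]
        _ = 2 := by norm_num
    nlinarith [norm_nonneg w.1.1]
  refine ⟨⟨?_, ?_⟩, mem_univ _⟩
  · simpa using hx
  · simpa using hy

private theorem om_cube : (om : ℂ) ^ 3 = 1 := by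
  unfold om
  rw [Circle.coe_exp, ← Complex.exp_nat_mul]
  have : ((3 : ℕ) : ℂ) * (((2 * Real.pi / 3 : ℝ) : ℂ) * Complex.I) = 2 * Real.pi * Complex.I := by
    push_cast; ring
  rw [this, Complex.exp_two_pi_mul_I]

theorem T3_mem {w : (ℂ × ℂ) × Circle} (hw : w ∈ Z3) : T3 w ∈ Z3 := by
  have h : thetaZ w.1 = (w.2 : ℂ) ^ 3 := hw
  show thetaZ w.1 = ((om * w.2 : Circle) : ℂ) ^ 3
  rw [h, Circle.coe_mul, mul_pow, om_cube, one_mul]

private theorem om_re : (om : ℂ).re = -(1 / 2) := by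
  unfold om
  rw [Circle.coe_exp, Complex.exp_ofReal_mul_I_re]
  have : 2 * Real.pi / 3 = Real.pi - Real.pi / 3 := by ring
  rw [this, Real.cos_pi_sub, Real.cos_pi_div_three]

private theorem om_im : (om : ℂ).im = √3 / 2 := by
  unfold om
  rw [Circle.coe_exp, Complex.exp_ofReal_mul_I_im]
  have : 2 * Real.pi / 3 = Real.pi - Real.pi / 3 := by ring
  rw [this, Real.sin_pi_sub, Real.sin_pi_div_three]

/-- `Sig` and its translate meet only over the branch point. -/
theorem Sig_inter {w : (ℂ × ℂ) × Circle} (h1 : w ∈ Sig) (h2 : T3 w ∈ Sig) :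
    w.1.1 = 0 ∧ yp w = Complex.exp (Real.pi / 3 * Complex.I) := by
  obtain ⟨hw, ha, hb⟩ := h1
  obtain ⟨_, ha', hb'⟩ := h2
  have hyT : yp w = yp (T3 w) * (om : ℂ) := by
    unfold yp T3
    simp only [Circle.coe_mul]
    have := cne om
    have := cne w.2
    field_simp
  have hre := congrArg Complex.re hyT
  have him := congrArg Complex.im hyT
  rw [Complex.mul_re, om_re, om_im, ha'] at hre
  rw [Complex.mul_im, om_re, om_im, ha'] at him
  rw [ha] at hre
  have hs : √3 * √3 = 3 := Real.mul_self_sqrt (by norm_num)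
  have hs0 : 0 < √3 := Real.sqrt_pos.mpr (by norm_num)
  have e1 : (yp (T3 w)).im = -(√3 / 2) := by
    have : (yp (T3 w)).im * √3 = -(3 / 2) := by linarith
    have h5 : ((yp (T3 w)).im + √3 / 2) * √3 = 0 := by nlinarith
    rcases mul_eq_zero.mp h5 with e | e
    · linarith
    · exact absurd e hs0.ne'
  have e2 : (yp w).im = √3 / 2 := by
    rw [him, e1]; ring
  have hexp : yp w = Complex.exp (Real.pi / 3 * Complex.I) := by
    have h6 : ((Real.pi : ℂ) / 3 * Complex.I) = ((Real.pi / 3 : ℝ) : ℂ) * Complex.I := by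
      push_cast; ring
    rw [h6]
    apply Complex.ext
    · rw [Complex.exp_ofReal_mul_I_re, Real.cos_pi_div_three, ha]
    · rw [Complex.exp_ofReal_mul_I_im, Real.sin_pi_div_three, e2]
  refine ⟨?_, hexp⟩
  have hcube : yp w ^ 3 = -1 := by
    rw [hexp, ← Complex.exp_nat_mul]
    have : ((3 : ℕ) : ℂ) * ((Real.pi : ℂ) / 3 * Complex.I) = Real.pi * Complex.I := by
      push_cast; ring
    rw [this, Complex.exp_pi_mul_I]
  have hy : w.1.2 = yp w * (w.2 : ℂ) := by
    unfold yp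
    field_simp [cne w.2]
  have hx : w.1.1 ^ 2 = (w.2 : ℂ) ^ 3 + w.1.2 ^ 3 := by
    have h : thetaZ w.1 = (w.2 : ℂ) ^ 3 := hw
    unfold thetaZ at h
    rw [← h]; ring
  have hx0 : w.1.1 ^ 2 = 0 := by
    rw [hx, hy, mul_pow, hcube]; ring
  exact pow_eq_zero_iff (two_ne_zero) |>.mp hx0

end Pool.Agent.Helper77.DS
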