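import Pool.Agent.Helper77.DS.KapA
import Pool.Agent.Helper77.DS.SiA

/-!
# DS-AlA: the cocycle `al` on `Z3`

Let `N = {w | 0 < Re y'(w)}` (open), `kap = kap (Ls ∘ ·.2)`; on pairs of points of `N`:
`al [p, q] = kap [p, q] + ind s6 [p] + ind s6 [q]` and otherwise `al [p, q] = 0`.
At a point `w ∈ Z3`, `w ∉ Sig` with `-1 < Re y'(w)` the cochain `kap + d (ind s6)` is locally zero
(`kap_side` with `v = v6`, `s6_eq`, `s6_eq_zero_iff`), hence so is `al` (mod 2 `ind q - ind p = ind p + ind q`);
at a point with `Re y'(w) < 0` all nearby points are outside of `N`, so `al` is locally zero; at the points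
of `Sig` (`Re y' = 1/2`) all nearby points are in `N` and `al = kap + d (ind s6)` near `w`.
`al_LZat`: the first two cases (`-1 < Re y'` or `Re y' < 0`).
`al_cocycle`: at points not in `Sig` by `al_LZat`, at points of `Sig` by `kap_cocycle` and `d (d _) = 0`.
`al_sq`: at points not in `Sig` the right factor `al` is locally zero; at points of `Sig` the left factor
`al + kap + d (ind s6)` is locally zero (twice the same, mod 2).
-/

namespace Pool.Agent.Helper77.DS

open Set Complex Helper36.AS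

private theorem al_eq (p q : (ℂ × ℂ) × Circle) : al [p, q] =
    if 0 < (yp p).re ∧ 0 < (yp q).re then
      (kap (fun w : (ℂ × ℂ) × Circle => Ls w.2) + d (ind s6)) [p, q] else 0 := by
  show (if 0 < (yp p).re ∧ 0 < (yp q).re then
      kap (fun w : (ℂ × ℂ) × Circle => Ls w.2) [p, q] + ind s6 [p] + ind s6 [q] else 0) = _
  split_ifs with h
  · rw [Pi.add_apply]
    have h1 : d (ind s6) [p, q] = ind s6 [q] - ind s6 [p] := by
      rw [d_cons, d_cons, d_nil, sub_zero]
    rw [h1, CharTwo.sub_eq_add]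
    ring
  · rfl

private theorem kap_s6_LZat {w : (ℂ × ℂ) × Circle} (hw : w ∈ Z3) (hr : -1 < (yp w).re)
    (h : w ∉ Sig) : LZat Z3 2 (kap (fun w : (ℂ × ℂ) × Circle => Ls w.2) + d (ind s6)) w := by
  have h1 := kap_side (S := Z3) (fun w : (ℂ × ℂ) × Circle => Ls w.2) (fun p _ => Ls_unit p.2)
    (fun i j => ((Ls_mul_cont i j).comp continuous_snd).continuousOn) v6 hw
    (fun i => (v6_continuousAt hr i).continuousWithinAt) (by
      rw [← s6_eq]
      intro h0
      exact h ((s6_eq_zero_iff hw hr).1 h0))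
  have h2 : (fun p : (ℂ × ℂ) × Circle => ∑ i, Ls p.2 i * v6 p i) = s6 := by
    funext p
    exact (s6_eq p).symm
  rw [h2] at h1
  exact h1

theorem al_LZat {w : (ℂ × ℂ) × Circle} (hw : w ∈ Z3) (h : w ∉ Sig) : LZat Z3 2 al w := by
  by_cases hr : -1 < (yp w).re
  · obtain ⟨U, hU, hU'⟩ := kap_s6_LZat hw hr h
    refine ⟨U, hU, fun l hl hl' => ?_⟩
    have h1 := hU' l hl hl'
    obtain ⟨p, q, rfl⟩ := List.length_eq_two.1 hl
    rw [al_eq, h1, ite_self]
  · refine ⟨{w | (yp w).re < 0}, ?_, fun l hl hl' => ?_⟩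
    · apply IsOpen.mem_nhds
      · exact isOpen_lt (Complex.continuous_re.comp yp_continuous) continuous_const
      · show (yp w).re < 0
        push Not at hr
        linarith
    · obtain ⟨p, q, rfl⟩ := List.length_eq_two.1 hl
      have h1 : (yp p).re < 0 := (hl' p (by simp)).1
      rw [al_eq, if_neg]
      rintro ⟨h2, _⟩
      linarith

theorem al_near {w : (ℂ × ℂ) × Circle} (h : 0 < (yp w).re) :
    LZat Z3 2 (al - (kap (fun w : (ℂ × ℂ) × Circle => Ls w.2) + d (ind s6))) w := by
  refine ⟨{w | 0 < (yp w).re}, ?_, fun l hl hl' => ?_⟩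
  · apply IsOpen.mem_nhds
    · exact isOpen_lt continuous_const (Complex.continuous_re.comp yp_continuous)
    · exact h
  · obtain ⟨p, q, rfl⟩ := List.length_eq_two.1 hl
    have h1 : 0 < (yp p).re := (hl' p (by simp)).1
    have h2 : 0 < (yp q).re := (hl' q (by simp)).1
    rw [Pi.sub_apply, al_eq, if_pos ⟨h1, h2⟩, sub_self]

private theorem sig_re {w : (ℂ × ℂ) × Circle} (h : w ∈ Sig) : 0 < (yp w).re := by
  have h1 : (yp w).re = 1 / 2 := h.2.1
  rw [h1]
  norm_num

private theorem kap_coc : LZ Z3 3 (d (kap (fun w : (ℂ × ℂ) × Circle => Ls w.2))) :=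
  kap_cocycle (S := Z3) (fun w : (ℂ × ℂ) × Circle => Ls w.2) (fun p _ => Ls_unit p.2)
    (fun i j => ((Ls_mul_cont i j).comp continuous_snd).continuousOn)

theorem al_cocycle : LZ Z3 3 (d al) := by
  intro w hw
  by_cases h : w ∈ Sig
  · have h1 := (al_near (sig_re h)).d
    have h2 : d al = d (al - (kap (fun w : (ℂ × ℂ) × Circle => Ls w.2) + d (ind s6))) +
        d (kap (fun w : (ℂ × ℂ) × Circle => Ls w.2)) := by
      rw [d_sub', d_add', d_d', add_zero, sub_add_cancel]
    rw [h2]
    exact h1.add (kap_coc w hw)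
  · exact (al_LZat hw h).d

theorem al_sq :
    LZ Z3 3 (cup 1 (al + kap (fun w : (ℂ × ℂ) × Circle => Ls w.2) + d (ind s6)) al) := by
  intro w hw
  by_cases h : w ∈ Sig
  · have h1 := al_near (sig_re h)
    have h2 : al + kap (fun w : (ℂ × ℂ) × Circle => Ls w.2) + d (ind s6) =
        al - (kap (fun w : (ℂ × ℂ) × Circle => Ls w.2) + d (ind s6)) := by
      funext l
      simp only [Pi.add_apply, Pi.sub_apply]
      rw [CharTwo.sub_eq_add, add_assoc]
    rw [h2]
    exact LZat.cup_left (p := 1) (q := 1) h1 al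
  · exact LZat.cup_right (p := 1) (q := 1) (al_LZat hw h) _

theorem T3_continuous : Continuous T3 :=
  continuous_fst.prodMk (continuous_const.mul continuous_snd)

theorem alT_LZat {w : (ℂ × ℂ) × Circle} (hw : w ∈ Z3) (h : T3 w ∉ Sig) :
    LZat Z3 2 (pull T3 al) w :=
  LZat.pull (B := Z3) (al_LZat (T3_mem hw) h) T3_continuous.continuousWithinAt
    (fun _ hz => T3_mem hz)

theorem alT_cocycle : LZ Z3 3 (d (pull T3 al)) := by
  rw [d_pull']
  exact LZ.pull al_cocycle T3_continuous.continuousOn (fun _ hz => T3_mem hz)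

end Pool.Agent.Helper77.DS
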