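import Mathlib

/-!
# MP_66d375_gt: the common concrete objects (definitions only)

* `RP3`: real projective 3-space as the set of the matrices `q qᵀ`, `q` a unit vector of `ℝ⁴`;
  `chart p = (1, p)(1, p)ᵀ / (1 + |p|²)` is the affine chart `ℝ³ → RP3`.
* `N = RP³ # S¹ × S²` as a PL hypersurface of `RP3 × ℝ`: inside the chart it is `F = 0`, where `{F ≤ 0}` is
  the union of the lower half space and of the box `|p₀|, |p₁| ≤ 2, |p₂| ≤ 1, 0 ≤ t ≤ 4` minus the open tunnel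
  `|p₀|, |p₁| < 1, 1 < t < 3`. Outside of the box it is `RP3 × {0}`.
* `tauN : N → S¹` is `exp (π i (1 + p₂))` on the wall of the tunnel and `1` elsewhere.
* `M = N × S¹`, `tau (n, θ) = tauN n * θ³`.
* `Z = {|x² - y³| = 1} ⊂ ℂ²` (complement of the trefoil) with `thetaZ (x, y) = x² - y³`,
  `Z3` its 3-fold cyclic cover, `om` the cube root of unity, `T3` the deck transformation.
* `U3` the part of the 3-fold cyclic cover of the knot complement lying over `M × Z`.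
-/

namespace Pool.Agent.Helper77.DS

open Complex

/-- `4 × 4` matrices as functions. -/
abbrev M4 : Type := Fin 4 → Fin 4 → ℝ

/-- The matrix `q qᵀ`. -/
def outer (q : Fin 4 → ℝ) : M4 := fun i j => q i * q j

/-- Real projective 3-space. -/
def RP3 : Set M4 := {A | ∃ q : Fin 4 → ℝ, ∑ i, q i ^ 2 = 1 ∧ A = outer q}

/-- The affine chart `ℝ³ → RP3`. -/
noncomputable def chart (p : Fin 3 → ℝ) : M4 := fun i j =>
  ((![1, p 0, p 1, p 2] : Fin 4 → ℝ) i) * ((![1, p 0, p 1, p 2] : Fin 4 → ℝ) j) /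
    (1 + p 0 ^ 2 + p 1 ^ 2 + p 2 ^ 2)

/-- The PL function in the chart. -/
def F (p : Fin 3 → ℝ) (t : ℝ) : ℝ :=
  min t (max (|p 0| - 2) (max (|p 1| - 2) (max (|p 2| - 1) (max (t - 4)
    (min (1 - |p 0|) (min (1 - |p 1|) (1 - |t - 2|)))))))

/-- `N = RP³ # S¹ × S²` in `RP3 × ℝ`. -/
def N : Set (M4 × ℝ) :=
  {x | (∃ p, x.1 = chart p ∧ F p x.2 = 0) ∨ (x.1 ∈ RP3 ∧ x.1 0 0 = 0 ∧ x.2 = 0)}

open Classical in
/-- The map `N → S¹` of degree one around the handle. -/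
noncomputable def tauN (x : M4 × ℝ) : Circle :=
  if 0 < x.1 0 0 ∧ |x.1 0 1| ≤ x.1 0 0 ∧ |x.1 0 2| ≤ x.1 0 0 ∧ 1 ≤ x.2 ∧ x.2 ≤ 3 then
    Circle.exp (Real.pi * (1 + x.1 0 3 / x.1 0 0)) else 1

/-- `M = N × S¹`. -/
def M : Set ((M4 × ℝ) × Circle) := {m | m.1 ∈ N}

/-- `τ : M → S¹`. -/
noncomputable def tau (m : (M4 × ℝ) × Circle) : Circle := tauN m.1 * m.2 ^ 3

/-- `x² - y³`. -/
def thetaZ (z : ℂ × ℂ) : ℂ := z.1 ^ 2 - z.2 ^ 3

/-- The complement of the trefoil. -/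
def Z : Set (ℂ × ℂ) := {z | ‖thetaZ z‖ = 1}

/-- The 3-fold cyclic cover of `Z`. -/
def Z3 : Set ((ℂ × ℂ) × Circle) := {z | thetaZ z.1 = (z.2 : ℂ) ^ 3}

/-- The primitive cube root of unity. -/
noncomputable def om : Circle := Circle.exp (2 * Real.pi / 3)

/-- The deck transformation of `Z3`. -/
noncomputable def T3 (z : (ℂ × ℂ) × Circle) : (ℂ × ℂ) × Circle := (z.1, om * z.2)

/-- The part over `M × Z` of the 3-fold cyclic cover of the knot complement. -/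
def U3 : Set ((((M4 × ℝ) × Circle) × (ℂ × ℂ)) × Circle) :=
  {u | u.1.1 ∈ M ∧ u.1.2 ∈ Z ∧ (u.2 : ℂ) ^ 3 = (tau u.1.1 : ℂ) * thetaZ u.1.2}

end Pool.Agent.Helper77.DS
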