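import Pool.Agent.Helper77.DS.Base
import Pool.Agent.Helper36.AS.Pair

/-!
# Block C, definitions: products of 1-cochains mod 2, cocycles of line bundles, the concrete cocycles

All cochains have coefficients in `ZMod 2`.
-/

namespace Pool.Agent.Helper77.DS

open Set Complex Helper36.AS

/-- The product `f₁ ∪ ⋯ ∪ f_m` of a list of 1-cochains, a cochain of degree `m`. -/
def prodc {V : Type*} : List (List V → ZMod 2) → List V → ZMod 2
  | [] => fun _ => 1
  | f :: fs => cup 1 f (prodc fs)

/-- The intersection of the supports on `S` of the 1-cochains in the list lies in a compact subset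
of `S`. -/
def CSupp {V : Type*} [TopologicalSpace V] (S : Set V) (fs : List (List V → ZMod 2)) : Prop :=
  ∃ K ⊆ S, IsCompact K ∧ ∀ p ∈ S, p ∉ K → ∃ f ∈ fs, LZat S 2 f p

open Classical in
/-- The 1-cochain of a line bundle with the (discontinuous) unit frame `L`. -/
noncomputable def kap {V : Type*} {k : ℕ} (L : V → Fin k → ℝ) : List V → ZMod 2
  | [p, q] => if ∑ i, L p i * L q i < 0 then 1 else 0
  | _ => 0

open Classical in
/-- The 0-cochain which is the indicator function of `s ≥ 0`. -/
noncomputable def ind {V : Type*} (s : V → ℝ) : List V → ZMod 2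
  | [p] => if 0 ≤ s p then 1 else 0
  | _ => 0

/-- Two sets are homeomorphic by `φ` and `ψ`. -/
structure SHomeo {X Y : Type*} [TopologicalSpace X] [TopologicalSpace Y] (A : Set X) (B : Set Y)
    (φ : X → Y) (ψ : Y → X) : Prop where
  c₁ : ContinuousOn φ A
  c₂ : ContinuousOn ψ B
  m₁ : MapsTo φ A B
  m₂ : MapsTo ψ B A
  l : ∀ x ∈ A, ψ (φ x) = x
  r : ∀ y ∈ B, φ (ψ y) = y

/-- The cohomology with compact supports of `A` vanishes in degree `n`. -/
def HcZ {X : Type*} [TopologicalSpace X] (A : Set X) (n : ℕ) : Prop :=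
  ∀ α : Hc (ZMod 2) A n, α = 0

/-! ### Frames -/

open Classical in
/-- A unit vector `q` with `A = q qᵀ`: the first non zero row, normalised. -/
noncomputable def Lq (A : M4) : Fin 4 → ℝ :=
  if 0 < A 0 0 then fun j => A 0 j / √(A 0 0)
  else if 0 < A 1 1 then fun j => A 1 j / √(A 1 1)
  else if 0 < A 2 2 then fun j => A 2 j / √(A 2 2)
  else fun j => A 3 j / √(A 3 3)

/-- The principal square root on the circle. -/
noncomputable def rt (z : Circle) : ℂ := Complex.exp (Complex.arg (z : ℂ) / 2 * Complex.I)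

/-- The same as a frame in `ℝ²`. -/
noncomputable def Ls (z : Circle) : Fin 2 → ℝ := ![(rt z).re, (rt z).im]

/-! ### The ambient space of `U3`, its coordinates and deck transformation -/

/-- The ambient space of `U3`. -/
abbrev UT : Type := (((M4 × ℝ) × Circle) × (ℂ × ℂ)) × Circle

/-- The point of `RP3`. -/
def cA (u : UT) : M4 := u.1.1.1.1

/-- The circle coordinate `v` of the cover. -/
def cV (u : UT) : Circle := u.2

/-- The circle coordinate `v / θ`. -/
noncomputable def cZ (u : UT) : Circle := u.2 / u.1.1.2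

/-- The point of `Z3`. -/
noncomputable def c3 (u : UT) : (ℂ × ℂ) × Circle := (u.1.2, u.2 / u.1.1.2)

/-- The deck transformation. -/
noncomputable def TU (u : UT) : UT := (u.1, om * u.2)

/-- The complement of the box in `RP3`. -/
def OO : Set M4 := {A | A ∈ RP3 ∧ (4 * A 0 0 < A 1 1 ∨ 4 * A 0 0 < A 2 2 ∨ A 0 0 < A 3 3)}

/-- The open part of `U3` over `OO × {0}`. -/
def O3 : Set UT := {u | u ∈ U3 ∧ cA u ∈ OO}

/-! ### The cocycles -/

/-- The cocycle of the hyperplane `h = 0` in `RP3`. -/
noncomputable def yc (h : Fin 4 → ℝ) : List M4 → ZMod 2 :=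
  kap Lq + d (ind fun A => ∑ i, Lq A i * h i)

/-- The mod 2 cocycle of the circle with cut at `-1`. -/
noncomputable def k1 : List Circle → ZMod 2 := kap Ls

/-- The mod 2 cocycle of the circle with cut at `1`. -/
noncomputable def k2 : List Circle → ZMod 2 := kap Ls + d (ind fun z => Ls z 1)

/-- The coordinate `y' = y / ζ` on `Z3`. -/
noncomputable def yp (w : (ℂ × ℂ) × Circle) : ℂ := w.1.2 / (w.2 : ℂ)

/-- The side function: `Re ((y' - 1/2) conj (x r⁻³ / √(1 + y')))`, `r = √ζ`. -/
noncomputable def s6 (w : (ℂ × ℂ) × Circle) : ℝ :=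
  (rt w.2 * ((yp w - 1 / 2) * (starRingEnd ℂ) w.1.1 * (w.2 : ℂ) *
    (starRingEnd ℂ) ((1 + yp w) ^ (-(1 / 2) : ℂ)))).re

/-- The compact surface. -/
def Sig : Set ((ℂ × ℂ) × Circle) :=
  {w | w ∈ Z3 ∧ (yp w).re = 1 / 2 ∧ |(yp w).im| ≤ √3 / 2}

open Classical in
/-- The cocycle on `Z3` with support `Sig`. -/
noncomputable def al : List ((ℂ × ℂ) × Circle) → ZMod 2
  | [p, q] => if 0 < (yp p).re ∧ 0 < (yp q).re then
      kap (fun w : (ℂ × ℂ) × Circle => Ls w.2) [p, q] + ind s6 [p] + ind s6 [q] else 0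
  | _ => 0

/-- The first hyperplane `q₁ = 3 q₀`; it does not meet the box. -/
def h1 : Fin 4 → ℝ := ![-3, 1, 0, 0]

/-- The second hyperplane. -/
def h2 : Fin 4 → ℝ := ![0, 0, 1, 0]

/-- The third hyperplane. -/
def h3 : Fin 4 → ℝ := ![0, 0, 0, 1]

/-- The seven 1-cocycles on `U3` at the beginning. -/
noncomputable def fs0 : List (List UT → ZMod 2) :=
  [pull cV k1, pull cA (yc h1), pull c3 al, pull cA (yc h1), pull c3 al, pull cA (yc h1),
    pull c3 (pull T3 al)]

/-- The seven 1-cocycles on `O3` at the end; the common support is one point. -/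
noncomputable def fs1 : List (List UT → ZMod 2) :=
  [pull cV k2, pull cA (yc h1), pull cA (yc h2), pull cA (yc h3), pull cZ k2, pull c3 al,
    pull c3 (pull T3 al)]

/-- The point which is the common support of `fs1`. -/
noncomputable def P0 : UT :=
  ((((chart ![3, 0, 0], 0), 1), (0, Complex.exp (Real.pi / 3 * Complex.I))), 1)

/-- The cocycle `x₁` of degree 2 on `O3`. -/
noncomputable def x1 : List UT → ZMod 2 := cup 1 (pull cA (yc h1)) (pull c3 al)

end Pool.Agent.Helper77.DS
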