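import Pool.Agent.Helper77.DS.CDefs

/-!
# DS-PcA: products of 1-cochains, basic facts

`prodc_append`: induction on `as` with `cup_assoc` (`AS/Cochain.lean`), base case
`cup 0 (fun _ => 1) g l = g l`.
`prodc_LZat`: induction on `fs`: `LZat.cup_left`, `LZat.cup_right` (`AS/Space.lean`), degrees `1` and
`fs.length`.
`prodc_d`: induction on `fs`: for `[]` the coboundary of the constant 0-cochain vanishes on lists of length
2; for `f :: fs` use `d_cup` (Leibniz) and `LZat.cup_left/right`.
`prodc_mem`: `CSupp` gives the support condition (through `prodc_LZat`), `prodc_d` the cocycle condition.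
`prodc_congr`: telescoping: induction on the `Forall₂`: `cup 1 f g - cup 1 f' g' = cup 1 (f - f') g +
cup 1 f' (g - g')`.
-/

namespace Pool.Agent.Helper77.DS

open Set Helper36.AS

variable {V : Type*} [TopologicalSpace V] {S : Set V}

theorem prodc_append (as bs : List (List V → ZMod 2)) (l : List V) :
    prodc (as ++ bs) l = cup as.length (prodc as) (prodc bs) l := by
  induction as generalizing l with
  | nil =>
    show prodc bs l = (1 : ZMod 2) * prodc bs (l.drop 0)
    rw [one_mul, List.drop_zero]
  | cons f as ih =>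
    have h1 : prodc (as ++ bs) = cup as.length (prodc as) (prodc bs) := funext ih
    show cup 1 f (prodc (as ++ bs)) l = cup (as.length + 1) (cup 1 f (prodc as)) (prodc bs) l
    rw [h1, Nat.add_comm as.length 1, cup_assoc]

theorem prodc_LZat {fs : List (List V → ZMod 2)} {p : V} (h : ∃ f ∈ fs, LZat S 2 f p) :
    LZat S (fs.length + 1) (prodc fs) p := by
  induction fs with
  | nil =>
    obtain ⟨f, hf, -⟩ := h
    exact absurd hf (List.not_mem_nil)
  | cons g fs ih =>
    obtain ⟨f, hf, hp⟩ := h
    have e : (g :: fs).length + 1 = 1 + fs.length + 1 := by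
      rw [List.length_cons]; omega
    rw [e]
    rcases List.mem_cons.1 hf with rfl | hf
    · exact LZat.cup_left (p := 1) (q := fs.length) hp (prodc fs)
    · exact LZat.cup_right (p := 1) (q := fs.length) (ih ⟨f, hf, hp⟩) g

theorem prodc_d {fs : List (List V → ZMod 2)} (h : ∀ f ∈ fs, LZ S 3 (d f)) :
    LZ S (fs.length + 2) (d (prodc fs)) := by
  induction fs with
  | nil =>
    intro x _
    refine LZat.of_eq_zero x fun l hl _ => ?_
    have hl2 : l.length = 2 := hl
    show ∑ i ∈ Finset.range l.length, (-1) ^ i * (1 : ZMod 2) = 0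
    rw [hl2]
    decide
  | cons f fs ih =>
    have h1 := ih fun g hg => h g (List.mem_cons_of_mem _ hg)
    have h2 := h f List.mem_cons_self
    intro x hx
    have h3 : LZat S (2 + fs.length + 1) (cup 2 (d f) (prodc fs)) x :=
      LZat.cup_left (p := 2) (q := fs.length) (h2 x hx) (prodc fs)
    have h4 : LZat S (1 + (fs.length + 1) + 1) (cup 1 f (d (prodc fs))) x :=
      LZat.cup_right (p := 1) (q := fs.length + 1) (h1 x hx) f
    have e3 : 2 + fs.length + 1 = (f :: fs).length + 2 := by rw [List.length_cons]; omega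
    have e4 : 1 + (fs.length + 1) + 1 = (f :: fs).length + 2 := by rw [List.length_cons]; omega
    rw [e3] at h3
    rw [e4] at h4
    refine (h3.add (h4.smul ((-1) ^ 1))).congr fun l hl _ => ?_
    have h5 := d_cup 1 f (prodc fs) l (by rw [hl, List.length_cons]; omega)
    exact h5

theorem prodc_mem {fs : List (List V → ZMod 2)} (h : ∀ f ∈ fs, LZ S 3 (d f)) (hK : CSupp S fs) :
    prodc fs ∈ cocycles (ZMod 2) IsCompact S fs.length := by
  obtain ⟨K, hKS, hKc, hK⟩ := hK
  exact ⟨⟨K, hKS, hKc, fun x hx hx' => prodc_LZat (hK x hx hx')⟩, prodc_d h⟩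

theorem prodc_congr {fs fs' : List (List V → ZMod 2)}
    (h : List.Forall₂ (fun f f' => LZ S 2 (f - f')) fs fs') :
    LZ S (fs.length + 1) (prodc fs - prodc fs') := by
  induction h with
  | nil =>
    rw [sub_self]
    exact LZ.zero S _
  | @cons f f' fs fs' hf _ ih =>
    intro x hx
    have h3 : LZat S (1 + fs.length + 1) (cup 1 (f - f') (prodc fs)) x :=
      LZat.cup_left (p := 1) (q := fs.length) (hf x hx) (prodc fs)
    have h4 : LZat S (1 + fs.length + 1) (cup 1 f' (prodc fs - prodc fs')) x :=
      LZat.cup_right (p := 1) (q := fs.length) (ih x hx) f'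
    have e3 : (f :: fs).length + 1 = 1 + fs.length + 1 := by rw [List.length_cons]; omega
    rw [e3]
    refine (h3.add h4).congr fun l _ _ => ?_
    show f (l.take 2) * prodc fs (l.drop 1) - f' (l.take 2) * prodc fs' (l.drop 1) =
      (f (l.take 2) - f' (l.take 2)) * prodc fs (l.drop 1) +
        f' (l.take 2) * (prodc fs (l.drop 1) - prodc fs' (l.drop 1))
    ring

end Pool.Agent.Helper77.DS
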