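import Pool.Agent.Helper77.DS.OgB
import Pool.Agent.Helper77.DS.PcA

/-!
# DS-ChA: the 1-cocycles on `O3`, their supports

All members of `fs0`, `fs1` and `pull cZ k1` are cocycles on `O3`: pull-backs (`d_pull'`, `LZ.pull`) of `yc_cocycle`
(on `RP3`, `cA_mem`), `al_cocycle`, `alT_cocycle` (on `Z3`, `O3_iff`), `kap_cocycle` on the circle (`univ`, `Ls_unit`,
`Ls_mul_cont`; `k2` differs by `d (ind _)`) under the continuous maps `cA, c3, cV, cZ`.
`exists_K`: `K = {u | cA u ∈ RP3, ∑ A i j h1 i h1 j = 0, t = 0, c3 u ∈ Sig}`; it is contained in `O3` (`hyp1_OO`,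
`O3_iff`, `Sig ⊆ Z3`) and compact: continuous image of (closed subset of `RP3`) × Circle × `Sig` under
`(A, θ, (z, ζ)) ↦ ((((A, 0), θ), z), ζ θ)`. Outside of `K` use `yc_LZat` resp. `al_LZat` pulled back.
`fs1_supp`: if no member is locally not zero at `p`, i.e. all fail, then `cV p = 1` and `cZ p = 1`
(`Ls_one_ne`, `kap_side` with the constant vector `(0, 1)`: at `z ≠ 1` `k2` is locally zero), so `θ = 1`,
`cA p = chart ![3,0,0]` (`yc_LZat`, `hyp_pt`), `c3 p ∈ Sig`, `T3 (c3 p) ∈ Sig`, so (`Sig_inter`) `x = 0` and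
`y = exp (i π / 3)`, and `t = 0` (`O3_iff`): `p = P0`.
-/

namespace Pool.Agent.Helper77.DS

open Set Complex Helper36.AS

theorem c3_mapsTo : MapsTo c3 O3 Z3 := fun _ hu => (O3_iff.1 hu).2.2

theorem cA_mapsTo : MapsTo cA O3 RP3 := fun _ hu => cA_mem hu.1

theorem k1_cocycle : LZ (univ : Set Circle) 3 (d k1) :=
  kap_cocycle Ls (fun p _ => Ls_unit p) fun i j => (Ls_mul_cont i j).continuousOn

theorem k2_cocycle : LZ (univ : Set Circle) 3 (d k2) := by
  unfold k2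
  rw [d_add', d_d', add_zero]
  exact k1_cocycle

theorem k2_LZat {z : Circle} (hz : z ≠ 1) : LZat (univ : Set Circle) 2 k2 z := by
  have h := kap_side (S := (univ : Set Circle)) Ls (fun p _ => Ls_unit p)
    (fun i j => (Ls_mul_cont i j).continuousOn) (fun _ => (![0, 1] : Fin 2 → ℝ)) (mem_univ z)
    (fun i => continuousWithinAt_const)
    (by simpa [Fin.sum_univ_two] using Ls_one_ne hz)
  have e : (fun p : Circle => ∑ i, Ls p i * (![0, 1] : Fin 2 → ℝ) i) = fun p => Ls p 1 := by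
    funext p
    simp [Fin.sum_univ_two]
  rw [e] at h
  exact h

theorem cV_coc {k : List Circle → ZMod 2} (h : LZ (univ : Set Circle) 3 (d k)) :
    LZ O3 3 (d (pull cV k)) := by
  rw [d_pull']
  exact h.pull cV_continuous.continuousOn fun _ _ => mem_univ _

theorem cZ_coc {k : List Circle → ZMod 2} (h : LZ (univ : Set Circle) 3 (d k)) :
    LZ O3 3 (d (pull cZ k)) := by
  rw [d_pull']
  exact h.pull cZ_continuous.continuousOn fun _ _ => mem_univ _

theorem yc_coc (h : Fin 4 → ℝ) : LZ O3 3 (d (pull cA (yc h))) := by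
  rw [d_pull']
  exact (yc_cocycle h).pull cA_continuous.continuousOn cA_mapsTo

theorem al_coc : LZ O3 3 (d (pull c3 al)) := by
  rw [d_pull']
  exact al_cocycle.pull c3_continuous.continuousOn c3_mapsTo

theorem alT_coc : LZ O3 3 (d (pull c3 (pull T3 al))) := by
  rw [d_pull']
  exact alT_cocycle.pull c3_continuous.continuousOn c3_mapsTo

theorem fs0_cocycle : ∀ f ∈ fs0, LZ O3 3 (d f) := by
  intro f hf
  simp only [fs0, List.mem_cons, List.not_mem_nil, or_false] at hf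
  rcases hf with rfl | rfl | rfl | rfl | rfl | rfl | rfl
  · exact cV_coc k1_cocycle
  · exact yc_coc _
  · exact al_coc
  · exact yc_coc _
  · exact al_coc
  · exact yc_coc _
  · exact alT_coc

theorem fs1_cocycle : ∀ f ∈ fs1, LZ O3 3 (d f) := by
  intro f hf
  simp only [fs1, List.mem_cons, List.not_mem_nil, or_false] at hf
  rcases hf with rfl | rfl | rfl | rfl | rfl | rfl | rfl
  · exact cV_coc k2_cocycle
  · exact yc_coc _
  · exact yc_coc _
  · exact yc_coc _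
  · exact cZ_coc k2_cocycle
  · exact al_coc
  · exact alT_coc

theorem cZ_cocycle : LZ O3 3 (d (pull cZ k1)) := cZ_coc k1_cocycle

theorem yc_LZat' (h : Fin 4 → ℝ) {p : UT} (hp : p ∈ O3)
    (h0 : ∑ i, ∑ j, cA p i j * h i * h j ≠ 0) : LZat O3 2 (pull cA (yc h)) p :=
  (yc_LZat h (cA_mapsTo hp) h0).pull cA_continuous.continuousWithinAt cA_mapsTo

theorem al_LZat' {p : UT} (hp : p ∈ O3) (h0 : c3 p ∉ Sig) : LZat O3 2 (pull c3 al) p :=
  (al_LZat (c3_mapsTo hp) h0).pull c3_continuous.continuousWithinAt c3_mapsTo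

theorem alT_LZat' {p : UT} (hp : p ∈ O3) (h0 : T3 (c3 p) ∉ Sig) :
    LZat O3 2 (pull c3 (pull T3 al)) p :=
  (alT_LZat (c3_mapsTo hp) h0).pull c3_continuous.continuousWithinAt c3_mapsTo

theorem cV_LZat' {p : UT} (h0 : cV p ≠ 1) : LZat O3 2 (pull cV k2) p :=
  (k2_LZat h0).pull cV_continuous.continuousWithinAt fun _ _ => mem_univ _

theorem cZ_LZat' {p : UT} (h0 : cZ p ≠ 1) : LZat O3 2 (pull cZ k2) p :=
  (k2_LZat h0).pull cZ_continuous.continuousWithinAt fun _ _ => mem_univ _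

/-- The parametrisation of the compact set. -/
noncomputable def gK (x : (M4 × Circle) × ((ℂ × ℂ) × Circle)) : UT :=
  ((((x.1.1, 0), x.1.2), x.2.1), x.2.2 * x.1.2)

theorem gK_continuous : Continuous gK := by
  unfold gK
  fun_prop

theorem cA_gK (x : (M4 × Circle) × ((ℂ × ℂ) × Circle)) : cA (gK x) = x.1.1 := rfl

theorem c3_gK (x : (M4 × Circle) × ((ℂ × ℂ) × Circle)) : c3 (gK x) = x.2 := by
  unfold c3 gK
  simp only
  rw [mul_div_cancel_right]

theorem gK_eq {p : UT} (h : p.1.1.1.2 = 0) : gK ((cA p, p.1.1.2), c3 p) = p := by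
  obtain ⟨⟨⟨⟨A, t⟩, θ⟩, z⟩, v⟩ := p
  simp only at h
  subst h
  simp only [gK, cA, c3, div_mul_cancel]

/-- The compact set outside of which `y` or `a` is locally zero. -/
theorem exists_K : ∃ K ⊆ O3, IsCompact K ∧ ∀ p ∈ O3, p ∉ K →
    LZat O3 2 (pull cA (yc h1)) p ∨ LZat O3 2 (pull c3 al) p := by
  have hC : IsCompact (RP3 ∩ {A : M4 | ∑ i, ∑ j, A i j * h1 i * h1 j = 0}) := by
    apply isCompact_RP3.inter_right
    apply isClosed_eq _ continuous_const
    fun_prop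
  refine ⟨gK '' (((RP3 ∩ {A : M4 | ∑ i, ∑ j, A i j * h1 i * h1 j = 0}) ×ˢ univ) ×ˢ Sig), ?_,
    ((hC.prod isCompact_univ).prod isCompact_Sig).image gK_continuous, ?_⟩
  · rintro _ ⟨x, ⟨⟨⟨hx1, hx2⟩, -⟩, hx3⟩, rfl⟩
    rw [O3_iff]
    refine ⟨?_, rfl, ?_⟩
    · rw [cA_gK]
      exact hyp1_OO hx1 hx2
    · rw [c3_gK]
      exact hx3.1
  · intro p hp hpK
    by_contra hcon
    push Not at hcon
    apply hpK
    have e1 : ∑ i, ∑ j, cA p i j * h1 i * h1 j = 0 := by
      by_contra h0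
      exact hcon.1 (yc_LZat' h1 hp h0)
    have e2 : c3 p ∈ Sig := by
      by_contra h0
      exact hcon.2 (al_LZat' hp h0)
    exact ⟨((cA p, p.1.1.2), c3 p), ⟨⟨⟨cA_mapsTo hp, e1⟩, mem_univ _⟩, e2⟩,
      gK_eq (O3_iff.1 hp).2.1⟩

/-- The common support of `fs1` is the point `P0`. -/
theorem fs1_supp {p : UT} (hp : p ∈ O3) (h : p ≠ P0) : ∃ f ∈ fs1, LZat O3 2 f p := by
  by_contra hcon
  push Not at hcon
  simp only [fs1, List.mem_cons, List.not_mem_nil, or_false, forall_eq_or_imp, forall_eq] at hcon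
  obtain ⟨g1, g2, g3, g4, g5, g6, g7⟩ := hcon
  apply h
  have e1 : cV p = 1 := by
    by_contra h0; exact g1 (cV_LZat' h0)
  have e2 : ∑ i, ∑ j, cA p i j * h1 i * h1 j = 0 := by
    by_contra h0; exact g2 (yc_LZat' _ hp h0)
  have e3 : ∑ i, ∑ j, cA p i j * h2 i * h2 j = 0 := by
    by_contra h0; exact g3 (yc_LZat' _ hp h0)
  have e4 : ∑ i, ∑ j, cA p i j * h3 i * h3 j = 0 := by
    by_contra h0; exact g4 (yc_LZat' _ hp h0)
  have e5 : cZ p = 1 := by
    by_contra h0; exact g5 (cZ_LZat' h0)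
  have e6 : c3 p ∈ Sig := by
    by_contra h0; exact g6 (al_LZat' hp h0)
  have e7 : T3 (c3 p) ∈ Sig := by
    by_contra h0; exact g7 (alT_LZat' hp h0)
  have e8 : cA p = chart ![3, 0, 0] := hyp_pt (cA_mapsTo hp) e2 e3 e4
  obtain ⟨e9, e10⟩ := Sig_inter e6 e7
  have e11 := (O3_iff.1 hp).2.1
  obtain ⟨⟨⟨⟨A, t⟩, θ⟩, ⟨x, y⟩⟩, v⟩ := p
  simp only [cA] at e8
  simp only [cV] at e1
  simp only [cZ] at e5
  simp only [c3] at e9
  simp only [c3, yp, e5, Circle.coe_one, div_one] at e10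
  simp only at e11
  subst e1
  have e12 : θ = 1 := by
    rw [one_div, inv_eq_one] at e5
    exact e5
  rw [e8, e9, e10, e11, e12]
  rfl

end Pool.Agent.Helper77.DS
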