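import Pool.Agent.Helper77.DS.PcA

/-!
# DS-PcB: swapping two neighbours in a product of 1-cocycles mod 2

For 1-cocycles `f, g` (i.e. `LZ S 3 (d f)`, `LZ S 3 (d g)`) let `e [p, q] = f [p, q] * g [p, q]` (and `0` on
lists of other lengths). If `d f`, `d g` vanish on the faces of `[a, b, c]` then with
`f[a,c] = f[a,b] + f[b,c]`, `g[a,c] = g[a,b] + g[b,c]` (mod 2)
`d e [a,b,c] = (fg)[b,c] + (fg)[a,c] + (fg)[a,b] = f[a,b] g[b,c] + g[a,b] f[b,c]
 = (cup 1 f g + cup 1 g f) [a,b,c]`, so `LZ S 3 (cup 1 f g + cup 1 g f - d e)`, and `e` is locally zero where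
`f` or `g` is. Then with `A = prodc as`, `B = prodc bs` (`prodc_append`, `cup_assoc`)
`A ∪ (f ∪ g - g ∪ f) ∪ B = A ∪ d e ∪ B = d (A ∪ e ∪ B)` up to locally zero cochains
(`d_cup` twice, `d A`, `d B` locally zero by `prodc_d`), and `A ∪ e ∪ B` has compact support by `hK`
(`LZat.cup_left/right`, `prodc_LZat`; if the locally zero member is `f` or `g` then `e` is locally zero).
-/

namespace Pool.Agent.Helper77.DS

open Set Helper36.AS

variable {V : Type*} [TopologicalSpace V] {S : Set V}

/-- The product of the values, a 1-cochain. -/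
def pcE {V : Type*} (f g : List V → ZMod 2) : List V → ZMod 2 := fun l => f l * g l

theorem pcE_LZat_left {f g : List V → ZMod 2} {p : V} (h : LZat S 2 f p) :
    LZat S 2 (pcE f g) p := by
  obtain ⟨U, hU, h⟩ := h
  refine ⟨U, hU, fun l hl hl' => ?_⟩
  rw [pcE, h l hl hl', zero_mul]

theorem pcE_LZat_right {f g : List V → ZMod 2} {p : V} (h : LZat S 2 g p) :
    LZat S 2 (pcE f g) p := by
  obtain ⟨U, hU, h⟩ := h
  refine ⟨U, hU, fun l hl hl' => ?_⟩
  rw [pcE, h l hl hl', mul_zero]

theorem pc_mod2 : ∀ a b c a' b' c' : ZMod 2, a - b + c = 0 → a' - b' + c' = 0 →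
    c * a' - c' * a - (a * a' - b * b' + c * c') = 0 := by
  decide

theorem pc_d3 (f : List V → ZMod 2) (a b c : V) :
    d f [a, b, c] = f [b, c] - f [a, c] + f [a, b] := by
  rw [d_cons, d_cons, d_cons, d_nil]
  ring

theorem pc_diff {f g : List V → ZMod 2} (hf : LZ S 3 (d f)) (hg : LZ S 3 (d g)) :
    LZ S 3 (fun l => cup 1 f g l - cup 1 g f l - d (pcE f g) l) := by
  intro x hx
  obtain ⟨U, hU, hf⟩ := hf x hx
  obtain ⟨W, hW, hg⟩ := hg x hx
  refine ⟨U ∩ W, Filter.inter_mem hU hW, fun l hl hl' => ?_⟩
  have h1 := hf l hl fun y hy => ⟨(hl' y hy).1.1, (hl' y hy).2⟩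
  have h2 := hg l hl fun y hy => ⟨(hl' y hy).1.2, (hl' y hy).2⟩
  match l, hl with
  | [a, b, c], _ =>
    rw [pc_d3] at h1 h2
    show f [a, b] * g [b, c] - g [a, b] * f [b, c] - d (pcE f g) [a, b, c] = 0
    rw [pc_d3]
    exact pc_mod2 _ _ _ _ _ _ h1 h2

theorem prodc_swap (as bs : List (List V → ZMod 2)) (f g : List V → ZMod 2)
    (h : ∀ k ∈ as ++ f :: g :: bs, LZ S 3 (d k)) (hK : CSupp S (as ++ f :: g :: bs)) :
    prodc (as ++ f :: g :: bs) - prodc (as ++ g :: f :: bs) ∈
      coboundaries (ZMod 2) IsCompact S (as.length + bs.length + 2) := by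
  have hf : LZ S 3 (d f) := h f (by simp)
  have hg : LZ S 3 (d g) := h g (by simp)
  have hA : LZ S (as.length + 2) (d (prodc as)) :=
    prodc_d fun k hk => h k (List.mem_append_left _ hk)
  have hB : LZ S (bs.length + 2) (d (prodc bs)) :=
    prodc_d fun k hk => h k (List.mem_append_right _ (by simp [hk]))
  refine ⟨cup as.length (prodc as) (cup 1 (pcE f g) (prodc bs)),
    fun h0 => absurd h0 (by omega), ?_, ?_⟩
  · obtain ⟨K, hKS, hKc, hK⟩ := hK
    refine ⟨K, hKS, hKc, fun x hx hx' => ?_⟩
    obtain ⟨k, hk, hkx⟩ := hK x hx hx'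
    have e1 : as.length + bs.length + 2 = as.length + (1 + bs.length) + 1 := by omega
    rw [e1]
    rcases List.mem_append.1 hk with hk | hk
    · exact LZat.cup_left (p := as.length) (q := 1 + bs.length) (prodc_LZat ⟨k, hk, hkx⟩) _
    · refine LZat.cup_right (p := as.length) (q := 1 + bs.length) ?_ _
      rcases List.mem_cons.1 hk with rfl | hk
      · exact LZat.cup_left (p := 1) (q := bs.length) (pcE_LZat_left hkx) _
      · rcases List.mem_cons.1 hk with rfl | hk
        · exact LZat.cup_left (p := 1) (q := bs.length) (pcE_LZat_right hkx) _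
        · exact LZat.cup_right (p := 1) (q := bs.length) (prodc_LZat ⟨k, hk, hkx⟩) _
  · intro x hx
    have t1 : LZat S (as.length + (2 + bs.length) + 1) (cup as.length (prodc as)
        (cup 2 (fun l => cup 1 f g l - cup 1 g f l - d (pcE f g) l) (prodc bs))) x :=
      LZat.cup_right (p := as.length) (q := 2 + bs.length)
        (LZat.cup_left (p := 2) (q := bs.length) (pc_diff hf hg x hx) _) _
    have t2 : LZat S (as.length + 1 + (1 + bs.length) + 1) (cup (as.length + 1)
        (d (prodc as)) (cup 1 (pcE f g) (prodc bs))) x :=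
      LZat.cup_left (p := as.length + 1) (q := 1 + bs.length) (hA x hx) _
    have t3 : LZat S (as.length + (1 + (bs.length + 1)) + 1) (cup as.length (prodc as)
        (cup 1 (pcE f g) (d (prodc bs)))) x :=
      LZat.cup_right (p := as.length) (q := 1 + (bs.length + 1))
        (LZat.cup_right (p := 1) (q := bs.length + 1) (hB x hx) _) _
    have e1 : as.length + (2 + bs.length) + 1 = as.length + bs.length + 2 + 1 := by omega
    have e2 : as.length + 1 + (1 + bs.length) + 1 = as.length + bs.length + 2 + 1 := by omega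
    have e3 : as.length + (1 + (bs.length + 1)) + 1 = as.length + bs.length + 2 + 1 := by omega
    rw [e1] at t1
    rw [e2] at t2
    rw [e3] at t3
    refine ((t1.sub t2).add t3).congr fun l hl _ => ?_
    have h1 : (-1 : ZMod 2) = 1 := by decide
    have h2 := d_cup as.length (prodc as) (cup 1 (pcE f g) (prodc bs)) l (by omega)
    have h3 := d_cup 1 (pcE f g) (prodc bs) (l.drop as.length) (by rw [List.length_drop]; omega)
    have h4 : prodc (as ++ f :: g :: bs) l = prodc as (l.take (as.length + 1)) *
        cup 2 (cup 1 f g) (prodc bs) (l.drop as.length) := by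
      rw [prodc_append]
      show _ * cup 1 f (cup 1 g (prodc bs)) (l.drop as.length) = _
      rw [← cup_assoc]
    have h5 : prodc (as ++ g :: f :: bs) l = prodc as (l.take (as.length + 1)) *
        cup 2 (cup 1 g f) (prodc bs) (l.drop as.length) := by
      rw [prodc_append]
      show _ * cup 1 g (cup 1 f (prodc bs)) (l.drop as.length) = _
      rw [← cup_assoc]
    show prodc (as ++ f :: g :: bs) l - prodc (as ++ g :: f :: bs) l -
      d (cup as.length (prodc as) (cup 1 (pcE f g) (prodc bs))) l = _
    rw [h2, h4, h5]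
    simp only [h1, one_pow, one_mul] at h3 ⊢
    have h6 : cup as.length (prodc as) (d (cup 1 (pcE f g) (prodc bs))) l =
        prodc as (l.take (as.length + 1)) *
          (cup 2 (d (pcE f g)) (prodc bs) (l.drop as.length) +
            cup 1 (pcE f g) (d (prodc bs)) (l.drop as.length)) := by
      show _ * d (cup 1 (pcE f g) (prodc bs)) (l.drop as.length) = _
      rw [h3]
    rw [h6]
    have h7 : ∀ z : ZMod 2, z + z = 0 := by decide
    show prodc as (l.take (as.length + 1)) * cup 2 (cup 1 f g) (prodc bs) (l.drop as.length) -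
        prodc as (l.take (as.length + 1)) * cup 2 (cup 1 g f) (prodc bs) (l.drop as.length) -
        (cup (as.length + 1) (d (prodc as)) (cup 1 (pcE f g) (prodc bs)) l +
          prodc as (l.take (as.length + 1)) *
          (cup 2 (d (pcE f g)) (prodc bs) (l.drop as.length) +
            cup 1 (pcE f g) (d (prodc bs)) (l.drop as.length))) =
      (prodc as (l.take (as.length + 1)) *
        (((cup 1 f g) ((l.drop as.length).take 3) - (cup 1 g f) ((l.drop as.length).take 3) -
          d (pcE f g) ((l.drop as.length).take 3)) * prodc bs ((l.drop as.length).drop 2)) -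
        cup (as.length + 1) (d (prodc as)) (cup 1 (pcE f g) (prodc bs)) l) +
        prodc as (l.take (as.length + 1)) *
          cup 1 (pcE f g) (d (prodc bs)) (l.drop as.length)
    simp only [cup]
    have h8 := h7 (prodc as (l.take (as.length + 1)) *
      (pcE f g ((l.drop as.length).take (1 + 1)) * d (prodc bs) ((l.drop as.length).drop 1)))
    linear_combination -h8

end Pool.Agent.Helper77.DS
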