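import Pool.Agent.Helper77.DS.PcA

/-!
# DS-PcC: replacing a factor by a cohomologous one, and `f ∪ f`

`prodc_repl`: with `A = prodc as`, `B = prodc bs`: the difference is `A ∪ d k ∪ B = d (A ∪ k ∪ B)` up to
locally zero cochains (`prodc_append`, `cup_assoc`, `d_cup`, `prodc_d`; `k` is a 0-cochain, the cup product is
`cup as.length A (cup 0 k B)`), and its support is compact by `hK`.

`prodc_sq`: `a` a cocycle, `r` a cocycle, `s` a 0-cochain such that `(a + r + d s) ∪ a` is locally zero. Then
mod 2: `a ∪ a - r ∪ a = d s ∪ a = d (s ∪ a)` up to locally zero cochains (as `d a` is locally zero), hence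
`A ∪ a ∪ a ∪ B - A ∪ r ∪ a ∪ B = d (A ∪ (s ∪ a) ∪ B)` up to locally zero cochains, and
`A ∪ (s ∪ a) ∪ B` is locally zero wherever one of the members of `as ++ a :: bs` is.
-/

namespace Pool.Agent.Helper77.DS

open Set Helper36.AS

variable {V : Type*} [TopologicalSpace V] {S : Set V}

private theorem pcc_pow (m : ℕ) : ((-1 : ZMod 2)) ^ m = 1 := by
  have h : (-1 : ZMod 2) = 1 := by decide
  rw [h, one_pow]

private theorem pcc_cast {m n : ℕ} {f : List V → ZMod 2} {p : V} (hf : LZat S m f p)
    (h : m = n) : LZat S n f p := h ▸ hf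

theorem prodc_repl (as bs : List (List V → ZMod 2)) (f k : List V → ZMod 2)
    (h : ∀ g ∈ as ++ bs, LZ S 3 (d g))
    (hK : ∃ K ⊆ S, IsCompact K ∧ ∀ p ∈ S, p ∉ K → (∃ g ∈ as ++ bs, LZat S 2 g p) ∨ LZat S 1 k p) :
    prodc (as ++ (f + d k) :: bs) - prodc (as ++ f :: bs) ∈
      coboundaries (ZMod 2) IsCompact S (as.length + bs.length + 1) := by
  obtain ⟨K, hKS, hKc, hK⟩ := hK
  have hA : LZ S (as.length + 2) (d (prodc as)) :=
    prodc_d fun g hg => h g (List.mem_append_left _ hg)
  have hB : LZ S (bs.length + 2) (d (prodc bs)) :=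
    prodc_d fun g hg => h g (List.mem_append_right _ hg)
  rw [mem_coboundaries]
  refine ⟨cup as.length (prodc as) (cup 0 k (prodc bs)), fun h => by omega,
    ⟨K, hKS, hKc, ?_⟩, ?_⟩
  · intro p hp hpK
    rcases hK p hp hpK with ⟨g, hg, hgp⟩ | hk
    · rcases List.mem_append.1 hg with hg | hg
      · exact (prodc_LZat ⟨g, hg, hgp⟩).cup_left (cup 0 k (prodc bs))
      · have h1 : LZat S (0 + bs.length + 1) (cup 0 k (prodc bs)) p :=
          (prodc_LZat ⟨g, hg, hgp⟩).cup_right k
        exact (pcc_cast h1 (by omega)).cup_right (prodc as)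
    · have h1 : LZat S (0 + bs.length + 1) (cup 0 k (prodc bs)) p :=
        LZat.cup_left (p := 0) hk (prodc bs)
      exact (pcc_cast h1 (by omega)).cup_right (prodc as)
  · have h1 : LZ S (as.length + bs.length + 1 + 1)
        (-(cup (as.length + 1) (d (prodc as)) (cup 0 k (prodc bs))) -
          cup as.length (prodc as) (cup 0 k (d (prodc bs)))) := by
      intro p hp
      apply LZat.sub
      · apply LZat.neg
        exact pcc_cast ((hA p hp).cup_left (q := bs.length) (cup 0 k (prodc bs))) (by omega)
      · have h2 : LZat S (0 + (bs.length + 1) + 1) (cup 0 k (d (prodc bs))) p :=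
          (hB p hp).cup_right k
        exact pcc_cast ((pcc_cast h2 (by omega : _ = (bs.length + 1) + 1)).cup_right
          (p := as.length) (prodc as)) (by omega)
    refine h1.congr fun l hl _ => ?_
    have e2 := d_cup as.length (prodc as) (cup 0 k (prodc bs)) l (by omega)
    have e3 := d_cup 0 k (prodc bs) (l.drop as.length) (by rw [List.length_drop]; omega)
    have e4 : cup as.length (prodc as) (d (cup 0 k (prodc bs))) l =
        prodc as (l.take (as.length + 1)) * d (cup 0 k (prodc bs)) (l.drop as.length) := rfl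
    rw [Pi.sub_apply, Pi.sub_apply, Pi.sub_apply, Pi.neg_apply, prodc_append, prodc_append, e2,
      pcc_pow, e4, e3]
    simp only [prodc, cup, Pi.add_apply]
    ring

theorem prodc_sq (as bs : List (List V → ZMod 2)) (a r s : List V → ZMod 2)
    (h : ∀ g ∈ as ++ a :: bs, LZ S 3 (d g)) (hr : LZ S 3 (d r))
    (hs : LZ S 3 (cup 1 (a + r + d s) a)) (hK : CSupp S (as ++ a :: bs)) :
    prodc (as ++ a :: a :: bs) - prodc (as ++ r :: a :: bs) ∈
      coboundaries (ZMod 2) IsCompact S (as.length + bs.length + 2) := by
  obtain ⟨K, hKS, hKc, hK⟩ := hK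
  have hA : LZ S (as.length + 2) (d (prodc as)) :=
    prodc_d fun g hg => h g (List.mem_append_left _ hg)
  have hB : LZ S (bs.length + 2) (d (prodc bs)) :=
    prodc_d fun g hg => h g (List.mem_append_right _ (List.mem_cons_of_mem _ hg))
  have ha : LZ S 3 (d a) := h a (List.mem_append_right _ List.mem_cons_self)
  rw [mem_coboundaries]
  refine ⟨cup as.length (prodc as) (cup 1 (cup 0 s a) (prodc bs)), fun h => by omega,
    ⟨K, hKS, hKc, ?_⟩, ?_⟩
  · intro p hp hpK
    obtain ⟨g, hg, hgp⟩ := hK p hp hpK
    rcases List.mem_append.1 hg with hg | hg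
    · exact pcc_cast ((prodc_LZat ⟨g, hg, hgp⟩).cup_left (q := bs.length + 1)
        (cup 1 (cup 0 s a) (prodc bs))) (by omega)
    · have h1 : LZat S (1 + bs.length + 1) (cup 1 (cup 0 s a) (prodc bs)) p := by
        rcases List.mem_cons.1 hg with hg | hg
        · subst hg
          have h2 : LZat S (0 + 1 + 1) (cup 0 s g) p := LZat.cup_right (q := 1) hgp s
          exact LZat.cup_left (p := 1) h2 (prodc bs)
        · exact (prodc_LZat ⟨g, hg, hgp⟩).cup_right (cup 0 s a)
      exact pcc_cast ((pcc_cast h1 (by omega : _ = (bs.length + 1) + 1)).cup_right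
        (p := as.length) (prodc as)) (by omega)
  · have h0 : LZ S 3 (cup 1 (a + r + d s) a - cup 0 s (d a)) := by
      apply hs.sub
      intro p hp
      exact LZat.cup_right (p := 0) (q := 2) (ha p hp) s
    have h1 : LZ S (as.length + bs.length + 2 + 1)
        (-(cup (as.length + 1) (d (prodc as)) (cup 1 (cup 0 s a) (prodc bs))) +
          cup as.length (prodc as) (cup 1 (cup 0 s a) (d (prodc bs))) +
          cup as.length (prodc as)
            (cup 2 (cup 1 (a + r + d s) a - cup 0 s (d a)) (prodc bs))) := by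
      intro p hp
      apply LZat.add
      · apply LZat.add
        · apply LZat.neg
          exact pcc_cast ((hA p hp).cup_left (q := bs.length + 1)
            (cup 1 (cup 0 s a) (prodc bs))) (by omega)
        · have h2 : LZat S (1 + (bs.length + 1) + 1) (cup 1 (cup 0 s a) (d (prodc bs))) p :=
            (hB p hp).cup_right (cup 0 s a)
          exact pcc_cast ((pcc_cast h2 (by omega : _ = (bs.length + 2) + 1)).cup_right
            (p := as.length) (prodc as)) (by omega)
      · have h2 : LZat S (2 + bs.length + 1)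
            (cup 2 (cup 1 (a + r + d s) a - cup 0 s (d a)) (prodc bs)) p :=
          LZat.cup_left (p := 2) (h0 p hp) (prodc bs)
        exact pcc_cast ((pcc_cast h2 (by omega : _ = (bs.length + 2) + 1)).cup_right
          (p := as.length) (prodc as)) (by omega)
    refine h1.congr fun l hl _ => ?_
    have e2 := d_cup as.length (prodc as) (cup 1 (cup 0 s a) (prodc bs)) l (by omega)
    have e3 := d_cup 1 (cup 0 s a) (prodc bs) (l.drop as.length)
      (by rw [List.length_drop]; omega)
    have e4 : cup as.length (prodc as) (d (cup 1 (cup 0 s a) (prodc bs))) l =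
        prodc as (l.take (as.length + 1)) *
          d (cup 1 (cup 0 s a) (prodc bs)) (l.drop as.length) := rfl
    have e5 : cup (1 + 1) (d (cup 0 s a)) (prodc bs) (l.drop as.length) =
        d (cup 0 s a) ((l.drop as.length).take 3) * prodc bs ((l.drop as.length).drop 2) := rfl
    have e6 := d_cup 0 s a ((l.drop as.length).take 3)
      (by rw [List.length_take, List.length_drop]; omega)
    have e7 : ∀ x : List V → ZMod 2, cup 1 x (cup 1 a (prodc bs)) (l.drop as.length) =
        cup 2 (cup 1 x a) (prodc bs) (l.drop as.length) := fun x =>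
      (cup_assoc 1 1 x a (prodc bs) (l.drop as.length)).symm
    have e8 : ∀ x : List V → ZMod 2, prodc (as ++ x :: a :: bs) l =
        prodc as (l.take (as.length + 1)) *
          ((cup 1 x a) ((l.drop as.length).take 3) * prodc bs ((l.drop as.length).drop 2)) := by
      intro x
      rw [prodc_append]
      have e9 : cup as.length (prodc as) (prodc (x :: a :: bs)) l =
        prodc as (l.take (as.length + 1)) *
          cup 1 x (cup 1 a (prodc bs)) (l.drop as.length) := rfl
      rw [e9, e7]
      rfl
    have e10 : (-1 : ZMod 2) = 1 := by decide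
    rw [Pi.sub_apply, Pi.sub_apply, Pi.add_apply, Pi.add_apply, Pi.neg_apply, e8, e8, e2,
      pcc_pow, e4, e3, pcc_pow, e5, e6, pcc_pow]
    have e11 : ∀ x : ZMod 2, -x = x := fun x => by rw [neg_eq_neg_one_mul, e10, one_mul]
    simp only [cup, Pi.add_apply, Pi.sub_apply, sub_eq_add_neg, e11, zero_add]
    ring

end Pool.Agent.Helper77.DS
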