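import Pool.Agent.Helper77.DS.ChA
import Pool.Agent.Helper77.DS.PcB
import Pool.Agent.Helper77.DS.PcC

/-!
# DS-ChB: the product `u ∪ x₁ ∪ x₁ ∪ T x₁` on `O3` is cohomologous to the product `fs1` supported in `P0`

Write `y = pull cA (yc h1)`, `a = pull c3 al`, `b = pull c3 (pull T3 al)`, `u = pull cV k1`, `r = pull cZ k1`.
Chain (each step changes `prodc` by a coboundary with compact support, degree 7):
`[u,y,a,y,a,y,b]` → (`prodc_swap` 3 times) → `[u,y,y,y,a,a,b]` → (`prodc_sq` with `r` and `s = pull c3 (ind s6)`; the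
hypothesis is `al_sq` pulled back along `c3`, `pull_cup`, `d_pull'`) → `[u,y,y,y,r,a,b]` → (`prodc_repl` 4 times:
`u → pull cV k2`, second `y → pull cA (yc h2)`, third `y → pull cA (yc h3)`, `r → pull cZ k2`; `yc_eq_add`,
`k2 = k1 + d _`, pulled back) → `fs1`.
The support conditions (`CSupp`, and the one of `prodc_repl`) hold in each step with the compact set of
`exists_K`, because `y` (the first one) and `a` are always among the other members.
-/

namespace Pool.Agent.Helper77.DS

open Set Complex Helper36.AS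

private theorem chb_chain {V : Type*} [TopologicalSpace V] {S : Set V}
    (u u2 y y2 y3 a b r r2 s ku k2' k3' kr : List V → ZMod 2)
    (hu : LZ S 3 (d u)) (hu2 : LZ S 3 (d u2)) (hy : LZ S 3 (d y)) (hy2 : LZ S 3 (d y2))
    (hy3 : LZ S 3 (d y3)) (ha : LZ S 3 (d a)) (hb : LZ S 3 (d b)) (hr : LZ S 3 (d r))
    (hK : ∃ K ⊆ S, IsCompact K ∧ ∀ p ∈ S, p ∉ K → LZat S 2 y p ∨ LZat S 2 a p)
    (hs : LZ S 3 (cup 1 (a + r + d s) a)) (eu : u2 = u + d ku) (e2 : y2 = y + d k2')
    (e3 : y3 = y + d k3') (er : r2 = r + d kr) :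
    prodc [u, y, a, y, a, y, b] - prodc [u2, y, y2, y3, r2, a, b] ∈
      coboundaries (ZMod 2) IsCompact S 7 := by
  have hall : ∀ g, (g = u ∨ g = u2 ∨ g = y ∨ g = y2 ∨ g = y3 ∨ g = a ∨ g = b ∨ g = r) →
      LZ S 3 (d g) := by
    rintro g (rfl | rfl | rfl | rfl | rfl | rfl | rfl | rfl) <;> assumption
  have hsupp : ∀ fs : List (List V → ZMod 2), y ∈ fs → a ∈ fs → CSupp S fs := by
    intro fs h1 h2
    obtain ⟨K, hKS, hKc, h⟩ := hK
    exact ⟨K, hKS, hKc, fun p hp hpK => (h p hp hpK).elim (fun h => ⟨y, h1, h⟩)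
      (fun h => ⟨a, h2, h⟩)⟩
  have hsupp' : ∀ (fs : List (List V → ZMod 2)) (k : List V → ZMod 2), y ∈ fs → a ∈ fs →
      ∃ K ⊆ S, IsCompact K ∧ ∀ p ∈ S, p ∉ K →
        (∃ g ∈ fs, LZat S 2 g p) ∨ LZat S 1 k p := by
    intro fs k h1 h2
    obtain ⟨K, hKS, hKc, h⟩ := hsupp fs h1 h2
    exact ⟨K, hKS, hKc, fun p hp hpK => Or.inl (h p hp hpK)⟩
  have t1 := prodc_swap (S := S) [u, y] [a, y, b] a y (fun g hg => hall g (by
    simp only [List.cons_append, List.nil_append, List.mem_cons, List.not_mem_nil,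
      or_false] at hg
    tauto)) (hsupp _ (by simp) (by simp))
  have t2 := prodc_swap (S := S) [u, y, y, a] [b] a y (fun g hg => hall g (by
    simp only [List.cons_append, List.nil_append, List.mem_cons, List.not_mem_nil,
      or_false] at hg
    tauto)) (hsupp _ (by simp) (by simp))
  have t3 := prodc_swap (S := S) [u, y, y] [a, b] a y (fun g hg => hall g (by
    simp only [List.cons_append, List.nil_append, List.mem_cons, List.not_mem_nil,
      or_false] at hg
    tauto)) (hsupp _ (by simp) (by simp))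
  have t4 := prodc_sq (S := S) [u, y, y, y] [b] a r s (fun g hg => hall g (by
    simp only [List.cons_append, List.nil_append, List.mem_cons, List.not_mem_nil,
      or_false] at hg
    tauto)) hr hs (hsupp _ (by simp) (by simp))
  have t5 := prodc_repl (S := S) [] [y, y, y, r, a, b] u ku (fun g hg => hall g (by
    simp only [List.nil_append, List.mem_cons, List.not_mem_nil, or_false] at hg
    tauto)) (hsupp' _ _ (by simp) (by simp))
  have t6 := prodc_repl (S := S) [u2, y] [y, r, a, b] y k2' (fun g hg => hall g (by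
    simp only [List.cons_append, List.nil_append, List.mem_cons, List.not_mem_nil,
      or_false] at hg
    tauto)) (hsupp' _ _ (by simp) (by simp))
  have t7 := prodc_repl (S := S) [u2, y, y2] [r, a, b] y k3' (fun g hg => hall g (by
    simp only [List.cons_append, List.nil_append, List.mem_cons, List.not_mem_nil,
      or_false] at hg
    tauto)) (hsupp' _ _ (by simp) (by simp))
  have t8 := prodc_repl (S := S) [u2, y, y2, y3] [a, b] r kr (fun g hg => hall g (by
    simp only [List.cons_append, List.nil_append, List.mem_cons, List.not_mem_nil,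
      or_false] at hg
    tauto)) (hsupp' _ _ (by simp) (by simp))
  rw [← eu] at t5
  rw [← e2] at t6
  rw [← e3] at t7
  rw [← er] at t8
  simp only [List.cons_append, List.nil_append, List.length_cons, List.length_nil] at t1 t2 t3 t4
  simp only [List.cons_append, List.nil_append, List.length_cons, List.length_nil] at t5 t6 t7 t8
  have e : prodc [u, y, a, y, a, y, b] - prodc [u2, y, y2, y3, r2, a, b] =
      (prodc [u, y, a, y, a, y, b] - prodc [u, y, y, a, a, y, b]) +
      (prodc [u, y, y, a, a, y, b] - prodc [u, y, y, a, y, a, b]) +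
      (prodc [u, y, y, a, y, a, b] - prodc [u, y, y, y, a, a, b]) +
      (prodc [u, y, y, y, a, a, b] - prodc [u, y, y, y, r, a, b]) -
      (prodc [u2, y, y, y, r, a, b] - prodc [u, y, y, y, r, a, b]) -
      (prodc [u2, y, y2, y, r, a, b] - prodc [u2, y, y, y, r, a, b]) -
      (prodc [u2, y, y2, y3, r, a, b] - prodc [u2, y, y2, y, r, a, b]) -
      (prodc [u2, y, y2, y3, r2, a, b] - prodc [u2, y, y2, y3, r, a, b]) := by
    abel
  rw [e]
  exact Submodule.sub_mem _ (Submodule.sub_mem _ (Submodule.sub_mem _ (Submodule.sub_mem _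
    (Submodule.add_mem _ (Submodule.add_mem _ (Submodule.add_mem _ t1 t2) t3) t4) t5) t6) t7) t8

private theorem chb_kap : pull c3 (kap (fun w : (ℂ × ℂ) × Circle => Ls w.2)) = pull cZ k1 := by
  funext l
  match l with
  | [] => rfl
  | [_] => rfl
  | [_, _] => rfl
  | _ :: _ :: _ :: _ => rfl

theorem fs0_fs1 : prodc fs0 - prodc fs1 ∈ coboundaries (ZMod 2) IsCompact O3 7 := by
  have hs : LZ O3 3 (cup 1 (pull c3 al + pull cZ k1 + d (pull c3 (ind s6))) (pull c3 al)) := by
    have h := al_sq.pull c3_continuous.continuousOn c3_mapsTo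
    have e : pull c3 (cup 1 (al + kap (fun w : (ℂ × ℂ) × Circle => Ls w.2) + d (ind s6)) al) =
        cup 1 (pull c3 al + pull cZ k1 + d (pull c3 (ind s6))) (pull c3 al) := by
      rw [← chb_kap, d_pull']
      funext l
      rw [pull_cup]
      rfl
    rw [e] at h
    exact h
  unfold fs0 fs1
  refine chb_chain _ _ _ _ _ _ _ (pull cZ k1) _ (pull c3 (ind s6))
    (pull cV (ind fun z => Ls z 1))
    (pull cA (ind (fun A => ∑ i, Lq A i * h2 i) - ind (fun A => ∑ i, Lq A i * h1 i)))
    (pull cA (ind (fun A => ∑ i, Lq A i * h3 i) - ind (fun A => ∑ i, Lq A i * h1 i)))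
    (pull cZ (ind fun z => Ls z 1))
    (cV_coc k1_cocycle) (cV_coc k2_cocycle) (yc_coc _) (yc_coc _) (yc_coc _) al_coc alT_coc
    cZ_cocycle exists_K hs ?_ ?_ ?_ ?_
  · rw [d_pull']
    rfl
  · rw [d_pull', yc_eq_add h2 h1]
    rfl
  · rw [d_pull', yc_eq_add h3 h1]
    rfl
  · rw [d_pull']
    rfl

end Pool.Agent.Helper77.DS
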