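import Pool.Agent.Helper77.DS.SiA

/-!
# DS-CjA: the fibre `FF` near the branch point `(0, exp (i π / 3))`

`yB B = 1/2 + i √(3/4 - B²)`, `xB B = B √(1 + yB B)` (principal roots), `‖B‖ < 1/4`: then `Re (3/4 - B²) > 0`, so
`Im (yB B) > 0`, `yB` is close to `exp (i π / 3) = 1/2 + i √3/2` (`|√(3/4 - B²) - √3/2| ≤ |B|² / (√3/2) < 1/10`).
`xB² = B² (1 + yB)`, `q = yB - 1/2`, `q² = B² - 3/4`, `(1 + yB)(q² + 3/4) = 1 + yB³`: `xB² - yB³ = 1`.
Conversely for `x² - y³ = 1`, `Re y > -1`, `Im y > 0`, `B = x (1 + y)^(-1/2)`: `B² = q² + 3/4`, so `q = ± i √(3/4 - B²)`, and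
`Im q > 0`, `Re √ > 0` give the sign `+`.
Side functions: `s6 ((xB, yB), 1) = Re (q conj B)` and (as `rt om = exp (i π / 3)`, `exp (i π / 3) om = -1`)
`s6 (T3 ((xB, yB), 1)) = - Re ((yB / om - 1/2) conj (xB (1 + yB / om)^(-1/2)))`. At `B = 0` both vanish; derivatives at `0` (real
linear in `B`; `g (B) conj B` with `g` differentiable has derivative `g 0 conj B`): `√3/2 · Im B` and
`√3/2 · (cos (π/3) Re B + sin (π/3) Im B)`; these are linearly independent, so by the inverse function theorem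
(`HasStrictFDerivAt.toOpenPartialHomeomorph`) `B ↦ (s6 .., s6 ..)` is a homeomorphism of a neighbourhood of `0` in
`ball 0 (1/4)` onto a neighbourhood of `0` in `ℝ × ℝ`; restrict to a square `(-ε, ε)²` and compose with
`(a, b) ↦ (ε a / (1 + |a|), ε b / (1 + |b|))`. (Check of the derivative of the second: `(1 + y)^{1/2}` at `y = exp (i π/3)` is
`3^{1/4} exp (i π/12)`, `(1 + y / om)^{1/2} = 3^{1/4} exp (- i π/12)`, `y / om - 1/2 = - i √3/2`.)
-/

namespace Pool.Agent.Helper77.DS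

open Set Complex Helper36.AS

open scoped Topology

noncomputable def yB (B : ℂ) : ℂ := 1 / 2 + Complex.I * (3 / 4 - B ^ 2) ^ (1 / 2 : ℂ)

noncomputable def xB (B : ℂ) : ℂ := B * (1 + yB B) ^ (1 / 2 : ℂ)

private theorem sq_half (z : ℂ) : (z ^ (1 / 2 : ℂ)) ^ 2 = z := by
  rw [one_div]
  exact Complex.cpow_ofNat_inv_pow z 2

private theorem re_half (z : ℂ) : 0 ≤ (z ^ (1 / 2 : ℂ)).re := by
  have h : (1 / 2 : ℂ) = ((1 / 2 : ℝ) : ℂ) := by push_cast; ring
  rw [h, Complex.cpow_ofReal_re]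
  apply mul_nonneg (Real.rpow_nonneg (norm_nonneg _) _)
  apply Real.cos_nonneg_of_mem_Icc
  have h1 := Complex.neg_pi_lt_arg z
  have h2 := Complex.arg_le_pi z
  constructor <;> linarith

private theorem half_unique {z v : ℂ} (hv : v ^ 2 = z) (hr : 0 < v.re) : z ^ (1 / 2 : ℂ) = v := by
  have h1 := sq_half z
  rw [← hv] at h1
  rcases sq_eq_sq_iff_eq_or_eq_neg.mp h1 with h | h
  · rw [← hv]; exact h
  · exfalso
    have h2 := re_half (v ^ 2)
    rw [h, Complex.neg_re] at h2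
    linarith

private theorem zB {B : ℂ} (hB : ‖B‖ < 1 / 4) : 11 / 16 < (3 / 4 - B ^ 2 : ℂ).re ∧
    |(3 / 4 - B ^ 2 : ℂ).im| < 1 / 16 := by
  have h0 := norm_nonneg B
  have h1 : ‖B ^ 2‖ < 1 / 16 := by rw [norm_pow]; nlinarith
  have h2 := (Complex.abs_re_le_norm (B ^ 2)).trans_lt h1
  have h3 := (Complex.abs_im_le_norm (B ^ 2)).trans_lt h1
  have e : (3 / 4 : ℂ) = ((3 / 4 : ℝ) : ℂ) := by push_cast; ring
  rw [e, Complex.sub_re, Complex.sub_im, Complex.ofReal_re, Complex.ofReal_im]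
  rw [abs_lt] at h2 h3 ⊢
  refine ⟨by linarith [h2.2], by linarith [h3.2], by linarith [h3.1]⟩

private theorem wB_bd {B : ℂ} (hB : ‖B‖ < 1 / 4) :
    4 / 5 < ((3 / 4 - B ^ 2 : ℂ) ^ (1 / 2 : ℂ)).re ∧
    |((3 / 4 - B ^ 2 : ℂ) ^ (1 / 2 : ℂ)).im| < 1 / 10 := by
  obtain ⟨h1, h2⟩ := zB hB
  set z : ℂ := 3 / 4 - B ^ 2 with hz
  have hs := sq_half z
  have hr := re_half z
  set w : ℂ := z ^ (1 / 2 : ℂ) with hw
  have e1 := congrArg Complex.re hs
  have e2 := congrArg Complex.im hs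
  rw [pow_two, Complex.mul_re] at e1
  rw [pow_two, Complex.mul_im] at e2
  have ha : 4 / 5 < w.re := by nlinarith [sq_nonneg w.im]
  refine ⟨ha, ?_⟩
  rw [abs_lt] at h2 ⊢
  constructor
  · by_contra hc
    push Not at hc
    nlinarith
  · by_contra hc
    push Not at hc
    nlinarith

private theorem yB_re' (B : ℂ) : (yB B).re = 1 / 2 - ((3 / 4 - B ^ 2 : ℂ) ^ (1 / 2 : ℂ)).im := by
  have e : (1 / 2 : ℂ) = ((1 / 2 : ℝ) : ℂ) := by push_cast; ring
  unfold yB
  rw [Complex.add_re, Complex.I_mul_re]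
  conv_lhs => rw [e, Complex.ofReal_re]
  rw [e]
  ring

private theorem yB_im' (B : ℂ) : (yB B).im = ((3 / 4 - B ^ 2 : ℂ) ^ (1 / 2 : ℂ)).re := by
  unfold yB
  rw [Complex.add_im, Complex.I_mul_im]
  have e : ((1 / 2 : ℂ)).im = 0 := by
    have e : (1 / 2 : ℂ) = ((1 / 2 : ℝ) : ℂ) := by push_cast; ring
    rw [e, Complex.ofReal_im]
  rw [e, zero_add]

private theorem omre : (om : ℂ).re = -(1 / 2) := by
  unfold om
  rw [Circle.coe_exp, Complex.exp_ofReal_mul_I_re]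
  have : 2 * Real.pi / 3 = Real.pi - Real.pi / 3 := by ring
  rw [this, Real.cos_pi_sub, Real.cos_pi_div_three]

private theorem omim : (om : ℂ).im = √3 / 2 := by
  unfold om
  rw [Circle.coe_exp, Complex.exp_ofReal_mul_I_im]
  have : 2 * Real.pi / 3 = Real.pi - Real.pi / 3 := by ring
  rw [this, Real.sin_pi_sub, Real.sin_pi_div_three]

private theorem div_om (y : ℂ) : y / (om : ℂ) = y * (starRingEnd ℂ) (om : ℂ) := by
  have h : (om : ℂ) * (starRingEnd ℂ) (om : ℂ) = 1 := by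
    rw [Complex.mul_conj, Circle.normSq_coe]; simp
  rw [div_eq_iff (om.coe_ne_zero), mul_assoc, mul_comm ((starRingEnd ℂ) (om : ℂ)), h, mul_one]

private theorem div_om_re (y : ℂ) : (y / (om : ℂ)).re = -(1 / 2) * y.re + √3 / 2 * y.im := by
  rw [div_om, Complex.mul_re, Complex.conj_re, Complex.conj_im, omre, omim]
  ring

private theorem div_om_im (y : ℂ) : (y / (om : ℂ)).im = -(1 / 2) * y.im - √3 / 2 * y.re := by
  rw [div_om, Complex.mul_im, Complex.conj_re, Complex.conj_im, omre, omim]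
  ring

theorem yB_re {B : ℂ} (hB : ‖B‖ < 1 / 4) : 0 < (yB B).re ∧ 0 < (yB B).im ∧
    0 < (yB B / (om : ℂ)).re := by
  obtain ⟨h1, h2⟩ := wB_bd hB
  rw [abs_lt] at h2
  rw [div_om_re, yB_re', yB_im']
  have h3 : (8 : ℝ) / 5 < √3 := by
    apply Real.lt_sqrt_of_sq_lt; norm_num
  refine ⟨by linarith [h2.2], by linarith, ?_⟩
  nlinarith [h2.1, h2.2]

private theorem one_yB_ne {B : ℂ} (hB : ‖B‖ < 1 / 4) : 1 + yB B ≠ 0 := by
  intro h
  have h1 := congrArg Complex.re h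
  rw [Complex.add_re, Complex.one_re, Complex.zero_re] at h1
  linarith [(yB_re hB).1]

theorem wB_mem {B : ℂ} (hB : ‖B‖ < 1 / 4) : thetaZ (xB B, yB B) = 1 := by
  unfold thetaZ
  have h1 : xB B ^ 2 = B ^ 2 * (1 + yB B) := by
    unfold xB
    rw [mul_pow, sq_half]
  have h2 : (yB B - 1 / 2) ^ 2 = B ^ 2 - 3 / 4 := by
    have : yB B - 1 / 2 = Complex.I * (3 / 4 - B ^ 2) ^ (1 / 2 : ℂ) := by unfold yB; ring
    rw [this, mul_pow, sq_half, Complex.I_sq]
    ring
  show xB B ^ 2 - yB B ^ 3 = 1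
  rw [h1]
  have h3 : B ^ 2 = (yB B - 1 / 2) ^ 2 + 3 / 4 := by rw [h2]; ring
  rw [h3]
  ring

theorem xyB_inv {B : ℂ} (hB : ‖B‖ < 1 / 4) : xB B * (1 + yB B) ^ (-(1 / 2) : ℂ) = B := by
  unfold xB
  rw [mul_assoc, ← Complex.cpow_add _ _ (one_yB_ne hB), add_neg_cancel, Complex.cpow_zero, mul_one]

theorem xyB_surj {x y : ℂ} (h : thetaZ (x, y) = 1) (hr : -1 < y.re) (hi : 0 < y.im)
    (hB : ‖x * (1 + y) ^ (-(1 / 2) : ℂ)‖ < 1 / 4) :
    xB (x * (1 + y) ^ (-(1 / 2) : ℂ)) = x ∧ yB (x * (1 + y) ^ (-(1 / 2) : ℂ)) = y := by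
  have hne : 1 + y ≠ 0 := by
    intro h0
    have h1 := congrArg Complex.re h0
    rw [Complex.add_re, Complex.one_re, Complex.zero_re] at h1
    linarith
  have hxy : x ^ 2 - y ^ 3 = 1 := h
  set B : ℂ := x * (1 + y) ^ (-(1 / 2) : ℂ) with hBd
  have hB2 : B ^ 2 = y ^ 2 - y + 1 := by
    rw [hBd, mul_pow, Complex.cpow_neg, inv_pow, sq_half]
    rw [mul_inv_eq_iff_eq_mul₀ hne]
    linear_combination hxy
  have hw : (3 / 4 - B ^ 2 : ℂ) ^ (1 / 2 : ℂ) = -Complex.I * (y - 1 / 2) := by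
    apply half_unique
    · rw [hB2, mul_pow, neg_sq, Complex.I_sq]
      ring
    · have e : (1 / 2 : ℂ).im = 0 := by
        have e : (1 / 2 : ℂ) = ((1 / 2 : ℝ) : ℂ) := by push_cast; ring
        rw [e, Complex.ofReal_im]
      rw [neg_mul, Complex.neg_re, Complex.I_mul_re, Complex.sub_im, e]
      linarith
  have hy : yB B = y := by
    unfold yB
    rw [hw]
    have : Complex.I * (-Complex.I * (y - 1 / 2)) = y - 1 / 2 := by
      linear_combination (-(y - 1 / 2)) * Complex.I_sq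
    rw [this]
    ring
  refine ⟨?_, hy⟩
  unfold xB
  rw [hy, hBd, mul_assoc, ← Complex.cpow_add _ _ hne, neg_add_cancel, Complex.cpow_zero, mul_one]

private theorem z_slit {B : ℂ} (hB : ‖B‖ < 1 / 4) : (3 / 4 - B ^ 2 : ℂ) ∈ Complex.slitPlane := by
  left
  linarith [(zB hB).1]

private theorem y_slit {B : ℂ} (hB : ‖B‖ < 1 / 4) : 1 + yB B ∈ Complex.slitPlane := by
  left
  rw [Complex.add_re, Complex.one_re]
  linarith [(yB_re hB).1]

theorem yB_continuousOn : ContinuousOn yB (Metric.ball 0 (1 / 4)) := by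
  unfold yB
  refine continuousOn_const.add (continuousOn_const.mul ?_)
  refine ContinuousOn.cpow (by fun_prop) continuousOn_const ?_
  intro B hB
  exact z_slit (by simpa using hB)

theorem xB_continuousOn : ContinuousOn xB (Metric.ball 0 (1 / 4)) := by
  unfold xB
  refine continuousOn_id.mul ?_
  refine ContinuousOn.cpow (continuousOn_const.add yB_continuousOn) continuousOn_const ?_
  intro B hB
  exact y_slit (by simpa using hB)

private theorem w_zero : ((3 / 4 - 0 ^ 2 : ℂ)) ^ (1 / 2 : ℂ) = ((√3 / 2 : ℝ) : ℂ) := by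
  apply half_unique
  · have h : ((√3 / 2 : ℝ) : ℂ) ^ 2 = (((√3 / 2) ^ 2 : ℝ) : ℂ) := by push_cast; ring
    rw [h, div_pow, Real.sq_sqrt (by norm_num)]
    push_cast
    norm_num
  · rw [Complex.ofReal_re]; positivity

theorem yB_zero : yB 0 = Complex.exp (Real.pi / 3 * Complex.I) ∧ xB 0 = 0 := by
  constructor
  · unfold yB
    rw [w_zero]
    have e : (Real.pi / 3 * Complex.I : ℂ) = ((Real.pi / 3 : ℝ) : ℂ) * Complex.I := by
      push_cast; ring
    apply Complex.ext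
    · rw [e, Complex.exp_ofReal_mul_I_re, Real.cos_pi_div_three, Complex.add_re, Complex.I_mul_re,
        Complex.ofReal_im]
      norm_num
    · rw [e, Complex.exp_ofReal_mul_I_im, Real.sin_pi_div_three, Complex.add_im, Complex.I_mul_im,
        Complex.ofReal_re]
      norm_num
  · unfold xB
    rw [zero_mul]

private theorem rt_one : rt 1 = 1 := by
  unfold rt
  simp

private theorem rt_om_mul : rt om * (om : ℂ) = -1 := by
  have h1 : Complex.arg (om : ℂ) = 2 * Real.pi / 3 := by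
    unfold om
    apply Circle.arg_exp
    · linarith [Real.pi_pos]
    · linarith [Real.pi_pos]
  unfold rt
  rw [h1]
  unfold om
  rw [Circle.coe_exp, ← Complex.exp_add]
  have : (((2 * Real.pi / 3 : ℝ) : ℂ) / 2 * Complex.I + ((2 * Real.pi / 3 : ℝ) : ℂ) * Complex.I) =
      Real.pi * Complex.I := by
    push_cast; ring
  rw [this, Complex.exp_pi_mul_I]

/-- The factor of the first side function. -/
private noncomputable def k1f (B : ℂ) : ℂ := yB B - 1 / 2

/-- The factor of the second side function. -/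
private noncomputable def k2f (B : ℂ) : ℂ := (yB B / (om : ℂ) - 1 / 2) *
  (starRingEnd ℂ) ((1 + yB B) ^ (1 / 2 : ℂ)) *
  (starRingEnd ℂ) ((1 + yB B / (om : ℂ)) ^ (-(1 / 2) : ℂ))

private theorem s6_one {B : ℂ} (hB : ‖B‖ < 1 / 4) :
    s6 ((xB B, yB B), 1) = (k1f B * (starRingEnd ℂ) B).re := by
  unfold s6 yp k1f
  simp only [rt_one, Circle.coe_one, div_one, one_mul, mul_one]
  have hc : (starRingEnd ℂ) B = (starRingEnd ℂ) (xB B) *
      (starRingEnd ℂ) ((1 + yB B) ^ (-(1 / 2) : ℂ)) := by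
    rw [← map_mul, xyB_inv hB]
  rw [hc]
  congr 1
  ring

private theorem s6_two (B : ℂ) :
    s6 (T3 ((xB B, yB B), 1)) = -(k2f B * (starRingEnd ℂ) B).re := by
  unfold s6 yp T3 k2f
  simp only [mul_one]
  rw [← Complex.neg_re]
  congr 1
  have h := rt_om_mul
  have hx : (starRingEnd ℂ) (xB B) = (starRingEnd ℂ) B * (starRingEnd ℂ) ((1 + yB B) ^ (1 / 2 : ℂ)) := by
    unfold xB
    rw [map_mul]
  rw [hx]
  linear_combination ((yB B / (om : ℂ) - 1 / 2) * ((starRingEnd ℂ) B *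
    (starRingEnd ℂ) ((1 + yB B) ^ (1 / 2 : ℂ))) *
    (starRingEnd ℂ) ((1 + yB B / (om : ℂ)) ^ (-(1 / 2) : ℂ))) * h

private theorem strict_re {h : ℂ → ℂ} (hh : ContDiffAt ℝ 1 h 0) :
    HasStrictFDerivAt (fun B : ℂ => (h B * (starRingEnd ℂ) B).re)
      ((h 0).re • Complex.reCLM + (h 0).im • Complex.imCLM) 0 := by
  have h1 := hh.hasStrictFDerivAt one_ne_zero
  have h2 : HasStrictFDerivAt (fun B : ℂ => (starRingEnd ℂ) B)
      ((Complex.conjCLE : ℂ ≃L[ℝ] ℂ) : ℂ →L[ℝ] ℂ) 0 :=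
    (Complex.conjCLE : ℂ ≃L[ℝ] ℂ).hasStrictFDerivAt
  have h3 := h1.mul h2
  have h4 := (Complex.reCLM.hasStrictFDerivAt (x := h 0 * (starRingEnd ℂ) 0)).comp 0 h3
  refine HasStrictFDerivAt.congr_fderiv (f := fun B : ℂ => (h B * (starRingEnd ℂ) B).re) h4 ?_
  refine ContinuousLinearMap.ext fun B => ?_
  simp

private theorem im_half : (1 / 2 : ℂ).im = 0 := by
  have e : (1 / 2 : ℂ) = ((1 / 2 : ℝ) : ℂ) := by push_cast; ring
  rw [e, Complex.ofReal_im]

private theorem re_half' : (1 / 2 : ℂ).re = 1 / 2 := by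
  have e : (1 / 2 : ℂ) = ((1 / 2 : ℝ) : ℂ) := by push_cast; ring
  rw [e, Complex.ofReal_re]

private theorem yB0_re : (yB 0).re = 1 / 2 := by
  rw [yB_re', w_zero, Complex.ofReal_im, sub_zero]

private theorem yB0_im : (yB 0).im = √3 / 2 := by
  rw [yB_im', w_zero, Complex.ofReal_re]

private theorem k1_zero : (k1f 0).re = 0 ∧ (k1f 0).im = √3 / 2 := by
  unfold k1f
  rw [Complex.sub_re, Complex.sub_im, yB0_re, yB0_im, re_half', im_half]
  constructor <;> ring

private theorem k2_zero : (k2f 0).re ≠ 0 := by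
  have hs : √3 * √3 = 3 := Real.mul_self_sqrt (by norm_num)
  have hs0 : 0 < √3 := Real.sqrt_pos.mpr (by norm_num)
  have hy : yB 0 = ((1 / 2 : ℝ) : ℂ) + ((√3 / 2 : ℝ) : ℂ) * Complex.I := by
    apply Complex.ext
    · rw [yB0_re]; simp
    · rw [yB0_im]; simp
  have hyo : yB 0 / (om : ℂ) = ((1 / 2 : ℝ) : ℂ) - ((√3 / 2 : ℝ) : ℂ) * Complex.I := by
    apply Complex.ext
    · rw [div_om_re, yB0_re, yB0_im]
      simp
      nlinarith
    · rw [div_om_im, yB0_re, yB0_im]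
      simp
      ring
  have hsC : ((√3 : ℝ) : ℂ) * ((√3 : ℝ) : ℂ) = 3 := by
    rw [← Complex.ofReal_mul, hs]; norm_num
  have hne : (1 + yB 0 / (om : ℂ)) ≠ 0 := by
    intro h0
    have h1 := congrArg Complex.re h0
    rw [Complex.add_re, Complex.one_re, Complex.zero_re, hyo] at h1
    simp at h1
    norm_num at h1
  have hsq : k2f 0 ^ 2 = -(3 / 4) * (((1 / 2 : ℝ) : ℂ) - ((√3 / 2 : ℝ) : ℂ) * Complex.I) := by
    unfold k2f
    rw [mul_pow, mul_pow, ← map_pow, ← map_pow, sq_half, Complex.cpow_neg, inv_pow, sq_half, map_inv₀,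
      hyo, hy]
    have e1 : (starRingEnd ℂ) (1 + (((1 / 2 : ℝ) : ℂ) + ((√3 / 2 : ℝ) : ℂ) * Complex.I)) =
        1 + (((1 / 2 : ℝ) : ℂ) - ((√3 / 2 : ℝ) : ℂ) * Complex.I) := by
      rw [map_add, map_one, map_add, map_mul, Complex.conj_ofReal, Complex.conj_ofReal,
        Complex.conj_I]
      ring
    have e2 : (starRingEnd ℂ) (1 + (((1 / 2 : ℝ) : ℂ) - ((√3 / 2 : ℝ) : ℂ) * Complex.I)) =
        1 + (((1 / 2 : ℝ) : ℂ) + ((√3 / 2 : ℝ) : ℂ) * Complex.I) := by
      rw [map_add, map_one, map_sub, map_mul, Complex.conj_ofReal, Complex.conj_ofReal,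
        Complex.conj_I]
      ring
    have hne2 : 1 + (((1 / 2 : ℝ) : ℂ) + ((√3 / 2 : ℝ) : ℂ) * Complex.I) ≠ 0 := by
      intro h0
      have h1 := congrArg Complex.re h0
      simp at h1
      norm_num at h1
    rw [e1, e2]
    rw [mul_inv_eq_iff_eq_mul₀ hne2]
    push_cast
    have hI := Complex.I_sq
    generalize ((√3 : ℝ) : ℂ) = s at hsC ⊢
    have hss : s ^ 2 = 3 := by rw [← hsC]; ring
    have hs3 : s ^ 3 = 3 * s := by rw [← hss]; ring
    have hI3 : Complex.I ^ 3 = -Complex.I := by rw [pow_succ, hI]; ring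
    ring_nf
    rw [hI3, hI, hs3, hss]
    ring
  intro h0
  have h1 := congrArg Complex.im hsq
  rw [pow_two, Complex.mul_im, h0] at h1
  have e : (-(3 / 4) * (((1 / 2 : ℝ) : ℂ) - ((√3 / 2 : ℝ) : ℂ) * Complex.I) : ℂ) =
      ((-(3 / 8) : ℝ) : ℂ) + ((3 * √3 / 8 : ℝ) : ℂ) * Complex.I := by
    push_cast; ring
  rw [e] at h1
  simp at h1
  linarith

private theorem yB_an : AnalyticAt ℂ yB 0 := by
  unfold yB
  have hm := z_slit (B := 0) (by simp)
  exact analyticAt_const.add (analyticAt_const.mul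
    ((analyticAt_const.sub (analyticAt_id.pow 2)).cpow analyticAt_const hm))

private theorem k1_cd : ContDiffAt ℝ 1 k1f 0 := by
  have h : AnalyticAt ℂ k1f 0 := yB_an.sub analyticAt_const
  exact (h.contDiffAt (n := 1)).restrict_scalars ℝ

private theorem k2_cd : ContDiffAt ℝ 1 k2f 0 := by
  have h1 : AnalyticAt ℂ (fun B => yB B / (om : ℂ) - 1 / 2) 0 :=
    (yB_an.div analyticAt_const om.coe_ne_zero).sub analyticAt_const
  have h2 : AnalyticAt ℂ (fun B => (1 + yB B) ^ (1 / 2 : ℂ)) 0 :=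
    (analyticAt_const.add yB_an).cpow analyticAt_const (y_slit (by simp))
  have h3 : AnalyticAt ℂ (fun B => (1 + yB B / (om : ℂ)) ^ (-(1 / 2) : ℂ)) 0 := by
    refine (analyticAt_const.add (yB_an.div analyticAt_const om.coe_ne_zero)).cpow
      analyticAt_const ?_
    left
    have h := (yB_re (B := 0) (by simp)).2.2
    show 0 < (1 + yB 0 / (om : ℂ)).re
    rw [Complex.add_re, Complex.one_re]
    linarith
  have c1 := (h1.contDiffAt (n := 1)).restrict_scalars ℝ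
  have c2 := (h2.contDiffAt (n := 1)).restrict_scalars ℝ
  have c3 := (h3.contDiffAt (n := 1)).restrict_scalars ℝ
  have c2' : ContDiffAt ℝ 1 (fun B => (starRingEnd ℂ) ((1 + yB B) ^ (1 / 2 : ℂ))) 0 :=
    ((Complex.conjCLE : ℂ ≃L[ℝ] ℂ).contDiff.contDiffAt).comp 0 c2
  have c3' : ContDiffAt ℝ 1
      (fun B => (starRingEnd ℂ) ((1 + yB B / (om : ℂ)) ^ (-(1 / 2) : ℂ))) 0 :=
    ((Complex.conjCLE : ℂ ≃L[ℝ] ℂ).contDiff.contDiffAt).comp 0 c3
  exact (c1.mul c2').mul c3'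

/-- The two side functions as a map. -/
private noncomputable def GG (B : ℂ) : ℝ × ℝ :=
  ((k1f B * (starRingEnd ℂ) B).re, -(k2f B * (starRingEnd ℂ) B).re)

private noncomputable def fwd (c p r : ℝ) : ℂ →L[ℝ] ℝ × ℝ :=
  (c • Complex.imCLM).prod (p • Complex.reCLM + r • Complex.imCLM)

private noncomputable def bwd (c p r : ℝ) : ℝ × ℝ →L[ℝ] ℂ :=
  (ContinuousLinearMap.fst ℝ ℝ ℝ).smulRight (⟨-(r / (c * p)), 1 / c⟩ : ℂ) +
  (ContinuousLinearMap.snd ℝ ℝ ℝ).smulRight (⟨1 / p, 0⟩ : ℂ)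

private noncomputable def eqv (c p r : ℝ) (hc : c ≠ 0) (hp : p ≠ 0) : ℂ ≃L[ℝ] ℝ × ℝ :=
  ContinuousLinearEquiv.equivOfInverse (fwd c p r) (bwd c p r)
    (by
      intro B
      apply Complex.ext
      · simp [fwd, bwd]
        field_simp
        ring
      · simp [fwd, bwd]
        field_simp)
    (by
      rintro ⟨u, v⟩
      simp [fwd, bwd]
      constructor
      · field_simp
      · field_simp
        ring)

private theorem GG_strict : HasStrictFDerivAt GG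
    ((eqv (√3 / 2) (-(k2f 0).re) (-(k2f 0).im) (by positivity)
      (neg_ne_zero.mpr k2_zero) : ℂ ≃L[ℝ] ℝ × ℝ) : ℂ →L[ℝ] ℝ × ℝ) 0 := by
  have h1 := strict_re k1_cd
  have h2 := (strict_re k2_cd).neg
  have h3 := h1.prodMk h2
  rw [k1_zero.1, k1_zero.2] at h3
  refine HasStrictFDerivAt.congr_fderiv (f := GG) h3 ?_
  refine ContinuousLinearMap.ext fun B => ?_
  refine Prod.ext ?_ ?_
  · simp [eqv, fwd]
  · simp [eqv, fwd]
    ring

private theorem GG_zero : GG 0 = (0, 0) := by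
  unfold GG
  simp

private theorem sq_bd {ε : ℝ} (hε : 0 < ε) (a : ℝ) : |ε * a / (1 + |a|)| < ε := by
  have h : 0 < 1 + |a| := by positivity
  rw [abs_div, abs_of_pos h, div_lt_iff₀ h, abs_mul, abs_of_pos hε]
  nlinarith [abs_nonneg a]

private theorem sq_inv1 {ε : ℝ} (hε : 0 < ε) (a : ℝ) :
    (ε * a / (1 + |a|)) / (ε - |ε * a / (1 + |a|)|) = a := by
  have h : 0 < 1 + |a| := by positivity
  rw [abs_div, abs_of_pos h, abs_mul, abs_of_pos hε]
  have e : ε - ε * |a| / (1 + |a|) = ε / (1 + |a|) := by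
    field_simp
    ring
  rw [e]
  field_simp

private theorem sq_inv2 {ε : ℝ} (hε : 0 < ε) {u : ℝ} (hu : |u| < ε) :
    ε * (u / (ε - |u|)) / (1 + |u / (ε - |u|)|) = u := by
  have h : 0 < ε - |u| := by linarith
  rw [abs_div, abs_of_pos h]
  have e : 1 + |u| / (ε - |u|) = ε / (ε - |u|) := by
    field_simp
    ring
  rw [e]
  field_simp

private theorem sq_sign {ε : ℝ} (hε : 0 < ε) (a : ℝ) :
    SignType.sign (ε * a / (1 + |a|)) = SignType.sign a := by
  have h : 0 < 1 + |a| := by positivity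
  have e : ε * a / (1 + |a|) = (ε / (1 + |a|)) * a := by ring
  rw [e, sign_mul, sign_pos (by positivity), one_mul]

/-- Coordinates in which the two side functions have the signs of the coordinates. -/
theorem side_chart : ∃ (j : ℝ × ℝ → ℂ) (ψ : ℂ → ℝ × ℝ) (V : Set ℂ), IsOpen V ∧
    V ⊆ Metric.ball 0 (1 / 4) ∧ SHomeo univ V j ψ ∧ j (0, 0) = 0 ∧
    (∀ a b, SignType.sign (s6 ((xB (j (a, b)), yB (j (a, b))), 1)) = SignType.sign a) ∧
    ∀ a b, SignType.sign (s6 (T3 ((xB (j (a, b)), yB (j (a, b))), 1))) = SignType.sign b := by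
  set e : OpenPartialHomeomorph ℂ (ℝ × ℝ) := GG_strict.toOpenPartialHomeomorph GG with he
  have hcoe : (e : ℂ → ℝ × ℝ) = GG := GG_strict.toOpenPartialHomeomorph_coe
  have h0s : (0 : ℂ) ∈ e.source := GG_strict.mem_toOpenPartialHomeomorph_source
  -- the open subset of the target
  have hT : IsOpen (e.target ∩ e.symm ⁻¹' Metric.ball (0 : ℂ) (1 / 4)) :=
    e.isOpen_inter_preimage_symm Metric.isOpen_ball
  have he0 : e 0 = (0, 0) := by rw [hcoe]; exact GG_zero
  have hsym0 : e.symm (0, 0) = 0 := by rw [← he0]; exact e.left_inv h0s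
  have h0T : ((0, 0) : ℝ × ℝ) ∈ e.target ∩ e.symm ⁻¹' Metric.ball (0 : ℂ) (1 / 4) := by
    refine ⟨?_, ?_⟩
    · rw [← he0]; exact e.map_source h0s
    · rw [mem_preimage, hsym0]
      exact Metric.mem_ball_self (by norm_num)
  obtain ⟨ε, hε, hball⟩ := Metric.isOpen_iff.mp hT _ h0T
  have hsq : ∀ u v : ℝ, |u| < ε → |v| < ε →
      ((u, v) : ℝ × ℝ) ∈ e.target ∩ e.symm ⁻¹' Metric.ball (0 : ℂ) (1 / 4) := by
    intro u v hu hv
    apply hball
    rw [Metric.mem_ball, Prod.dist_eq, Real.dist_eq, Real.dist_eq]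
    simp [hu, hv]
  set j : ℝ × ℝ → ℂ := fun p => e.symm (ε * p.1 / (1 + |p.1|), ε * p.2 / (1 + |p.2|)) with hj
  set ψ : ℂ → ℝ × ℝ := fun B => ((e B).1 / (ε - |(e B).1|), (e B).2 / (ε - |(e B).2|)) with hψ
  set Q : Set (ℝ × ℝ) := {p | |p.1| < ε ∧ |p.2| < ε} with hQ
  have hQo : IsOpen Q := by
    have h1 : IsOpen {p : ℝ × ℝ | |p.1| < ε} :=
      isOpen_lt (by fun_prop) continuous_const
    have h2 : IsOpen {p : ℝ × ℝ | |p.2| < ε} :=
      isOpen_lt (by fun_prop) continuous_const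
    exact h1.inter h2
  set V : Set ℂ := (e.source ∩ e ⁻¹' Q) ∩ Metric.ball 0 (1 / 4) with hV
  have hjm : ∀ p, j p ∈ V ∧ e (j p) = (ε * p.1 / (1 + |p.1|), ε * p.2 / (1 + |p.2|)) := by
    intro p
    have hm := hsq _ _ (sq_bd hε p.1) (sq_bd hε p.2)
    have hr : e (j p) = (ε * p.1 / (1 + |p.1|), ε * p.2 / (1 + |p.2|)) := e.right_inv hm.1
    refine ⟨⟨⟨e.map_target hm.1, ?_⟩, hm.2⟩, hr⟩
    rw [mem_preimage, hr]
    exact ⟨sq_bd hε p.1, sq_bd hε p.2⟩
  refine ⟨j, ψ, V, (e.isOpen_inter_preimage hQo).inter Metric.isOpen_ball, inter_subset_right,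
    ⟨?_, ?_, fun p _ => (hjm p).1, fun _ _ => mem_univ _, ?_, ?_⟩, ?_, ?_, ?_⟩
  · -- continuity of j
    have hc : Continuous fun p : ℝ × ℝ =>
        ((ε * p.1 / (1 + |p.1|), ε * p.2 / (1 + |p.2|)) : ℝ × ℝ) := by
      refine Continuous.prodMk ?_ ?_
      · exact Continuous.div (by fun_prop) (by fun_prop) (fun p => by positivity)
      · exact Continuous.div (by fun_prop) (by fun_prop) (fun p => by positivity)
    refine e.symm.continuousOn.comp hc.continuousOn ?_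
    intro p _
    exact (hsq _ _ (sq_bd hε p.1) (sq_bd hε p.2)).1
  · -- continuity of ψ
    have hce : ContinuousOn e V := e.continuousOn.mono fun B hB => hB.1.1
    have h1 : ContinuousOn (fun B => (e B).1) V := continuous_fst.comp_continuousOn hce
    have h2 : ContinuousOn (fun B => (e B).2) V := continuous_snd.comp_continuousOn hce
    refine ContinuousOn.prodMk ?_ ?_
    · refine h1.div (continuousOn_const.sub h1.abs) ?_
      intro B hB
      have := hB.1.2.1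
      linarith
    · refine h2.div (continuousOn_const.sub h2.abs) ?_
      intro B hB
      have := hB.1.2.2
      linarith
  · -- left inverse
    intro p _
    obtain ⟨-, hr⟩ := hjm p
    simp only [hψ]
    rw [hr]
    exact Prod.ext (sq_inv1 hε p.1) (sq_inv1 hε p.2)
  · -- right inverse
    intro B hB
    simp only [hj, hψ]
    have h1 : |(e B).1| < ε := hB.1.2.1
    have h2 : |(e B).2| < ε := hB.1.2.2
    rw [sq_inv2 hε h1, sq_inv2 hε h2]
    exact e.left_inv hB.1.1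
  · simp only [hj]
    simp only [mul_zero, zero_div]
    exact hsym0
  · intro a b
    obtain ⟨hm, hr⟩ := hjm (a, b)
    have hn : ‖j (a, b)‖ < 1 / 4 := by simpa using hm.2
    have h1 : (e (j (a, b))).1 = ε * a / (1 + |a|) := by rw [hr]
    rw [hcoe] at h1
    rw [s6_one hn]
    have h2 : (k1f (j (a, b)) * (starRingEnd ℂ) (j (a, b))).re = ε * a / (1 + |a|) := h1
    rw [h2, sq_sign hε]
  · intro a b
    obtain ⟨hm, hr⟩ := hjm (a, b)
    have h1 : (e (j (a, b))).2 = ε * b / (1 + |b|) := by rw [hr]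
    rw [hcoe] at h1
    rw [s6_two]
    have h2 : -(k2f (j (a, b)) * (starRingEnd ℂ) (j (a, b))).re = ε * b / (1 + |b|) := h1
    rw [h2, sq_sign hε]

end Pool.Agent.Helper77.DS
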