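import Pool.Agent.Helper77.DS.CjA
import Pool.Agent.Helper77.DS.ChA

/-!
# DS-CjB: the chart of `O3` at `P0` in which the seven cocycles `fs1` are the coordinate cocycles

`b t = t / (1 + |t|)`, `j, V, ψ` from `side_chart`. For `x : Fin 7 → ℝ` let `B = j (x 5, x 6)`, `ζ = Circle.exp (b (x 4) / 2)`,
`r = exp (i b (x 4) / 4) = rt ζ`, `v = Circle.exp (b (x 0) / 2)` and
`jj x = ((((chart ![3 + b (x 1) / 2, b (x 2), b (x 3)], 0), v / ζ), (r ^ 3 * xB B, ζ * yB B)), v)`.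
It lies in `O3` (`O3_iff`; `(3 + b/2)² > 4`; `(r³ xB)² - (ζ yB)³ = ζ³`). Image: `O3 ∩ W`, `W` the open set of the `u` with
`0 < A 0 0`, `|A 0 1 / A 0 0 - 3| < 1/2`, `|A 0 2 / A 0 0| < 1`, `|A 0 3 / A 0 0| < 1`, `v` and `ζ = cZ u` in the open arc of
the `exp (i s)`, `|s| < 1/2`, `Re y' > -1`, `Im y' > 0` (`y' = yp (c3 u)`), `B = x conj(rt ζ)³ (1 + y')^(-1/2) ∈ V`
(`xyB_surj`); the inverse map is continuous there.
Signs: `Ls v 1 = sin (b (x 0) / 4)`, `∑ Lq A i h1 i = (b (x 1) / 2) / norm`, `∑ Lq A i h2 i = b (x 2) / norm`, ..., `Ls ζ 1`,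
`s6 (c3 u) = s6 ((xB B, yB B), 1)` (`r conj(r)³ ζ = 1`), `s6 (T3 (c3 u)) = s6 (T3 ((xB B, yB B), 1))`
(`rt (om ζ) = exp (i π / 3) rt ζ`) have the signs of `x 0, ..., x 6` (`Lq_chart`), so `ind` of them is `ind (x i)`. The frames
`Ls ∘ cV`, `Lq ∘ cA`, `Ls ∘ cZ`, `Ls ∘ (·.2) ∘ T3 ∘ c3` are continuous along `jj` (`rt_contAt`: `v, ζ, om ζ ≠ -1`), so the `kap` terms are
locally zero (`kap_LZat`); `al_near` applies along `c3 ∘ jj` and `T3 ∘ c3 ∘ jj` (`yB_re`). Mod 2 signs do not matter.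
-/

namespace Pool.Agent.Helper77.DS

open Set Complex Helper36.AS

namespace CjB

/-! ### Squashing the line -/

/-- The homeomorphism of the line onto `(-1, 1)`. -/
noncomputable def bb (t : ℝ) : ℝ := t / (1 + |t|)

/-- Its inverse. -/
noncomputable def bi (s : ℝ) : ℝ := s / (1 - |s|)

theorem bb_abs (t : ℝ) : |bb t| = |t| / (1 + |t|) := by
  unfold bb
  rw [abs_div, abs_of_pos (a := 1 + |t|) (by positivity)]

theorem bb_lt (t : ℝ) : |bb t| < 1 := by
  rw [bb_abs, div_lt_one (by positivity)]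
  linarith

theorem bi_bb (t : ℝ) : bi (bb t) = t := by
  unfold bi
  rw [bb_abs]
  unfold bb
  have : (0 : ℝ) < 1 + |t| := by positivity
  field_simp
  ring

theorem bb_bi {s : ℝ} (h : |s| < 1) : bb (bi s) = s := by
  unfold bb bi
  have h1 : 0 < 1 - |s| := by linarith
  rw [abs_div, abs_of_pos h1]
  field_simp
  ring

theorem bb_cont : Continuous bb := by
  unfold bb
  refine Continuous.div continuous_id (by fun_prop) fun t => ?_
  positivity

theorem bi_contAt {s : ℝ} (h : |s| < 1) : ContinuousAt bi s := by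
  unfold bi
  refine ContinuousAt.div continuousAt_id (by fun_prop) ?_
  linarith

theorem bb_nonneg (t : ℝ) : 0 ≤ bb t ↔ 0 ≤ t := by
  unfold bb
  have h : (0 : ℝ) < 1 + |t| := by positivity
  constructor
  · intro h1
    by_contra h2
    push Not at h2
    have := div_neg_of_neg_of_pos h2 h
    linarith
  · intro h1
    positivity

/-! ### The arc -/

/-- The arc. -/
noncomputable def cc (t : ℝ) : Circle := Circle.exp (bb t / 2)

theorem cc_cont : Continuous cc := by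
  unfold cc
  exact Circle.exp.continuous.comp (bb_cont.div_const 2)

theorem rt_exp {s : ℝ} (h1 : -Real.pi < s) (h2 : s ≤ Real.pi) :
    rt (Circle.exp s) = Complex.exp ((s / 2 : ℝ) * Complex.I) := by
  unfold rt
  rw [Circle.arg_exp h1 h2]
  push_cast
  rfl

theorem bb_bd (t : ℝ) : -(1 / 2) < bb t / 2 ∧ bb t / 2 < 1 / 2 := by
  have := abs_lt.1 (bb_lt t)
  constructor <;> linarith

theorem pi_gt : (3 : ℝ) < Real.pi := Real.pi_gt_three

theorem arg_cc (t : ℝ) : Complex.arg (cc t : ℂ) = bb t / 2 := by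
  have := bb_bd t
  have := pi_gt
  exact Circle.arg_exp (by linarith) (by linarith)

theorem rt_cc (t : ℝ) : rt (cc t) = Complex.exp ((bb t / 4 : ℝ) * Complex.I) := by
  have := bb_bd t
  have := pi_gt
  unfold cc
  rw [rt_exp (by linarith) (by linarith)]
  congr 3
  ring

theorem rt_one : rt 1 = 1 := by
  unfold rt
  simp

theorem rt_om : rt om = Complex.exp ((Real.pi / 3 : ℝ) * Complex.I) := by
  unfold om
  have := pi_gt
  rw [rt_exp (by linarith) (by linarith)]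
  congr 3
  ring

theorem om_mul_cc (t : ℝ) : om * cc t = Circle.exp (2 * Real.pi / 3 + bb t / 2) := by
  unfold om cc
  rw [Circle.exp_add]

theorem rt_om_cc (t : ℝ) : rt (om * cc t) = rt om * rt (cc t) := by
  have := bb_bd t
  have := pi_gt
  rw [om_mul_cc, rt_exp (by linarith) (by linarith), rt_om, rt_cc, ← Complex.exp_add]
  congr 1
  push_cast
  ring

theorem cc_ne (t : ℝ) : cc t ≠ Circle.exp Real.pi := by
  intro h
  have h1 := arg_cc t
  have := pi_gt
  rw [h, Circle.arg_exp (by linarith) le_rfl] at h1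
  have := bb_bd t
  linarith

theorem om_cc_ne (t : ℝ) : om * cc t ≠ Circle.exp Real.pi := by
  intro h
  rw [om_mul_cc] at h
  have := pi_gt
  have := bb_bd t
  have h1 := congrArg (fun z : Circle => Complex.arg (z : ℂ)) h
  rw [Circle.arg_exp (by linarith) (by linarith), Circle.arg_exp (by linarith) le_rfl] at h1
  linarith

theorem Ls_cc (t : ℝ) : Ls (cc t) 1 = Real.sin (bb t / 4) := by
  change (rt (cc t)).im = _
  rw [rt_cc, Complex.exp_ofReal_mul_I_im]

theorem Ls_cc_nonneg (t : ℝ) : 0 ≤ Ls (cc t) 1 ↔ 0 ≤ t := by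
  rw [Ls_cc, ← bb_nonneg t]
  have := bb_bd t
  have := pi_gt
  constructor
  · intro h
    by_contra h1
    push Not at h1
    have := Real.sin_neg_of_neg_of_neg_pi_lt (x := bb t / 4) (by linarith) (by linarith)
    linarith
  · intro h
    exact Real.sin_nonneg_of_nonneg_of_le_pi (by linarith) (by linarith)

theorem cc_bi {z : Circle} (h : |2 * Complex.arg (z : ℂ)| < 1) : cc (bi (2 * Complex.arg (z : ℂ))) = z := by
  unfold cc
  rw [bb_bi h]
  have : 2 * Complex.arg (z : ℂ) / 2 = Complex.arg (z : ℂ) := by ring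
  rw [this, Circle.exp_arg]

theorem arg_contAt {z : Circle} (h : |2 * Complex.arg (z : ℂ)| < 1) :
    ContinuousAt (fun z : Circle => Complex.arg (z : ℂ)) z := by
  have h1 : (z : ℂ) ∈ Complex.slitPlane := by
    rw [Complex.mem_slitPlane_iff_arg]
    refine ⟨?_, z.coe_ne_zero⟩
    intro h2
    rw [h2] at h
    have := pi_gt
    have := abs_lt.1 h
    linarith
  exact ContinuousAt.comp (f := fun w : Circle => (w : ℂ)) (g := Complex.arg)
      (Complex.continuousAt_arg h1) continuous_subtype_val.continuousAt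

theorem isOpen_arc : IsOpen {z : Circle | |2 * Complex.arg (z : ℂ)| < 1} := by
  rw [isOpen_iff_mem_nhds]
  intro z hz
  have h := (arg_contAt hz).const_mul 2 |>.abs
  exact h.eventually_lt_const hz

theorem arc_ne {z : Circle} (h : |2 * Complex.arg (z : ℂ)| < 1) : z ≠ Circle.exp Real.pi := by
  intro h1
  have := pi_gt
  rw [h1, Circle.arg_exp (by linarith) le_rfl] at h
  have := abs_lt.1 h
  linarith

/-! ### Cochains -/

section Coch

variable {X Y : Type*} [TopologicalSpace X] [TopologicalSpace Y] {k : ℕ}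

omit [TopologicalSpace X] [TopologicalSpace Y] in
theorem pull_kap (φ : X → Y) (L : Y → Fin k → ℝ) : pull φ (kap L) = kap (fun x => L (φ x)) := by
  funext l
  match l with
  | [] => rfl
  | [_] => rfl
  | [_, _] => rfl
  | _ :: _ :: _ :: _ => rfl

omit [TopologicalSpace X] [TopologicalSpace Y] in
theorem pull_ind (φ : X → Y) (s : Y → ℝ) : pull φ (ind s) = ind (fun x => s (φ x)) := by
  funext l
  match l with
  | [] => rfl
  | [_] => rfl
  | _ :: _ :: _ => rfl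

omit [TopologicalSpace X] [TopologicalSpace Y] in
theorem pull_dind (φ : X → Y) (s : Y → ℝ) :
    pull φ (d (ind s)) = d (ind (fun x => s (φ x))) := by
  rw [← d_pull', pull_ind]

omit [TopologicalSpace X] [TopologicalSpace Y] in
theorem pull_pull' {Z : Type*} (φ : X → Y) (ψ : Y → Z) (f : List Z → ZMod 2) :
    pull φ (pull ψ f) = pull (fun x => ψ (φ x)) f := by
  funext l
  unfold pull
  rw [List.map_map]
  rfl

omit [TopologicalSpace X] in
theorem ind_congr {s s' : X → ℝ} (h : ∀ x, 0 ≤ s x ↔ 0 ≤ s' x) : ind s = ind s' := by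
  funext l
  match l with
  | [] => rfl
  | [x] => simp only [ind, h x]
  | _ :: _ :: _ => rfl

theorem frame_LZ (L : X → Fin k → ℝ) (hL : ∀ x, ∑ i, L x i ^ 2 = 1)
    (hc : ∀ i, Continuous fun x => L x i) {s s' : X → ℝ} (h : ∀ x, 0 ≤ s x ↔ 0 ≤ s' x) :
    LZ univ 2 (kap L + d (ind s) - d (ind s')) := by
  rw [ind_congr h, add_sub_cancel_right]
  intro p hp
  exact kap_LZat L (fun x _ => hL x) hp fun i => (hc i).continuousWithinAt

end Coch

/-! ### The chart -/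

/-- The coordinates in `RP3`. -/
noncomputable def pp (x : Fin 7 → ℝ) : Fin 3 → ℝ := ![3 + bb (x 1) / 2, bb (x 2), bb (x 3)]

/-- The chart. -/
noncomputable def jj (j0 : ℝ × ℝ → ℂ) (x : Fin 7 → ℝ) : UT :=
  ((((chart (pp x), 0), cc (x 0) / cc (x 4)),
    (rt (cc (x 4)) ^ 3 * xB (j0 (x 5, x 6)), (cc (x 4) : ℂ) * yB (j0 (x 5, x 6)))), cc (x 0))

/-- The number `B` of a point. -/
noncomputable def BU (u : UT) : ℂ :=
  (c3 u).1.1 * ((starRingEnd ℂ) (rt (cZ u))) ^ 3 * (1 + yp (c3 u)) ^ (-(1 / 2) : ℂ)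

/-- The inverse chart. -/
noncomputable def pj (ψ0 : ℂ → ℝ × ℝ) (u : UT) : Fin 7 → ℝ :=
  ![bi (2 * Complex.arg (cV u : ℂ)), bi (2 * (cA u 0 1 / cA u 0 0 - 3)),
    bi (cA u 0 2 / cA u 0 0), bi (cA u 0 3 / cA u 0 0),
    bi (2 * Complex.arg (cZ u : ℂ)), (ψ0 (BU u)).1, (ψ0 (BU u)).2]

/-- The first conditions. -/
def W0 : Set UT := {u | 0 < cA u 0 0 ∧ |2 * Complex.arg (cV u : ℂ)| < 1 ∧
  |2 * Complex.arg (cZ u : ℂ)| < 1 ∧ -1 < (yp (c3 u)).re ∧ 0 < (yp (c3 u)).im}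

/-- The domain. -/
def WW (V0 : Set ℂ) : Set UT := {u | u ∈ W0 ∧ |2 * (cA u 0 1 / cA u 0 0 - 3)| < 1 ∧
  |cA u 0 2 / cA u 0 0| < 1 ∧ |cA u 0 3 / cA u 0 0| < 1 ∧ BU u ∈ V0}

theorem isOpen_W0 : IsOpen W0 := by
  have hA : Continuous fun u : UT => cA u 0 0 := by
    exact (continuous_apply_apply (0 : Fin 4) (0 : Fin 4)).comp cA_continuous
  have hy : Continuous fun u : UT => yp (c3 u) := yp_continuous.comp c3_continuous
  exact (isOpen_lt continuous_const hA).inter ((isOpen_arc.preimage cV_continuous).inter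
    ((isOpen_arc.preimage cZ_continuous).inter
    ((isOpen_lt continuous_const (Complex.continuous_re.comp hy)).inter
    (isOpen_lt continuous_const (Complex.continuous_im.comp hy)))))

theorem quot_contAt {u : UT} (hu : u ∈ W0) (i : Fin 4) :
    ContinuousAt (fun u : UT => cA u 0 i / cA u 0 0) u := by
  have hA : ∀ i, Continuous fun u : UT => cA u 0 i := fun i =>
    (continuous_apply_apply (0 : Fin 4) i).comp cA_continuous
  exact (hA i).continuousAt.div (hA 0).continuousAt hu.1.ne'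

theorem BU_contAt {u : UT} (hu : u ∈ W0) : ContinuousAt BU u := by
  have hy : Continuous fun u : UT => yp (c3 u) := yp_continuous.comp c3_continuous
  have h1 : ContinuousAt (fun u : UT => (1 + yp (c3 u)) ^ (-(1 / 2) : ℂ)) u := by
    refine ContinuousAt.cpow (continuousAt_const.add hy.continuousAt) continuousAt_const ?_
    left
    have := hu.2.2.2.1
    simp
    linarith
  have h2 : ContinuousAt (fun u : UT => rt (cZ u)) u :=
    ContinuousAt.comp (f := cZ) (g := rt) (rt_contAt (arc_ne hu.2.2.1)) cZ_continuous.continuousAt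
  have h3 : Continuous (fun u : UT => (c3 u).1.1) :=
    continuous_fst.comp (continuous_fst.comp c3_continuous)
  exact (h3.continuousAt.mul ((Complex.continuous_conj.continuousAt.comp h2).pow 3)).mul h1

theorem isOpen_WW {V0 : Set ℂ} (hV : IsOpen V0) : IsOpen (WW V0) := by
  rw [isOpen_iff_mem_nhds]
  rintro u ⟨h0, h1, h2, h3, h4⟩
  have e0 := isOpen_W0.mem_nhds h0
  have e1 := (((quot_contAt h0 1).sub continuousAt_const).const_mul 2 |>.abs).eventually_lt_const h1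
  have e2 := ((quot_contAt h0 2).abs).eventually_lt_const h2
  have e3 := ((quot_contAt h0 3).abs).eventually_lt_const h3
  have e4 := (BU_contAt h0).eventually_mem (hV.mem_nhds h4)
  filter_upwards [e0, e1, e2, e3, e4] with x a0 a1 a2 a3 a4
  exact ⟨a0, a1, a2, a3, a4⟩

theorem pj_contOn {V0 : Set ℂ} (hV : IsOpen V0) {ψ0 : ℂ → ℝ × ℝ} (hψ : ContinuousOn ψ0 V0) :
    ContinuousOn (pj ψ0) (WW V0) := by
  rintro u ⟨h0, h1, h2, h3, h4⟩
  refine ContinuousAt.continuousWithinAt ?_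
  have hB : ContinuousAt (fun u => ψ0 (BU u)) u :=
    ContinuousAt.comp (f := BU) (g := ψ0) (hψ.continuousAt (hV.mem_nhds h4)) (BU_contAt h0)
  have hcV : ContinuousAt (fun u : UT => Complex.arg (cV u : ℂ)) u :=
    ContinuousAt.comp (f := cV) (g := fun z : Circle => Complex.arg (z : ℂ)) (arg_contAt h0.2.1)
      cV_continuous.continuousAt
  have hcZ : ContinuousAt (fun u : UT => Complex.arg (cZ u : ℂ)) u :=
    ContinuousAt.comp (f := cZ) (g := fun z : Circle => Complex.arg (z : ℂ)) (arg_contAt h0.2.2.1)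
      cZ_continuous.continuousAt
  rw [continuousAt_pi]
  intro i
  fin_cases i
  · exact ContinuousAt.comp (g := bi) (f := fun u : UT => 2 * Complex.arg (cV u : ℂ))
      (bi_contAt h0.2.1) (hcV.const_mul 2)
  · exact ContinuousAt.comp (g := bi) (f := fun u : UT => 2 * (cA u 0 1 / cA u 0 0 - 3))
      (bi_contAt h1) (((quot_contAt h0 1).sub continuousAt_const).const_mul 2)
  · exact ContinuousAt.comp (g := bi) (f := fun u : UT => cA u 0 2 / cA u 0 0)
      (bi_contAt h2) (quot_contAt h0 2)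
  · exact ContinuousAt.comp (g := bi) (f := fun u : UT => cA u 0 3 / cA u 0 0)
      (bi_contAt h3) (quot_contAt h0 3)
  · exact ContinuousAt.comp (g := bi) (f := fun u : UT => 2 * Complex.arg (cZ u : ℂ))
      (bi_contAt h0.2.2.1) (hcZ.const_mul 2)
  · exact continuous_fst.continuousAt.comp hB
  · exact continuous_snd.continuousAt.comp hB

theorem rt_cc_cont : Continuous fun t => rt (cc t) := by
  rw [continuous_iff_continuousAt]
  intro t
  exact ContinuousAt.comp (f := cc) (g := rt) (rt_contAt (cc_ne t)) cc_cont.continuousAt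

theorem pp_cont : Continuous pp := by
  refine continuous_pi fun i => ?_
  have h1 : ∀ i : Fin 7, Continuous fun x : Fin 7 → ℝ => bb (x i) := fun i =>
    bb_cont.comp (continuous_apply i)
  fin_cases i
  · exact continuous_const.add ((h1 1).div_const 2)
  · exact h1 2
  · exact h1 3

section

variable {j0 : ℝ × ℝ → ℂ} {ψ0 : ℂ → ℝ × ℝ} {V0 : Set ℂ}

theorem j0_cont (hS : SHomeo univ V0 j0 ψ0) : Continuous fun x : Fin 7 → ℝ => j0 (x 5, x 6) := by
  have h : Continuous j0 := continuousOn_univ.1 hS.c₁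
  exact h.comp ((continuous_apply 5).prodMk (continuous_apply 6))

theorem j0_mem (hVs : V0 ⊆ Metric.ball 0 (1 / 4)) (hS : SHomeo univ V0 j0 ψ0) (a : ℝ × ℝ) :
    j0 a ∈ Metric.ball (0 : ℂ) (1 / 4) := hVs (hS.m₁ (mem_univ a))

theorem j0_norm (hVs : V0 ⊆ Metric.ball 0 (1 / 4)) (hS : SHomeo univ V0 j0 ψ0) (a : ℝ × ℝ) :
    ‖j0 a‖ < 1 / 4 := by
  have := j0_mem hVs hS a
  rwa [mem_ball_zero_iff] at this

theorem jj_cont (hVs : V0 ⊆ Metric.ball 0 (1 / 4)) (hS : SHomeo univ V0 j0 ψ0) :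
    Continuous (jj j0) := by
  have hj := j0_cont hS
  have hx : Continuous fun x : Fin 7 → ℝ => xB (j0 (x 5, x 6)) :=
    xB_continuousOn.comp_continuous hj fun x => j0_mem hVs hS _
  have hy : Continuous fun x : Fin 7 → ℝ => yB (j0 (x 5, x 6)) :=
    yB_continuousOn.comp_continuous hj fun x => j0_mem hVs hS _
  have h0 : Continuous fun x : Fin 7 → ℝ => cc (x 0) := cc_cont.comp (continuous_apply 0)
  have h4 : Continuous fun x : Fin 7 → ℝ => cc (x 4) := cc_cont.comp (continuous_apply 4)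
  have hr : Continuous fun x : Fin 7 → ℝ => rt (cc (x 4)) := rt_cc_cont.comp (continuous_apply 4)
  have h4' : Continuous fun x : Fin 7 → ℝ => (cc (x 4) : ℂ) := continuous_subtype_val.comp h4
  exact ((((chart_continuous.comp pp_cont).prodMk continuous_const).prodMk (h0.div' h4)).prodMk
    (((hr.pow 3).mul hx).prodMk (h4'.mul hy))).prodMk h0

theorem cZ_jj (j0 : ℝ × ℝ → ℂ) (x : Fin 7 → ℝ) : cZ (jj j0 x) = cc (x 4) := by
  change cc (x 0) / (cc (x 0) / cc (x 4)) = _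
  rw [div_div_cancel]

theorem c3_jj (j0 : ℝ × ℝ → ℂ) (x : Fin 7 → ℝ) : c3 (jj j0 x) =
    ((rt (cc (x 4)) ^ 3 * xB (j0 (x 5, x 6)), (cc (x 4) : ℂ) * yB (j0 (x 5, x 6))), cc (x 4)) := by
  change ((rt (cc (x 4)) ^ 3 * xB (j0 (x 5, x 6)), (cc (x 4) : ℂ) * yB (j0 (x 5, x 6))),
    cc (x 0) / (cc (x 0) / cc (x 4))) = _
  rw [div_div_cancel]

theorem yp_jj (j0 : ℝ × ℝ → ℂ) (x : Fin 7 → ℝ) : yp (c3 (jj j0 x)) = yB (j0 (x 5, x 6)) := by
  rw [c3_jj]
  unfold yp
  simp only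
  rw [mul_div_cancel_left₀ _ (cc (x 4)).coe_ne_zero]

theorem conj_rt_mul (z : Circle) : rt z * (starRingEnd ℂ) (rt z) = 1 := by
  rw [Complex.mul_conj, Complex.normSq_eq_norm_sq, rt_norm]
  norm_num

theorem chart_ratio (p : Fin 3 → ℝ) : chart p 0 1 / chart p 0 0 = p 0 ∧
    chart p 0 2 / chart p 0 0 = p 1 ∧ chart p 0 3 / chart p 0 0 = p 2 := by
  obtain ⟨h1, h2, h3, -⟩ := ogb_chart_apply p
  have h0 := (chart_zero_zero_pos p).ne'
  rw [h1, h2, h3]
  refine ⟨?_, ?_, ?_⟩ <;> field_simp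

theorem chart_pp_OO (x : Fin 7 → ℝ) : chart (pp x) ∈ OO := by
  refine ⟨chart_mem _, Or.inl ?_⟩
  obtain ⟨-, -, -, h, -⟩ := ogb_chart_apply (pp x)
  rw [h]
  have h0 := chart_zero_zero_pos (pp x)
  have h1 : pp x 0 = 3 + bb (x 1) / 2 := rfl
  have h2 := abs_lt.1 (bb_lt (x 1))
  have h3 : 4 < pp x 0 ^ 2 := by
    rw [h1]
    nlinarith
  exact mul_lt_mul_of_pos_right h3 h0

theorem jj_mem_O3 (hVs : V0 ⊆ Metric.ball 0 (1 / 4)) (hS : SHomeo univ V0 j0 ψ0)
    (x : Fin 7 → ℝ) : jj j0 x ∈ O3 := by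
  rw [O3_iff]
  refine ⟨chart_pp_OO x, rfl, ?_⟩
  rw [c3_jj]
  have h := wB_mem (j0_norm hVs hS (x 5, x 6))
  change (rt (cc (x 4)) ^ 3 * xB (j0 (x 5, x 6))) ^ 2 -
    ((cc (x 4) : ℂ) * yB (j0 (x 5, x 6))) ^ 3 = (cc (x 4) : ℂ) ^ 3
  change xB (j0 (x 5, x 6)) ^ 2 - yB (j0 (x 5, x 6)) ^ 3 = 1 at h
  rw [← rt_sq]
  linear_combination (rt (cc (x 4)) ^ 6) * h

theorem BU_jj (hVs : V0 ⊆ Metric.ball 0 (1 / 4)) (hS : SHomeo univ V0 j0 ψ0)
    (x : Fin 7 → ℝ) : BU (jj j0 x) = j0 (x 5, x 6) := by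
  unfold BU
  rw [cZ_jj, yp_jj, c3_jj]
  simp only
  have h := xyB_inv (j0_norm hVs hS (x 5, x 6))
  have h2 := conj_rt_mul (cc (x 4))
  have h3 : rt (cc (x 4)) ^ 3 * ((starRingEnd ℂ) (rt (cc (x 4)))) ^ 3 = 1 := by
    rw [← mul_pow, h2, one_pow]
  calc _ = (rt (cc (x 4)) ^ 3 * ((starRingEnd ℂ) (rt (cc (x 4)))) ^ 3) *
      (xB (j0 (x 5, x 6)) * (1 + yB (j0 (x 5, x 6))) ^ (-(1 / 2) : ℂ)) := by ring
    _ = j0 (x 5, x 6) := by rw [h3, h, one_mul]

theorem jj_mem_WW (hVs : V0 ⊆ Metric.ball 0 (1 / 4)) (hS : SHomeo univ V0 j0 ψ0)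
    (x : Fin 7 → ℝ) : jj j0 x ∈ WW V0 := by
  have hb := fun t => abs_lt.1 (bb_lt t)
  obtain ⟨r1, r2, r3⟩ := chart_ratio (pp x)
  obtain ⟨y1, y2, y3⟩ := yB_re (j0_norm hVs hS (x 5, x 6))
  have harc : ∀ t, |2 * Complex.arg (cc t : ℂ)| < 1 := by
    intro t
    rw [arg_cc]
    have : 2 * (bb t / 2) = bb t := by ring
    rw [this]
    exact bb_lt t
  refine ⟨⟨chart_zero_zero_pos _, harc _, ?_, ?_, ?_⟩, ?_, ?_, ?_, ?_⟩
  · rw [cZ_jj]
    exact harc _
  · rw [yp_jj]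
    linarith
  · rw [yp_jj]
    exact y2
  · change |2 * (chart (pp x) 0 1 / chart (pp x) 0 0 - 3)| < 1
    rw [r1]
    have : 2 * (pp x 0 - 3) = bb (x 1) := by
      change 2 * (3 + bb (x 1) / 2 - 3) = _
      ring
    rw [this]
    exact bb_lt _
  · change |chart (pp x) 0 2 / chart (pp x) 0 0| < 1
    rw [r2]
    exact bb_lt _
  · change |chart (pp x) 0 3 / chart (pp x) 0 0| < 1
    rw [r3]
    exact bb_lt _
  · rw [BU_jj hVs hS]
    exact hS.m₁ (mem_univ _)

theorem pj_jj (hVs : V0 ⊆ Metric.ball 0 (1 / 4)) (hS : SHomeo univ V0 j0 ψ0)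
    (x : Fin 7 → ℝ) : pj ψ0 (jj j0 x) = x := by
  obtain ⟨r1, r2, r3⟩ := chart_ratio (pp x)
  have h5 : ψ0 (j0 (x 5, x 6)) = (x 5, x 6) := hS.l _ (mem_univ _)
  have harc : ∀ t, bi (2 * Complex.arg (cc t : ℂ)) = t := by
    intro t
    rw [arg_cc]
    have : 2 * (bb t / 2) = bb t := by ring
    rw [this, bi_bb]
  funext i
  fin_cases i
  · exact harc _
  · change bi (2 * (chart (pp x) 0 1 / chart (pp x) 0 0 - 3)) = x 1
    rw [r1]
    have : 2 * (pp x 0 - 3) = bb (x 1) := by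
      change 2 * (3 + bb (x 1) / 2 - 3) = _
      ring
    rw [this, bi_bb]
  · change bi (chart (pp x) 0 2 / chart (pp x) 0 0) = x 2
    rw [r2]
    exact bi_bb _
  · change bi (chart (pp x) 0 3 / chart (pp x) 0 0) = x 3
    rw [r3]
    exact bi_bb _
  · change bi (2 * Complex.arg (cZ (jj j0 x) : ℂ)) = x 4
    rw [cZ_jj]
    exact harc _
  · change (ψ0 (BU (jj j0 x))).1 = x 5
    rw [BU_jj hVs hS, h5]
  · change (ψ0 (BU (jj j0 x))).2 = x 6
    rw [BU_jj hVs hS, h5]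

theorem jj_pj (hVs : V0 ⊆ Metric.ball 0 (1 / 4)) (hS : SHomeo univ V0 j0 ψ0)
    {u : UT} (hu : u ∈ O3) (hw : u ∈ WW V0) : jj j0 (pj ψ0 u) = u := by
  obtain ⟨h0, h1, h2, h3, h4⟩ := hw
  obtain ⟨o1, o2, o3⟩ := O3_iff.1 hu
  have e0 : cc (pj ψ0 u 0) = cV u := cc_bi h0.2.1
  have e4 : cc (pj ψ0 u 4) = cZ u := cc_bi h0.2.2.1
  have e56 : j0 (pj ψ0 u 5, pj ψ0 u 6) = BU u := by
    change j0 ((ψ0 (BU u)).1, (ψ0 (BU u)).2) = BU u
    exact hS.r _ h4
  have eA : chart (pp (pj ψ0 u)) = cA u := by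
    obtain ⟨p, hp⟩ := ogb_RP3_chart o1.1 h0.1.ne'
    have hpp : pp (pj ψ0 u) = p := by
      obtain ⟨r1, r2, r3⟩ := chart_ratio p
      rw [hp, r1] at h1
      rw [hp, r2] at h2
      rw [hp, r3] at h3
      funext i
      fin_cases i
      · change 3 + bb (bi (2 * (cA u 0 1 / cA u 0 0 - 3))) / 2 = p 0
        rw [hp, r1, bb_bi h1]
        ring
      · change bb (bi (cA u 0 2 / cA u 0 0)) = p 1
        rw [hp, r2, bb_bi h2]
      · change bb (bi (cA u 0 3 / cA u 0 0)) = p 2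
        rw [hp, r3, bb_bi h3]
    rw [hpp, hp]
  -- the two complex coordinates
  have hz : (cZ u : ℂ) ≠ 0 := (cZ u).coe_ne_zero
  have hr2 := rt_sq (cZ u)
  have hc := conj_rt_mul (cZ u)
  have hy : (c3 u).1.2 = (cZ u : ℂ) * yp (c3 u) := by
    change (c3 u).1.2 = (cZ u : ℂ) * ((c3 u).1.2 / (cZ u : ℂ))
    field_simp
  have hx : (c3 u).1.1 = rt (cZ u) ^ 3 * ((c3 u).1.1 * ((starRingEnd ℂ) (rt (cZ u))) ^ 3) := by
    have h3 : rt (cZ u) ^ 3 * ((starRingEnd ℂ) (rt (cZ u))) ^ 3 = 1 := by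
      rw [← mul_pow, hc, one_pow]
    calc (c3 u).1.1 = (rt (cZ u) ^ 3 * ((starRingEnd ℂ) (rt (cZ u))) ^ 3) * (c3 u).1.1 := by
          rw [h3, one_mul]
      _ = _ := by ring
  have hth : thetaZ ((c3 u).1.1 * ((starRingEnd ℂ) (rt (cZ u))) ^ 3, yp (c3 u)) = 1 := by
    have o3' : (c3 u).1.1 ^ 2 - (c3 u).1.2 ^ 3 = (cZ u : ℂ) ^ 3 := o3
    rw [hy, ← hr2] at o3'
    change ((c3 u).1.1 * ((starRingEnd ℂ) (rt (cZ u))) ^ 3) ^ 2 - yp (c3 u) ^ 3 = 1
    have h6 : rt (cZ u) ^ 6 * ((starRingEnd ℂ) (rt (cZ u))) ^ 6 = 1 := by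
      rw [← mul_pow, hc, one_pow]
    linear_combination ((starRingEnd ℂ) (rt (cZ u))) ^ 6 * o3' + (1 + yp (c3 u) ^ 3) * h6
  have hB : ‖BU u‖ < 1 / 4 := by
    have := hVs h4
    rwa [mem_ball_zero_iff] at this
  obtain ⟨g1, g2⟩ := xyB_surj hth h0.2.2.2.1 h0.2.2.2.2 hB
  have g1' : xB (BU u) = (c3 u).1.1 * ((starRingEnd ℂ) (rt (cZ u))) ^ 3 := g1
  have g2' : yB (BU u) = yp (c3 u) := g2
  unfold jj
  rw [e0, e4, e56, eA, g1', g2', ← hx, ← hy]
  obtain ⟨⟨⟨⟨A, t⟩, θ⟩, z⟩, v⟩ := u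
  simp only at o2
  subst o2
  simp only [cA, cV, cZ, c3, div_div_cancel]

theorem s6_eq_re (w : (ℂ × ℂ) × Circle) : s6 w = (rt w.2 * ((yp w - 1 / 2) *
    (starRingEnd ℂ) w.1.1 * (w.2 : ℂ) * (starRingEnd ℂ) ((1 + yp w) ^ (-(1 / 2) : ℂ)))).re := rfl

/-- The side function at a rotated point. -/
theorem s6_rot (ζ : Circle) (o : Circle) (X Y : ℂ) (h : rt (o * ζ) = rt o * rt ζ) :
    s6 ((rt ζ ^ 3 * X, (ζ : ℂ) * Y), o * ζ) = s6 ((X, Y), o) := by
  have hy : yp ((rt ζ ^ 3 * X, (ζ : ℂ) * Y), o * ζ) = yp ((X, Y), o) := by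
    unfold yp
    simp only [Circle.coe_mul]
    have h1 := ζ.coe_ne_zero
    have h2 := o.coe_ne_zero
    field_simp
  rw [s6_eq_re, s6_eq_re, hy]
  simp only [h, Circle.coe_mul, map_mul, map_pow]
  have h3 := conj_rt_mul ζ
  have h4 : rt ζ * (starRingEnd ℂ) (rt ζ) ^ 3 * (ζ : ℂ) = 1 := by
    rw [← rt_sq]
    calc rt ζ * (starRingEnd ℂ) (rt ζ) ^ 3 * rt ζ ^ 2 = (rt ζ * (starRingEnd ℂ) (rt ζ)) ^ 3 := by
          ring
      _ = 1 := by rw [h3, one_pow]
  congr 1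
  linear_combination (rt o * (yp ((X, Y), o) - 1 / 2) * (starRingEnd ℂ) X * (o : ℂ) *
    (starRingEnd ℂ) ((1 + yp ((X, Y), o)) ^ (-(1 / 2) : ℂ))) * h4

theorem s6_c3 (j0 : ℝ × ℝ → ℂ) (x : Fin 7 → ℝ) : s6 (c3 (jj j0 x)) =
    s6 ((xB (j0 (x 5, x 6)), yB (j0 (x 5, x 6))), 1) := by
  rw [c3_jj]
  have h := s6_rot (cc (x 4)) 1 (xB (j0 (x 5, x 6))) (yB (j0 (x 5, x 6)))
    (by rw [one_mul, rt_one, one_mul])
  rw [one_mul] at h
  exact h

theorem s6_T3 (j0 : ℝ × ℝ → ℂ) (x : Fin 7 → ℝ) : s6 (T3 (c3 (jj j0 x))) =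
    s6 (T3 ((xB (j0 (x 5, x 6)), yB (j0 (x 5, x 6))), 1)) := by
  rw [c3_jj]
  have h := s6_rot (cc (x 4)) om (xB (j0 (x 5, x 6))) (yB (j0 (x 5, x 6))) (rt_om_cc _)
  have h2 : T3 ((xB (j0 (x 5, x 6)), yB (j0 (x 5, x 6))), 1) =
      ((xB (j0 (x 5, x 6)), yB (j0 (x 5, x 6))), om) := by
    unfold T3
    rw [mul_one]
  rw [h2]
  exact h

theorem sign_nonneg {a b : ℝ} (h : SignType.sign a = SignType.sign b) : 0 ≤ a ↔ 0 ≤ b := by
  rw [← sign_nonneg_iff, h, sign_nonneg_iff]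

theorem jj_zero (hj0 : j0 (0, 0) = 0) : jj j0 0 = P0 := by
  have hb : bb 0 = 0 := by simp [bb]
  have hc : cc 0 = 1 := by
    unfold cc
    rw [hb, zero_div, Circle.exp_zero]
  unfold jj P0
  simp only [Pi.zero_apply]
  rw [hj0, hc, rt_one, yB_zero.1, yB_zero.2]
  have hp : pp 0 = ![3, 0, 0] := by
    unfold pp
    simp [hb]
  rw [hp]
  simp

end

section

variable {X : Type*} [TopologicalSpace X]

theorem Ls_cc_cont (i : Fin 2) : Continuous fun t => Ls (cc t) i := by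
  rw [continuous_iff_continuousAt]
  intro t
  exact ContinuousAt.comp (f := cc) (g := fun z => Ls z i) (Ls_contAt (cc_ne t) i)
    cc_cont.continuousAt

theorem Ls_om_cc_cont (i : Fin 2) : Continuous fun t => Ls (om * cc t) i := by
  rw [continuous_iff_continuousAt]
  intro t
  exact ContinuousAt.comp (f := fun t => om * cc t) (g := fun z => Ls z i)
    (Ls_contAt (om_cc_ne t) i) (continuous_const.mul cc_cont).continuousAt

/-- The cocycle `k2` along the arc. -/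
theorem arc_LZ (i : Fin 7) {φ : (Fin 7 → ℝ) → UT} {c : UT → Circle}
    (h : ∀ x, c (φ x) = cc (x i)) :
    LZ univ 2 (pull φ (pull c k2) - d (ind fun x : Fin 7 → ℝ => x i)) := by
  have e : pull φ (pull c k2) = kap (fun x : Fin 7 → ℝ => Ls (cc (x i))) +
      d (ind fun x : Fin 7 → ℝ => Ls (cc (x i)) 1) := by
    have e1 : pull φ (pull c k2) = pull (fun x => cc (x i)) k2 := by
      funext l
      unfold pull
      rw [List.map_map]
      congr 2
      funext x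
      exact h x
    rw [e1]
    unfold k2
    have e2 : pull (fun x : Fin 7 → ℝ => cc (x i)) (kap Ls + d (ind fun z => Ls z 1)) =
        pull (fun x : Fin 7 → ℝ => cc (x i)) (kap Ls) +
        pull (fun x : Fin 7 → ℝ => cc (x i)) (d (ind fun z => Ls z 1)) := rfl
    rw [e2, pull_kap, pull_dind]
  rw [e]
  exact frame_LZ _ (fun x => Ls_unit _) (fun a => (Ls_cc_cont a).comp (continuous_apply i))
    (fun x => Ls_cc_nonneg _)

/-- The cocycles of the hyperplanes along the chart. -/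
theorem hyp_LZ (i : Fin 7) (h : Fin 4 → ℝ) {φ : (Fin 7 → ℝ) → UT}
    (h0 : ∀ x, cA (φ x) = chart (pp x))
    (hs : ∀ x, 0 ≤ ∑ a, (![1, pp x 0, pp x 1, pp x 2] : Fin 4 → ℝ) a * h a ↔ 0 ≤ x i) :
    LZ univ 2 (pull φ (pull cA (yc h)) - d (ind fun x : Fin 7 → ℝ => x i)) := by
  have e : pull φ (pull cA (yc h)) = kap (fun x : Fin 7 → ℝ => Lq (chart (pp x))) +
      d (ind fun x : Fin 7 → ℝ => ∑ a, Lq (chart (pp x)) a * h a) := by
    have e1 : pull φ (pull cA (yc h)) = pull (fun x => chart (pp x)) (yc h) := by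
      funext l
      unfold pull
      rw [List.map_map]
      congr 2
      funext x
      exact h0 x
    rw [e1]
    unfold yc
    have e2 : pull (fun x : Fin 7 → ℝ => chart (pp x)) (kap Lq + d (ind fun A => ∑ i, Lq A i * h i)) =
        pull (fun x : Fin 7 → ℝ => chart (pp x)) (kap Lq) +
        pull (fun x : Fin 7 → ℝ => chart (pp x)) (d (ind fun A => ∑ i, Lq A i * h i)) := rfl
    rw [e2, pull_kap, pull_dind]
  rw [e]
  have hpos : ∀ x : Fin 7 → ℝ, 0 < √(1 + pp x 0 ^ 2 + pp x 1 ^ 2 + pp x 2 ^ 2) := fun x =>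
    Real.sqrt_pos.2 (by positivity)
  refine frame_LZ _ (fun x => Lq_unit (chart_mem _)) (fun a => ?_) (fun x => ?_)
  · have hp : ∀ b, Continuous fun x => pp x b := fun b => (continuous_apply b).comp pp_cont
    have hE : (fun x : Fin 7 → ℝ => Lq (chart (pp x)) a) = fun x =>
        (![1, pp x 0, pp x 1, pp x 2] : Fin 4 → ℝ) a /
          √(1 + pp x 0 ^ 2 + pp x 1 ^ 2 + pp x 2 ^ 2) := by
      funext x
      exact Lq_chart _ _
    rw [hE]
    have hn : Continuous fun x : Fin 7 → ℝ => (![1, pp x 0, pp x 1, pp x 2] : Fin 4 → ℝ) a := by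
      fin_cases a
      · exact continuous_const
      · exact hp 0
      · exact hp 1
      · exact hp 2
    refine hn.div ?_ fun x => (hpos x).ne'
    exact Real.continuous_sqrt.comp (((continuous_const.add ((hp 0).pow 2)).add
      ((hp 1).pow 2)).add ((hp 2).pow 2))
  · rw [← hs x]
    have hE : ∑ a, Lq (chart (pp x)) a * h a =
        (∑ a, (![1, pp x 0, pp x 1, pp x 2] : Fin 4 → ℝ) a * h a) /
          √(1 + pp x 0 ^ 2 + pp x 1 ^ 2 + pp x 2 ^ 2) := by
      rw [Finset.sum_div]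
      refine Finset.sum_congr rfl fun a _ => ?_
      rw [Lq_chart]
      ring
    rw [hE]
    constructor
    · intro h
      by_contra h1
      push Not at h1
      have := div_neg_of_neg_of_pos h1 (hpos x)
      linarith
    · intro h
      exact div_nonneg h (hpos x).le

/-- The cocycle `al` along a map into `Z3`. -/
theorem al_LZ (i : Fin 7) {φ : (Fin 7 → ℝ) → (ℂ × ℂ) × Circle} (hφ : Continuous φ)
    (hm : ∀ x, φ x ∈ Z3) (hre : ∀ x, 0 < (yp (φ x)).re)
    (hL : ∀ a, Continuous fun x => Ls (φ x).2 a) (hs : ∀ x, 0 ≤ s6 (φ x) ↔ 0 ≤ x i) :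
    LZ univ 2 (pull φ al - d (ind fun x : Fin 7 → ℝ => x i)) := by
  have e : pull φ al - d (ind fun x : Fin 7 → ℝ => x i) =
      pull φ (al - (kap (fun w : (ℂ × ℂ) × Circle => Ls w.2) + d (ind s6))) +
      (kap (fun x : Fin 7 → ℝ => Ls (φ x).2) + d (ind fun x => s6 (φ x)) -
        d (ind fun x : Fin 7 → ℝ => x i)) := by
    have e2 : pull φ (al - (kap (fun w : (ℂ × ℂ) × Circle => Ls w.2) + d (ind s6))) =
        pull φ al - (pull φ (kap (fun w : (ℂ × ℂ) × Circle => Ls w.2)) + pull φ (d (ind s6))) := rfl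
    rw [e2, pull_kap, pull_dind]
    abel
  rw [e]
  refine LZ.add ?_ ?_
  · intro x _
    exact LZat.pull (B := Z3) (al_near (hre x)) hφ.continuousWithinAt fun x _ => hm x
  · exact frame_LZ _ (fun x => Ls_unit _) hL hs

end

end CjB

open CjB

theorem chart_exists : ∃ (j : (Fin 7 → ℝ) → UT) (ψ : UT → Fin 7 → ℝ) (W : Set UT), IsOpen W ∧
    SHomeo univ (O3 ∩ W) j ψ ∧ j 0 = P0 ∧
    List.Forall₂ (fun f f' => LZ univ 2 (pull j f - f')) fs1
      (List.ofFn fun i : Fin 7 => d (ind fun x : Fin 7 → ℝ => x i)) := by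
  obtain ⟨j0, ψ0, V0, hVo, hVs, hS, hj0, hs5, hs6⟩ := side_chart
  have hcont := jj_cont hVs hS
  refine ⟨jj j0, pj ψ0, WW V0, isOpen_WW hVo, ⟨hcont.continuousOn,
    (pj_contOn hVo hS.c₂).mono inter_subset_right,
    fun x _ => ⟨jj_mem_O3 hVs hS x, jj_mem_WW hVs hS x⟩, fun _ _ => mem_univ _,
    fun x _ => pj_jj hVs hS x, fun u hu => jj_pj hVs hS hu.1 hu.2⟩, jj_zero hj0, ?_⟩
  have hc3 : Continuous fun x => c3 (jj j0 x) := c3_continuous.comp hcont
  have hm : ∀ x, c3 (jj j0 x) ∈ Z3 := fun x => (O3_iff.1 (jj_mem_O3 hVs hS x)).2.2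
  have hre : ∀ x, 0 < (yp (c3 (jj j0 x))).re := fun x => by
    rw [yp_jj]
    exact (yB_re (j0_norm hVs hS _)).1
  have hre' : ∀ x, 0 < (yp (T3 (c3 (jj j0 x)))).re := fun x => by
    have h1 : yp (T3 (c3 (jj j0 x))) = yp (c3 (jj j0 x)) / (om : ℂ) := by
      unfold yp T3
      simp only [Circle.coe_mul]
      rw [mul_comm (om : ℂ), div_div]
    rw [h1, yp_jj]
    exact (yB_re (j0_norm hVs hS _)).2.2
  have hlist : (List.ofFn fun i : Fin 7 => d (R := ZMod 2) (ind fun x : Fin 7 → ℝ => x i)) =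
      [d (ind fun x => x 0), d (ind fun x => x 1), d (ind fun x => x 2), d (ind fun x => x 3),
        d (ind fun x => x 4), d (ind fun x => x 5), d (ind fun x => x 6)] := rfl
  rw [hlist]
  unfold fs1
  refine .cons ?_ (.cons ?_ (.cons ?_ (.cons ?_ (.cons ?_ (.cons ?_ (.cons ?_ .nil))))))
  · exact arc_LZ 0 fun x => rfl
  · refine hyp_LZ 1 h1 (fun x => rfl) fun x => ?_
    rw [Fin.sum_univ_four, ← bb_nonneg (x 1)]
    simp only [h1, pp, Matrix.cons_val]
    constructor <;> intro h <;> linarith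
  · refine hyp_LZ 2 h2 (fun x => rfl) fun x => ?_
    rw [Fin.sum_univ_four, ← bb_nonneg (x 2)]
    simp only [h2, pp, Matrix.cons_val]
    constructor <;> intro h <;> linarith
  · refine hyp_LZ 3 h3 (fun x => rfl) fun x => ?_
    rw [Fin.sum_univ_four, ← bb_nonneg (x 3)]
    simp only [h3, pp, Matrix.cons_val]
    constructor <;> intro h <;> linarith
  · exact arc_LZ 4 fun x => cZ_jj j0 x
  · rw [pull_pull']
    exact al_LZ 5 (φ := fun x => c3 (jj j0 x)) hc3 hm hre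
      (fun a => by
        have e : (fun x : Fin 7 → ℝ => Ls (c3 (jj j0 x)).2 a) = fun x => Ls (cc (x 4)) a := by
          funext x
          rw [c3_jj]
        rw [e]
        exact (Ls_cc_cont a).comp (continuous_apply 4))
      (fun x => by
        rw [s6_c3]
        exact sign_nonneg (hs5 _ _))
  · rw [pull_pull', pull_pull']
    exact al_LZ 6 (φ := fun x => T3 (c3 (jj j0 x))) (T3_continuous.comp hc3)
      (fun x => T3_mem (hm x)) hre'
      (fun a => by
        have e : (fun x : Fin 7 → ℝ => Ls (T3 (c3 (jj j0 x))).2 a) =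
            fun x => Ls (om * cc (x 4)) a := by
          funext x
          rw [c3_jj]
          rfl
        rw [e]
        exact (Ls_om_cc_cont a).comp (continuous_apply 4))
      (fun x => by
        rw [s6_T3]
        exact sign_nonneg (hs6 _ _))

end Pool.Agent.Helper77.DS
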