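import Pool.Agent.Helper77.DS.CjB
import Pool.Agent.Helper77.DS.DDefs
import Pool.Agent.Helper36.AS.Ball

/-!
# DS-CjC: `prodc fs1` is a ball cocycle on `O3`

`ball_ne`: the product of the `d (ind x_i)` is not a coboundary on `ℝ^m` with compact supports: `Helper36/AS/Ball.lean`
(the standard cocycle is the product of the `d [0 < x_i]`, which is the pull back of the product of the `d (ind x_i)` under
`x ↦ - x`, because `[0 ≤ - x_i] = 1 - [0 < x_i]`).
`fs1_ball`: `prodc_mem` with `fs1_cocycle` and `fs1_supp` (common support `{P0}`); the chart is `chart_exists`;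
`pull j (prodc fs1) = prodc (fs1.map (pull j))` (`pull_cup`), `prodc_congr`, `ball_ne`.
-/

namespace Pool.Agent.Helper77.DS

open Set Complex Helper36.AS

/-- The constant cochain of degree zero. -/
def cjc1 {V : Type*} (l : List V) : ZMod 2 := if l.length = 1 then 1 else 0

theorem d_cjc1 {V : Type*} : d (cjc1 : List V → ZMod 2) = 0 := by
  funext l
  have h : d (cjc1 : List V → ZMod 2) l =
      ∑ k ∈ Finset.range l.length, (-1) ^ k * (if l.length - 1 = 1 then (1 : ZMod 2) else 0) := by
    unfold d cjc1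
    refine Finset.sum_congr rfl fun k hk => ?_
    rw [List.length_eraseIdx_of_lt (Finset.mem_range.1 hk)]
  rw [h]
  by_cases h2 : l.length = 2
  · rw [h2]
    have : (∑ k ∈ Finset.range 2, (-1) ^ k * (if 2 - 1 = 1 then (1 : ZMod 2) else 0)) = 0 := by
      decide
    exact this
  · rw [if_neg (by omega)]
    simp

theorem cjc_ind {V : Type*} (s : V → ℝ) :
    (ind fun x => -s x) = cjc1 + Helper36.AS.ind fun x => 0 < s x := by
  funext l
  match l with
  | [] =>
    change (0 : ZMod 2) = (0 : ZMod 2) + Helper36.AS.ind (fun x => 0 < s x) []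
    rw [ind_nil, add_zero]
  | [x] =>
    change (if 0 ≤ -s x then (1 : ZMod 2) else 0) =
      (1 : ZMod 2) + Helper36.AS.ind (fun x => 0 < s x) [x]
    by_cases h : 0 < s x
    · have e : (Helper36.AS.ind (fun x => 0 < s x) [x] : ZMod 2) = 1 :=
        ind_pos (P := fun x => 0 < s x) h
      rw [e, if_neg (by linarith)]
      decide
    · have e : (Helper36.AS.ind (fun x => 0 < s x) [x] : ZMod 2) = 0 :=
        ind_neg (P := fun x => 0 < s x) h
      rw [e, if_pos (by linarith), add_zero]
  | _ :: _ :: _ =>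
    change (0 : ZMod 2) = (0 : ZMod 2) + 0
    rw [add_zero]

theorem cjc_prodc {V : Type*} (fs : List (List V → ZMod 2)) :
    prodc fs = Helper36.AS.prodc fs := by
  induction fs with
  | nil => rfl
  | cons f fs ih =>
    change cup 1 f (prodc fs) = cup 1 f (Helper36.AS.prodc fs)
    rw [ih]

theorem cjc_pull {V W : Type*} (φ : V → W) (fs : List (List W → ZMod 2)) :
    pull φ (prodc fs) = prodc (fs.map (pull φ)) := by
  rw [cjc_prodc, cjc_prodc, pull_prodc]

theorem cjc_d_ind {V : Type*} (s : V → ℝ) :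
    d (ind fun x => -s x) = d (Helper36.AS.ind fun x => 0 < s x) := by
  rw [cjc_ind, d_add', d_cjc1, zero_add]

theorem ball_ne (m : ℕ) : prodc (List.ofFn fun i : Fin m => d (ind fun x : Fin m → ℝ => x i)) ∉
    coboundaries (ZMod 2) IsCompact univ m := by
  intro h
  apply stm_notMem (R := ZMod 2) m
  have hS : SHomeo (univ : Set (Fin m → ℝ)) univ (fun x => -x) (fun x => -x) :=
    ⟨continuous_neg.continuousOn, continuous_neg.continuousOn, fun _ _ => mem_univ _,
      fun _ _ => mem_univ _, fun x _ => neg_neg x, fun x _ => neg_neg x⟩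
  have h1 := hS.smap.pull_mem_coboundaries h
  rw [cjc_pull, List.map_ofFn] at h1
  have e : stm (ZMod 2) m = prodc (List.ofFn
      (pull (fun x : Fin m → ℝ => -x) ∘ fun i : Fin m => d (ind fun x : Fin m → ℝ => x i))) := by
    unfold stm
    rw [cjc_prodc]
    congr 1
    congr 1
    funext i
    change _ = pull (fun x : Fin m → ℝ => -x) (d (ind fun x : Fin m → ℝ => x i))
    rw [CjB.pull_dind]
    exact (cjc_d_ind (fun x : Fin m → ℝ => x i)).symm
  rw [e]
  exact h1

theorem fs1_ball : IsBall O3 7 (prodc fs1) := by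
  have hlen : fs1.length = 7 := rfl
  have hsup : CSupp O3 fs1 := by
    refine ⟨{P0}, singleton_subset_iff.2 P0_mem, isCompact_singleton, ?_⟩
    intro p hp hp0
    exact fs1_supp hp hp0
  have hmem := prodc_mem fs1_cocycle hsup
  rw [hlen] at hmem
  obtain ⟨j, ψ, W, hW, hS, hj0, hF⟩ := chart_exists
  have hP0W : P0 ∈ O3 ∩ W := by
    rw [← hj0]
    exact hS.m₁ (mem_univ _)
  refine ⟨hmem, W, j, ψ, hW, hS, ⟨{P0}, singleton_subset_iff.2 hP0W, isCompact_singleton, ?_⟩, ?_⟩
  · intro p hp hp0
    have := prodc_LZat (fs1_supp hp hp0)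
    rw [hlen] at this
    exact this
  · intro hcob
    apply ball_ne 7
    rw [cjc_pull] at hcob
    have hF' : List.Forall₂ (fun f f' => LZ univ 2 (f - f')) (fs1.map (pull j))
        (List.ofFn fun i : Fin 7 => d (ind fun x : Fin 7 → ℝ => x i)) := by
      rw [List.forall₂_map_left_iff]
      exact hF
    have h1 := prodc_congr hF'
    rw [List.length_map, hlen] at h1
    have h2 := sub_mem hcob (LZ.mem_coboundaries (Φ := IsCompact) h1)
    rw [sub_sub_cancel] at h2
    exact h2

end Pool.Agent.Helper77.DS
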