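import Pool.Agent.Helper77.DS.OgA

/-!
# DS-OgB: topology of `N`, `U3`, `O3`

* `N` is compact: it is the union of the image of the compact set
  `{(p, t) : |p i| ≤ 2, |t| ≤ 4, F p t = 0}` under `(chart p, t)` and of the set of the `(A, 0)` with `A ∈ RP3` and
  `4 A 0 0 ≤ A 1 1 ∨ 4 A 0 0 ≤ A 2 2 ∨ A 0 0 ≤ A 3 3` (closed in the compact set `RP3 × {0}`): if `F p t = 0` and
  `(p, t)` is not in the box then `t = 0` and `(p, 0)` satisfies the second condition; points of `RP3` with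
  `A 0 0 ≠ 0` are `chart p` with `p i = A 0 (i+1) / A 0 0`.
* `tauN` is continuous on `N`: the wall `{x ∈ N | 0 < x.1 0 0 ∧ |x.1 0 1| ≤ x.1 0 0 ∧ ... ∧ 1 ≤ x.2 ≤ 3}` is closed in
  `N` (on it `|p 0|, |p 1|, |p 2| ≤ 1`, so `A 0 0 ≥ 1/4`) and the closure of its complement meets it only where
  `|p 2| = 1`, and there `exp (i π (1 + p 2)) = 1`.
* hence `U3` is closed (`Z` closed, `Circle` compact); `O3` is the intersection of `U3` with an open set.
-/

namespace Pool.Agent.Helper77.DS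

open Set Complex Helper36.AS

theorem ogb_RP3_compact : IsCompact RP3 := by
  have h1 : IsCompact {q : Fin 4 → ℝ | ∑ i, q i ^ 2 = 1} := by
    refine IsCompact.of_isClosed_subset
      (isCompact_univ_pi (fun _ : Fin 4 => isCompact_Icc (a := (-1 : ℝ)) (b := 1))) ?_ ?_
    · exact isClosed_eq (by fun_prop) continuous_const
    · intro q hq i _
      have hq' : ∑ i, q i ^ 2 = 1 := hq
      have h2 : q i ^ 2 ≤ 1 := by
        rw [← hq']
        exact Finset.single_le_sum (f := fun i => q i ^ 2) (fun j _ => sq_nonneg _)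
          (Finset.mem_univ i)
      exact abs_le.1 ((sq_le_one_iff_abs_le_one (q i)).1 h2)
  have h2 : RP3 = outer '' {q : Fin 4 → ℝ | ∑ i, q i ^ 2 = 1} := by
    ext A
    constructor
    · rintro ⟨q, h, rfl⟩
      exact ⟨q, h, rfl⟩
    · rintro ⟨q, h, rfl⟩
      exact ⟨q, h, rfl⟩
  rw [h2]
  refine h1.image ?_
  unfold outer
  fun_prop

theorem ogb_chart_apply (p : Fin 3 → ℝ) :
    chart p 0 1 = p 0 * chart p 0 0 ∧ chart p 0 2 = p 1 * chart p 0 0 ∧
      chart p 0 3 = p 2 * chart p 0 0 ∧ chart p 1 1 = p 0 ^ 2 * chart p 0 0 ∧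
      chart p 2 2 = p 1 ^ 2 * chart p 0 0 ∧ chart p 3 3 = p 2 ^ 2 * chart p 0 0 ∧
      chart p 0 0 = 1 / (1 + p 0 ^ 2 + p 1 ^ 2 + p 2 ^ 2) := by
  simp only [chart]
  refine ⟨?_, ?_, ?_, ?_, ?_, ?_, ?_⟩ <;> simp <;> ring

theorem ogb_RP3_chart {A : M4} (hA : A ∈ RP3) (h0 : A 0 0 ≠ 0) : ∃ p, A = chart p := by
  obtain ⟨q, hq, rfl⟩ := hA
  have hq0 : q 0 ≠ 0 := by
    intro h
    exact h0 (by simp [outer, h])
  refine ⟨![q 1 / q 0, q 2 / q 0, q 3 / q 0], ?_⟩
  have hs : 1 + (q 1 / q 0) ^ 2 + (q 2 / q 0) ^ 2 + (q 3 / q 0) ^ 2 = 1 / q 0 ^ 2 := by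
    have : q 0 ^ 2 + q 1 ^ 2 + q 2 ^ 2 + q 3 ^ 2 = 1 := by
      rw [← hq, Fin.sum_univ_four]
    field_simp
    linarith
  have key : ∀ i : Fin 4, (![1, q 1 / q 0, q 2 / q 0, q 3 / q 0] : Fin 4 → ℝ) i = q i / q 0 := by
    intro i
    fin_cases i
    · simp [hq0]
    · simp
    · simp
    · simp
  funext i j
  have e : chart ![q 1 / q 0, q 2 / q 0, q 3 / q 0] i j =
      ((![1, q 1 / q 0, q 2 / q 0, q 3 / q 0] : Fin 4 → ℝ) i) *
      ((![1, q 1 / q 0, q 2 / q 0, q 3 / q 0] : Fin 4 → ℝ) j) /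
      (1 + (q 1 / q 0) ^ 2 + (q 2 / q 0) ^ 2 + (q 3 / q 0) ^ 2) := rfl
  rw [e, hs, key, key]
  simp only [outer]
  field_simp

theorem ogb_F_zero {p : Fin 3 → ℝ} {t : ℝ} (h : F p t = 0) :
    (|p 0| ≤ 2 ∧ |p 1| ≤ 2 ∧ |p 2| ≤ 1 ∧ 0 ≤ t ∧ t ≤ 4) ∨
      (t = 0 ∧ (2 ≤ |p 0| ∨ 2 ≤ |p 1| ∨ 1 ≤ |p 2|)) := by
  unfold F at h
  rcases min_cases t (max (|p 0| - 2) (max (|p 1| - 2) (max (|p 2| - 1) (max (t - 4)
    (min (1 - |p 0|) (min (1 - |p 1|) (1 - |t - 2|))))))) with ⟨e, h1⟩ | ⟨e, h1⟩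
  · rw [e] at h
    subst h
    right
    refine ⟨rfl, ?_⟩
    rcases le_max_iff.1 h1 with h2 | h2
    · left; linarith
    rcases le_max_iff.1 h2 with h2 | h2
    · right; left; linarith
    rcases le_max_iff.1 h2 with h2 | h2
    · right; right; linarith
    rcases le_max_iff.1 h2 with h2 | h2
    · norm_num at h2
    · have := (le_min_iff.1 (le_min_iff.1 h2).2).2
      norm_num at this
  · rw [e] at h
    left
    have h2 := max_le_iff.1 h.le
    have h3 := max_le_iff.1 h2.2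
    have h4 := max_le_iff.1 h3.2
    have h5 := max_le_iff.1 h4.2
    rw [h] at h1
    exact ⟨by linarith [h2.1], by linarith [h3.1], by linarith [h4.1], h1.le, by linarith [h5.1]⟩

theorem ogb_F_zero_pos {p : Fin 3 → ℝ} {t : ℝ} (h : F p t = 0) (ht : 0 < t) :
    max (|p 0| - 2) (max (|p 1| - 2) (max (|p 2| - 1) (max (t - 4)
    (min (1 - |p 0|) (min (1 - |p 1|) (1 - |t - 2|)))))) = 0 := by
  unfold F at h
  rcases min_cases t (max (|p 0| - 2) (max (|p 1| - 2) (max (|p 2| - 1) (max (t - 4)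
    (min (1 - |p 0|) (min (1 - |p 1|) (1 - |t - 2|))))))) with ⟨e, h1⟩ | ⟨e, h1⟩
  · rw [e] at h
    linarith
  · rw [e] at h
    exact h

theorem ogb_F_of_zero {p : Fin 3 → ℝ} (h : 2 ≤ |p 0| ∨ 2 ≤ |p 1| ∨ 1 ≤ |p 2|) : F p 0 = 0 := by
  unfold F
  apply min_eq_left
  rcases h with h | h | h
  · exact le_max_of_le_left (by linarith)
  · exact le_max_of_le_right (le_max_of_le_left (by linarith))
  · exact le_max_of_le_right (le_max_of_le_right (le_max_of_le_left (by linarith)))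

theorem ogb_sq_iff {a c : ℝ} (hc : 0 ≤ c) : c ^ 2 ≤ a ^ 2 ↔ c ≤ |a| := by
  rw [← sq_abs a]
  constructor
  · intro h
    exact (abs_le_of_sq_le_sq' h (abs_nonneg a)).2
  · intro h
    exact pow_le_pow_left₀ hc h 2

theorem ogb_N_eq : N = (fun x : (Fin 3 → ℝ) × ℝ => (chart x.1, x.2)) ''
      {x | |x.1 0| ≤ 2 ∧ |x.1 1| ≤ 2 ∧ |x.1 2| ≤ 1 ∧ 0 ≤ x.2 ∧ x.2 ≤ 4 ∧ F x.1 x.2 = 0} ∪
    {x | x.1 ∈ RP3 ∧ x.2 = 0 ∧
      (4 * x.1 0 0 ≤ x.1 1 1 ∨ 4 * x.1 0 0 ≤ x.1 2 2 ∨ x.1 0 0 ≤ x.1 3 3)} := by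
  ext ⟨A, t⟩
  constructor
  · rintro (⟨p, hp, hF⟩ | ⟨h1, h2, h3⟩)
    · have hp' : A = chart p := hp
      have hF' : F p t = 0 := hF
      subst hp'
      rcases ogb_F_zero hF' with ⟨h1, h2, h3, h4, h5⟩ | ⟨h1, h2⟩
      · left
        exact ⟨(p, t), ⟨h1, h2, h3, h4, h5, hF'⟩, rfl⟩
      · right
        refine ⟨chart_mem p, h1, ?_⟩
        have hpos := chart_zero_zero_pos p
        obtain ⟨-, -, -, e1, e2, e3, -⟩ := ogb_chart_apply p
        change 4 * chart p 0 0 ≤ chart p 1 1 ∨ 4 * chart p 0 0 ≤ chart p 2 2 ∨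
          chart p 0 0 ≤ chart p 3 3
        rw [e1, e2, e3]
        rcases h2 with h2 | h2 | h2
        · left
          have := (ogb_sq_iff (a := p 0) (c := 2) (by norm_num)).2 h2
          nlinarith
        · right; left
          have := (ogb_sq_iff (a := p 1) (c := 2) (by norm_num)).2 h2
          nlinarith
        · right; right
          have := (ogb_sq_iff (a := p 2) (c := 1) (by norm_num)).2 h2
          nlinarith
    · right
      refine ⟨h1, h3, ?_⟩
      left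
      obtain ⟨q, hq, hA⟩ := h1
      change A 0 0 = 0 at h2
      change 4 * A 0 0 ≤ A 1 1
      rw [h2]
      have : A = outer q := hA
      rw [this]
      simp only [outer]
      nlinarith [mul_self_nonneg (q 1)]
  · rintro (⟨⟨p, s⟩, ⟨-, -, -, -, -, hF⟩, h⟩ | ⟨h1, h2, h3⟩)
    · obtain ⟨rfl, rfl⟩ := Prod.mk.inj h
      exact Or.inl ⟨p, rfl, hF⟩
    · change A ∈ RP3 at h1
      change t = 0 at h2
      change 4 * A 0 0 ≤ A 1 1 ∨ 4 * A 0 0 ≤ A 2 2 ∨ A 0 0 ≤ A 3 3 at h3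
      subst h2
      by_cases h0 : A 0 0 = 0
      · exact Or.inr ⟨h1, h0, rfl⟩
      · obtain ⟨p, rfl⟩ := ogb_RP3_chart h1 h0
        left
        refine ⟨p, rfl, ?_⟩
        apply ogb_F_of_zero
        have hpos := chart_zero_zero_pos p
        obtain ⟨-, -, -, e1, e2, e3, -⟩ := ogb_chart_apply p
        rw [e1, e2, e3] at h3
        rcases h3 with h3 | h3 | h3
        · left
          refine (ogb_sq_iff (a := p 0) (c := 2) (by norm_num)).1 ?_
          have := le_of_mul_le_mul_right h3 hpos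
          linarith
        · right; left
          refine (ogb_sq_iff (a := p 1) (c := 2) (by norm_num)).1 ?_
          have := le_of_mul_le_mul_right h3 hpos
          linarith
        · right; right
          refine (ogb_sq_iff (a := p 2) (c := 1) (by norm_num)).1 ?_
          have := le_of_mul_le_mul_right (by linarith : 1 * chart p 0 0 ≤ p 2 ^ 2 * chart p 0 0)
            hpos
          linarith

theorem ogb_F_continuous : Continuous (fun x : (Fin 3 → ℝ) × ℝ => F x.1 x.2) := by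
  unfold F
  fun_prop

theorem isCompact_N : IsCompact N := by
  rw [ogb_N_eq]
  refine IsCompact.union (IsCompact.image ?_ ?_) ?_
  · refine IsCompact.of_isClosed_subset (IsCompact.prod
      (isCompact_univ_pi (fun _ : Fin 3 => isCompact_Icc (a := (-2 : ℝ)) (b := 2)))
      (isCompact_Icc (a := (0 : ℝ)) (b := 4))) ?_ ?_
    · refine IsClosed.and (isClosed_le (by fun_prop) continuous_const) ?_
      refine IsClosed.and (isClosed_le (by fun_prop) continuous_const) ?_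
      refine IsClosed.and (isClosed_le (by fun_prop) continuous_const) ?_
      refine IsClosed.and (isClosed_le continuous_const (by fun_prop)) ?_
      refine IsClosed.and (isClosed_le (by fun_prop) continuous_const) ?_
      exact isClosed_eq ogb_F_continuous continuous_const
    · rintro ⟨p, t⟩ ⟨h1, h2, h3, h4, h5, -⟩
      change |p 0| ≤ 2 at h1
      change |p 1| ≤ 2 at h2
      change |p 2| ≤ 1 at h3
      refine ⟨?_, h4, h5⟩
      intro i _
      change p i ∈ Icc (-2 : ℝ) 2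
      fin_cases i
      · exact abs_le.1 h1
      · exact abs_le.1 h2
      · exact abs_le.1 (h3.trans (by norm_num))
  · exact (chart_continuous.comp continuous_fst).prodMk continuous_snd
  · refine IsCompact.of_isClosed_subset (IsCompact.prod ogb_RP3_compact
      (isCompact_singleton (x := (0 : ℝ)))) ?_ ?_
    · have c : ∀ i j, Continuous fun x : M4 × ℝ => x.1 i j := fun i j => by fun_prop
      refine IsClosed.inter (ogb_RP3_compact.isClosed.preimage continuous_fst) ?_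
      refine IsClosed.and (isClosed_eq continuous_snd continuous_const) ?_
      refine IsClosed.union (isClosed_le (continuous_const.mul (c 0 0)) (c 1 1)) ?_
      exact IsClosed.union (isClosed_le (continuous_const.mul (c 0 0)) (c 2 2))
        (isClosed_le (c 0 0) (c 3 3))
    · rintro ⟨A, t⟩ ⟨h1, h2, -⟩
      exact ⟨h1, h2⟩

/-- Points of `N` at positive height. -/
theorem ogb_N_pos {x : M4 × ℝ} (hx : x ∈ N) (ht : 0 < x.2) :
    ∃ p, x.1 = chart p ∧ max (|p 0| - 2) (max (|p 1| - 2) (max (|p 2| - 1) (max (x.2 - 4)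
      (min (1 - |p 0|) (min (1 - |p 1|) (1 - |x.2 - 2|)))))) = 0 := by
  rcases hx with ⟨p, hp, hF⟩ | ⟨-, -, h⟩
  · exact ⟨p, hp, ogb_F_zero_pos hF ht⟩
  · exact absurd h ht.ne'

theorem ogb_abs_le {a b c : ℝ} (hb : 0 < b) : |a * b| ≤ c * b ↔ |a| ≤ c := by
  rw [abs_mul, abs_of_pos hb]
  exact mul_le_mul_iff_left₀ hb

theorem ogb_abs_lt {a b c : ℝ} (hb : 0 < b) : |a * b| < c * b ↔ |a| < c := by
  rw [abs_mul, abs_of_pos hb]
  exact mul_lt_mul_iff_left₀ hb

/-- On `N` the condition of the wall implies `A 0 0 ≥ 1/4` and `|p 2| ≤ 1`. -/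
theorem ogb_wall {x : M4 × ℝ} (hx : x ∈ N) (h0 : 0 < x.1 0 0) (h1 : |x.1 0 1| ≤ x.1 0 0)
    (h2 : |x.1 0 2| ≤ x.1 0 0) (h3 : 1 ≤ x.2) : 1 / 4 ≤ x.1 0 0 ∧ |x.1 0 3| ≤ x.1 0 0 := by
  obtain ⟨p, hp, hG⟩ := ogb_N_pos hx (by linarith)
  obtain ⟨e1, e2, e3, -, -, -, e⟩ := ogb_chart_apply p
  rw [hp] at h0 h1 h2 ⊢
  have g3 := (max_le_iff.1 (max_le_iff.1 (max_le_iff.1 hG.le).2).2).1
  rw [e1] at h1
  rw [e2] at h2
  have h1' := (ogb_abs_le (a := p 0) (c := 1) h0).1 (by linarith)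
  have h2' := (ogb_abs_le (a := p 1) (c := 1) h0).1 (by linarith)
  have h3' : |p 2| ≤ 1 := by linarith
  constructor
  · rw [e]
    have q0 := (sq_le_one_iff_abs_le_one (p 0)).2 h1'
    have q1 := (sq_le_one_iff_abs_le_one (p 1)).2 h2'
    have q2 := (sq_le_one_iff_abs_le_one (p 2)).2 h3'
    apply one_div_le_one_div_of_le
    · positivity
    · linarith
  · rw [e3]
    have := (ogb_abs_le (c := 1) h0).2 h3'
    linarith

/-- On `N` the open conditions imply that the point is on the wall. -/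
theorem ogb_open {x : M4 × ℝ} (hx : x ∈ N) (h0 : 0 < x.1 0 0) (h1 : |x.1 0 1| < 2 * x.1 0 0)
    (h2 : |x.1 0 2| < 2 * x.1 0 0) (h3 : |x.1 0 3| < x.1 0 0) (h4 : 0 < x.2) (h5 : x.2 < 4) :
    0 < x.1 0 0 ∧ |x.1 0 1| ≤ x.1 0 0 ∧ |x.1 0 2| ≤ x.1 0 0 ∧ 1 ≤ x.2 ∧ x.2 ≤ 3 := by
  obtain ⟨p, hp, hG⟩ := ogb_N_pos hx h4
  obtain ⟨e1, e2, e3, -, -, -, e⟩ := ogb_chart_apply p
  rw [hp] at h0 h1 h2 h3 ⊢
  rw [e1] at h1
  rw [e2] at h2
  rw [e3] at h3
  have h1' := (ogb_abs_lt (c := 2) h0).1 h1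
  have h2' := (ogb_abs_lt (c := 2) h0).1 h2
  have h3' := (ogb_abs_lt (a := p 2) (c := 1) h0).1 (by linarith)
  have hm : 0 ≤ min (1 - |p 0|) (min (1 - |p 1|) (1 - |x.2 - 2|)) := by
    rcases le_max_iff.1 hG.ge with g | g
    · linarith
    rcases le_max_iff.1 g with g | g
    · linarith
    rcases le_max_iff.1 g with g | g
    · linarith
    rcases le_max_iff.1 g with g | g
    · linarith
    · exact g
  obtain ⟨m1, m2⟩ := le_min_iff.1 hm
  obtain ⟨m2, m3⟩ := le_min_iff.1 m2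
  have m4 := abs_le.1 (by linarith : |x.2 - 2| ≤ 1)
  refine ⟨h0, ?_, ?_, by linarith [m4.1], by linarith [m4.2]⟩
  · rw [e1]
    have := (ogb_abs_le (c := 1) h0).2 (by linarith : |p 0| ≤ 1)
    linarith
  · rw [e2]
    have := (ogb_abs_le (c := 1) h0).2 (by linarith : |p 1| ≤ 1)
    linarith

theorem ogb_cont {x : M4 × ℝ} (h0 : 0 < x.1 0 0) :
    ContinuousAt (fun x : M4 × ℝ => Circle.exp (Real.pi * (1 + x.1 0 3 / x.1 0 0))) x := by
  have h1 : ContinuousAt (fun x : M4 × ℝ => Real.pi * (1 + x.1 0 3 / x.1 0 0)) x := by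
    refine ContinuousAt.mul continuousAt_const (ContinuousAt.add continuousAt_const ?_)
    refine ContinuousAt.div (Continuous.continuousAt (by fun_prop))
      (Continuous.continuousAt (by fun_prop)) h0.ne'
  exact ContinuousAt.comp (g := fun r : ℝ => Circle.exp r)
    (f := fun x : M4 × ℝ => Real.pi * (1 + x.1 0 3 / x.1 0 0))
    (Circle.exp.continuous.continuousAt) h1

theorem tauN_continuousOn : ContinuousOn tauN N := by
  intro x hx
  by_cases hW : 1 / 4 ≤ x.1 0 0 ∧ |x.1 0 1| ≤ x.1 0 0 ∧ |x.1 0 2| ≤ x.1 0 0 ∧ 1 ≤ x.2 ∧ x.2 ≤ 3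
  · obtain ⟨w0, w1, w2, w3, w4⟩ := hW
    have w0' : 0 < x.1 0 0 := by linarith
    have hwall := ogb_wall hx w0' w1 w2 w3
    rcases hwall.2.lt_or_eq with hlt | heq
    · -- near `x` every point of `N` is on the wall
      have hev : ∀ᶠ y in nhdsWithin x N,
          Circle.exp (Real.pi * (1 + y.1 0 3 / y.1 0 0)) = tauN y := by
        have hO : IsOpen {y : M4 × ℝ | 0 < y.1 0 0 ∧ |y.1 0 1| < 2 * y.1 0 0 ∧
            |y.1 0 2| < 2 * y.1 0 0 ∧ |y.1 0 3| < y.1 0 0 ∧ 0 < y.2 ∧ y.2 < 4} := by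
          refine IsOpen.and (isOpen_lt continuous_const (by fun_prop)) ?_
          refine IsOpen.and (isOpen_lt (by fun_prop) (by fun_prop)) ?_
          refine IsOpen.and (isOpen_lt (by fun_prop) (by fun_prop)) ?_
          refine IsOpen.and (isOpen_lt (by fun_prop) (by fun_prop)) ?_
          refine IsOpen.and (isOpen_lt continuous_const (by fun_prop)) ?_
          exact isOpen_lt (by fun_prop) continuous_const
        have hxO : x ∈ {y : M4 × ℝ | 0 < y.1 0 0 ∧ |y.1 0 1| < 2 * y.1 0 0 ∧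
            |y.1 0 2| < 2 * y.1 0 0 ∧ |y.1 0 3| < y.1 0 0 ∧ 0 < y.2 ∧ y.2 < 4} :=
          ⟨w0', by linarith, by linarith, hlt, by linarith, by linarith⟩
        filter_upwards [self_mem_nhdsWithin, mem_nhdsWithin_of_mem_nhds (hO.mem_nhds hxO)]
          with y hy hyO
        obtain ⟨a0, a1, a2, a3, a4, a5⟩ := hyO
        have := ogb_open hy a0 a1 a2 a3 a4 a5
        unfold tauN
        rw [if_pos this]
      have hx' : tauN x = Circle.exp (Real.pi * (1 + x.1 0 3 / x.1 0 0)) := by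
        unfold tauN
        rw [if_pos ⟨w0', w1, w2, w3, w4⟩]
      have := (ogb_cont w0').continuousWithinAt (s := N)
      unfold ContinuousWithinAt at this ⊢
      rw [hx']
      exact Filter.Tendsto.congr' hev this
    · -- `|p 2| = 1`
      have hone : Circle.exp (Real.pi * (1 + x.1 0 3 / x.1 0 0)) = 1 := by
        rcases abs_eq_abs.1 (by rw [heq, abs_of_pos w0'] : |x.1 0 3| = |x.1 0 0|) with e | e
        · rw [e, div_self w0'.ne']
          have : Real.pi * (1 + 1) = 2 * Real.pi := by ring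
          rw [this, Circle.exp_two_pi]
        · rw [e, neg_div, div_self w0'.ne']
          simp
      have hx' : tauN x = 1 := by
        unfold tauN
        rw [if_pos ⟨w0', w1, w2, w3, w4⟩, hone]
      have h1 := (ogb_cont w0').continuousWithinAt (s := N)
      unfold ContinuousWithinAt at h1 ⊢
      beta_reduce at h1
      rw [hone] at h1
      rw [hx']
      have h2 : Filter.Tendsto (fun _ : M4 × ℝ => (1 : Circle)) (nhdsWithin x N) (nhds 1) :=
        tendsto_const_nhds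
      classical
      have h3 := Filter.Tendsto.if' (p := fun y : M4 × ℝ => 0 < y.1 0 0 ∧ |y.1 0 1| ≤ y.1 0 0 ∧
        |y.1 0 2| ≤ y.1 0 0 ∧ 1 ≤ y.2 ∧ y.2 ≤ 3) h1 h2
      refine Filter.Tendsto.congr (fun y => ?_) h3
      unfold tauN
      congr
  · -- near `x` no point of `N` is on the wall
    have hC : IsClosed {y : M4 × ℝ | 1 / 4 ≤ y.1 0 0 ∧ |y.1 0 1| ≤ y.1 0 0 ∧
        |y.1 0 2| ≤ y.1 0 0 ∧ 1 ≤ y.2 ∧ y.2 ≤ 3} := by
      refine IsClosed.and (isClosed_le continuous_const (by fun_prop)) ?_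
      refine IsClosed.and (isClosed_le (by fun_prop) (by fun_prop)) ?_
      refine IsClosed.and (isClosed_le (by fun_prop) (by fun_prop)) ?_
      refine IsClosed.and (isClosed_le continuous_const (by fun_prop)) ?_
      exact isClosed_le (by fun_prop) continuous_const
    have key : ∀ y ∈ N, ¬ (1 / 4 ≤ y.1 0 0 ∧ |y.1 0 1| ≤ y.1 0 0 ∧ |y.1 0 2| ≤ y.1 0 0 ∧
        1 ≤ y.2 ∧ y.2 ≤ 3) → tauN y = 1 := by
      intro y hy hn
      unfold tauN
      rw [if_neg]
      rintro ⟨a0, a1, a2, a3, a4⟩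
      exact hn ⟨(ogb_wall hy a0 a1 a2 a3).1, a1, a2, a3, a4⟩
    have hev : ∀ᶠ y in nhdsWithin x N, (1 : Circle) = tauN y := by
      filter_upwards [self_mem_nhdsWithin,
        mem_nhdsWithin_of_mem_nhds (hC.isOpen_compl.mem_nhds hW)] with y hy hyC
      exact (key y hy hyC).symm
    unfold ContinuousWithinAt
    rw [key x hx hW]
    exact Filter.Tendsto.congr' hev tendsto_const_nhds

theorem isClosed_U3 : IsClosed U3 := by
  have hZ : IsClosed Z := by
    unfold Z thetaZ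
    exact isClosed_eq (by fun_prop) continuous_const
  have hM : IsClosed M := isCompact_N.isClosed.preimage continuous_fst
  have hS : IsClosed {u : UT | u.1.1 ∈ M ∧ u.1.2 ∈ Z} :=
    (hM.preimage (by fun_prop : Continuous fun u : UT => u.1.1)).inter
      (hZ.preimage (by fun_prop : Continuous fun u : UT => u.1.2))
  have hc : ContinuousOn (fun u : UT => (u.2 : ℂ) ^ 3 - (tau u.1.1 : ℂ) * thetaZ u.1.2)
      {u : UT | u.1.1 ∈ M ∧ u.1.2 ∈ Z} := by
    refine ContinuousOn.sub ?_ (ContinuousOn.mul ?_ ?_)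
    · exact Continuous.continuousOn (by fun_prop)
    · have hcoe : Continuous (fun z : Circle => (z : ℂ)) := by fun_prop
      refine hcoe.comp_continuousOn ?_
      unfold tau
      refine ContinuousOn.mul ?_ ?_
      · exact ContinuousOn.comp (g := tauN) (f := fun u : UT => u.1.1.1) tauN_continuousOn
          (Continuous.continuousOn (by fun_prop)) (fun u hu => hu.1)
      · exact Continuous.continuousOn (by fun_prop)
    · unfold thetaZ
      exact Continuous.continuousOn (by fun_prop)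
  have := hc.preimage_isClosed_of_isClosed hS (isClosed_singleton (x := (0 : ℂ)))
  have e : U3 = {u : UT | u.1.1 ∈ M ∧ u.1.2 ∈ Z} ∩
      (fun u : UT => (u.2 : ℂ) ^ 3 - (tau u.1.1 : ℂ) * thetaZ u.1.2) ⁻¹' {0} := by
    ext u
    constructor
    · rintro ⟨h1, h2, h3⟩
      exact ⟨⟨h1, h2⟩, sub_eq_zero.2 h3⟩
    · rintro ⟨⟨h1, h2⟩, h3⟩
      exact ⟨h1, h2, sub_eq_zero.1 h3⟩
  rw [e]
  exact this

theorem O3_eq : ∃ F : Set UT, IsClosed F ∧ O3 = U3 \ F := by
  refine ⟨{u | (cA u 1 1 ≤ 4 * cA u 0 0 ∧ cA u 2 2 ≤ 4 * cA u 0 0) ∧ cA u 3 3 ≤ cA u 0 0},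
    ?_, ?_⟩
  · have h : ∀ i j, Continuous fun u : UT => cA u i j := fun i j => by
      have := cA_continuous
      fun_prop
    refine IsClosed.inter (IsClosed.inter ?_ ?_) ?_
    · exact isClosed_le (h 1 1) (continuous_const.mul (h 0 0))
    · exact isClosed_le (h 2 2) (continuous_const.mul (h 0 0))
    · exact isClosed_le (h 3 3) (h 0 0)
  · ext u
    constructor
    · rintro ⟨h1, -, h2⟩
      refine ⟨h1, ?_⟩
      rintro ⟨⟨a, b⟩, c⟩
      rcases h2 with h2 | h2 | h2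
      · exact absurd a (not_le.2 h2)
      · exact absurd b (not_le.2 h2)
      · exact absurd c (not_le.2 h2)
    · rintro ⟨h1, h2⟩
      refine ⟨h1, cA_mem h1, ?_⟩
      by_contra h3
      apply h2
      rw [not_or, not_or, not_lt, not_lt, not_lt] at h3
      exact ⟨⟨h3.1, h3.2.1⟩, h3.2.2⟩

end Pool.Agent.Helper77.DS
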