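import Pool.Agent.Helper77.DS.DDefs
import Pool.Agent.Helper77.DS.OgB
import Pool.Agent.Helper36.AS.Compact

/-!
# DS-EoA: on the slice `A 3 3 = A 2 2 = 0, θ = 1` of `O3` the map `T²` is homotopic to `y ↦ ω y`

`Rw (A, t, θ, (x, y), v) = (A, t, θ, (x, ω y), v)`. Homotopy, `l = exp (2 π i s / 3)`, `s ∈ [0, 1]`:
`G u s = (u.1.1, (l³ x, l² ω y), l² v)`. It preserves the slice: on it `θ = 1`, so `x² - y³ = v³` (`O3_iff`, `c3 u = (z, v)`), and
`(l³ x)² - (l² ω y)³ = l⁶ (x² - y³) = (l² v)³`. `G u 0 = Rw u`; `l = ω` at `s = 1`: `(ω³ x, ω² ω y, ω² v) = (x, y, ω² v)`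
`= T² u`. Supports: `SHomotopy.supp`: for compact `K ⊆` slice the set of the `u` with `G u s ∈ K` for some `s ∈ [0,1]` is
compact: it is the image of the compact set `K × [0,1]` under the continuous map
`(u', s) ↦ (u'.1.1, (l⁻³ x', (l² ω)⁻¹ y'), l⁻² v')`. Then `SHomotopy.mem_coboundaries`.
-/

namespace Pool.Agent.Helper77.DS

open Set Complex Helper36.AS

/-- `y ↦ ω y`. -/
noncomputable def Rw (u : UT) : UT := ((u.1.1, (u.1.2.1, (om : ℂ) * u.1.2.2)), u.2)

/-- The closed set `A 3 3 = A 2 2 = 0`, `θ = 1`. -/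
def G1F : Set UT := {u | cA u 3 3 = 0 ∧ cA u 2 2 = 0 ∧ u.1.1.2 = 1}

private theorem eo_om : om ^ 3 = 1 := by
  unfold om
  rw [← Circle.exp_nsmul, Circle.exp_eq_one]
  refine ⟨1, ?_⟩
  rw [nsmul_eq_mul]
  push_cast
  ring

/-- the general diagonal map -/
private noncomputable def Gn (a b c : Circle) (u : UT) : UT :=
  ((u.1.1, ((a : ℂ) * u.1.2.1, (b : ℂ) * u.1.2.2)), c * u.2)

private theorem Gn_O3 {a b c : Circle} (hab : b ^ 3 = a ^ 2) (hac : c ^ 3 = a ^ 2) {u : UT}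
    (hu : u ∈ O3) : Gn a b c u ∈ O3 := by
  rw [O3_iff] at hu ⊢
  obtain ⟨h1, h2, h3⟩ := hu
  refine ⟨h1, h2, ?_⟩
  change thetaZ u.1.2 = ((u.2 / u.1.1.2 : Circle) : ℂ) ^ 3 at h3
  change thetaZ ((a : ℂ) * u.1.2.1, (b : ℂ) * u.1.2.2) = ((c * u.2 / u.1.1.2 : Circle) : ℂ) ^ 3
  rw [mul_div_assoc, Circle.coe_mul, mul_pow, ← h3]
  have hab' : (b : ℂ) ^ 3 = (a : ℂ) ^ 2 := by
    rw [← Circle.coe_pow, ← Circle.coe_pow, hab]
  have hac' : (c : ℂ) ^ 3 = (a : ℂ) ^ 2 := by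
    rw [← Circle.coe_pow, ← Circle.coe_pow, hac]
  unfold thetaZ
  change ((a : ℂ) * u.1.2.1) ^ 2 - ((b : ℂ) * u.1.2.2) ^ 3 =
    (c : ℂ) ^ 3 * (u.1.2.1 ^ 2 - u.1.2.2 ^ 3)
  rw [mul_pow, mul_pow, hab', hac']
  ring

private theorem Gn_mem {a b c : Circle} (hab : b ^ 3 = a ^ 2) (hac : c ^ 3 = a ^ 2) {u : UT}
    (hu : u ∈ O3 ∩ G1F) : Gn a b c u ∈ O3 ∩ G1F :=
  ⟨Gn_O3 hab hac hu.1, hu.2⟩

private theorem Gn_inv (a b c : Circle) (u : UT) : Gn a⁻¹ b⁻¹ c⁻¹ (Gn a b c u) = u := by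
  unfold Gn
  have h : ∀ (a : Circle) (x : ℂ), ((a⁻¹ : Circle) : ℂ) * ((a : ℂ) * x) = x := fun a x => by
    rw [← mul_assoc, ← Circle.coe_mul, inv_mul_cancel, Circle.coe_one, one_mul]
  simp only [h, inv_mul_cancel_left]

private theorem Gn_cont {Y : Type*} [TopologicalSpace Y] {a b c : Y → Circle} {g : Y → UT}
    (ha : Continuous a) (hb : Continuous b) (hc : Continuous c) (hg : Continuous g) :
    Continuous fun y => Gn (a y) (b y) (c y) (g y) := by
  have hcoe : Continuous (fun z : Circle => (z : ℂ)) := by fun_prop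
  unfold Gn
  have h1 : Continuous fun y => (g y).1.1 := by fun_prop
  have h2 : Continuous fun y => (g y).1.2.1 := by fun_prop
  have h3 : Continuous fun y => (g y).1.2.2 := by fun_prop
  have h4 : Continuous fun y => (g y).2 := by fun_prop
  exact (h1.prodMk (((hcoe.comp ha).mul h2).prodMk ((hcoe.comp hb).mul h3))).prodMk (hc.mul h4)

/-- the parameter -/
private noncomputable def eol (s : ℝ) : Circle := Circle.exp (2 * Real.pi / 3 * s)

private theorem eol_cont : Continuous eol := by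
  unfold eol
  fun_prop

private theorem eol_zero : eol 0 = 1 := by
  unfold eol
  rw [mul_zero, Circle.exp_zero]

private theorem eol_one : eol 1 = om := by
  unfold eol om
  rw [mul_one]

private theorem isClosed_G1F : IsClosed G1F := by
  have h : ∀ i j, Continuous fun u : UT => cA u i j := fun i j => by
    have := cA_continuous
    fun_prop
  unfold G1F
  refine IsClosed.and (isClosed_eq (h 3 3) continuous_const) ?_
  refine IsClosed.and (isClosed_eq (h 2 2) continuous_const) ?_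
  exact isClosed_eq (by fun_prop) continuous_const

private theorem good_G1F : Good IsCompact (O3 ∩ G1F) := by
  obtain ⟨F, hF, e⟩ := O3_eq
  have h1 := good_locallyClosed (U3 ∩ G1F) F (isClosed_U3.inter isClosed_G1F) hF
  have h2 : O3 ∩ G1F = (U3 ∩ G1F) \ F := by
    rw [e]
    ext u
    constructor
    · rintro ⟨⟨h1, h2⟩, h3⟩
      exact ⟨⟨h1, h3⟩, h2⟩
    · rintro ⟨⟨h1, h3⟩, h2⟩
      exact ⟨⟨h1, h2⟩, h3⟩
  rw [h2]
  exact h1

theorem Rw_maps {u : UT} (hu : u ∈ O3) : Rw u ∈ O3 := by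
  have h : Rw u = Gn 1 om 1 u := by
    unfold Rw Gn
    rw [Circle.coe_one, one_mul, one_mul]
  rw [h]
  exact Gn_O3 (by rw [eo_om, one_pow]) (by rw [one_pow, one_pow]) hu

theorem TT_homotopy {f : List UT → ZMod 2} (hf : f ∈ cocycles (ZMod 2) IsCompact (O3 ∩ G1F) 2) :
    pull TU (pull TU f) - pull Rw f ∈ coboundaries (ZMod 2) IsCompact (O3 ∩ G1F) 2 := by
  have hab : ∀ l : Circle, (l ^ 2 * om) ^ 3 = (l ^ 3) ^ 2 := fun l => by
    rw [mul_pow, eo_om, mul_one, ← pow_mul, ← pow_mul]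
  have hac : ∀ l : Circle, (l ^ 2) ^ 3 = (l ^ 3) ^ 2 := fun l => by
    rw [← pow_mul, ← pow_mul]
  have hH : SHomotopy IsCompact IsCompact (O3 ∩ G1F) (O3 ∩ G1F)
      (fun u s => Gn (eol s ^ 3) (eol s ^ 2 * om) (eol s ^ 2) u) := by
    refine SHomotopy.of_proper ?_ ?_ ?_
    · refine (Gn_cont ?_ ?_ ?_ continuous_fst).continuousOn
      · exact (eol_cont.comp continuous_snd).pow 3
      · exact ((eol_cont.comp continuous_snd).pow 2).mul continuous_const
      · exact (eol_cont.comp continuous_snd).pow 2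
    · intro u hu s _
      exact Gn_mem (hab _) (hac _) hu
    · intro K hK hKc
      refine ⟨(fun p : UT × ℝ => Gn (eol p.2 ^ 3)⁻¹ (eol p.2 ^ 2 * om)⁻¹ (eol p.2 ^ 2)⁻¹ p.1) ''
        (K ×ˢ Icc 0 1), ?_, ?_, ?_⟩
      · rintro _ ⟨⟨u, s⟩, ⟨hu, -⟩, rfl⟩
        refine Gn_mem ?_ ?_ (hK hu)
        · rw [inv_pow, inv_pow, hab]
        · rw [inv_pow, inv_pow, hac]
      · refine (hKc.prod isCompact_Icc).image ?_
        refine Gn_cont ?_ ?_ ?_ continuous_fst
        · exact ((eol_cont.comp continuous_snd).pow 3).inv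
        · exact (((eol_cont.comp continuous_snd).pow 2).mul continuous_const).inv
        · exact ((eol_cont.comp continuous_snd).pow 2).inv
      · intro u _ s hs hus
        exact ⟨(Gn (eol s ^ 3) (eol s ^ 2 * om) (eol s ^ 2) u, s), ⟨hus, hs⟩, Gn_inv _ _ _ u⟩
  have h := hH.mem_coboundaries good_G1F hf
  have e0 : (fun u => Gn (eol 0 ^ 3) (eol 0 ^ 2 * om) (eol 0 ^ 2) u) = Rw := by
    funext u
    rw [eol_zero, one_pow, one_pow, one_mul]
    unfold Rw Gn
    rw [Circle.coe_one, one_mul, one_mul]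
  have e1 : (fun u => Gn (eol 1 ^ 3) (eol 1 ^ 2 * om) (eol 1 ^ 2) u) = fun u => TU (TU u) := by
    funext u
    have e2 : om ^ 2 * om = 1 := by rw [← pow_succ, eo_om]
    rw [eol_one, eo_om, e2]
    unfold Gn TU
    rw [Circle.coe_one, one_mul, one_mul, sq, mul_assoc]
  have e3 : pull TU (pull TU f) = pull (fun u => TU (TU u)) f := by
    funext l
    change f ((l.map TU).map TU) = f (l.map fun u => TU (TU u))
    rw [List.map_map]
    rfl
  rw [e3, ← e0, ← e1]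
  exact h

end Pool.Agent.Helper77.DS
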