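import Pool.Agent.Helper77.DS.DDefs
import Pool.Agent.Helper77.DS.SiA

/-!
# DS-ZsA: strata of `Z3`

`Z3_homeo`: for `ζ = e^{iψ}`, `0 < ψ < 2π`, put `l = e^{iψ/2}`, so `l² = ζ`; then
`((x, y), ζ) ↦ ((x / l³, y / l²), 1) ∈ FF` (weighted homogeneity of `x² - y³`) and `ψ ∈ (0, 2π) ≅ ℝ`.
We use the coordinate `t = cot (ψ/2) = Im ζ / (1 - Re ζ)`, so that `l = (t + i) / √(1 + t²)`.
`FF_homeo`: for `x ∉ [1, ∞)`: `c = c(x - 1)` the continuous cube root of `x - 1` on `ℂ \ [0, ∞)`,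
`c(z) = e^{iπ/3} (-z)^{1/3}` (principal), `y³ = (x - 1)(x + 1)`, `v = y / c` satisfies `v³ = x + 1`, so
`v³ ∉ [2, ∞)`, `x = v³ - 1`, `y = v c(v³ - 2)`. So `FF \ XG ≅ KKᶜ`.
`tri_homeo`: `FF ∩ XG ≅ TP`: `((x, y), 1) ↦ y`, inverse `y ↦ ((√(1 + Re y³), y), 1)`
(`x² = 1 + y³`, `x ≥ 1`).
-/

namespace Pool.Agent.Helper77.DS

open Set Complex Helper36.AS

/-! ### The coordinate of the circle minus a point -/

private noncomputable def zsT (z : Circle) : ℝ := (z : ℂ).im / (1 - (z : ℂ).re)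

private noncomputable def zsL (t : ℝ) : ℂ := ((t : ℂ) + I) / ((√(1 + t ^ 2) : ℝ) : ℂ)

private theorem zs_pos (t : ℝ) : 0 < 1 + t ^ 2 := by positivity

private theorem zs_sq (t : ℝ) : (((√(1 + t ^ 2) : ℝ) : ℂ)) ^ 2 = 1 + (t : ℂ) ^ 2 := by
  rw [← Complex.ofReal_pow, Real.sq_sqrt (zs_pos t).le]
  push_cast
  ring

private theorem zs_sqrt_ne (t : ℝ) : (((√(1 + t ^ 2) : ℝ) : ℂ)) ≠ 0 := by
  rw [Complex.ofReal_ne_zero]
  exact (Real.sqrt_pos.mpr (zs_pos t)).ne'

private theorem zs_tI (t : ℝ) : ((t : ℂ) + I) ≠ 0 := by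
  intro h
  have := congrArg Complex.im h
  simp at this

private theorem zsL_ne (t : ℝ) : zsL t ≠ 0 := div_ne_zero (zs_tI t) (zs_sqrt_ne t)

private theorem zs_one_ne (t : ℝ) : (1 + (t : ℂ) ^ 2) ≠ 0 := by
  rw [← zs_sq]
  exact pow_ne_zero 2 (zs_sqrt_ne t)

private theorem zsL_sq (t : ℝ) : zsL t ^ 2 = ((t : ℂ) + I) ^ 2 / (1 + (t : ℂ) ^ 2) := by
  unfold zsL
  rw [div_pow, zs_sq]

private theorem zsL_cont : Continuous zsL := by
  unfold zsL
  refine Continuous.div (by fun_prop) ?_ zs_sqrt_ne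
  exact Complex.continuous_ofReal.comp (Real.continuous_sqrt.comp (by fun_prop))

private theorem zsL_norm (t : ℝ) : ‖zsL t‖ = 1 := by
  unfold zsL
  have h1 : ‖((t : ℂ) + I)‖ = √(1 + t ^ 2) := by
    rw [Complex.norm_def, Complex.normSq_apply]
    congr 1
    simp
    ring
  rw [norm_div, h1, Complex.norm_real, Real.norm_of_nonneg (Real.sqrt_nonneg _)]
  exact div_self (Real.sqrt_pos.mpr (zs_pos t)).ne'

private noncomputable def zsC (t : ℝ) : Circle :=
  ⟨zsL t, mem_sphere_zero_iff_norm.2 (zsL_norm t)⟩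

private theorem zsC_coe (t : ℝ) : (zsC t : ℂ) = zsL t := rfl

private theorem zsC_cont : Continuous zsC := by
  exact Continuous.subtype_mk zsL_cont _

private theorem zs_re_ne {z : Circle} (hz : z ≠ 1) : 1 - (z : ℂ).re ≠ 0 := by
  intro h
  apply hz
  have hre : (z : ℂ).re = 1 := by linarith
  have hn : (z : ℂ).re * (z : ℂ).re + (z : ℂ).im * (z : ℂ).im = 1 := by
    rw [← Complex.normSq_apply, Complex.normSq_eq_norm_sq, Circle.norm_coe, one_pow]
  have him : (z : ℂ).im = 0 := by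
    rw [hre] at hn
    have : (z : ℂ).im * (z : ℂ).im = 0 := by linarith
    exact mul_self_eq_zero.mp this
  apply Circle.ext
  rw [Circle.coe_one]
  exact Complex.ext (by rw [hre, Complex.one_re]) (by rw [him, Complex.one_im])

private theorem zs_alg {a b : ℝ} (hne : 1 - a ≠ 0) (hn : a * a + b * b = 1) :
    zsL (b / (1 - a)) ^ 2 = (a : ℂ) + (b : ℂ) * I := by
  rw [zsL_sq, div_eq_iff (zs_one_ne _)]
  have hne' : (1 - (a : ℂ)) ≠ 0 := by
    rw [← Complex.ofReal_one, ← Complex.ofReal_sub, Complex.ofReal_ne_zero]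
    exact hne
  have hn' : (a : ℂ) * a + b * b = 1 := by
    exact_mod_cast hn
  push_cast
  field_simp
  linear_combination (1 - (a : ℂ) - (b : ℂ) * I) * hn' + (1 - (a : ℂ)) ^ 2 * Complex.I_sq

private theorem zsT_L {z : Circle} (hz : z ≠ 1) : zsL (zsT z) ^ 2 = (z : ℂ) := by
  have hne := zs_re_ne hz
  have hn : (z : ℂ).re * (z : ℂ).re + (z : ℂ).im * (z : ℂ).im = 1 := by
    rw [← Complex.normSq_apply, Complex.normSq_eq_norm_sq, Circle.norm_coe, one_pow]
  unfold zsT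
  rw [zs_alg hne hn]
  exact Complex.re_add_im _

private theorem zsC_T {z : Circle} (hz : z ≠ 1) : zsC (zsT z) ^ 2 = z := by
  apply Circle.ext
  rw [Circle.coe_pow, zsC_coe, zsT_L hz]

private theorem zs_reim (t : ℝ) : ((zsC t ^ 2 : Circle) : ℂ).re = (t ^ 2 - 1) / (1 + t ^ 2) ∧
    ((zsC t ^ 2 : Circle) : ℂ).im = 2 * t / (1 + t ^ 2) := by
  have h : ((zsC t ^ 2 : Circle) : ℂ) =
      (((t ^ 2 - 1) / (1 + t ^ 2) : ℝ) : ℂ) + ((2 * t / (1 + t ^ 2) : ℝ) : ℂ) * I := by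
    rw [Circle.coe_pow, zsC_coe, zsL_sq]
    have := zs_one_ne t
    push_cast
    field_simp
    linear_combination Complex.I_sq
  rw [h]
  constructor
  · rw [Complex.add_re, Complex.ofReal_re, Complex.re_ofReal_mul, Complex.I_re]
    ring
  · rw [Complex.add_im, Complex.ofReal_im, Complex.im_ofReal_mul, Complex.I_im]
    ring

private theorem zsT_C (t : ℝ) : zsT (zsC t ^ 2) = t := by
  unfold zsT
  obtain ⟨h1, h2⟩ := zs_reim t
  rw [h1, h2]
  have := (zs_pos t).ne'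
  have h3 : 1 - (t ^ 2 - 1) / (1 + t ^ 2) = 2 / (1 + t ^ 2) := by
    field_simp
    ring
  rw [h3]
  field_simp

private theorem zsC_ne (t : ℝ) : zsC t ^ 2 ≠ 1 := by
  intro h
  obtain ⟨h1, -⟩ := zs_reim t
  rw [h, Circle.coe_one, Complex.one_re] at h1
  have := zs_pos t
  rw [eq_div_iff this.ne'] at h1
  linarith

private theorem zsT_cont : ContinuousOn zsT {z : Circle | z ≠ 1} := by
  unfold zsT
  refine ContinuousOn.div ?_ ?_ (fun z hz => zs_re_ne hz)
  · exact (Complex.continuous_im.comp continuous_subtype_val).continuousOn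
  · exact (continuous_const.sub (Complex.continuous_re.comp continuous_subtype_val)).continuousOn

theorem Z3_homeo : ∃ φ ψ, SHomeo (Z3 \ {w : (ℂ × ℂ) × Circle | w.2 = 1})
    ((univ : Set ℝ) ×ˢ FF) φ ψ := by
  refine ⟨fun w => (zsT w.2, ((w.1.1 / zsL (zsT w.2) ^ 3, w.1.2 / zsL (zsT w.2) ^ 2), 1)),
    fun p => ((p.2.1.1 * zsL p.1 ^ 3, p.2.1.2 * zsL p.1 ^ 2), zsC p.1 ^ 2), ?_⟩
  constructor
  · have hT : ContinuousOn (fun w : (ℂ × ℂ) × Circle => zsT w.2)
        (Z3 \ {w : (ℂ × ℂ) × Circle | w.2 = 1}) :=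
      zsT_cont.comp continuous_snd.continuousOn (fun w hw => hw.2)
    have hL : ContinuousOn (fun w : (ℂ × ℂ) × Circle => zsL (zsT w.2))
        (Z3 \ {w : (ℂ × ℂ) × Circle | w.2 = 1}) := zsL_cont.comp_continuousOn hT
    refine hT.prodMk ((ContinuousOn.prodMk ?_ ?_).prodMk continuousOn_const)
    · exact (by fun_prop : Continuous fun w : (ℂ × ℂ) × Circle => w.1.1).continuousOn.div
        (hL.pow 3) (fun w _ => pow_ne_zero 3 (zsL_ne _))
    · exact (by fun_prop : Continuous fun w : (ℂ × ℂ) × Circle => w.1.2).continuousOn.div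
        (hL.pow 2) (fun w _ => pow_ne_zero 2 (zsL_ne _))
  · have h1 := zsL_cont
    have h2 := zsC_cont
    refine Continuous.continuousOn ?_
    fun_prop
  · rintro w ⟨hw, hne⟩
    refine ⟨mem_univ _, ?_, rfl⟩
    have hw' : thetaZ w.1 = (w.2 : ℂ) ^ 3 := hw
    show thetaZ _ = _
    unfold thetaZ at hw' ⊢
    have hl := zsL_ne (zsT w.2)
    have hs := zsT_L (z := w.2) hne
    have e : w.1.1 ^ 2 - w.1.2 ^ 3 = (zsL (zsT w.2) ^ 2) ^ 3 := by rw [hs, hw']
    simp only [Circle.coe_one, one_pow]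
    field_simp
    linear_combination e
  · rintro p ⟨-, hp, h1⟩
    refine ⟨?_, zsC_ne p.1⟩
    have hp' : thetaZ p.2.1 = (p.2.2 : ℂ) ^ 3 := hp
    rw [h1, Circle.coe_one, one_pow] at hp'
    show thetaZ _ = _
    unfold thetaZ at hp' ⊢
    simp only [Circle.coe_pow, zsC_coe]
    linear_combination (zsL p.1) ^ 6 * hp'
  · rintro w ⟨hw, hne⟩
    have hl := zsL_ne (zsT w.2)
    simp only
    rw [zsC_T (z := w.2) hne]
    refine Prod.ext (Prod.ext ?_ ?_) rfl
    · simp only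
      field_simp
    · simp only
      field_simp
  · rintro p ⟨-, hp, h1⟩
    have hl := zsL_ne p.1
    simp only
    rw [zsT_C]
    refine Prod.ext rfl (Prod.ext (Prod.ext ?_ ?_) h1.symm)
    · simp only
      field_simp
    · simp only
      field_simp

/-! ### The fibre -/

/-- The cube root of `-z`, times `exp (iπ/3)`. -/
private noncomputable def zsc (z : ℂ) : ℂ :=
  Complex.exp ((Real.pi / 3 : ℝ) * I) * (-z) ^ ((1 / 3 : ℝ) : ℂ)

private theorem zsc_cube {z : ℂ} (_hz : z ≠ 0) : zsc z ^ 3 = z := by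
  unfold zsc
  rw [mul_pow, ← Complex.exp_nat_mul]
  have h1 : ((3 : ℕ) : ℂ) * (((Real.pi / 3 : ℝ) : ℂ) * I) = Real.pi * I := by
    push_cast
    ring
  have h2 : ((-z) ^ ((1 / 3 : ℝ) : ℂ)) ^ 3 = -z := by
    rw [← Complex.cpow_nat_mul]
    have : ((3 : ℕ) : ℂ) * ((1 / 3 : ℝ) : ℂ) = 1 := by
      push_cast
      norm_num
    rw [this, Complex.cpow_one]
  rw [h1, Complex.exp_pi_mul_I, h2]
  ring

private theorem zsc_ne {z : ℂ} (hz : z ≠ 0) : zsc z ≠ 0 := by
  intro h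
  have := zsc_cube hz
  rw [h] at this
  apply hz
  rw [← this]
  ring

private theorem zsc_cont {z : ℂ} (hz : -z ∈ slitPlane) : ContinuousAt zsc z := by
  unfold zsc
  refine continuousAt_const.mul ?_
  exact ContinuousAt.cpow (continuous_neg.continuousAt) continuousAt_const hz

private theorem zs_slit {x : ℂ} {c : ℝ} (h : ¬ (x.im = 0 ∧ c ≤ x.re)) : -(x - c) ∈ slitPlane := by
  rw [Complex.mem_slitPlane_iff]
  simp only [Complex.neg_re, Complex.sub_re, Complex.ofReal_re, Complex.neg_im, Complex.sub_im,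
    Complex.ofReal_im]
  by_contra hcon
  push Not at hcon
  obtain ⟨h1, h2⟩ := hcon
  exact h ⟨by linarith, by linarith⟩

private theorem zs_ne_of_slit {z : ℂ} (h : -z ∈ slitPlane) : z ≠ 0 := by
  rintro rfl
  rw [neg_zero] at h
  exact Complex.zero_notMem_slitPlane h

theorem FF_homeo : ∃ φ ψ, SHomeo (FF \ XG) KKᶜ φ ψ := by
  have hX : ∀ w ∈ FF \ XG, -(w.1.1 - 1) ∈ slitPlane := by
    rintro w ⟨-, hw⟩
    have := zs_slit (x := w.1.1) (c := 1) hw
    rwa [Complex.ofReal_one] at this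
  have hK : ∀ v ∈ KKᶜ, -(v ^ 3 - 2) ∈ slitPlane := by
    intro v hv
    have := zs_slit (x := v ^ 3) (c := 2) hv
    rwa [Complex.ofReal_ofNat] at this
  have hF : ∀ w ∈ FF, w.1.1 ^ 2 - w.1.2 ^ 3 = 1 := by
    rintro w ⟨hw, h1⟩
    have hw' : thetaZ w.1 = (w.2 : ℂ) ^ 3 := hw
    rw [h1, Circle.coe_one, one_pow] at hw'
    exact hw'
  have hv : ∀ w ∈ FF \ XG, (w.1.2 / zsc (w.1.1 - 1)) ^ 3 = w.1.1 + 1 := by
    intro w hw
    have h1 := hF w hw.1
    have h2 := zs_ne_of_slit (hX w hw)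
    rw [div_pow, zsc_cube h2, div_eq_iff h2]
    linear_combination -h1
  refine ⟨fun w => w.1.2 / zsc (w.1.1 - 1), fun v => ((v ^ 3 - 1, v * zsc (v ^ 3 - 2)), 1), ?_⟩
  constructor
  · intro w hw
    have h2 := zs_ne_of_slit (hX w hw)
    refine ContinuousAt.continuousWithinAt ?_
    refine ContinuousAt.div (by fun_prop) ?_ (zsc_ne h2)
    exact ContinuousAt.comp (f := fun w : (ℂ × ℂ) × Circle => w.1.1 - 1) (g := zsc)
      (zsc_cont (hX w hw)) (by fun_prop)
  · intro v hv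
    refine ContinuousAt.continuousWithinAt ?_
    have h3 : ContinuousAt (fun v : ℂ => zsc (v ^ 3 - 2)) v :=
      ContinuousAt.comp (f := fun v : ℂ => v ^ 3 - 2) (g := zsc) (zsc_cont (hK v hv)) (by fun_prop)
    exact ((by fun_prop : ContinuousAt (fun v : ℂ => v ^ 3 - 1) v).prodMk
      (continuousAt_id.mul h3)).prodMk continuousAt_const
  · intro w hw hk
    have h1 := hv w hw
    apply hw.2
    obtain ⟨h2, h3⟩ := hk
    rw [h1] at h2 h3
    simp only [Complex.add_re, Complex.add_im, Complex.one_re, Complex.one_im] at h2 h3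
    exact ⟨by linarith, by linarith⟩
  · intro v hv
    have h2 := zs_ne_of_slit (hK v hv)
    refine ⟨⟨?_, rfl⟩, ?_⟩
    · show thetaZ _ = _
      unfold thetaZ
      simp only [Circle.coe_one, one_pow]
      rw [mul_pow, zsc_cube h2]
      ring
    · rintro ⟨h3, h4⟩
      apply hv
      simp only [Complex.sub_re, Complex.sub_im, Complex.one_re, Complex.one_im] at h3 h4
      exact ⟨by linarith, by linarith⟩
  · intro w hw
    have h1 := hv w hw
    have h2 := zs_ne_of_slit (hX w hw)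
    rw [h1]
    have e1 : w.1.1 + 1 - 2 = w.1.1 - 1 := by ring
    rw [e1]
    refine Prod.ext (Prod.ext ?_ ?_) hw.1.2.symm
    · simp only
      ring
    · simp only
      exact div_mul_cancel₀ _ (zsc_ne h2)
  · intro v hv
    have h2 := zs_ne_of_slit (hK v hv)
    simp only
    have e1 : v ^ 3 - 1 - 1 = v ^ 3 - 2 := by ring
    rw [e1]
    exact mul_div_cancel_right₀ _ (zsc_ne h2)

theorem tri_homeo : ∃ ψ, SHomeo (FF ∩ XG) TP (fun w : (ℂ × ℂ) × Circle => w.1.2) ψ := by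
  have hF : ∀ w ∈ FF, w.1.1 ^ 2 - w.1.2 ^ 3 = 1 := by
    rintro w ⟨hw, h1⟩
    have hw' : thetaZ w.1 = (w.2 : ℂ) ^ 3 := hw
    rw [h1, Circle.coe_one, one_pow] at hw'
    exact hw'
  have hre : ∀ w ∈ FF ∩ XG, (w.1.2 ^ 3).re = w.1.1.re ^ 2 - 1 ∧ (w.1.2 ^ 3).im = 0 := by
    rintro w ⟨h1, h2, h3⟩
    have h4 := hF w h1
    have h5 : w.1.2 ^ 3 = w.1.1 ^ 2 - 1 := by linear_combination -h4
    rw [h5, pow_two]
    simp only [Complex.sub_re, Complex.sub_im, Complex.one_re, Complex.one_im, Complex.mul_re,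
      Complex.mul_im, h2]
    constructor <;> ring
  refine ⟨fun y => ((((√(1 + (y ^ 3).re) : ℝ) : ℂ), y), 1), ?_⟩
  constructor
  · exact (by fun_prop : Continuous fun w : (ℂ × ℂ) × Circle => w.1.2).continuousOn
  · refine Continuous.continuousOn ?_
    refine Continuous.prodMk (Continuous.prodMk ?_ continuous_id) continuous_const
    exact Complex.continuous_ofReal.comp (Real.continuous_sqrt.comp
      (continuous_const.add (Complex.continuous_re.comp (continuous_pow 3))))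
  · intro w hw
    obtain ⟨h1, h2⟩ := hre w hw
    refine ⟨h2, ?_⟩
    show 0 ≤ (w.1.2 ^ 3).re
    rw [h1]
    have h3 : 1 ≤ w.1.1.re := hw.2.2
    nlinarith
  · rintro y ⟨h1, h2⟩
    have h3 : (0 : ℝ) ≤ 1 + (y ^ 3).re := by linarith
    refine ⟨⟨?_, rfl⟩, ?_, ?_⟩
    · show thetaZ _ = _
      unfold thetaZ
      simp only [Circle.coe_one, one_pow]
      rw [← Complex.ofReal_pow, Real.sq_sqrt h3]
      have h4 : (y ^ 3) = (((y ^ 3).re : ℝ) : ℂ) := by
        apply Complex.ext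
        · rw [Complex.ofReal_re]
        · rw [Complex.ofReal_im, h1]
      rw [Complex.ofReal_add, Complex.ofReal_one, ← h4]
      ring
    · exact Complex.ofReal_im _
    · show 1 ≤ (((√(1 + (y ^ 3).re) : ℝ) : ℂ)).re
      rw [Complex.ofReal_re]
      rw [Real.one_le_sqrt]
      linarith
  · intro w hw
    obtain ⟨h1, h2⟩ := hre w hw
    obtain ⟨h3, h4, h5⟩ := hw
    refine Prod.ext (Prod.ext ?_ rfl) h3.2.symm
    simp only
    rw [h1]
    have h6 : 1 + (w.1.1.re ^ 2 - 1) = w.1.1.re ^ 2 := by ring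
    rw [h6, Real.sqrt_sq (by linarith)]
    apply Complex.ext
    · rw [Complex.ofReal_re]
    · rw [Complex.ofReal_im, h4]
  · intro y _
    rfl

theorem isClosed_XG : IsClosed XG := by
  unfold XG
  have h : Continuous fun w : (ℂ × ℂ) × Circle => w.1.1 := by fun_prop
  exact (isClosed_eq (Complex.continuous_im.comp h) continuous_const).inter
    (isClosed_le continuous_const (Complex.continuous_re.comp h))

theorem isClosed_FF : IsClosed FF := by
  unfold FF
  exact isClosed_Z3.inter (isClosed_eq (by fun_prop) continuous_const)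

end Pool.Agent.Helper77.DS
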