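import Pool.Agent.Helper77.DS.OgA
import Pool.Agent.Helper77.DS.ZsA

/-!
# DS-OsA: strata of `O3`

By `O3_iff` a point of `O3` is `((((A, 0), θ), z), v)` with `A ∈ OO`, `θ ∈ S¹`, `(z, ζ) ∈ Z3`, `ζ = v / θ`. Write
`A = q qᵀ`. Normalise on each stratum by the ratios with the last non zero coordinate, which are entries
of `A` divided by a diagonal entry:
* `A 3 3 ≠ 0`: `b₀ = 2... ` the conditions for `OO` are `4 q₀² < q₁²` or `4 q₀² < q₂²` or `q₀² < q₃²`, i.e.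
  `|q₀| < μ` with `μ = max (|q₁|/2) (|q₂|/2) |q₃|`; coordinates: `q₁/q₃ = A 1 3 / A 3 3`, `q₂/q₃ = A 2 3 / A 3 3` in `ℝ`, and
  `q₀/q₃ = A 0 3 / A 3 3` with `|q₀/q₃| < max (|q₁/q₃|/2) (|q₂/q₃|/2) 1`: divide by the maximum: a number in
  `(-1, 1) ≅ ℝ`. So the stratum is `ℝ × (ℝ × (ℝ × (S¹ × Z3)))`.
* `A 3 3 = 0`, `A 2 2 ≠ 0`: `q₁/q₂ = A 1 2 / A 2 2 ∈ ℝ`, `q₀/q₂` with `|q₀/q₂| < max (|q₁/q₂|/2) (1/2)`.
* `A 3 3 = A 2 2 = 0` (then `A 1 1 ≠ 0`): `q₀/q₁ = A 0 1 / A 1 1 ∈ (-1/2, 1/2) ≅ ℝ`.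
The inverse maps are `q = (.., .., .., 1) / norm` etc., `A = outer q`.
-/

namespace Pool.Agent.Helper77.DS

open Set Complex Helper36.AS

/-- the point of projective space of a nonzero vector -/
noncomputable def osN (w : Fin 4 → ℝ) : M4 := fun i j => w i * w j / ∑ k, w k ^ 2

theorem osN_mem {w : Fin 4 → ℝ} (h : 0 < ∑ k, w k ^ 2) : osN w ∈ RP3 := by
  refine ⟨fun i => w i / √(∑ k, w k ^ 2), ?_, ?_⟩
  · have h1 : ∀ i, (w i / √(∑ k, w k ^ 2)) ^ 2 = w i ^ 2 / ∑ k, w k ^ 2 := by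
      intro i
      rw [div_pow, Real.sq_sqrt h.le]
    rw [Finset.sum_congr rfl fun i _ => h1 i, ← Finset.sum_div, div_self h.ne']
  · funext i j
    show w i * w j / ∑ k, w k ^ 2 = w i / √(∑ k, w k ^ 2) * (w j / √(∑ k, w k ^ 2))
    rw [div_mul_div_comm, Real.mul_self_sqrt h.le]

theorem osN_OO {w : Fin 4 → ℝ} (h : 0 < ∑ k, w k ^ 2) : osN w ∈ OO ↔
    (4 * w 0 ^ 2 < w 1 ^ 2 ∨ 4 * w 0 ^ 2 < w 2 ^ 2 ∨ w 0 ^ 2 < w 3 ^ 2) := by
  have e : ∀ i, osN w i i = w i ^ 2 / ∑ k, w k ^ 2 := fun i => by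
    show w i * w i / _ = _
    rw [sq]
  have h0 : ∀ a b : ℝ, a / (∑ k, w k ^ 2) < b / (∑ k, w k ^ 2) ↔ a < b := fun a b =>
    div_lt_div_iff_of_pos_right h
  constructor
  · rintro ⟨-, h1⟩
    simp only [e, ← mul_div_assoc, h0] at h1
    exact h1
  · intro h1
    refine ⟨osN_mem h, ?_⟩
    simp only [e, ← mul_div_assoc, h0]
    exact h1

theorem osN_eq {A : M4} (hA : A ∈ RP3) {k : Fin 4} (hk : A k k ≠ 0) :
    osN (fun i => A i k / A k k) = A := by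
  obtain ⟨q, hq, rfl⟩ := hA
  have hqk : q k ≠ 0 := by
    intro h
    apply hk
    show q k * q k = 0
    rw [h, mul_zero]
  have h1 : ∀ i, outer q i k / outer q k k = q i / q k := by
    intro i
    show q i * q k / (q k * q k) = q i / q k
    field_simp
  funext i j
  show (outer q i k / outer q k k) * (outer q j k / outer q k k) /
    ∑ l, (outer q l k / outer q k k) ^ 2 = q i * q j
  rw [h1, h1, Finset.sum_congr rfl fun l _ => by rw [h1 l, div_pow], ← Finset.sum_div, hq]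
  field_simp

theorem osN_pos {A : M4} {k : Fin 4} (hk : A k k ≠ 0) :
    0 < ∑ i, (A i k / A k k) ^ 2 := by
  refine Finset.sum_pos' (fun i _ => sq_nonneg _) ⟨k, Finset.mem_univ _, ?_⟩
  rw [div_self hk]
  norm_num

theorem osN_pos' {w : Fin 4 → ℝ} {k : Fin 4} (hk : w k = 1) : 0 < ∑ i, w i ^ 2 := by
  refine Finset.sum_pos' (fun i _ => sq_nonneg _) ⟨k, Finset.mem_univ _, ?_⟩
  rw [hk]
  norm_num

theorem osN_div {w : Fin 4 → ℝ} {k : Fin 4} (hk : w k = 1) (i : Fin 4) :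
    osN w i k / osN w k k = w i := by
  have h := osN_pos' hk
  show w i * w k / (∑ l, w l ^ 2) / (w k * w k / ∑ l, w l ^ 2) = w i
  rw [hk]
  field_simp

theorem osN_ne {w : Fin 4 → ℝ} {k : Fin 4} (hk : w k = 1) : osN w k k ≠ 0 := by
  have h := osN_pos' hk
  show w k * w k / (∑ l, w l ^ 2) ≠ 0
  rw [hk]
  positivity

theorem osN_zero {w : Fin 4 → ℝ} {k : Fin 4} (hk : w k = 0) : osN w k k = 0 := by
  show w k * w k / (∑ l, w l ^ 2) = 0
  rw [hk, mul_zero, zero_div]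

theorem osN_cont {Y : Type*} [TopologicalSpace Y] {w : Y → Fin 4 → ℝ} (hw : Continuous w)
    (h : ∀ y, 0 < ∑ k, w y k ^ 2) : Continuous fun y => osN (w y) := by
  refine continuous_pi fun i => continuous_pi fun j => ?_
  have h1 : ∀ i, Continuous fun y => w y i := fun i => (continuous_apply i).comp hw
  exact ((h1 i).mul (h1 j)).div (continuous_finsetSum _ fun k _ => (h1 k).pow 2)
    fun y => (h y).ne'

/-- off-diagonal entries vanish with the diagonal ones -/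
theorem os_zero {A : M4} (hA : A ∈ RP3) {k : Fin 4} (hk : A k k = 0) (j : Fin 4) : A k j = 0 := by
  obtain ⟨q, -, rfl⟩ := hA
  have h : q k * q k = 0 := hk
  have h1 : q k = 0 := mul_self_eq_zero.1 h
  show q k * q j = 0
  rw [h1, zero_mul]

theorem os_nonneg {A : M4} (hA : A ∈ RP3) (k : Fin 4) : 0 ≤ A k k := by
  obtain ⟨q, -, rfl⟩ := hA
  exact mul_self_nonneg _

/-- the homeomorphism of `(-μ, μ)` and the line -/
noncomputable def osS (μ x : ℝ) : ℝ := x / (μ - |x|)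

/-- its inverse -/
noncomputable def osU (μ s : ℝ) : ℝ := μ * s / (1 + |s|)

theorem osU_lt {μ : ℝ} (hμ : 0 < μ) (s : ℝ) : |osU μ s| < μ := by
  have h1 : 0 < 1 + |s| := by positivity
  unfold osU
  rw [abs_div, abs_mul, abs_of_pos hμ, abs_of_pos h1, div_lt_iff₀ h1]
  nlinarith [abs_nonneg s]

theorem osS_osU {μ : ℝ} (hμ : 0 < μ) (s : ℝ) : osS μ (osU μ s) = s := by
  have h1 : 0 < 1 + |s| := by positivity
  unfold osS osU
  rw [abs_div, abs_mul, abs_of_pos hμ, abs_of_pos h1]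
  field_simp
  ring

theorem osU_osS {μ x : ℝ} (hx : |x| < μ) : osU μ (osS μ x) = x := by
  have h1 : 0 < μ - |x| := by linarith
  have h0 : 0 < μ := lt_of_le_of_lt (abs_nonneg x) hx
  unfold osS osU
  rw [abs_div, abs_of_pos h1]
  have h2 : 1 + |x| / (μ - |x|) = μ / (μ - |x|) := by
    field_simp
    ring
  rw [h2]
  field_simp

theorem osU_cont {Y : Type*} [TopologicalSpace Y] {μ s : Y → ℝ} (hμ : Continuous μ)
    (hs : Continuous s) : Continuous fun y => osU (μ y) (s y) :=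
  (hμ.mul hs).div (continuous_const.add hs.abs) fun y => by positivity

theorem osS_cont {Y : Type*} [TopologicalSpace Y] {S : Set Y} {μ x : Y → ℝ}
    (hμ : ContinuousOn μ S) (hx : ContinuousOn x S) (h : ∀ y ∈ S, |x y| < μ y) :
    ContinuousOn (fun y => osS (μ y) (x y)) S :=
  hx.div (hμ.sub hx.abs) fun y hy => by
    have := h y hy
    linarith

theorem os_half {x a : ℝ} : 4 * x ^ 2 < a ^ 2 ↔ |x| < |a| / 2 := by
  rw [lt_div_iff₀ (by norm_num : (0 : ℝ) < 2)]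
  have h : 4 * x ^ 2 = (x * 2) ^ 2 := by ring
  rw [h, sq_lt_sq, abs_mul, abs_of_pos (by norm_num : (0 : ℝ) < 2)]

theorem os_one {x : ℝ} : x ^ 2 < 1 ^ 2 ↔ |x| < 1 := by
  rw [sq_lt_sq, abs_one]

theorem os_div_cont {S : Set M4} (i j k : Fin 4) (h : ∀ A ∈ S, A k k ≠ 0) :
    ContinuousOn (fun A : M4 => A i j / A k k) S := by
  have h1 : ∀ i j, Continuous fun A : M4 => A i j := fun i j =>
    (continuous_apply j).comp (continuous_apply i)
  exact (h1 i j).continuousOn.div (h1 k k).continuousOn h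

/-- lifting of a homeomorphism of a stratum of `OO` -/
theorem os_lift {T : Type} [TopologicalSpace T] {P : Set M4} (hP : P ⊆ OO) {f : M4 → T}
    {g : T → M4} (h : SHomeo P univ f g) :
    SHomeo {u | u ∈ O3 ∧ cA u ∈ P} ((univ : Set T) ×ˢ ((univ : Set Circle) ×ˢ Z3))
      (fun u : UT => (f (cA u), (u.1.1.2, c3 u)))
      (fun p => ((((g p.1, 0), p.2.1), p.2.2.1), p.2.1 * p.2.2.2)) := by
  have hc3 : ∀ p : T × (Circle × ((ℂ × ℂ) × Circle)),
      c3 ((((g p.1, 0), p.2.1), p.2.2.1), p.2.1 * p.2.2.2) = p.2.2 := by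
    intro p
    show (p.2.2.1, p.2.1 * p.2.2.2 / p.2.1) = p.2.2
    rw [mul_div_cancel_left]
  refine ⟨?_, ?_, ?_, ?_, ?_, ?_⟩
  · refine ContinuousOn.prodMk ?_ (Continuous.continuousOn ?_)
    · exact h.c₁.comp cA_continuous.continuousOn fun u hu => hu.2
    · exact (continuous_snd.comp (continuous_fst.comp continuous_fst)).prodMk c3_continuous
  · have hg : Continuous g := by
      rw [← continuousOn_univ]
      exact h.c₂
    refine Continuous.continuousOn ?_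
    have h1 : Continuous fun p : T × (Circle × ((ℂ × ℂ) × Circle)) => g p.1 :=
      hg.comp continuous_fst
    have h2 : Continuous fun p : T × (Circle × ((ℂ × ℂ) × Circle)) => p.2.1 :=
      continuous_fst.comp continuous_snd
    have h3 : Continuous fun p : T × (Circle × ((ℂ × ℂ) × Circle)) => p.2.2.1 :=
      continuous_fst.comp (continuous_snd.comp continuous_snd)
    have h4 : Continuous fun p : T × (Circle × ((ℂ × ℂ) × Circle)) => p.2.2.2 :=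
      continuous_snd.comp (continuous_snd.comp continuous_snd)
    exact (((h1.prodMk continuous_const).prodMk h2).prodMk h3).prodMk (h2.mul h4)
  · rintro u ⟨h1, h2⟩
    exact ⟨trivial, trivial, (O3_iff.1 h1).2.2⟩
  · rintro p ⟨-, -, h2⟩
    have h3 : g p.1 ∈ P := h.m₂ (mem_univ _)
    refine ⟨O3_iff.2 ⟨hP h3, rfl, ?_⟩, h3⟩
    rw [hc3]
    exact h2
  · rintro ⟨⟨⟨⟨A, t⟩, θ⟩, z⟩, v⟩ ⟨h1, h2⟩
    have h3 : t = 0 := (O3_iff.1 h1).2.1
    have h4 : g (f A) = A := h.l A h2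
    show ((((g (f A), 0), θ), z), θ * (v / θ)) = ((((A, t), θ), z), v)
    rw [h3, h4, mul_div_cancel]
  · intro p _
    show (f (g p.1), (p.2.1, c3 _)) = p
    rw [hc3, h.r p.1 (mem_univ _)]

/-- composition with a homeomorphism -/
theorem os_comp {X Y Y' : Type*} [TopologicalSpace X] [TopologicalSpace Y] [TopologicalSpace Y']
    {A : Set X} {B : Set Y} {B' : Set Y'} {φ : X → Y} {ψ : Y → X} (h : SHomeo A B φ ψ)
    (e : Y ≃ₜ Y') (he : ∀ y, e y ∈ B' ↔ y ∈ B) :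
    SHomeo A B' (fun x => e (φ x)) (fun y => ψ (e.symm y)) := by
  have he' : ∀ y, y ∈ B' → e.symm y ∈ B := fun y hy => by
    rw [← he, e.apply_symm_apply]
    exact hy
  refine ⟨e.continuous.comp_continuousOn h.c₁, h.c₂.comp e.symm.continuous.continuousOn he',
    fun x hx => (he _).2 (h.m₁ hx), fun y hy => h.m₂ (he' y hy), fun x hx => ?_, fun y hy => ?_⟩
  · rw [e.symm_apply_apply, h.l x hx]
  · rw [h.r _ (he' y hy), e.apply_symm_apply]

/-- the first stratum of `OO` -/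
theorem os_base1 : SHomeo (OO \ {A | A 3 3 = 0}) (univ : Set (ℝ × (ℝ × ℝ)))
    (fun A => (osS (max (|A 1 3 / A 3 3| / 2) (max (|A 2 3 / A 3 3| / 2) 1)) (A 0 3 / A 3 3),
      (A 1 3 / A 3 3, A 2 3 / A 3 3)))
    (fun p => osN ![osU (max (|p.2.1| / 2) (max (|p.2.2| / 2) 1)) p.1, p.2.1, p.2.2, 1]) := by
  have hμ : ∀ a b : ℝ, 0 < max (|a| / 2) (max (|b| / 2) 1) := fun a b =>
    lt_max_of_lt_right (lt_max_of_lt_right one_pos)
  have hlt : ∀ A ∈ OO \ {A | A 3 3 = 0}, |A 0 3 / A 3 3| <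
      max (|A 1 3 / A 3 3| / 2) (max (|A 2 3 / A 3 3| / 2) 1) := by
    rintro A ⟨hA, h3⟩
    have h3' : A 3 3 ≠ 0 := h3
    have h1 := hA
    rw [← osN_eq hA.1 h3', osN_OO (osN_pos h3')] at h1
    simp only [div_self h3'] at h1
    rcases h1 with h1 | h1 | h1
    · exact lt_max_of_lt_left (os_half.1 h1)
    · exact lt_max_of_lt_right (lt_max_of_lt_left (os_half.1 h1))
    · exact lt_max_of_lt_right (lt_max_of_lt_right (os_one.1 h1))
  have hw : ∀ p : ℝ × (ℝ × ℝ), (![osU (max (|p.2.1| / 2) (max (|p.2.2| / 2) 1)) p.1,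
      p.2.1, p.2.2, 1] : Fin 4 → ℝ) 3 = 1 := fun p => rfl
  refine ⟨?_, ?_, fun A _ => mem_univ _, ?_, ?_, ?_⟩
  · have hd : ∀ i j, ContinuousOn (fun A : M4 => A i j / A 3 3) (OO \ {A | A 3 3 = 0}) :=
      fun i j => os_div_cont i j 3 fun A hA => hA.2
    refine ContinuousOn.prodMk (osS_cont ?_ (hd 0 3) hlt) ((hd 1 3).prodMk (hd 2 3))
    exact ContinuousOn.sup ((hd 1 3).abs.div_const 2)
      (ContinuousOn.sup ((hd 2 3).abs.div_const 2) continuousOn_const)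
  · refine Continuous.continuousOn (osN_cont ?_ fun p => osN_pos' (hw p))
    have h1 : Continuous fun p : ℝ × (ℝ × ℝ) => p.2.1 := continuous_fst.comp continuous_snd
    have h2 : Continuous fun p : ℝ × (ℝ × ℝ) => p.2.2 := continuous_snd.comp continuous_snd
    refine continuous_pi fun i => ?_
    fin_cases i
    · exact osU_cont ((h1.abs.div_const 2).max ((h2.abs.div_const 2).max continuous_const))
        continuous_fst
    · exact h1
    · exact h2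
    · exact continuous_const
  · intro p _
    refine ⟨(osN_OO (osN_pos' (hw p))).2 ?_, osN_ne (hw p)⟩
    have h1 := osU_lt (hμ p.2.1 p.2.2) p.1
    rcases lt_max_iff.1 h1 with h2 | h2
    · exact Or.inl (os_half.2 h2)
    · rcases lt_max_iff.1 h2 with h3 | h3
      · exact Or.inr (Or.inl (os_half.2 h3))
      · exact Or.inr (Or.inr (os_one.2 h3))
  · intro A hA
    have h3' : A 3 3 ≠ 0 := hA.2
    show osN ![osU (max (|A 1 3 / A 3 3| / 2) (max (|A 2 3 / A 3 3| / 2) 1))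
      (osS (max (|A 1 3 / A 3 3| / 2) (max (|A 2 3 / A 3 3| / 2) 1)) (A 0 3 / A 3 3)),
      A 1 3 / A 3 3, A 2 3 / A 3 3, 1] = A
    rw [osU_osS (hlt A hA)]
    conv_rhs => rw [← osN_eq hA.1.1 h3']
    congr 1
    funext i
    fin_cases i
    · rfl
    · rfl
    · rfl
    · exact (div_self h3').symm
  · rintro ⟨s, a, b⟩ -
    have h1 := fun i => osN_div (hw (s, (a, b))) i
    have e0 := h1 0
    have e1 := h1 1
    have e2 := h1 2
    have f0 : (![osU (max (|a| / 2) (max (|b| / 2) 1)) s, a, b, 1] : Fin 4 → ℝ) 0 =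
      osU (max (|a| / 2) (max (|b| / 2) 1)) s := rfl
    have f1 : (![osU (max (|a| / 2) (max (|b| / 2) 1)) s, a, b, 1] : Fin 4 → ℝ) 1 = a := rfl
    have f2 : (![osU (max (|a| / 2) (max (|b| / 2) 1)) s, a, b, 1] : Fin 4 → ℝ) 2 = b := rfl
    dsimp only at e0 e1 e2 ⊢
    rw [e0, e1, e2, f0, f1, f2, osS_osU (hμ a b)]

/-- the second stratum of `OO` -/
theorem os_base2 : SHomeo ((OO ∩ {A | A 3 3 = 0}) \ {A | A 2 2 = 0}) (univ : Set (ℝ × ℝ))
    (fun A => (osS (max (|A 1 2 / A 2 2| / 2) (1 / 2)) (A 0 2 / A 2 2), A 1 2 / A 2 2))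
    (fun p => osN ![osU (max (|p.2| / 2) (1 / 2)) p.1, p.2, 1, 0]) := by
  have hμ : ∀ a : ℝ, 0 < max (|a| / 2) (1 / 2) := fun a =>
    lt_max_of_lt_right (by norm_num)
  have hlt : ∀ A ∈ (OO ∩ {A | A 3 3 = 0}) \ {A | A 2 2 = 0}, |A 0 2 / A 2 2| <
      max (|A 1 2 / A 2 2| / 2) (1 / 2) := by
    rintro A ⟨⟨hA, h3⟩, h2⟩
    have h2' : A 2 2 ≠ 0 := h2
    have h3' : A 3 3 = 0 := h3
    have h1 := hA
    rw [← osN_eq hA.1 h2', osN_OO (osN_pos h2')] at h1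
    simp only [div_self h2', os_zero hA.1 h3', zero_div] at h1
    rcases h1 with h1 | h1 | h1
    · exact lt_max_of_lt_left (os_half.1 h1)
    · refine lt_max_of_lt_right ?_
      have := os_half.1 h1
      rwa [abs_one] at this
    · exfalso
      have := sq_nonneg (A 0 2 / A 2 2)
      norm_num at h1
      linarith
  have hw : ∀ p : ℝ × ℝ, (![osU (max (|p.2| / 2) (1 / 2)) p.1, p.2, 1, 0] : Fin 4 → ℝ) 2 = 1 :=
    fun p => rfl
  have hw' : ∀ p : ℝ × ℝ, (![osU (max (|p.2| / 2) (1 / 2)) p.1, p.2, 1, 0] : Fin 4 → ℝ) 3 = 0 :=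
    fun p => rfl
  refine ⟨?_, ?_, fun A _ => mem_univ _, ?_, ?_, ?_⟩
  · have hd : ∀ i j, ContinuousOn (fun A : M4 => A i j / A 2 2)
        ((OO ∩ {A | A 3 3 = 0}) \ {A | A 2 2 = 0}) :=
      fun i j => os_div_cont i j 2 fun A hA => hA.2
    refine ContinuousOn.prodMk (osS_cont ?_ (hd 0 2) hlt) (hd 1 2)
    exact ContinuousOn.sup ((hd 1 2).abs.div_const 2) continuousOn_const
  · refine Continuous.continuousOn (osN_cont ?_ fun p => osN_pos' (hw p))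
    refine continuous_pi fun i => ?_
    fin_cases i
    · exact osU_cont ((continuous_snd.abs.div_const 2).max continuous_const) continuous_fst
    · exact continuous_snd
    · exact continuous_const
    · exact continuous_const
  · intro p _
    refine ⟨⟨(osN_OO (osN_pos' (hw p))).2 ?_, osN_zero (hw' p)⟩, osN_ne (hw p)⟩
    have h1 := osU_lt (hμ p.2) p.1
    rcases lt_max_iff.1 h1 with h2 | h2
    · exact Or.inl (os_half.2 h2)
    · refine Or.inr (Or.inl (os_half.2 ?_))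
      show |osU _ _| < |(1 : ℝ)| / 2
      rw [abs_one]
      exact h2
  · intro A hA
    have h2' : A 2 2 ≠ 0 := hA.2
    have h3' : A 3 3 = 0 := hA.1.2
    show osN ![osU (max (|A 1 2 / A 2 2| / 2) (1 / 2))
      (osS (max (|A 1 2 / A 2 2| / 2) (1 / 2)) (A 0 2 / A 2 2)), A 1 2 / A 2 2, 1, 0] = A
    rw [osU_osS (hlt A hA)]
    conv_rhs => rw [← osN_eq hA.1.1.1 h2']
    congr 1
    funext i
    fin_cases i
    · rfl
    · rfl
    · exact (div_self h2').symm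
    · show (0 : ℝ) = A 3 2 / A 2 2
      rw [os_zero hA.1.1.1 h3', zero_div]
  · rintro ⟨s, a⟩ -
    have h1 := fun i => osN_div (hw (s, a)) i
    have e0 := h1 0
    have e1 := h1 1
    have f0 : (![osU (max (|a| / 2) (1 / 2)) s, a, 1, 0] : Fin 4 → ℝ) 0 =
      osU (max (|a| / 2) (1 / 2)) s := rfl
    have f1 : (![osU (max (|a| / 2) (1 / 2)) s, a, 1, 0] : Fin 4 → ℝ) 1 = a := rfl
    dsimp only at e0 e1 ⊢
    rw [e0, e1, f0, f1, osS_osU (hμ a)]

/-- the third stratum of `OO` -/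
theorem os_base3 : SHomeo (OO ∩ {A | A 3 3 = 0 ∧ A 2 2 = 0}) (univ : Set ℝ)
    (fun A => osS (1 / 2) (A 0 1 / A 1 1)) (fun s => osN ![osU (1 / 2) s, 1, 0, 0]) := by
  have hμ : (0 : ℝ) < 1 / 2 := by norm_num
  have h11 : ∀ A ∈ OO ∩ {A | A 3 3 = 0 ∧ A 2 2 = 0}, A 1 1 ≠ 0 := by
    rintro A ⟨⟨hA, hc⟩, h3, h2⟩ h1
    have h0 := os_nonneg hA 0
    rcases hc with hc | hc | hc
    · rw [h1] at hc
      linarith
    · rw [h2] at hc
      linarith
    · rw [h3] at hc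
      linarith
  have hlt : ∀ A ∈ OO ∩ {A | A 3 3 = 0 ∧ A 2 2 = 0}, |A 0 1 / A 1 1| < 1 / 2 := by
    intro A hA
    have h1' := h11 A hA
    have h1 := hA.1
    have h3' : A 3 3 = 0 := hA.2.1
    have h2' : A 2 2 = 0 := hA.2.2
    rw [← osN_eq hA.1.1 h1', osN_OO (osN_pos h1')] at h1
    simp only [div_self h1', os_zero hA.1.1 h3', os_zero hA.1.1 h2', zero_div] at h1
    have h0 := sq_nonneg (A 0 1 / A 1 1)
    rcases h1 with h1 | h1 | h1
    · have := os_half.1 h1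
      rwa [abs_one] at this
    · exfalso
      norm_num at h1
      linarith
    · exfalso
      norm_num at h1
      linarith
  have hw : ∀ s : ℝ, (![osU (1 / 2) s, 1, 0, 0] : Fin 4 → ℝ) 1 = 1 := fun p => rfl
  have hw2 : ∀ s : ℝ, (![osU (1 / 2) s, 1, 0, 0] : Fin 4 → ℝ) 2 = 0 := fun p => rfl
  have hw3 : ∀ s : ℝ, (![osU (1 / 2) s, 1, 0, 0] : Fin 4 → ℝ) 3 = 0 := fun p => rfl
  refine ⟨?_, ?_, fun A _ => mem_univ _, ?_, ?_, ?_⟩
  · exact osS_cont continuousOn_const (os_div_cont 0 1 1 h11) hlt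
  · refine Continuous.continuousOn (osN_cont ?_ fun p => osN_pos' (hw p))
    refine continuous_pi fun i => ?_
    fin_cases i
    · exact osU_cont continuous_const continuous_id
    · exact continuous_const
    · exact continuous_const
    · exact continuous_const
  · intro s _
    refine ⟨(osN_OO (osN_pos' (hw s))).2 (Or.inl (os_half.2 ?_)), osN_zero (hw3 s),
      osN_zero (hw2 s)⟩
    show |osU _ _| < |(1 : ℝ)| / 2
    rw [abs_one]
    exact osU_lt hμ s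
  · intro A hA
    have h1' := h11 A hA
    show osN ![osU (1 / 2) (osS (1 / 2) (A 0 1 / A 1 1)), 1, 0, 0] = A
    rw [osU_osS (hlt A hA)]
    conv_rhs => rw [← osN_eq hA.1.1 h1']
    congr 1
    funext i
    fin_cases i
    · rfl
    · exact (div_self h1').symm
    · show (0 : ℝ) = A 2 1 / A 1 1
      rw [os_zero hA.1.1 hA.2.2, zero_div]
    · show (0 : ℝ) = A 3 1 / A 1 1
      rw [os_zero hA.1.1 hA.2.1, zero_div]
  · intro s _
    have e0 := osN_div (hw s) 0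
    have f0 : (![osU (1 / 2) s, 1, 0, 0] : Fin 4 → ℝ) 0 = osU (1 / 2) s := rfl
    rw [e0, f0, osS_osU hμ]

theorem os1 : ∃ φ ψ, SHomeo (O3 \ {u | cA u 3 3 = 0})
    ((univ : Set ℝ) ×ˢ ((univ : Set ℝ) ×ˢ ((univ : Set ℝ) ×ˢ ((univ : Set Circle) ×ˢ Z3)))) φ ψ := by
  have h := os_lift sdiff_subset os_base1
  have hs : {u | u ∈ O3 ∧ cA u ∈ OO \ {A | A 3 3 = 0}} = O3 \ {u | cA u 3 3 = 0} := by
    ext u
    exact ⟨fun h => ⟨h.1, h.2.2⟩, fun h => ⟨h.1, (O3_iff.1 h.1).1, h.2⟩⟩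
  rw [hs] at h
  let e : (ℝ × (ℝ × ℝ)) × (Circle × ((ℂ × ℂ) × Circle)) ≃ₜ
      ℝ × (ℝ × (ℝ × (Circle × ((ℂ × ℂ) × Circle)))) :=
    (Homeomorph.prodAssoc ℝ (ℝ × ℝ) (Circle × ((ℂ × ℂ) × Circle))).trans
      ((Homeomorph.refl ℝ).prodCongr (Homeomorph.prodAssoc ℝ ℝ (Circle × ((ℂ × ℂ) × Circle))))
  refine ⟨_, _, os_comp h e ?_⟩
  intro y
  exact ⟨fun hy => ⟨trivial, hy.2.2.2⟩, fun hy => ⟨trivial, trivial, trivial, hy.2⟩⟩

theorem os2 : ∃ φ ψ, SHomeo ((O3 ∩ {u | cA u 3 3 = 0}) \ {u | cA u 2 2 = 0})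
    ((univ : Set ℝ) ×ˢ ((univ : Set ℝ) ×ˢ ((univ : Set Circle) ×ˢ Z3))) φ ψ := by
  have h := os_lift (fun A hA => hA.1.1) os_base2
  have hs : {u | u ∈ O3 ∧ cA u ∈ (OO ∩ {A | A 3 3 = 0}) \ {A | A 2 2 = 0}} =
      (O3 ∩ {u | cA u 3 3 = 0}) \ {u | cA u 2 2 = 0} := by
    ext u
    exact ⟨fun h => ⟨⟨h.1, h.2.1.2⟩, h.2.2⟩, fun h => ⟨h.1.1, ⟨(O3_iff.1 h.1.1).1, h.1.2⟩, h.2⟩⟩
  rw [hs] at h
  refine ⟨_, _, os_comp h (Homeomorph.prodAssoc ℝ ℝ (Circle × ((ℂ × ℂ) × Circle))) ?_⟩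
  intro y
  exact ⟨fun hy => ⟨trivial, hy.2.2⟩, fun hy => ⟨trivial, trivial, hy.2⟩⟩

theorem os3 : ∃ φ ψ, SHomeo (O3 ∩ {u | cA u 3 3 = 0 ∧ cA u 2 2 = 0})
    ((univ : Set ℝ) ×ˢ ((univ : Set Circle) ×ˢ Z3)) φ ψ ∧
    (∀ u, (φ u).2 = (u.1.1.2, c3 u)) ∧ ∀ p, (ψ p).1.1.2 = p.2.1 ∧ c3 (ψ p) = p.2.2 := by
  have h := os_lift (fun A hA => hA.1) os_base3
  have hs : {u | u ∈ O3 ∧ cA u ∈ OO ∩ {A | A 3 3 = 0 ∧ A 2 2 = 0}} =
      O3 ∩ {u | cA u 3 3 = 0 ∧ cA u 2 2 = 0} := by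
    ext u
    exact ⟨fun h => ⟨h.1, h.2.2⟩, fun h => ⟨h.1, (O3_iff.1 h.1).1, h.2⟩⟩
  rw [hs] at h
  refine ⟨_, _, h, fun u => rfl, fun p => ⟨rfl, ?_⟩⟩
  show (p.2.2.1, p.2.1 * p.2.2.2 / p.2.1) = p.2.2
  rw [mul_div_cancel_left]

end Pool.Agent.Helper77.DS
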