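import Pool.Agent.Helper77.DS.HzC
import Pool.Agent.Helper77.DS.OsA
import Pool.Agent.Helper77.DS.OgB

/-!
# DS-HzD: `Hc²(O3) → Hc²(O3 ∩ GF)` is injective, and `O3 ∩ GF ≅ ℝ × TP`

`HcZ (O3 \ GF) 2` by strata (`HcZ_strat`, `good_locallyClosed`, all sets are differences of closed sets):
`O3 \ {A 3 3 = 0}` (`os1`, three lines, `HcZ_line` twice, `HcZ_line0`), `(O3 ∩ {A 3 3 = 0}) \ {A 2 2 = 0}` (`os2`, two lines,
`HcZ_CZ`), and `O3 ∩ {A 3 3 = A 2 2 = 0} ≅ ℝ × (S¹ × Z3)` (`os3`) minus `GF`, which is cut into `θ ≠ 1`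
(`≅ ℝ × (ℝ × Z3)`, `HcZ_Z3`), `θ = 1, ζ ≠ 1` (`≅ ℝ × (ℝ × FF)`, `Z3_homeo`, `HcZ_FF`), `θ = 1, ζ = 1, w ∉ XG`
(`≅ ℝ × KKᶜ ≅ ℝ × (ℝ × ℝ)`, `FF_homeo`, `KK_homeo`). On `θ = 1` one has `ζ = v`.
-/

namespace Pool.Agent.Helper77.DS

open Set Complex Helper36.AS

private theorem hzd_sub {X Y : Type*} [TopologicalSpace X] [TopologicalSpace Y] {A A' : Set X}
    {B B' : Set Y} {φ : X → Y} {ψ : Y → X} (h : SHomeo A B φ ψ) (hA : A' ⊆ A) (hB : B' ⊆ B)
    (h1 : ∀ x ∈ A', φ x ∈ B') (h2 : ∀ y ∈ B', ψ y ∈ A') : SHomeo A' B' φ ψ :=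
  ⟨h.c₁.mono hA, h.c₂.mono hB, h1, h2, fun x hx => h.l x (hA hx), fun y hy => h.r y (hB hy)⟩

private theorem hzd_comp {X Y Z : Type*} [TopologicalSpace X] [TopologicalSpace Y]
    [TopologicalSpace Z] {A : Set X} {B : Set Y} {C : Set Z} {φ : X → Y} {ψ : Y → X}
    {φ' : Y → Z} {ψ' : Z → Y} (h : SHomeo A B φ ψ) (h' : SHomeo B C φ' ψ') :
    SHomeo A C (φ' ∘ φ) (ψ ∘ ψ') :=
  ⟨h'.c₁.comp h.c₁ h.m₁, h.c₂.comp h'.c₂ h'.m₂, h'.m₁.comp h.m₁, h.m₂.comp h'.m₂,
    fun x hx => by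
      change ψ (ψ' (φ' (φ x))) = x
      rw [h'.l _ (h.m₁ hx), h.l x hx],
    fun y hy => by
      change φ' (φ (ψ (ψ' y))) = y
      rw [h.r _ (h'.m₂ hy), h'.r y hy]⟩

private theorem hzd_good {X : Type*} [MetricSpace X] [ProperSpace X] {C : Set X} (hC : IsClosed C) :
    Good IsCompact C := by
  have h := good_locallyClosed C ∅ hC isClosed_empty
  rwa [sdiff_empty] at h

private noncomputable def hzdf (z : Circle) : ℝ := (z : ℂ).im / (1 - (z : ℂ).re)

private theorem hzd_ne (t : ℝ) : (t : ℂ) - Complex.I ≠ 0 := by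
  intro h
  have h1 := congrArg Complex.im h
  simp at h1

private noncomputable def hzdg (t : ℝ) : Circle := Circle.ofConjDivSelf ((t : ℂ) - Complex.I) (hzd_ne t)

private theorem hzdg_coe (t : ℝ) :
    (hzdg t : ℂ) = ((t : ℂ) + Complex.I) / ((t : ℂ) - Complex.I) := by
  change (starRingEnd ℂ) ((t : ℂ) - Complex.I) / ((t : ℂ) - Complex.I) = _
  congr 1
  rw [map_sub, Complex.conj_ofReal, Complex.conj_I, sub_neg_eq_add]

private theorem hzdg_cont : Continuous hzdg := by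
  unfold hzdg
  apply Continuous.subtype_mk
  have h : Continuous fun t : ℝ => (t : ℂ) - Complex.I := by fun_prop
  exact (Complex.continuous_conj.comp h).div h hzd_ne

private theorem hzdg_re (t : ℝ) : (hzdg t : ℂ).re = (t ^ 2 - 1) / (t ^ 2 + 1) := by
  have h1 : (0 : ℝ) < t ^ 2 + 1 := by positivity
  rw [hzdg_coe, Complex.div_re]
  simp [Complex.normSq_apply]
  field_simp
  ring

private theorem hzdg_im (t : ℝ) : (hzdg t : ℂ).im = 2 * t / (t ^ 2 + 1) := by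
  have h1 : (0 : ℝ) < t ^ 2 + 1 := by positivity
  rw [hzdg_coe, Complex.div_im]
  simp [Complex.normSq_apply]
  field_simp
  ring

private theorem hzd_re_ne {z : Circle} (hz : z ≠ 1) : 1 - (z : ℂ).re ≠ 0 := by
  intro h
  apply hz
  have h1 : (z : ℂ).re = 1 := by linarith
  have h2 := Circle.normSq_coe z
  rw [Complex.normSq_apply, h1] at h2
  have h3 : (z : ℂ).im = 0 := by nlinarith
  apply Circle.ext
  exact Complex.ext (by rw [h1]; rfl) (by rw [h3]; rfl)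

private theorem hzd_circle :
    SHomeo ({1}ᶜ : Set Circle) (univ : Set ℝ) hzdf hzdg := by
  refine ⟨?_, hzdg_cont.continuousOn, fun _ _ => mem_univ _, ?_, ?_, ?_⟩
  · have h1 : Continuous fun z : Circle => (z : ℂ).im := Complex.continuous_im.comp (by fun_prop)
    have h2 : Continuous fun z : Circle => 1 - (z : ℂ).re :=
      continuous_const.sub (Complex.continuous_re.comp (by fun_prop))
    exact h1.continuousOn.div h2.continuousOn fun z hz => hzd_re_ne hz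
  · intro t _ h
    have h1 := hzdg_re t
    have h2 : hzdg t = 1 := h
    rw [h2] at h1
    have h3 : (0 : ℝ) < t ^ 2 + 1 := by positivity
    rw [Circle.coe_one, Complex.one_re, eq_div_iff h3.ne'] at h1
    linarith
  · intro z hz
    have h1 := hzd_re_ne hz
    have h2 := Circle.normSq_coe z
    rw [Complex.normSq_apply] at h2
    have h4 : hzdf z ^ 2 + 1 = 2 / (1 - (z : ℂ).re) := by
      unfold hzdf
      field_simp
      linear_combination h2
    have h5 : hzdf z * (1 - (z : ℂ).re) = (z : ℂ).im := by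
      unfold hzdf
      field_simp
    apply Circle.ext
    apply Complex.ext
    · rw [hzdg_re, h4]
      have h6 : hzdf z ^ 2 - 1 = 2 / (1 - (z : ℂ).re) - 2 := by linarith
      rw [h6]
      field_simp
      ring
    · rw [hzdg_im, h4]
      field_simp
      linear_combination h5
  · intro t _
    unfold hzdf
    rw [hzdg_re, hzdg_im]
    have h3 : (0 : ℝ) < t ^ 2 + 1 := by positivity
    have h4 : 1 - (t ^ 2 - 1) / (t ^ 2 + 1) = 2 / (t ^ 2 + 1) := by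
      field_simp
      ring
    rw [h4]
    field_simp

private theorem hzd_R0 : HcZ (univ : Set ℝ) 0 := by
  have h : SHomeo (univ : Set ℝ) ((univ : Set ℝ) ×ˢ (univ : Set Unit)) (fun x => (x, ()))
      Prod.fst :=
    ⟨by fun_prop, continuous_fst.continuousOn, fun _ _ => ⟨mem_univ _, mem_univ _⟩,
      fun _ _ => mem_univ _, fun _ _ => rfl, fun _ _ => rfl⟩
  exact HcZ_line0 (hzd_good isClosed_univ) h

private theorem hzd_id {X : Type*} [TopologicalSpace X] (A : Set X) : SHomeo A A id id :=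
  ⟨continuousOn_id, continuousOn_id, fun _ h => h, fun _ h => h, fun _ _ => rfl, fun _ _ => rfl⟩

private theorem hzd_RR1 : HcZ (univ : Set (ℝ × ℝ)) 1 := by
  have h : SHomeo (univ : Set (ℝ × ℝ)) ((univ : Set ℝ) ×ˢ (univ : Set ℝ)) id id := by
    rw [univ_prod_univ]
    exact hzd_id _
  exact HcZ_line (hzd_good isClosed_univ) h hzd_R0

/-- the points of `Z3` not in the fibre and the slit -/
private def hzdE : Set ((ℂ × ℂ) × Circle) := Z3 \ (XG ∩ {w | w.2 = 1})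

private theorem hzd_cl2 : IsClosed {w : (ℂ × ℂ) × Circle | w.2 = 1} :=
  isClosed_eq continuous_snd continuous_const

private theorem hzd_E : HcZ hzdE 1 := by
  have hg : Good IsCompact hzdE := good_locallyClosed _ _ isClosed_Z3 (isClosed_XG.inter hzd_cl2)
  refine HcZ_strat hzd_cl2 hg ?_ ?_
  · obtain ⟨φ, ψ, h⟩ := Z3_homeo
    have e : hzdE \ {w : (ℂ × ℂ) × Circle | w.2 = 1} = Z3 \ {w : (ℂ × ℂ) × Circle | w.2 = 1} := by
      ext w
      constructor
      · rintro ⟨⟨h1, _⟩, h2⟩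
        exact ⟨h1, h2⟩
      · rintro ⟨h1, h2⟩
        exact ⟨⟨h1, fun h3 => h2 h3.2⟩, h2⟩
    rw [e]
    exact HcZ_line (hzd_good isClosed_FF) h HcZ_FF
  · obtain ⟨φ, ψ, h⟩ := FF_homeo
    obtain ⟨φ', ψ', h'⟩ := KK_homeo
    have e : hzdE ∩ {w : (ℂ × ℂ) × Circle | w.2 = 1} = FF \ XG := by
      ext w
      constructor
      · rintro ⟨⟨h1, h2⟩, h3⟩
        exact ⟨⟨h1, h3⟩, fun h4 => h2 ⟨h4, h3⟩⟩
      · rintro ⟨⟨h1, h2⟩, h3⟩
        exact ⟨⟨h1, fun h4 => h3 h4.1⟩, h2⟩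
    rw [e]
    exact HcZ_of_homeo (hzd_comp h h') hzd_RR1

/-- circle times `Z3` without the tripod -/
private def hzdD : Set (Circle × ((ℂ × ℂ) × Circle)) :=
  ((univ : Set Circle) ×ˢ Z3) \ {p | p.1 = 1 ∧ p.2.2 = 1 ∧ p.2 ∈ XG}

private theorem hzd_clD : IsClosed {p : Circle × ((ℂ × ℂ) × Circle) | p.1 = 1 ∧ p.2.2 = 1 ∧
    p.2 ∈ XG} :=
  (isClosed_eq continuous_fst continuous_const).inter
    ((isClosed_eq (continuous_snd.comp continuous_snd) continuous_const).inter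
      (isClosed_XG.preimage continuous_snd))

private theorem hzd_clCZ : IsClosed ((univ : Set Circle) ×ˢ Z3) := isClosed_univ.prod isClosed_Z3

private theorem hzd_goodD : Good IsCompact hzdD := good_locallyClosed _ _ hzd_clCZ hzd_clD

private theorem hzd_D : HcZ hzdD 1 := by
  have hc1 : IsClosed {p : Circle × ((ℂ × ℂ) × Circle) | p.1 = 1} :=
    isClosed_eq continuous_fst continuous_const
  refine HcZ_strat hc1 hzd_goodD ?_ ?_
  · have h : SHomeo (hzdD \ {p : Circle × ((ℂ × ℂ) × Circle) | p.1 = 1}) ((univ : Set ℝ) ×ˢ Z3)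
        (fun p => (hzdf p.1, p.2)) (fun q => (hzdg q.1, q.2)) := by
      have hc := hzd_circle
      refine ⟨?_, ?_, ?_, ?_, ?_, ?_⟩
      · refine ContinuousOn.prodMk ?_ continuous_snd.continuousOn
        exact hc.c₁.comp continuous_fst.continuousOn fun p hp => hp.2
      · exact ((hzdg_cont.comp continuous_fst).prodMk continuous_snd).continuousOn
      · rintro p ⟨⟨⟨_, h1⟩, _⟩, _⟩
        exact ⟨mem_univ _, h1⟩
      · rintro q ⟨_, hq⟩
        have h1 : hzdg q.1 ≠ 1 := hc.m₂ (mem_univ q.1)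
        exact ⟨⟨⟨mem_univ _, hq⟩, fun h2 => h1 h2.1⟩, h1⟩
      · rintro p ⟨_, hp⟩
        exact Prod.ext (hc.l p.1 hp) rfl
      · rintro q _
        exact Prod.ext (hc.r q.1 (mem_univ _)) rfl
    exact HcZ_line (hzd_good isClosed_Z3) h HcZ_Z3
  · have h : SHomeo (hzdD ∩ {p : Circle × ((ℂ × ℂ) × Circle) | p.1 = 1}) hzdE
        (fun p => p.2) (fun w => (1, w)) := by
      refine ⟨continuous_snd.continuousOn, (by fun_prop), ?_, ?_, ?_, ?_⟩
      · rintro p ⟨⟨⟨_, h1⟩, h2⟩, h3⟩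
        exact ⟨h1, fun h4 => h2 ⟨h3, h4.2, h4.1⟩⟩
      · rintro w ⟨h1, h2⟩
        exact ⟨⟨⟨mem_univ _, h1⟩, fun h3 => h2 ⟨h3.2.2, h3.2.1⟩⟩, rfl⟩
      · rintro p ⟨_, h3⟩
        exact Prod.ext (Eq.symm h3) rfl
      · rintro w _
        rfl
    exact HcZ_of_homeo h hzd_E

private theorem hzd_clA (i j : Fin 4) : IsClosed {u : UT | cA u i j = 0} := by
  have := cA_continuous
  exact isClosed_eq (by fun_prop) continuous_const

theorem isClosed_GF : IsClosed GF := by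
  have h1 : Continuous fun u : UT => u.1.1.2 := by fun_prop
  have h2 : Continuous fun u : UT => u.2 := by fun_prop
  have h3 : Continuous fun u : UT => u.1.2.1.im :=
    Complex.continuous_im.comp (by fun_prop)
  have h4 : Continuous fun u : UT => u.1.2.1.re :=
    Complex.continuous_re.comp (by fun_prop)
  exact (hzd_clA 3 3).inter ((hzd_clA 2 2).inter ((isClosed_eq h1 continuous_const).inter
    ((isClosed_eq h2 continuous_const).inter ((isClosed_eq h3 continuous_const).inter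
      (isClosed_le continuous_const h4)))))

theorem HcZ_O3_GF : HcZ (O3 \ GF) 2 := by
  obtain ⟨F, hF, hO⟩ := O3_eq
  have e0 : O3 \ GF = U3 \ (F ∪ GF) := by rw [hO, sdiff_sdiff]
  have g0 : Good IsCompact (O3 \ GF) := by
    rw [e0]
    exact good_locallyClosed _ _ isClosed_U3 (hF.union isClosed_GF)
  have g1 : Good IsCompact ((O3 \ GF) ∩ {u | cA u 3 3 = 0}) := by
    have e1 : (O3 \ GF) ∩ {u | cA u 3 3 = 0} = (U3 ∩ {u | cA u 3 3 = 0}) \ (F ∪ GF) := by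
      rw [e0]
      ext u
      constructor
      · rintro ⟨⟨h1, h2⟩, h3⟩
        exact ⟨⟨h1, h3⟩, h2⟩
      · rintro ⟨⟨h1, h3⟩, h2⟩
        exact ⟨⟨h1, h2⟩, h3⟩
    rw [e1]
    exact good_locallyClosed _ _ (isClosed_U3.inter (hzd_clA 3 3)) (hF.union isClosed_GF)
  refine HcZ_strat (hzd_clA 3 3) g0 ?_ (HcZ_strat (hzd_clA 2 2) g1 ?_ ?_)
  · have e : (O3 \ GF) \ {u | cA u 3 3 = 0} = O3 \ {u | cA u 3 3 = 0} := by
      ext u
      constructor
      · rintro ⟨⟨h1, _⟩, h2⟩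
        exact ⟨h1, h2⟩
      · rintro ⟨h1, h2⟩
        exact ⟨⟨h1, fun h3 => h2 h3.1⟩, h2⟩
    rw [e]
    obtain ⟨φ, ψ, h⟩ := os1
    have c1 : IsClosed ((univ : Set ℝ) ×ˢ ((univ : Set Circle) ×ˢ Z3)) := isClosed_univ.prod hzd_clCZ
    refine HcZ_line (hzd_good (isClosed_univ.prod c1)) h ?_
    refine HcZ_line (hzd_good c1) (hzd_id _) ?_
    exact HcZ_line0 (hzd_good hzd_clCZ) (hzd_id _)
  · have e : ((O3 \ GF) ∩ {u | cA u 3 3 = 0}) \ {u | cA u 2 2 = 0} =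
        (O3 ∩ {u | cA u 3 3 = 0}) \ {u | cA u 2 2 = 0} := by
      ext u
      constructor
      · rintro ⟨⟨⟨h1, _⟩, h2⟩, h3⟩
        exact ⟨⟨h1, h2⟩, h3⟩
      · rintro ⟨⟨h1, h2⟩, h3⟩
        exact ⟨⟨⟨h1, fun h4 => h3 h4.2.1⟩, h2⟩, h3⟩
    rw [e]
    obtain ⟨φ, ψ, h⟩ := os2
    refine HcZ_line (hzd_good (isClosed_univ.prod hzd_clCZ)) h ?_
    exact HcZ_line (hzd_good hzd_clCZ) (hzd_id _) HcZ_CZ
  · obtain ⟨φ, ψ, h, h1, h2⟩ := os3
    have h' : SHomeo (((O3 \ GF) ∩ {u | cA u 3 3 = 0}) ∩ {u | cA u 2 2 = 0})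
        ((univ : Set ℝ) ×ˢ hzdD) φ ψ := by
      refine hzd_sub h ?_ ?_ ?_ ?_
      · rintro u ⟨⟨⟨a1, _⟩, a2⟩, a3⟩
        exact ⟨a1, a2, a3⟩
      · rintro p ⟨_, hp⟩
        exact ⟨mem_univ _, hp.1⟩
      · rintro u ⟨⟨⟨a1, a2⟩, a3⟩, a4⟩
        have a5 := h.m₁ (show u ∈ O3 ∩ {u | cA u 3 3 = 0 ∧ cA u 2 2 = 0} from ⟨a1, a3, a4⟩)
        refine ⟨mem_univ _, a5.2, ?_⟩
        rintro ⟨b1, b2, b3⟩
        rw [h1 u] at b1 b2 b3
        apply a2
        have b1' : u.1.1.2 = 1 := b1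
        have b2' : u.2 / u.1.1.2 = 1 := b2
        rw [b1', div_one] at b2'
        exact ⟨a3, a4, b1', b2', b3.1, b3.2⟩
      · rintro p ⟨_, hp, hp'⟩
        have a5 := h.m₂ (show p ∈ (univ : Set ℝ) ×ˢ ((univ : Set Circle) ×ˢ Z3) from
          ⟨mem_univ _, hp⟩)
        refine ⟨⟨⟨a5.1, ?_⟩, a5.2.1⟩, a5.2.2⟩
        rintro ⟨b1, b2, b3, b4, b5, b6⟩
        obtain ⟨c1, c2⟩ := h2 p
        apply hp'
        refine ⟨c1.symm.trans b3, ?_, ?_⟩
        · rw [← c2]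
          change (ψ p).2 / (ψ p).1.1.2 = 1
          rw [b3, b4, div_one]
        · rw [← c2]
          exact ⟨b5, b6⟩
    exact HcZ_line hzd_goodD h' hzd_D

/-- the points of the projective line -/
private noncomputable def hzdA (r : ℝ) : M4 := fun i j =>
  (![r, 1, 0, 0] : Fin 4 → ℝ) i * (![r, 1, 0, 0] : Fin 4 → ℝ) j / (1 + r ^ 2)

private theorem hzdA_mem {r : ℝ} (h1 : -(1 / 2) < r) (h2 : r < 1 / 2) : hzdA r ∈ OO := by
  have h3 : (0 : ℝ) < 1 + r ^ 2 := by positivity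
  refine ⟨⟨fun i => (![r, 1, 0, 0] : Fin 4 → ℝ) i / √(1 + r ^ 2), ?_, ?_⟩, Or.inl ?_⟩
  · have h4 : ∀ i, ((![r, 1, 0, 0] : Fin 4 → ℝ) i / √(1 + r ^ 2)) ^ 2
        = (![r, 1, 0, 0] : Fin 4 → ℝ) i ^ 2 / (1 + r ^ 2) := by
      intro i
      rw [div_pow, Real.sq_sqrt h3.le]
    rw [Finset.sum_congr rfl fun i _ => h4 i, Fin.sum_univ_four]
    simp
    field_simp
    ring
  · funext i j
    unfold hzdA outer
    rw [div_mul_div_comm, Real.mul_self_sqrt h3.le]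
  · have e0 : hzdA r 0 0 = r * r / (1 + r ^ 2) := rfl
    have e1 : hzdA r 1 1 = 1 * 1 / (1 + r ^ 2) := rfl
    rw [e0, e1, ← mul_div_assoc]
    apply div_lt_div_of_pos_right _ h3
    nlinarith

private theorem hzdA_cont : Continuous hzdA := by
  unfold hzdA
  refine continuous_pi fun i => continuous_pi fun j => ?_
  have h : ∀ i : Fin 4, Continuous fun r : ℝ => (![r, 1, 0, 0] : Fin 4 → ℝ) i := by
    intro i
    fin_cases i
    · exact continuous_id
    · exact continuous_const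
    · exact continuous_const
    · exact continuous_const
  exact ((h i).mul (h j)).div (by fun_prop) fun r => by positivity

private theorem hzdA_eq {A : M4} (hA : A ∈ OO) (h3 : A 3 3 = 0) (h2 : A 2 2 = 0) :
    A 1 1 ≠ 0 ∧ -(1 / 2) < A 0 1 / A 1 1 ∧ A 0 1 / A 1 1 < 1 / 2 ∧ hzdA (A 0 1 / A 1 1) = A := by
  obtain ⟨⟨q, hq, rfl⟩, hO⟩ := hA
  have h3' : q 3 * q 3 = 0 := h3
  have h2' : q 2 * q 2 = 0 := h2
  have q3 : q 3 = 0 := mul_self_eq_zero.1 h3'
  have q2 : q 2 = 0 := mul_self_eq_zero.1 h2'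
  rw [Fin.sum_univ_four, q2, q3] at hq
  have hO' : 4 * (q 0 * q 0) < q 1 * q 1 := by
    rcases hO with h | h | h
    · exact h
    · have h' : 4 * (q 0 * q 0) < q 2 * q 2 := h
      rw [q2] at h'
      nlinarith [mul_self_nonneg (q 0)]
    · have h' : q 0 * q 0 < q 3 * q 3 := h
      rw [q3] at h'
      nlinarith [mul_self_nonneg (q 0)]
  have q1 : q 1 ≠ 0 := by
    rintro h
    rw [h] at hO'
    nlinarith [mul_self_nonneg (q 0)]
  have e : outer q 0 1 / outer q 1 1 = q 0 / q 1 := by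
    change q 0 * q 1 / (q 1 * q 1) = _
    field_simp
  have hr : (q 0 / q 1) ^ 2 < (1 / 2) ^ 2 := by
    rw [div_pow, div_lt_iff₀ (by positivity)]
    nlinarith
  have hr' := abs_lt_of_sq_lt_sq' hr (by norm_num)
  rw [e]
  refine ⟨?_, hr'.1, hr'.2, ?_⟩
  · change q 1 * q 1 ≠ 0
    exact mul_ne_zero q1 q1
  · have hD : 1 + (q 0 / q 1) ^ 2 = 1 / q 1 ^ 2 := by
      field_simp
      linarith
    funext i j
    unfold hzdA outer
    rw [hD]
    have hv : ∀ i, (![q 0 / q 1, 1, 0, 0] : Fin 4 → ℝ) i = q i / q 1 := by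
      intro i
      fin_cases i
      · rfl
      · exact (div_self q1).symm
      · change (0 : ℝ) = q 2 / q 1
        rw [q2, zero_div]
      · change (0 : ℝ) = q 3 / q 1
        rw [q3, zero_div]
    rw [hv, hv]
    field_simp

/-- `O3 ∩ GF` is line times tripod; the coordinate in the tripod is `y`. -/
theorem GF_homeo : ∃ φ ψ, SHomeo (O3 ∩ GF) RT φ ψ ∧ (∀ u, (φ u).2 = u.1.2.2) ∧
    ∀ u ∈ O3 ∩ GF, ∀ u' ∈ O3 ∩ GF, cA u = cA u' → (φ u).1 = (φ u').1 := by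
  obtain ⟨ψt, ht⟩ := tri_homeo
  have hcA := cA_continuous
  refine ⟨fun u => (Real.tan (Real.pi * (cA u 0 1 / cA u 1 1)), u.1.2.2),
    fun p => ((((hzdA (Real.arctan p.1 / Real.pi), 0), 1), (ψt p.2).1), (ψt p.2).2),
    ⟨?_, ?_, ?_, ?_, ?_, ?_⟩, fun _ => rfl, ?_⟩
  · refine ContinuousOn.prodMk ?_ (Continuous.continuousOn (by fun_prop))
    refine Real.continuousOn_tan_Ioo.comp ?_ ?_
    · refine continuousOn_const.mul ?_
      refine ContinuousOn.div (Continuous.continuousOn (by fun_prop))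
        (Continuous.continuousOn (by fun_prop)) ?_
      intro u hu
      exact (hzdA_eq (O3_iff.1 hu.1).1 hu.2.1 hu.2.2.1).1
    · intro u hu
      obtain ⟨_, h1, h2, _⟩ := hzdA_eq (O3_iff.1 hu.1).1 hu.2.1 hu.2.2.1
      have := Real.pi_pos
      constructor
      · nlinarith
      · nlinarith
  · have h1 : ContinuousOn (fun p : ℝ × ℂ => ψt p.2) RT :=
      ht.c₂.comp continuous_snd.continuousOn fun p hp => hp.2
    have h2 : Continuous (fun p : ℝ × ℂ => hzdA (Real.arctan p.1 / Real.pi)) :=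
      hzdA_cont.comp ((Real.continuous_arctan.comp continuous_fst).div_const _)
    exact (((h2.continuousOn.prodMk continuousOn_const).prodMk continuousOn_const).prodMk
      (continuous_fst.comp_continuousOn h1)).prodMk (continuous_snd.comp_continuousOn h1)
  · rintro u ⟨h1, h2⟩
    refine ⟨mem_univ _, ?_⟩
    have h3 := (O3_iff.1 h1).2.2
    obtain ⟨_, _, a3, a4, a5, a6⟩ := h2
    refine ht.m₁ (x := c3 u) ⟨⟨h3, ?_⟩, a5, a6⟩
    change u.2 / u.1.1.2 = 1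
    rw [a3, a4, div_one]
  · rintro p ⟨_, hp⟩
    obtain ⟨⟨b1, b2⟩, b3, b4⟩ := ht.m₂ hp
    have hpi := Real.pi_pos
    have c1 : -(1 / 2) < Real.arctan p.1 / Real.pi := by
      rw [lt_div_iff₀ hpi]
      linarith [Real.neg_pi_div_two_lt_arctan p.1]
    have c2 : Real.arctan p.1 / Real.pi < 1 / 2 := by
      rw [div_lt_iff₀ hpi]
      linarith [Real.arctan_lt_pi_div_two p.1]
    have hO := hzdA_mem c1 c2
    refine ⟨O3_iff.2 ⟨hO, rfl, ?_⟩, ?_, ?_, rfl, b2, b3, b4⟩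
    · have e : c3 ((((hzdA (Real.arctan p.1 / Real.pi), 0), 1), (ψt p.2).1), (ψt p.2).2)
          = ψt p.2 := by
        refine Prod.ext rfl ?_
        change (ψt p.2).2 / 1 = (ψt p.2).2
        rw [div_one]
      rw [e]
      exact b1
    · change (0 : ℝ) * 0 / _ = 0
      rw [mul_zero, zero_div]
    · change (0 : ℝ) * 0 / _ = 0
      rw [mul_zero, zero_div]
  · rintro u ⟨h1, h2⟩
    obtain ⟨o1, o2, o3⟩ := O3_iff.1 h1
    obtain ⟨a1, a2, a3, a4, a5, a6⟩ := h2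
    obtain ⟨_, k1, k2, k3⟩ := hzdA_eq o1 a1 a2
    have hpi := Real.pi_pos
    have e2 : (c3 u).2 = 1 := by
      change u.2 / u.1.1.2 = 1
      rw [a3, a4, div_one]
    have ht1 : ψt (c3 u).1.2 = c3 u := ht.l (c3 u) ⟨⟨o3, e2⟩, a5, a6⟩
    have ht2 : ψt u.1.2.2 = c3 u := ht1
    have hr : Real.arctan (Real.tan (Real.pi * (cA u 0 1 / cA u 1 1))) / Real.pi
        = cA u 0 1 / cA u 1 1 := by
      rw [Real.arctan_tan (by nlinarith) (by nlinarith)]
      field_simp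
    change ((((hzdA (Real.arctan (Real.tan (Real.pi * (cA u 0 1 / cA u 1 1))) / Real.pi), (0 : ℝ)),
      (1 : Circle)), (ψt u.1.2.2).1), (ψt u.1.2.2).2) = u
    rw [hr, k3, ht2, e2]
    refine Prod.ext (Prod.ext (Prod.ext (Prod.ext rfl o2.symm) a3.symm) rfl) a4.symm
  · rintro p ⟨_, hp⟩
    have h1 := ht.r p.2 hp
    refine Prod.ext ?_ h1
    change Real.tan (Real.pi * (hzdA (Real.arctan p.1 / Real.pi) 0 1
      / hzdA (Real.arctan p.1 / Real.pi) 1 1)) = p.1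
    have e0 : ∀ r, hzdA r 0 1 = r * 1 / (1 + r ^ 2) := fun _ => rfl
    have e1 : ∀ r, hzdA r 1 1 = 1 * 1 / (1 + r ^ 2) := fun _ => rfl
    have e2 : ∀ r, hzdA r 0 1 / hzdA r 1 1 = r := by
      intro r
      rw [e0, e1]
      have h3 : (0 : ℝ) < 1 + r ^ 2 := by positivity
      field_simp
    rw [e2, mul_div_cancel₀ _ Real.pi_pos.ne', Real.tan_arctan]
  · intro u _ u' _ h
    simp only [h]

end Pool.Agent.Helper77.DS
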