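import Pool.Agent.Helper77.DS.TpA

/-!
# DS-TpB: consequences of `tp_gen`

`Rr` is a homeomorphism of `RT` (`|ω| = 1`), `e3 Rr` is additive and maps coboundaries to coboundaries, so `e3 Rr f` is a
coboundary for every cocycle `f`. The quotient `Hc (ZMod 2) RT 2` has at most 4 elements (surjection from
`ZMod 2 × ZMod 2`).
-/

namespace Pool.Agent.Helper77.DS

open Set Complex Helper36.AS

theorem om_pow_three : (om : ℂ) ^ 3 = 1 := by
  have h : (om : ℂ) = Complex.exp ((2 * Real.pi / 3 : ℝ) * Complex.I) := by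
    unfold om
    rw [Circle.coe_exp]
  rw [h, ← Complex.exp_nat_mul, ← Complex.exp_two_pi_mul_I]
  congr 1
  push_cast
  ring

theorem om_mul_mem_TP {y : ℂ} {c : ℂ} (hc : c ^ 3 = 1) (hy : y ∈ TP) : c * y ∈ TP := by
  have h : (c * y) ^ 3 = y ^ 3 := by rw [mul_pow, hc, one_mul]
  unfold TP at hy ⊢
  rw [mem_ofPred_eq] at hy ⊢
  rw [h]
  exact hy

theorem Rr_homeo : SHomeo RT RT Rr (fun p => (p.1, (om : ℂ) ^ 2 * p.2)) := by
  have h3 := om_pow_three
  refine ⟨?_, ?_, ?_, ?_, ?_, ?_⟩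
  · unfold Rr
    fun_prop
  · fun_prop
  · intro p hp
    exact ⟨mem_univ _, om_mul_mem_TP h3 hp.2⟩
  · intro p hp
    refine ⟨mem_univ _, om_mul_mem_TP ?_ hp.2⟩
    calc ((om : ℂ) ^ 2) ^ 3 = ((om : ℂ) ^ 3) ^ 2 := by ring
      _ = 1 := by rw [h3, one_pow]
  · intro p _
    unfold Rr
    refine Prod.ext rfl ?_
    change (om : ℂ) ^ 2 * ((om : ℂ) * p.2) = p.2
    calc (om : ℂ) ^ 2 * ((om : ℂ) * p.2) = (om : ℂ) ^ 3 * p.2 := by ring
      _ = p.2 := by rw [h3, one_mul]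
  · intro p _
    unfold Rr
    refine Prod.ext rfl ?_
    change (om : ℂ) * ((om : ℂ) ^ 2 * p.2) = p.2
    calc (om : ℂ) * ((om : ℂ) ^ 2 * p.2) = (om : ℂ) ^ 3 * p.2 := by ring
      _ = p.2 := by rw [h3, one_mul]

theorem e3_add {E : Type*} (T : E → E) (f g : List E → ZMod 2) :
    e3 T (f + g) = e3 T f + e3 T g := by
  funext l
  simp only [e3, pull, Pi.add_apply]
  ring

theorem e3_smul {E : Type*} (T : E → E) (c : ZMod 2) (f : List E → ZMod 2) :
    e3 T (c • f) = c • e3 T f := by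
  funext l
  simp only [e3, pull, Pi.add_apply, Pi.smul_apply, smul_eq_mul]
  ring

theorem e3_cob {f : List (ℝ × ℂ) → ZMod 2} (hf : f ∈ coboundaries (ZMod 2) IsCompact RT 2) :
    e3 Rr f ∈ coboundaries (ZMod 2) IsCompact RT 2 := by
  have h1 := (Rr_homeo.smap).pull_mem_coboundaries hf
  have h2 := (Rr_homeo.smap).pull_mem_coboundaries h1
  exact add_mem (add_mem hf h1) h2

theorem tp_e {f : List (ℝ × ℂ) → ZMod 2} (hf : f ∈ cocycles (ZMod 2) IsCompact RT 2) :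
    e3 Rr f ∈ coboundaries (ZMod 2) IsCompact RT 2 := by
  obtain ⟨c₀, c₂, _, _, he0, he2, hgen⟩ := tp_gen
  obtain ⟨a, b, hab⟩ := hgen f hf
  have e : f = (f - (a • c₀ + b • c₂)) + (a • c₀ + b • c₂) := by abel
  rw [e, e3_add, e3_add, e3_smul, e3_smul]
  exact add_mem (e3_cob hab) (add_mem (Submodule.smul_mem _ _ he0) (Submodule.smul_mem _ _ he2))

theorem tp_card : Finite (Hc (ZMod 2) RT 2) ∧ Nat.card (Hc (ZMod 2) RT 2) ≤ 4 := by
  obtain ⟨c₀, c₂, h0, h2, _, _, hgen⟩ := tp_gen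
  have hs : Function.Surjective (fun p : ZMod 2 × ZMod 2 =>
      (p.1 • cls c₀ h0 + p.2 • cls c₂ h2 : Hc (ZMod 2) RT 2)) := by
    intro α
    obtain ⟨f, hf, rfl⟩ := cls_surj α
    obtain ⟨a, b, hab⟩ := hgen f hf
    refine ⟨(a, b), ?_⟩
    change a • cls c₀ h0 + b • cls c₂ h2 = cls f hf
    rw [cls_smul, cls_smul, cls_add]
    exact (cls_eq_iff.mpr hab).symm
  refine ⟨Finite.of_surjective _ hs, ?_⟩
  have h := Nat.card_le_card_of_surjective _ hs
  rw [Nat.card_prod, Nat.card_zmod] at h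
  exact h

end Pool.Agent.Helper77.DS
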