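import Pool.Agent.Helper77.DS.EoA
import Pool.Agent.Helper77.DS.HzD
import Pool.Agent.Helper77.DS.TpB

/-!
# DS-EoB: `1 + T + T²` is zero on `Hc²(O3)`, which has at most four elements

* `O3_e3`: by `restr_cob` (`HcZ_O3_GF`) it is enough that `e3 TU f` is a coboundary on `O3 ∩ GF`. On the closed slice
  `O3 ∩ G1F ⊇ O3 ∩ GF` (both closed in `O3`): `T² f ~ Rw f` (`TT_homotopy`, restricted cocycles), and `T f ~ T⁴ f`
  (`TU (TU (TU u)) = u`) `= T² (T² f) ~ Rw (Rw f)`. So `e3 TU f ~ e3 Rw f` there, hence on `O3 ∩ GF`. Under `GF_homeo`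
  `φ (Rw u) = Rr (φ u)` and `e3 Rw f` corresponds to `e3 Rr` of a cocycle on `RT`, a coboundary by `tp_e`.
* `O3_card`: restriction to `O3 ∩ GF ≅ RT` is injective (`restr_cob`), `tp_card`.
* `O3_class`: let `f` be not a coboundary. `f, T f, f + T f` are not coboundaries and pairwise not cohomologous, since
  `f + T f + T² f ~ 0`: if `T f ~ f` then `3 f = f ~ 0`; if `f + T f ~ 0` the same. So `0, f, T f, f + T f` are four different
  classes, by `O3_card` these are all.
-/

namespace Pool.Agent.Helper77.DS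

open Set Complex Helper36.AS

private theorem eob_cong {E : Type*} [TopologicalSpace E] {A : Set E} {n : ℕ}
    {f g : List E → ZMod 2} (hf : f ∈ coboundaries (ZMod 2) IsCompact A n)
    (h : ∀ l : List E, (∀ y ∈ l, y ∈ A) → g l = f l) :
    g ∈ coboundaries (ZMod 2) IsCompact A n := by
  have h1 : g - f ∈ coboundaries (ZMod 2) IsCompact A n := by
    refine LZ.mem_coboundaries fun x _ => LZat.of_eq_zero x fun l _ hl => ?_
    rw [Pi.sub_apply, h l hl, sub_self]
  have h2 := add_mem h1 hf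
  rwa [sub_add_cancel] at h2

private theorem eob_restr_coc {E : Type*} [TopologicalSpace E] {A F : Set E} (hF : IsClosed F)
    {n : ℕ} {f : List E → ZMod 2} (hf : f ∈ cocycles (ZMod 2) IsCompact A n) :
    f ∈ cocycles (ZMod 2) IsCompact (A ∩ F) n :=
  restr_mem_cocycles hF hf.1 fun x hx => hf.2 x hx.1

private theorem eob_restr_cob {E : Type*} [TopologicalSpace E] {A F : Set E} (hF : IsClosed F)
    {n : ℕ} {f : List E → ZMod 2} (hf : f ∈ coboundaries (ZMod 2) IsCompact A n) :
    f ∈ coboundaries (ZMod 2) IsCompact (A ∩ F) n := by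
  have h1 := (SMap.incl IsCompact A F hF).pull_mem_coboundaries hf
  exact eob_cong h1 fun l _ => by simp [pull]

private theorem eob_TU3 (u : UT) : TU (TU (TU u)) = u := by
  have h : om ^ 3 = 1 := by
    unfold om
    rw [← Circle.exp_nsmul]
    have e : (3 : ℕ) • (2 * Real.pi / 3) = 2 * Real.pi := by
      rw [nsmul_eq_mul]
      push_cast
      ring
    rw [e, Circle.exp_two_pi]
  unfold TU
  refine Prod.ext rfl ?_
  show om * (om * (om * u.2)) = u.2
  rw [← mul_assoc, ← mul_assoc, ← pow_two, ← pow_succ, h, one_mul]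

private theorem eob_pull3 (f : List UT → ZMod 2) : pull TU (pull TU (pull TU f)) = f := by
  funext l
  unfold pull
  rw [List.map_map, List.map_map]
  have e : (TU ∘ TU ∘ TU) = id := funext eob_TU3
  rw [Function.comp_assoc, e, List.map_id]

private theorem eob_TU_homeo : SHomeo O3 O3 TU (TU ∘ TU) where
  c₁ := TU_continuous.continuousOn
  c₂ := (TU_continuous.comp TU_continuous).continuousOn
  m₁ := fun _ h => TU_mem_O3 h
  m₂ := fun _ h => TU_mem_O3 (TU_mem_O3 h)
  l := fun u _ => eob_TU3 u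
  r := fun u _ => eob_TU3 u

private theorem eob_om3 : (om : ℂ) ^ 3 = 1 := by
  have h : om ^ 3 = 1 := by
    unfold om
    rw [← Circle.exp_nsmul]
    have e : (3 : ℕ) • (2 * Real.pi / 3) = 2 * Real.pi := by
      rw [nsmul_eq_mul]
      push_cast
      ring
    rw [e, Circle.exp_two_pi]
  have h2 := congrArg (fun z : Circle => (z : ℂ)) h
  simpa using h2

private theorem eob_Rw3 (u : UT) : Rw (Rw (Rw u)) = u := by
  unfold Rw
  have e : (om : ℂ) * ((om : ℂ) * ((om : ℂ) * u.1.2.2)) = u.1.2.2 := by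
    rw [← mul_assoc, ← mul_assoc, ← pow_two, ← pow_succ, eob_om3, one_mul]
  show ((u.1.1, (u.1.2.1, (om : ℂ) * ((om : ℂ) * ((om : ℂ) * u.1.2.2)))), u.2) = u
  rw [e]

private theorem eob_Rw_cont : Continuous Rw := by
  unfold Rw
  fun_prop

private theorem eob_Rw_homeo {A : Set UT} (h : ∀ u ∈ A, Rw u ∈ A) : SHomeo A A Rw (Rw ∘ Rw) where
  c₁ := eob_Rw_cont.continuousOn
  c₂ := (eob_Rw_cont.comp eob_Rw_cont).continuousOn
  m₁ := fun u hu => h u hu
  m₂ := fun u hu => h _ (h u hu)
  l := fun u _ => eob_Rw3 u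
  r := fun u _ => eob_Rw3 u

private theorem eob_G1F_closed : IsClosed G1F := by
  have h : ∀ i j, Continuous fun u : UT => cA u i j := fun i j => by
    have := cA_continuous
    fun_prop
  have h1 : IsClosed {u : UT | cA u 3 3 = 0} := isClosed_eq (h 3 3) continuous_const
  have h2 : IsClosed {u : UT | cA u 2 2 = 0} := isClosed_eq (h 2 2) continuous_const
  have h3 : IsClosed {u : UT | u.1.1.2 = 1} := isClosed_eq (by fun_prop) continuous_const
  exact h1.inter (h2.inter h3)

private theorem eob_GF_sub : GF ⊆ G1F := fun _ hu => ⟨hu.1, hu.2.1, hu.2.2.1⟩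

private theorem eob_good : Good IsCompact O3 := by
  obtain ⟨F, hF, h⟩ := O3_eq
  rw [h]
  exact good_locallyClosed U3 F isClosed_U3 hF

private theorem eob_T_coc {f : List UT → ZMod 2} (hf : f ∈ cocycles (ZMod 2) IsCompact O3 2) :
    pull TU f ∈ cocycles (ZMod 2) IsCompact O3 2 := eob_TU_homeo.smap.pull_mem_cocycles hf

private theorem eob_T_cob {f : List UT → ZMod 2}
    (hf : f ∈ coboundaries (ZMod 2) IsCompact O3 2) :
    pull TU f ∈ coboundaries (ZMod 2) IsCompact O3 2 := eob_TU_homeo.smap.pull_mem_coboundaries hf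

theorem O3_e3 {f : List UT → ZMod 2} (hf : f ∈ cocycles (ZMod 2) IsCompact O3 2) :
    e3 TU f ∈ coboundaries (ZMod 2) IsCompact O3 2 := by
  have hT := eob_T_coc hf
  have hTT := eob_T_coc hT
  refine restr_cob isClosed_GF eob_good HcZ_O3_GF (add_mem (add_mem hf hT) hTT) ?_
  -- the slice
  have m1 : ∀ u ∈ O3 ∩ G1F, Rw u ∈ O3 ∩ G1F := fun u hu => ⟨Rw_maps hu.1, hu.2⟩
  have m2 : ∀ u ∈ O3 ∩ GF, Rw u ∈ O3 ∩ GF := fun u hu => ⟨Rw_maps hu.1, hu.2⟩
  have a1 := TT_homotopy (eob_restr_coc eob_G1F_closed hf)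
  have a2 := TT_homotopy (eob_restr_coc eob_G1F_closed hTT)
  rw [eob_pull3 (pull TU f)] at a2
  have a3 := (eob_Rw_homeo m1).smap.pull_mem_coboundaries a1
  rw [pull_sub] at a3
  have a4 := add_mem a1 (add_mem a2 a3)
  have e1 : O3 ∩ GF = O3 ∩ G1F ∩ GF := by
    rw [inter_assoc, inter_eq_right.2 eob_GF_sub]
  have a5 := eob_restr_cob isClosed_GF a4
  rw [← e1] at a5
  -- the tripod
  obtain ⟨φ, ψ, hφ, h2, h1⟩ := GF_homeo
  have b1 := tp_e (hφ.symm.smap.pull_mem_cocycles (eob_restr_coc isClosed_GF hf))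
  have b2 := hφ.smap.pull_mem_coboundaries b1
  have key : ∀ u ∈ O3 ∩ GF, Rr (φ u) = φ (Rw u) := by
    intro u hu
    refine Prod.ext ?_ ?_
    · exact h1 u hu _ (m2 u hu) rfl
    · show (om : ℂ) * (φ u).2 = (φ (Rw u)).2
      rw [h2, h2]
      rfl
  have b3 : e3 Rw f ∈ coboundaries (ZMod 2) IsCompact (O3 ∩ GF) 2 := by
    refine eob_cong b2 fun l hl => ?_
    have c0 : (l.map φ).map ψ = l := by
      rw [List.map_map]
      conv_rhs => rw [← List.map_id l]
      exact List.map_congr_left fun y hy => hφ.l y (hl y hy)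
    have c1 : ((l.map φ).map Rr).map ψ = l.map Rw := by
      rw [List.map_map, List.map_map]
      refine List.map_congr_left fun y hy => ?_
      show ψ (Rr (φ y)) = Rw y
      rw [key y (hl y hy)]
      exact hφ.l _ (m2 y (hl y hy))
    have c2 : (((l.map φ).map Rr).map Rr).map ψ = (l.map Rw).map Rw := by
      rw [List.map_map, List.map_map, List.map_map, List.map_map]
      refine List.map_congr_left fun y hy => ?_
      show ψ (Rr (Rr (φ y))) = Rw (Rw y)
      rw [key y (hl y hy), key _ (m2 y (hl y hy))]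
      exact hφ.l _ (m2 _ (m2 y (hl y hy)))
    show f l + f (l.map Rw) + f ((l.map Rw).map Rw) =
      f ((l.map φ).map ψ) + f (((l.map φ).map Rr).map ψ) + f ((((l.map φ).map Rr).map Rr).map ψ)
    rw [c0, c1, c2]
  have a6 := add_mem a5 b3
  have e2 : (pull TU (pull TU f) - pull Rw f) + ((pull TU f - pull Rw (pull TU (pull TU f))) +
      (pull Rw (pull TU (pull TU f)) - pull Rw (pull Rw f))) + e3 Rw f = e3 TU f := by
    unfold e3
    abel
  rw [e2] at a6
  exact a6

private theorem eob_inj : ∃ α : Hc (ZMod 2) O3 2 → Hc (ZMod 2) RT 2, Function.Injective α := by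
  obtain ⟨φ, ψ, hφ, -, -⟩ := GF_homeo
  refine ⟨fun c => hφ.symm.smap.map (ZMod 2) 2 ((SMap.incl IsCompact O3 GF isClosed_GF).map
    (ZMod 2) 2 c), ?_⟩
  have h1 : Function.Injective ((hφ.symm.smap.map (ZMod 2) 2).comp
      ((SMap.incl IsCompact O3 GF isClosed_GF).map (ZMod 2) 2)) := by
    rw [injective_iff_map_eq_zero]
    intro c hc
    obtain ⟨f, hf, rfl⟩ := cls_surj c
    rw [LinearMap.comp_apply, incl_cls isClosed_GF hf, SMap.map_cls, cls_eq_zero_iff] at hc
    rw [cls_eq_zero_iff]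
    exact restr_cob isClosed_GF eob_good HcZ_O3_GF hf
      (hφ.symm.pull_cob (eob_restr_coc isClosed_GF hf) hc)
  exact h1

theorem O3_card : Finite (Hc (ZMod 2) O3 2) ∧ Nat.card (Hc (ZMod 2) O3 2) ≤ 4 := by
  obtain ⟨α, hα⟩ := eob_inj
  obtain ⟨h1, h2⟩ := tp_card
  exact ⟨Finite.of_injective α hα, (Nat.card_le_card_of_injective α hα).trans h2⟩

private theorem eob_sub (x y : List UT → ZMod 2) : x - y = x + y := by
  funext l
  have h : ∀ a b : ZMod 2, a - b = a + b := by decide
  exact h _ _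

theorem O3_class {f g : List UT → ZMod 2} (hf : f ∈ cocycles (ZMod 2) IsCompact O3 2)
    (hf0 : f ∉ coboundaries (ZMod 2) IsCompact O3 2) (hg : g ∈ cocycles (ZMod 2) IsCompact O3 2) :
    g ∈ coboundaries (ZMod 2) IsCompact O3 2 ∨ g - f ∈ coboundaries (ZMod 2) IsCompact O3 2 ∨
    g - pull TU f ∈ coboundaries (ZMod 2) IsCompact O3 2 ∨
    g - (f + pull TU f) ∈ coboundaries (ZMod 2) IsCompact O3 2 := by
  classical
  have hT := eob_T_coc hf
  have h3 := O3_e3 hf
  -- `T f` is not a coboundary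
  have n1 : pull TU f ∉ coboundaries (ZMod 2) IsCompact O3 2 := by
    intro h
    apply hf0
    have := eob_T_cob (eob_T_cob h)
    rwa [eob_pull3] at this
  -- `f + T f` is not a coboundary
  have n2 : f + pull TU f ∉ coboundaries (ZMod 2) IsCompact O3 2 := by
    intro h
    apply hf0
    have h4 := sub_mem h3 h
    have e : e3 TU f - (f + pull TU f) = pull TU (pull TU f) := by
      unfold e3
      abel
    rw [e] at h4
    have := eob_T_cob h4
    rwa [eob_pull3] at this
  have n3 : f - pull TU f ∉ coboundaries (ZMod 2) IsCompact O3 2 := by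
    rw [eob_sub]
    exact n2
  by_contra hcon
  push Not at hcon
  obtain ⟨g0, g1, g2, g3⟩ := hcon
  obtain ⟨hfin, hcard⟩ := O3_card
  have := Fintype.ofFinite (Hc (ZMod 2) O3 2)
  rw [Nat.card_eq_fintype_card] at hcard
  set a : Hc (ZMod 2) O3 2 := cls f hf with ha
  set b : Hc (ZMod 2) O3 2 := cls (pull TU f) hT with hb
  set c : Hc (ZMod 2) O3 2 := cls (f + pull TU f) (add_mem hf hT) with hc
  set e : Hc (ZMod 2) O3 2 := cls g hg with he
  have ne_a : a ≠ 0 := fun h => hf0 (cls_eq_zero_iff.1 h)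
  have ne_b : b ≠ 0 := fun h => n1 (cls_eq_zero_iff.1 h)
  have ne_c : c ≠ 0 := fun h => n2 (cls_eq_zero_iff.1 h)
  have ne_e : e ≠ 0 := fun h => g0 (cls_eq_zero_iff.1 h)
  have ne_ab : a ≠ b := fun h => n3 (cls_eq_iff.1 h)
  have ne_ac : a ≠ c := by
    intro h
    have h4 := cls_eq_iff.1 h
    apply n1
    have h5 := neg_mem h4
    have e5 : -(f - (f + pull TU f)) = pull TU f := by abel
    rwa [e5] at h5
  have ne_bc : b ≠ c := by
    intro h
    have h4 := cls_eq_iff.1 h
    apply hf0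
    have h5 := neg_mem h4
    have e5 : -(pull TU f - (f + pull TU f)) = f := by abel
    rwa [e5] at h5
  have ne_ea : e ≠ a := fun h => g1 (cls_eq_iff.1 h)
  have ne_eb : e ≠ b := fun h => g2 (cls_eq_iff.1 h)
  have ne_ec : e ≠ c := fun h => g3 (cls_eq_iff.1 h)
  have hs : ({0, a, b, c, e} : Finset (Hc (ZMod 2) O3 2)).card = 5 := by
    rw [Finset.card_insert_of_notMem, Finset.card_insert_of_notMem, Finset.card_insert_of_notMem,
      Finset.card_insert_of_notMem, Finset.card_singleton]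
    · simp only [Finset.mem_singleton]
      exact ne_ec.symm
    · simp only [Finset.mem_insert, Finset.mem_singleton, not_or]
      exact ⟨ne_bc, ne_eb.symm⟩
    · simp only [Finset.mem_insert, Finset.mem_singleton, not_or]
      exact ⟨ne_ab, ne_ac, ne_ea.symm⟩
    · simp only [Finset.mem_insert, Finset.mem_singleton, not_or]
      exact ⟨ne_a.symm, ne_b.symm, ne_c.symm, ne_e.symm⟩
  have h5 := Finset.card_le_univ ({0, a, b, c, e} : Finset (Hc (ZMod 2) O3 2))
  omega

end Pool.Agent.Helper77.DS
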