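import Pool.Agent.Helper77.DS.DDefs

/-!
# DS-ExA: calculus of extension by zero on representatives

`exists_ext`: `exists_cut` of `AS/Pair.lean` (`cut V f'`; it has support in `Off IsCompact F`).
`ext_cob`: `f' - d g'` locally zero on `X \ F`, `g'` with compact support in `X \ F` (for `n = 0` `f'` is locally zero); cut
`g'` (`exists_cut`): `f - d (cut V g')` is locally zero on `X`.
`ext_of_restr`: `incl_cls`, `key_R`: `f ~ f - d g`, locally zero at the points of `X ∩ F`, `f' = f - d g`.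
`ext_trans`, `ext_pull`, `ext_add`, `ext_congr`: direct. `LZat_sdiff_iff` compares `LZat (X \ F)` and `LZat X` at points not in
the closed set `F`.
-/

namespace Pool.Agent.Helper77.DS

open Set Helper36.AS

variable {E : Type*} [MetricSpace E] {X F : Set E} {n : ℕ}

theorem exists_ext (hF : IsClosed F) {f' : List E → ZMod 2}
    (hf : f' ∈ cocycles (ZMod 2) IsCompact (X \ F) n) : ∃ f, IsExt X F n f' f := by
  obtain ⟨V, h1, h2, h3⟩ := exists_cut hF hf.1
  refine ⟨cut V f', hf, ⟨h1.of_off, fun x hx => ?_⟩, h2, h3⟩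
  by_cases hxF : x ∈ F
  · exact (h3 x ⟨hx, hxF⟩).d
  · have h5 := (h2 x ⟨hx, hxF⟩).d
    rw [d_sub'] at h5
    have := h5.add ((LZat_sdiff_iff hF hxF).1 (hf.2 x ⟨hx, hxF⟩))
    rwa [sub_add_cancel] at this

theorem ext_cob (hF : IsClosed F) {f' f : List E → ZMod 2} (h : IsExt X F n f' f)
    (h' : f' ∈ coboundaries (ZMod 2) IsCompact (X \ F) n) :
    f ∈ coboundaries (ZMod 2) IsCompact X n := by
  obtain ⟨g, hg0, hg, hfg⟩ := h'
  cases n with
  | zero =>
    refine LZ.mem_coboundaries fun x hx => ?_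
    by_cases hxF : x ∈ F
    · exact h.zero x ⟨hx, hxF⟩
    · have h1 : LZat X 1 f' x := by
        rw [← LZat_sdiff_iff hF hxF]
        refine (hfg x ⟨hx, hxF⟩).congr fun l hl _ => ?_
        match l, hl with
        | [y], _ => simp [d_cons, hg0 rfl]
      have := (h.eq x ⟨hx, hxF⟩).add h1
      rwa [sub_add_cancel] at this
  | succ n =>
    obtain ⟨V, h1, h2, h3⟩ := exists_cut hF hg
    refine ⟨cut V g, nofun, h1.of_off, fun x hx => ?_⟩
    by_cases hxF : x ∈ F
    · exact (h.zero x ⟨hx, hxF⟩).sub (h3 x ⟨hx, hxF⟩).d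
    · have h4 := (LZat_sdiff_iff hF hxF).1 (hfg x ⟨hx, hxF⟩)
      have h5 := (h2 x ⟨hx, hxF⟩).d
      rw [d_sub'] at h5
      have h6 := h4.sub h5
      rw [sub_sub_sub_cancel_right] at h6
      have h7 := (h.eq x ⟨hx, hxF⟩).add h6
      rwa [sub_add_sub_cancel] at h7

theorem ext_of_restr (hF : IsClosed F) (hX : Good IsCompact X) {f : List E → ZMod 2}
    (hf : f ∈ cocycles (ZMod 2) IsCompact X n)
    (h : f ∈ coboundaries (ZMod 2) IsCompact (X ∩ F) n) :
    ∃ f' g, IsExt X F n f' g ∧ f - g ∈ coboundaries (ZMod 2) IsCompact X n := by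
  obtain ⟨g, hg0, hg, hfg⟩ := key_R hF hX hf.1 (fun x hx => hf.2 x hx.1) h
  have h1 : LZ X (n + 2) (d (f - d g)) := by
    rw [d_sub', d_d', sub_zero]
    exact hf.2
  refine ⟨f - d g, f - d g, ⟨⟨((hf.1.sub hg.d).off hfg).compact_sdiff, h1.mono sdiff_subset⟩,
    ⟨hf.1.sub hg.d, h1⟩, fun p _ => ?_, hfg⟩, g, hg0, hg, ?_⟩
  · rw [sub_self]
    exact LZat.zero X _ p
  · rw [sub_sub_cancel, sub_self]
    exact LZ.zero X _

theorem ext_trans {F₂ : Set E} (hF : IsClosed F) (hF₂ : IsClosed F₂) {f'' f' f : List E → ZMod 2}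
    (h : IsExt X F n f' f) (h' : IsExt (X \ F) F₂ n f'' f') : IsExt X (F ∪ F₂) n f'' f := by
  refine ⟨?_, h.mem, fun p hp => ?_, fun p hp => ?_⟩
  · have := h'.mem'
    rwa [Set.sdiff_sdiff] at this
  · have h1 : p ∉ F := fun hh => hp.2 (Or.inl hh)
    have h2 : p ∉ F₂ := fun hh => hp.2 (Or.inr hh)
    have h3 := (LZat_sdiff_iff hF h1).1 (h'.eq p ⟨⟨hp.1, h1⟩, h2⟩)
    have h4 := (h.eq p ⟨hp.1, h1⟩).add h3
    rwa [sub_add_sub_cancel] at h4
  · by_cases h1 : p ∈ F
    · exact h.zero p ⟨hp.1, h1⟩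
    · have h2 : p ∈ F₂ := hp.2.resolve_left h1
      have h3 := (LZat_sdiff_iff hF h1).1 (h'.zero p ⟨⟨hp.1, h1⟩, h2⟩)
      have h4 := (h.eq p ⟨hp.1, h1⟩).add h3
      rwa [sub_add_cancel] at h4

theorem ext_add {f' f g' g : List E → ZMod 2} (h : IsExt X F n f' f) (h' : IsExt X F n g' g) :
    IsExt X F n (f' + g') (f + g) := by
  refine ⟨add_mem h.mem' h'.mem', add_mem h.mem h'.mem, fun p hp => ?_, fun p hp =>
    (h.zero p hp).add (h'.zero p hp)⟩
  rw [add_sub_add_comm]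
  exact (h.eq p hp).add (h'.eq p hp)

theorem ext_pull (T : E → E) (hT : SMap IsCompact IsCompact X X T)
    (hT' : SMap IsCompact IsCompact (X \ F) (X \ F) T) (hF : MapsTo T (X ∩ F) (X ∩ F))
    {f' f : List E → ZMod 2} (h : IsExt X F n f' f) : IsExt X F n (pull T f') (pull T f) := by
  refine ⟨hT'.pull_mem_cocycles h.mem', hT.pull_mem_cocycles h.mem, fun p hp => ?_, fun p hp =>
    (h.zero (T p) (hF hp)).pull (hT.cont p hp.1) hT.maps⟩
  rw [← pull_sub]
  exact (h.eq (T p) (hT'.maps hp)).pull (hT.cont p hp.1) hT.maps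

end Pool.Agent.Helper77.DS
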