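import Pool.Agent.Helper77.DS.HzC
import Pool.Agent.Helper77.DS.OgB

/-!
# DS-RdA: the stratum over (open square) × (closed arc): `Hc² = 0`

Points `u` of `U3` with `u ∈ BF`, `u ∉ B1F`: `u = ((((chart p, t), θ), z), v)` with `p i = A 0 (i+1) / A 0 0` (on `BF ∩ RP3` one has
`A 0 0 > 0`), `|p 0|, |p 1| ≤ 2`, `|p 2| ≤ 1`, `F p t = 0`, `t < 2`, `|p 0| < 2 - t`, `|p 1| < 2 - t`. Put `r = 2 - t > 0`.
`F p t = 0` with `|p 0|, |p 1| < r`: `t ≥ 0` and either `t = 0` and `max (...) ≥ 0`, i.e. (as `|p 0|, |p 1| < 2`,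
`1 - |t - 2| = -1`) `|p 2| = 1`; or `t > 0` and the maximum is zero: `|p 0| - 2 < 0`, `|p 1| - 2 < 0`, `t - 4 < 0`, and
`min (1 - |p 0|) (min (1 - |p 1|) (1 - r)) = 1 - r` as `|p 0|, |p 1| < r`; so `max (|p 2| - 1) (1 - r) = 0`. Together:
`1 ≤ r ≤ 2`, `|p 2| ≤ 1` and (`|p 2| = 1` or `r = 1`) [for `r = 2`: `|p 2| = 1`]. This set of pairs `(r, p 2)` is an arc,
homeomorphic to `[-1, 1]` e.g. by `σ = (p 2 · (something))`: `σ = (p 2 + sign (p 2) (r - 1)) / 2` (`p 2 = ± 1` when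
`r > 1`), inverse `p 2 = max (-1) (min 1 (2 σ))`, `r = 1 + max 0 (2 |σ| - 1)`. The other coordinates: `p 0 / r, p 1 / r` in
`(-1, 1)² ≅ ℝ²`, `θ`, and `(z, ζ)` with `ζ = v / θ · exp (- i π (1 + p 2) / 3)`: on this stratum `tauN = exp (i π (1 + p 2))`
everywhere (on the part `|p 2| = 1` this is `1`), so `ζ³ = thetaZ z`. So the stratum is
`ℝ × (ℝ × ([-1, 1] × (S¹ × Z3)))`; `HcZ_line` twice and `HcZ_IZ`.
-/

namespace Pool.Agent.Helper77.DS

open Set Complex Helper36.AS

/-- The condition on `(p, t)` on the stratum. -/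
private theorem rd_F_iff {p : Fin 3 → ℝ} {t : ℝ} :
    (F p t = 0 ∧ |p 0| ≤ 2 ∧ |p 1| ≤ 2 ∧ |p 2| ≤ 1 ∧ t < 2 ∧ |p 0| < 2 - t ∧ |p 1| < 2 - t) ↔
    (0 ≤ t ∧ t ≤ 1 ∧ |p 0| < 2 - t ∧ |p 1| < 2 - t ∧ |p 2| ≤ 1 ∧ (|p 2| = 1 ∨ t = 1)) := by
  constructor
  · rintro ⟨hF, h0, h1, h2, h3, h4, h5⟩
    rcases ogb_F_zero hF with ⟨-, -, -, ht, -⟩ | ⟨ht, h6⟩
    · rcases ht.eq_or_lt with ht | ht
      · subst ht
        have h7 : ¬ (|p 2| < 1) := by
          intro h7
          unfold F at hF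
          rcases min_cases (0 : ℝ) (max (|p 0| - 2) (max (|p 1| - 2) (max (|p 2| - 1) (max ((0 : ℝ) - 4)
            (min (1 - |p 0|) (min (1 - |p 1|) (1 - |(0 : ℝ) - 2|))))))) with ⟨e, g⟩ | ⟨e, g⟩
          · rcases le_max_iff.1 g with g | g
            · linarith
            rcases le_max_iff.1 g with g | g
            · linarith
            rcases le_max_iff.1 g with g | g
            · linarith
            rcases le_max_iff.1 g with g | g
            · linarith
            · have := (le_min_iff.1 (le_min_iff.1 g).2).2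
              norm_num at this
          · rw [e] at hF
            rw [hF] at g
            exact lt_irrefl _ g
        exact ⟨le_rfl, zero_le_one, h4, h5, h2, Or.inl (le_antisymm h2 (not_lt.1 h7))⟩
      · have hm := ogb_F_zero_pos hF ht
        have ha : |t - 2| = 2 - t := by
          rw [abs_sub_comm]
          exact abs_of_pos (by linarith)
        rw [ha] at hm
        have hle := (max_le_iff.1 (max_le_iff.1 (max_le_iff.1 (max_le_iff.1 hm.le).2).2).2).2
        have ht1 : t ≤ 1 := by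
          rcases min_le_iff.1 hle with g | g
          · linarith
          rcases min_le_iff.1 g with g | g
          · linarith
          · linarith
        refine ⟨ht.le, ht1, h4, h5, h2, ?_⟩
        rcases le_max_iff.1 hm.ge with g | g
        · exfalso; linarith
        rcases le_max_iff.1 g with g | g
        · exfalso; linarith
        rcases le_max_iff.1 g with g | g
        · left; linarith
        rcases le_max_iff.1 g with g | g
        · exfalso; linarith
        · right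
          have := (le_min_iff.1 (le_min_iff.1 g).2).2
          linarith
    · subst ht
      refine ⟨le_rfl, zero_le_one, h4, h5, h2, Or.inl ?_⟩
      rcases h6 with h6 | h6 | h6
      · exfalso; linarith
      · exfalso; linarith
      · exact le_antisymm h2 h6
  · rintro ⟨h0, h1, h2, h3, h4, h5⟩
    refine ⟨?_, by linarith, by linarith, h4, by linarith, h2, h3⟩
    rcases h0.eq_or_lt with ht | ht
    · subst ht
      apply ogb_F_of_zero
      rcases h5 with h5 | h5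
      · exact Or.inr (Or.inr h5.ge)
      · norm_num at h5
    · have ha : |t - 2| = 2 - t := by
        rw [abs_sub_comm]
        exact abs_of_pos (by linarith)
      have hmin : min (1 - |p 0|) (min (1 - |p 1|) (1 - |t - 2|)) = 1 - (2 - t) := by
        rw [ha, min_eq_right (by linarith : 1 - (2 - t) ≤ 1 - |p 1|),
          min_eq_right (by linarith : 1 - (2 - t) ≤ 1 - |p 0|)]
      unfold F
      rw [hmin]
      have h6 : max (|p 2| - 1) (max (t - 4) (1 - (2 - t))) = 0 := by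
        rcases h5 with h5 | h5
        · rw [h5, sub_self]
          exact max_eq_left (max_le (by linarith) (by linarith))
        · rw [h5]
          norm_num
          linarith
      rw [h6, max_eq_right (by linarith : |p 1| - 2 ≤ 0), max_eq_right (by linarith : |p 0| - 2 ≤ 0)]
      exact min_eq_right ht.le

theorem isClosed_BF : IsClosed BF := by
  have h : ∀ i j, Continuous fun u : UT => cA u i j := fun i j => by
    have := cA_continuous
    fun_prop
  refine IsClosed.and (isClosed_le (h 1 1) (continuous_const.mul (h 0 0))) ?_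
  exact IsClosed.and (isClosed_le (h 2 2) (continuous_const.mul (h 0 0)))
    (isClosed_le (h 3 3) (h 0 0))

theorem isClosed_B1F : IsClosed B1F := by
  have h : ∀ i j, Continuous fun u : UT => cA u i j := fun i j => by
    have := cA_continuous
    fun_prop
  have ht : Continuous fun u : UT => u.1.1.1.2 := by fun_prop
  refine IsClosed.and isClosed_BF ?_
  refine IsClosed.union (isClosed_le continuous_const ht) ?_
  refine IsClosed.union (isClosed_le ?_ (h 1 1)) (isClosed_le ?_ (h 2 2))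
  · exact ((continuous_const.sub ht).pow 2).mul (h 0 0)
  · exact ((continuous_const.sub ht).pow 2).mul (h 0 0)

theorem O3_eq_diff : O3 = U3 \ BF := by
  ext u
  constructor
  · rintro ⟨h1, -, h2⟩
    refine ⟨h1, ?_⟩
    rintro ⟨a, b, c⟩
    rcases h2 with h2 | h2 | h2
    · exact absurd a (not_le.2 h2)
    · exact absurd b (not_le.2 h2)
    · exact absurd c (not_le.2 h2)
  · rintro ⟨h1, h2⟩
    refine ⟨h1, cA_mem h1, ?_⟩
    by_contra h3
    apply h2
    rw [not_or, not_or, not_lt, not_lt, not_lt] at h3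
    exact ⟨h3.1, h3.2.1, h3.2.2⟩

/-- Points of `RP3` satisfying the inequalities of `BF` are in the chart. -/
private theorem rd_pos {A : M4} (hA : A ∈ RP3) (h1 : A 1 1 ≤ 4 * A 0 0) (h2 : A 2 2 ≤ 4 * A 0 0)
    (h3 : A 3 3 ≤ A 0 0) : A 0 0 ≠ 0 := by
  obtain ⟨q, hq, rfl⟩ := hA
  intro h0
  rw [h0] at h1 h2 h3
  simp only [outer] at h0 h1 h2 h3
  rw [Fin.sum_univ_four] at hq
  nlinarith

private theorem rd_sq_lt {a c : ℝ} (hc : 0 ≤ c) : a ^ 2 < c ^ 2 ↔ |a| < c := by
  rw [← sq_abs a]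
  constructor
  · intro h
    exact lt_of_pow_lt_pow_left₀ 2 hc h
  · intro h
    exact pow_lt_pow_left₀ h (abs_nonneg a) (by norm_num)

private theorem rd_sq_le {a c : ℝ} (hc : 0 ≤ c) : a ^ 2 ≤ c ^ 2 ↔ |a| ≤ c := by
  rw [← sq_abs a]
  constructor
  · intro h
    exact le_of_sq_le_sq h hc
  · intro h
    exact pow_le_pow_left₀ (abs_nonneg a) h 2

private theorem rd_coord (p : Fin 3 → ℝ) :
    chart p 0 1 / chart p 0 0 = p 0 ∧ chart p 0 2 / chart p 0 0 = p 1 ∧
      chart p 0 3 / chart p 0 0 = p 2 := by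
  have h := (chart_zero_zero_pos p).ne'
  obtain ⟨e1, e2, e3, -⟩ := ogb_chart_apply p
  rw [e1, e2, e3]
  exact ⟨mul_div_cancel_right₀ _ h, mul_div_cancel_right₀ _ h, mul_div_cancel_right₀ _ h⟩

private theorem rd_inj {p q : Fin 3 → ℝ} (h : chart p = chart q) : p = q := by
  obtain ⟨a1, a2, a3⟩ := rd_coord p
  obtain ⟨b1, b2, b3⟩ := rd_coord q
  rw [h] at a1 a2 a3
  funext i
  fin_cases i
  · exact a1.symm.trans b1
  · exact a2.symm.trans b2
  · exact a3.symm.trans b3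

private theorem rd_N {p : Fin 3 → ℝ} {t : ℝ} : (((chart p, t) : M4 × ℝ) ∈ N) ↔ F p t = 0 := by
  constructor
  · rintro (⟨q, hq, hF⟩ | ⟨-, h, -⟩)
    · have : p = q := rd_inj hq
      subst this
      exact hF
    · exact absurd h (chart_zero_zero_pos p).ne'
  · intro h
    exact Or.inl ⟨p, rfl, h⟩

/-- Membership in the stratum in terms of `p` and `t`. -/
private theorem rd_mem {p : Fin 3 → ℝ} {t : ℝ} {θ v : Circle} {z : ℂ × ℂ} :
    ((((((chart p, t), θ), z), v) : UT) ∈ (U3 ∩ BF) \ B1F) ↔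
    ((0 ≤ t ∧ t ≤ 1 ∧ |p 0| < 2 - t ∧ |p 1| < 2 - t ∧ |p 2| ≤ 1 ∧ (|p 2| = 1 ∨ t = 1)) ∧
      z ∈ Z ∧ (v : ℂ) ^ 3 = (tau ((chart p, t), θ) : ℂ) * thetaZ z) := by
  have hpos := chart_zero_zero_pos p
  obtain ⟨-, -, -, e1, e2, e3, -⟩ := ogb_chart_apply p
  have k1 : (chart p 1 1 ≤ 4 * chart p 0 0) ↔ |p 0| ≤ 2 := by
    rw [e1, mul_le_mul_iff_left₀ hpos, ← rd_sq_le (by norm_num : (0 : ℝ) ≤ 2)]
    norm_num
  have k2 : (chart p 2 2 ≤ 4 * chart p 0 0) ↔ |p 1| ≤ 2 := by
    rw [e2, mul_le_mul_iff_left₀ hpos, ← rd_sq_le (by norm_num : (0 : ℝ) ≤ 2)]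
    norm_num
  have k3 : (chart p 3 3 ≤ chart p 0 0) ↔ |p 2| ≤ 1 := by
    rw [e3, ← rd_sq_le (by norm_num : (0 : ℝ) ≤ 1)]
    constructor
    · intro h
      refine le_of_mul_le_mul_right ?_ hpos
      linarith
    · intro h
      have := mul_le_mul_of_nonneg_right h hpos.le
      linarith
  have hBF : (((((chart p, t), θ), z), v) : UT) ∈ BF ↔ |p 0| ≤ 2 ∧ |p 1| ≤ 2 ∧ |p 2| ≤ 1 := by
    rw [← k1, ← k2, ← k3]
    exact Iff.rfl
  have hB1 : t < 2 → ((((2 - t) ^ 2 * chart p 0 0 ≤ chart p 1 1) ↔ ¬ |p 0| < 2 - t) ∧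
      (((2 - t) ^ 2 * chart p 0 0 ≤ chart p 2 2) ↔ ¬ |p 1| < 2 - t)) := by
    intro ht
    rw [e1, e2, mul_le_mul_iff_left₀ hpos, mul_le_mul_iff_left₀ hpos,
      ← rd_sq_lt (by linarith : (0 : ℝ) ≤ 2 - t), ← rd_sq_lt (by linarith : (0 : ℝ) ≤ 2 - t),
      not_lt, not_lt]
    exact ⟨Iff.rfl, Iff.rfl⟩
  have hU : (((((chart p, t), θ), z), v) : UT) ∈ U3 ↔ (F p t = 0 ∧ z ∈ Z ∧
      (v : ℂ) ^ 3 = (tau ((chart p, t), θ) : ℂ) * thetaZ z) := by
    rw [← rd_N]
    exact Iff.rfl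
  rw [← rd_F_iff]
  constructor
  · rintro ⟨⟨h1, h2⟩, h3⟩
    obtain ⟨u1, u2, u3⟩ := hU.1 h1
    have hb := hBF.1 h2
    obtain ⟨b1, b2, b3⟩ := hb
    have h4 : ¬ (2 ≤ t ∨ (2 - t) ^ 2 * chart p 0 0 ≤ chart p 1 1 ∨
        (2 - t) ^ 2 * chart p 0 0 ≤ chart p 2 2) := fun h => h3 ⟨h2, h⟩
    rw [not_or, not_or, not_le] at h4
    obtain ⟨c1, c2, c3⟩ := h4
    have hB := hB1 c1
    rw [hB.1, not_not] at c2
    rw [hB.2, not_not] at c3
    exact ⟨⟨u1, b1, b2, b3, c1, c2, c3⟩, u2, u3⟩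
  · rintro ⟨⟨u1, b1, b2, b3, c1, c2, c3⟩, u2, u3⟩
    refine ⟨⟨hU.2 ⟨u1, u2, u3⟩, hBF.2 ⟨b1, b2, b3⟩⟩, ?_⟩
    rintro ⟨-, h⟩
    have hB := hB1 c1
    rcases h with h | h | h
    · exact absurd h (not_le.2 c1)
    · exact hB.1.1 h c2
    · exact hB.2.1 h c3

/-- Points of the stratum come from the chart. -/
private theorem rd_exists {u : UT} (hu : u ∈ (U3 ∩ BF) \ B1F) :
    ∃ p t θ z v, u = ((((chart p, t), θ), z), v) := by
  obtain ⟨⟨⟨⟨A, t⟩, θ⟩, z⟩, v⟩ := u
  obtain ⟨⟨h1, h2, h3, h4⟩, -⟩ := hu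
  have hA : A ∈ RP3 := cA_mem h1
  obtain ⟨p, rfl⟩ := ogb_RP3_chart hA (rd_pos hA h2 h3 h4)
  exact ⟨p, t, θ, z, v, rfl⟩

/-- `tauN` on the stratum. -/
private theorem rd_tauN {p : Fin 3 → ℝ} {t : ℝ} (h1 : t ≤ 1) (h2 : |p 0| < 2 - t)
    (h3 : |p 1| < 2 - t) (h5 : |p 2| = 1 ∨ t = 1) :
    tauN (chart p, t) = Circle.exp (Real.pi * (1 + p 2)) := by
  have hpos := chart_zero_zero_pos p
  obtain ⟨e1, e2, e3, -⟩ := ogb_chart_apply p
  unfold tauN
  by_cases ht : t = 1
  · subst ht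
    rw [if_pos]
    · rw [(rd_coord p).2.2]
    · refine ⟨hpos, ?_, ?_, le_rfl, by norm_num⟩
      · change |chart p 0 1| ≤ chart p 0 0
        rw [e1]
        have := (ogb_abs_le (a := p 0) (c := 1) hpos).2 (by linarith)
        linarith
      · change |chart p 0 2| ≤ chart p 0 0
        rw [e2]
        have := (ogb_abs_le (a := p 1) (c := 1) hpos).2 (by linarith)
        linarith
  · rw [if_neg]
    · have h6 : |p 2| = 1 := h5.resolve_right ht
      rcases (abs_eq (zero_le_one' ℝ)).1 h6 with e | e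
      · rw [e]
        have : Real.pi * (1 + 1) = 2 * Real.pi := by ring
        rw [this, Circle.exp_two_pi]
      · rw [e]
        simp
    · rintro ⟨-, -, -, h, -⟩
      exact ht (le_antisymm h1 h)

/-- The radius. -/
private noncomputable def rdR (s : ℝ) : ℝ := max 1 |2 * s|

/-- The coordinate `p 2`. -/
private noncomputable def rdP (s : ℝ) : ℝ := max (-1) (min 1 (2 * s))

private theorem rdR_one (s : ℝ) : 1 ≤ rdR s := le_max_left _ _

private theorem rdP_abs (s : ℝ) : |rdP s| ≤ 1 := by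
  unfold rdP
  rw [abs_le]
  exact ⟨le_max_left _ _, max_le (by norm_num) (min_le_left _ _)⟩

private theorem rdR_le {s : ℝ} (hs : s ∈ Icc (-1 : ℝ) 1) : rdR s ≤ 2 := by
  unfold rdR
  refine max_le (by norm_num) ?_
  rw [abs_le]
  exact ⟨by linarith [hs.1], by linarith [hs.2]⟩

private theorem rdRP (s : ℝ) : rdP s * rdR s / 2 = s := by
  unfold rdP rdR
  rcases le_or_gt (2 * s) (-1) with h | h
  · rw [min_eq_right (by linarith : 2 * s ≤ 1), max_eq_left h, abs_of_nonpos (by linarith),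
      max_eq_right (by linarith)]
    ring
  · rcases le_or_gt (2 * s) 1 with h' | h'
    · rw [min_eq_right h', max_eq_right h.le, max_eq_left (abs_le.2 ⟨h.le, h'⟩)]
      ring
    · rw [min_eq_left h'.le, max_eq_right (by norm_num), abs_of_pos (by linarith),
        max_eq_right h'.le]
      ring

private theorem rdRP_or (s : ℝ) : |rdP s| = 1 ∨ 2 - rdR s = 1 := by
  unfold rdP rdR
  rcases le_or_gt (2 * s) (-1) with h | h
  · left
    rw [min_eq_right (by linarith : 2 * s ≤ 1), max_eq_left h]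
    norm_num
  · rcases le_or_gt (2 * s) 1 with h' | h'
    · right
      rw [max_eq_left (abs_le.2 ⟨h.le, h'⟩)]
      norm_num
    · left
      rw [min_eq_left h'.le, max_eq_right (by norm_num)]
      norm_num

private theorem rdR_eq {a t : ℝ} (h1 : t ≤ 1) (h4 : |a| ≤ 1) (h5 : |a| = 1 ∨ t = 1) :
    rdR (a * (2 - t) / 2) = 2 - t ∧ rdP (a * (2 - t) / 2) = a := by
  have e : 2 * (a * (2 - t) / 2) = a * (2 - t) := by ring
  unfold rdR rdP
  rw [e]
  have hr : 1 ≤ 2 - t := by linarith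
  rcases h5 with h5 | h5
  · constructor
    · rw [abs_mul, h5, one_mul, abs_of_pos (by linarith)]
      exact max_eq_right hr
    · rcases (abs_eq (zero_le_one' ℝ)).1 h5 with e | e
      · rw [e, one_mul, min_eq_left hr]
        norm_num
      · rw [e]
        rw [min_eq_right (by linarith), max_eq_left (by linarith)]
  · subst h5
    have e2 : a * (2 - 1) = a := by ring
    rw [e2]
    constructor
    · rw [max_eq_left h4]
      norm_num
    · rw [min_eq_right (abs_le.1 h4).2, max_eq_right (abs_le.1 h4).1]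

private theorem rd_y {a r : ℝ} (h : |a| < r) :
    r * (a / (r - |a|)) / (1 + |a / (r - |a|)|) = a := by
  have hr : 0 < r - |a| := by linarith
  have hr' : 0 < r := (abs_nonneg a).trans_lt h
  rw [abs_div, abs_of_pos hr]
  have : 1 + |a| / (r - |a|) = r / (r - |a|) := by
    field_simp
    ring
  rw [this]
  field_simp

private theorem rd_y_lt {y r : ℝ} (hr : 0 < r) : |r * y / (1 + |y|)| < r := by
  have h1 : 0 < 1 + |y| := by positivity
  rw [abs_div, abs_mul, abs_of_pos hr, abs_of_pos h1, div_lt_iff₀ h1]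
  nlinarith

private theorem rd_y' {y r : ℝ} (hr : 0 < r) :
    (r * y / (1 + |y|)) / (r - |r * y / (1 + |y|)|) = y := by
  have h1 : 0 < 1 + |y| := by positivity
  rw [abs_div, abs_mul, abs_of_pos hr, abs_of_pos h1]
  have : r - r * |y| / (1 + |y|) = r / (1 + |y|) := by
    field_simp
    ring
  rw [this]
  field_simp

/-- The homeomorphism. -/
private noncomputable def rdφ (u : UT) : ℝ × (ℝ × (ℝ × (Circle × ((ℂ × ℂ) × Circle)))) :=
  (cA u 0 1 / cA u 0 0 / ((2 - u.1.1.1.2) - |cA u 0 1 / cA u 0 0|),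
    (cA u 0 2 / cA u 0 0 / ((2 - u.1.1.1.2) - |cA u 0 2 / cA u 0 0|),
      (cA u 0 3 / cA u 0 0 * (2 - u.1.1.1.2) / 2,
        (u.1.1.2, (u.1.2, u.2 / u.1.1.2 * (Circle.exp (Real.pi * (1 + cA u 0 3 / cA u 0 0) / 3))⁻¹)))))

/-- The inverse. -/
private noncomputable def rdψ (x : ℝ × (ℝ × (ℝ × (Circle × ((ℂ × ℂ) × Circle))))) : UT :=
  ((((chart ![rdR x.2.2.1 * x.1 / (1 + |x.1|), rdR x.2.2.1 * x.2.1 / (1 + |x.2.1|), rdP x.2.2.1],
    2 - rdR x.2.2.1), x.2.2.2.1), x.2.2.2.2.1),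
    x.2.2.2.2.2 * x.2.2.2.1 * Circle.exp (Real.pi * (1 + rdP x.2.2.1) / 3))

private theorem rd_exp3 (a : ℝ) : Circle.exp (Real.pi * (1 + a) / 3) ^ 3 =
    Circle.exp (Real.pi * (1 + a)) := by
  rw [← Circle.exp_nsmul]
  congr 1
  simp
  ring

private theorem rdφ_chart (p : Fin 3 → ℝ) (t : ℝ) (θ v : Circle) (z : ℂ × ℂ) :
    rdφ ((((chart p, t), θ), z), v) = (p 0 / ((2 - t) - |p 0|), (p 1 / ((2 - t) - |p 1|),
      (p 2 * (2 - t) / 2, (θ, (z, v / θ * (Circle.exp (Real.pi * (1 + p 2) / 3))⁻¹))))) := by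
  obtain ⟨e1, e2, e3⟩ := rd_coord p
  unfold rdφ cA
  rw [e1, e2, e3]

theorem rd_homeo : ∃ φ ψ, SHomeo ((U3 ∩ BF) \ B1F)
    ((univ : Set ℝ) ×ˢ ((univ : Set ℝ) ×ˢ (Icc (-1 : ℝ) 1 ×ˢ ((univ : Set Circle) ×ˢ Z3)))) φ ψ := by
  refine ⟨rdφ, rdψ, ?_, ?_, ?_, ?_, ?_, ?_⟩
  · -- continuity of `φ`
    intro u hu
    obtain ⟨p, t, θ, z, v, rfl⟩ := rd_exists hu
    obtain ⟨⟨h0, h1, h2, h3, h4, h5⟩, -, -⟩ := rd_mem.1 hu
    apply ContinuousAt.continuousWithinAt
    have hpos := chart_zero_zero_pos p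
    obtain ⟨e1, e2, e3⟩ := rd_coord p
    have hc : ∀ j, ContinuousAt (fun u : UT => cA u 0 j / cA u 0 0) ((((chart p, t), θ), z), v) := by
      intro j
      have := cA_continuous
      refine ContinuousAt.div (Continuous.continuousAt (by fun_prop))
        (Continuous.continuousAt (by fun_prop)) hpos.ne'
    have ht : ContinuousAt (fun u : UT => 2 - u.1.1.1.2) ((((chart p, t), θ), z), v) :=
      Continuous.continuousAt (by fun_prop)
    unfold rdφ
    refine ContinuousAt.prodMk ?_ (ContinuousAt.prodMk ?_ (ContinuousAt.prodMk ?_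
      (ContinuousAt.prodMk ?_ (ContinuousAt.prodMk ?_ ?_))))
    · refine ContinuousAt.div (hc 1) (ht.sub (hc 1).abs) ?_
      change (2 - t) - |chart p 0 1 / chart p 0 0| ≠ 0
      rw [e1]
      linarith
    · refine ContinuousAt.div (hc 2) (ht.sub (hc 2).abs) ?_
      change (2 - t) - |chart p 0 2 / chart p 0 0| ≠ 0
      rw [e2]
      linarith
    · exact ((hc 3).mul ht).div_const 2
    · exact Continuous.continuousAt (by fun_prop)
    · exact Continuous.continuousAt (by fun_prop)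
    · refine ContinuousAt.mul cZ_continuous.continuousAt (ContinuousAt.inv ?_)
      exact ContinuousAt.comp (g := fun r : ℝ => Circle.exp r)
        (f := fun u : UT => Real.pi * (1 + cA u 0 3 / cA u 0 0) / 3)
        (Circle.exp.continuous.continuousAt)
        ((continuousAt_const.mul (continuousAt_const.add (hc 3))).div_const 3)
  · -- continuity of `ψ`
    apply Continuous.continuousOn
    have hR : Continuous rdR := by unfold rdR; fun_prop
    have hP : Continuous rdP := by unfold rdP; fun_prop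
    have hR' : Continuous fun x : ℝ × (ℝ × (ℝ × (Circle × ((ℂ × ℂ) × Circle)))) => rdR x.2.2.1 :=
      hR.comp (by fun_prop)
    have hP' : Continuous fun x : ℝ × (ℝ × (ℝ × (Circle × ((ℂ × ℂ) × Circle)))) => rdP x.2.2.1 :=
      hP.comp (by fun_prop)
    unfold rdψ
    refine Continuous.prodMk (Continuous.prodMk (Continuous.prodMk (Continuous.prodMk ?_ ?_) ?_) ?_)
      ?_
    · refine chart_continuous.comp ?_
      refine continuous_pi fun i => ?_
      fin_cases i
      · refine Continuous.div (hR'.mul (by fun_prop)) (by fun_prop) fun x => ?_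
        have := abs_nonneg x.1
        positivity
      · refine Continuous.div (hR'.mul (by fun_prop)) (by fun_prop) fun x => ?_
        have := abs_nonneg x.2.1
        positivity
      · exact hP'
    · exact continuous_const.sub hR'
    · fun_prop
    · fun_prop
    · refine Continuous.mul (by fun_prop) (Circle.exp.continuous.comp ?_)
      exact (continuous_const.mul (continuous_const.add hP')).div_const 3
  · -- `φ` maps to the product
    intro u hu
    obtain ⟨p, t, θ, z, v, rfl⟩ := rd_exists hu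
    obtain ⟨⟨h0, h1, h2, h3, h4, h5⟩, h6, h7⟩ := rd_mem.1 hu
    rw [rdφ_chart]
    refine ⟨trivial, trivial, ?_, trivial, ?_⟩
    · change p 2 * (2 - t) / 2 ∈ Icc (-1 : ℝ) 1
      have := abs_le.1 h4
      constructor <;> nlinarith
    · change thetaZ z = ((v / θ * (Circle.exp (Real.pi * (1 + p 2) / 3))⁻¹ : Circle) : ℂ) ^ 3
      have h8 : (v / θ * (Circle.exp (Real.pi * (1 + p 2) / 3))⁻¹) ^ 3 =
          v ^ 3 * (tau ((chart p, t), θ))⁻¹ := by
        rw [mul_pow, inv_pow, rd_exp3, div_pow]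
        unfold tau
        rw [rd_tauN h1 h2 h3 h5, mul_inv, div_eq_mul_inv]
        change _ = v ^ 3 * ((Circle.exp (Real.pi * (1 + p 2)))⁻¹ * (θ ^ 3)⁻¹)
        rw [mul_assoc, mul_comm (θ ^ 3)⁻¹]
      have h9 : (tau ((chart p, t), θ) : ℂ) ≠ 0 := Circle.coe_ne_zero _
      rw [← Circle.coe_pow, h8, Circle.coe_mul, Circle.coe_pow, h7, Circle.coe_inv]
      field_simp
  · -- `ψ` maps to the stratum
    rintro ⟨y0, y1, s, θ, z, ζ⟩ ⟨-, -, hs, -, hz⟩
    change s ∈ Icc (-1 : ℝ) 1 at hs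
    change thetaZ z = (ζ : ℂ) ^ 3 at hz
    have hR1 := rdR_one s
    have hR2 := rdR_le hs
    have hR0 : 0 < rdR s := by linarith
    have hP := rdP_abs s
    have h5 := rdRP_or s
    have ha := rd_y_lt (y := y0) hR0
    have hb := rd_y_lt (y := y1) hR0
    refine (rd_mem (p := ![rdR s * y0 / (1 + |y0|), rdR s * y1 / (1 + |y1|), rdP s])).2
      ⟨⟨by linarith, by linarith, ?_, ?_, hP, h5⟩, ?_, ?_⟩
    · change |rdR s * y0 / (1 + |y0|)| < 2 - (2 - rdR s)
      linarith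
    · change |rdR s * y1 / (1 + |y1|)| < 2 - (2 - rdR s)
      linarith
    · change ‖thetaZ z‖ = 1
      rw [hz, norm_pow, Circle.norm_coe, one_pow]
    · have h8 : (ζ * θ * Circle.exp (Real.pi * (1 + rdP s) / 3)) ^ 3 =
          tau ((chart ![rdR s * y0 / (1 + |y0|), rdR s * y1 / (1 + |y1|), rdP s], 2 - rdR s), θ) *
            ζ ^ 3 := by
        unfold tau
        rw [rd_tauN (p := ![rdR s * y0 / (1 + |y0|), rdR s * y1 / (1 + |y1|), rdP s])
          (by linarith) (by change |rdR s * y0 / (1 + |y0|)| < 2 - (2 - rdR s); linarith)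
          (by change |rdR s * y1 / (1 + |y1|)| < 2 - (2 - rdR s); linarith) h5]
        rw [mul_pow, rd_exp3, mul_pow]
        change ζ ^ 3 * θ ^ 3 * Circle.exp (Real.pi * (1 + rdP s)) =
          Circle.exp (Real.pi * (1 + rdP s)) * θ ^ 3 * ζ ^ 3
        rw [mul_comm (ζ ^ 3) (θ ^ 3), mul_comm (θ ^ 3 * ζ ^ 3), mul_assoc]
      change ((ζ * θ * Circle.exp (Real.pi * (1 + rdP s) / 3) : Circle) : ℂ) ^ 3 = _
      rw [← Circle.coe_pow, h8, Circle.coe_mul, hz, Circle.coe_pow]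
  · -- `ψ (φ u) = u`
    intro u hu
    obtain ⟨p, t, θ, z, v, rfl⟩ := rd_exists hu
    obtain ⟨⟨h0, h1, h2, h3, h4, h5⟩, -, -⟩ := rd_mem.1 hu
    obtain ⟨e1, e2⟩ := rdR_eq h1 h4 h5
    rw [rdφ_chart]
    unfold rdψ
    dsimp only
    rw [e1, e2, rd_y h2, rd_y h3]
    have hp : (![p 0, p 1, p 2] : Fin 3 → ℝ) = p := by
      funext i
      fin_cases i <;> rfl
    rw [hp]
    refine Prod.ext (Prod.ext (Prod.ext (Prod.ext rfl ?_) rfl) rfl) ?_
    · change 2 - (2 - t) = t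
      ring
    · change v / θ * (Circle.exp (Real.pi * (1 + p 2) / 3))⁻¹ * θ *
        Circle.exp (Real.pi * (1 + p 2) / 3) = v
      rw [mul_right_comm (v / θ), div_mul_cancel, inv_mul_cancel_right]
  · -- `φ (ψ x) = x`
    rintro ⟨y0, y1, s, θ, z, ζ⟩ -
    have hR1 := rdR_one s
    have hR0 : 0 < rdR s := by linarith
    unfold rdψ
    rw [rdφ_chart]
    have e : 2 - (2 - rdR s) = rdR s := by ring
    refine Prod.ext ?_ (Prod.ext ?_ (Prod.ext ?_ (Prod.ext rfl (Prod.ext rfl ?_))))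
    · change rdR s * y0 / (1 + |y0|) / (2 - (2 - rdR s) - |rdR s * y0 / (1 + |y0|)|) = y0
      rw [e, rd_y' hR0]
    · change rdR s * y1 / (1 + |y1|) / (2 - (2 - rdR s) - |rdR s * y1 / (1 + |y1|)|) = y1
      rw [e, rd_y' hR0]
    · change rdP s * (2 - (2 - rdR s)) / 2 = s
      rw [e, rdRP]
    · change ζ * θ * Circle.exp (Real.pi * (1 + rdP s) / 3) / θ *
        (Circle.exp (Real.pi * (1 + rdP s) / 3))⁻¹ = ζ
      rw [mul_right_comm ζ θ, mul_div_cancel_right, mul_inv_cancel_right]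

theorem HcZ_rd : HcZ ((U3 ∩ BF) \ B1F) 2 := by
  obtain ⟨φ, ψ, h⟩ := rd_homeo
  have g : ∀ {X : Type} [MetricSpace X] [ProperSpace X] {C : Set X}, IsClosed C → Good IsCompact C := by
    intro X _ _ C hC
    have := good_locallyClosed C ∅ hC isClosed_empty
    rwa [sdiff_empty] at this
  have c1 : IsClosed (Icc (-1 : ℝ) 1 ×ˢ ((univ : Set Circle) ×ˢ Z3)) :=
    isClosed_Icc.prod (isClosed_univ.prod isClosed_Z3)
  have c2 : IsClosed ((univ : Set ℝ) ×ˢ (Icc (-1 : ℝ) 1 ×ˢ ((univ : Set Circle) ×ˢ Z3))) :=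
    isClosed_univ.prod c1
  have hid : SHomeo ((univ : Set ℝ) ×ˢ (Icc (-1 : ℝ) 1 ×ˢ ((univ : Set Circle) ×ˢ Z3)))
      ((univ : Set ℝ) ×ˢ (Icc (-1 : ℝ) 1 ×ˢ ((univ : Set Circle) ×ˢ Z3))) id id :=
    ⟨continuousOn_id, continuousOn_id, fun _ h => h, fun _ h => h, fun _ _ => rfl, fun _ _ => rfl⟩
  exact HcZ_line (g c2) h (HcZ_line (g c1) hid HcZ_IZ)

end Pool.Agent.Helper77.DS
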