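import Pool.Agent.Helper77.DS.RbA
import Pool.Agent.Helper77.DS.RdA

/-!
# DS-RbB: `T` is homotopic to the identity over the handle, and the kernel of `1 + T + T²`

`mb_homotopy`: `G m s = (((ν exp (-2 π i s), U), (θ, z)), ζ exp (2 π i s / 3))` preserves `MB`; `G m 0 = m`, `G m 1 = TB m`
(`exp (2 π i / 3) = om`). Supports: for compact `K ⊆ MB` the set of the `m` with `G m s ∈ K` for some `s ∈ [0, 1]` is the image
of `K × [0, 1]` under a continuous map. `SHomotopy.mem_coboundaries`; `MB` is closed in a proper space (`good_locallyClosed`).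
`rb_T`: transport by `rb_homeo` (`SHomeo.pull_cob` etc.).
`vpU`: `e3 TU f = f + T f + T² f` is a coboundary on `U3`, so on the closed subset `U3 ∩ B1F`, where `T f ~ f`, `T² f ~ f`; hence
`f = 3 f ~ 0` on `U3 ∩ B1F = (U3 ∩ BF) ∩ B1F`; `restr_cob` with `HcZ_rd`.
-/

namespace Pool.Agent.Helper77.DS

open Set Complex Helper36.AS

private theorem rbb_LD_eq : LD = {U : Fin 3 → ℝ | max |U 0| (max |U 1| |U 2|) = 1} \
    {U : Fin 3 → ℝ | U 2 < 0 ∧ |U 0| < 1 ∧ |U 1| < 1} := by
  ext U
  simp only [LD, mem_ofPred_eq, mem_sdiff]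
  refine and_congr_right fun h => not_congr ?_
  constructor
  · rintro ⟨h1, h2⟩
    exact ⟨by rw [h1]; norm_num, h2⟩
  · rintro ⟨h1, h2, h3⟩
    refine ⟨?_, h2, h3⟩
    have h4 : |U 2| = 1 := by
      rcases max_choice |U 0| (max |U 1| |U 2|) with h5 | h5
      · rw [h5] at h
        linarith
      · rw [h5] at h
        rcases max_choice |U 1| |U 2| with h6 | h6
        · rw [h6] at h
          linarith
        · rw [h6] at h
          exact h
    rw [abs_of_neg h1] at h4
    linarith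

private theorem rbb_LD_closed : IsClosed LD := by
  rw [rbb_LD_eq]
  apply IsClosed.sdiff
  · exact isClosed_eq (by fun_prop) continuous_const
  · have h1 : IsOpen {U : Fin 3 → ℝ | U 2 < 0} := isOpen_lt (by fun_prop) continuous_const
    have h2 : IsOpen {U : Fin 3 → ℝ | |U 0| < 1} := isOpen_lt (by fun_prop) continuous_const
    have h3 : IsOpen {U : Fin 3 → ℝ | |U 1| < 1} := isOpen_lt (by fun_prop) continuous_const
    exact h1.inter (h2.inter h3)

private theorem rbb_theta : Continuous thetaZ := by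
  unfold thetaZ
  fun_prop

private theorem rbb_Z_closed : IsClosed Z :=
  isClosed_eq (rbb_theta.norm) continuous_const

private theorem rbb_MB_closed : IsClosed MB := by
  have h1 : IsClosed {m : MT | m.1.1.2 ∈ LD} :=
    rbb_LD_closed.preimage (by fun_prop)
  have h2 : IsClosed {m : MT | m.1.2.2 ∈ Z} :=
    rbb_Z_closed.preimage (by fun_prop)
  have h3 : IsClosed {m : MT | (m.2 : ℂ) ^ 3 * (m.1.1.1 : ℂ) = (m.1.2.1 : ℂ) ^ 3 *
      thetaZ m.1.2.2} := by
    apply isClosed_eq
    · fun_prop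
    · have := rbb_theta.comp (f := fun m : MT => m.1.2.2) (by fun_prop)
      exact Continuous.mul (by fun_prop) this
  exact h1.inter (h2.inter h3)

private theorem rbb_good {X : Type*} [MetricSpace X] [ProperSpace X] {C : Set X}
    (hC : IsClosed C) : Good IsCompact C := by
  have h := good_locallyClosed C ∅ hC isClosed_empty
  rwa [sdiff_empty] at h

/-- the homotopy -/
private noncomputable def rbbG (m : MT) (s : ℝ) : MT :=
  (((m.1.1.1 * Circle.exp (-(2 * Real.pi * s)), m.1.1.2), m.1.2), m.2 * Circle.exp (2 * Real.pi / 3 * s))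

private theorem rbb_cont : Continuous (fun p : MT × ℝ => rbbG p.1 p.2) := by
  unfold rbbG
  fun_prop

private theorem rbb_mem {m : MT} (hm : m ∈ MB) (s : ℝ) : rbbG m s ∈ MB := by
  refine ⟨hm.1, hm.2.1, ?_⟩
  have h := hm.2.2
  show ((m.2 * Circle.exp (2 * Real.pi / 3 * s) : Circle) : ℂ) ^ 3 *
    ((m.1.1.1 * Circle.exp (-(2 * Real.pi * s)) : Circle) : ℂ) = (m.1.2.1 : ℂ) ^ 3 * thetaZ m.1.2.2
  rw [← h, Circle.coe_mul, Circle.coe_mul, Circle.coe_exp, Circle.coe_exp, mul_pow,
    ← Complex.exp_nat_mul]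
  have e : Complex.exp ((3 : ℕ) * (((2 * Real.pi / 3 * s : ℝ) : ℂ) * I)) *
      Complex.exp (((-(2 * Real.pi * s) : ℝ) : ℂ) * I) = 1 := by
    rw [← Complex.exp_add]
    have : ((3 : ℕ) * (((2 * Real.pi / 3 * s : ℝ) : ℂ) * I)) +
      (((-(2 * Real.pi * s) : ℝ) : ℂ) * I) = 0 := by
      push_cast
      ring
    rw [this, Complex.exp_zero]
  linear_combination ((m.2 : ℂ) ^ 3 * (m.1.1.1 : ℂ)) * e

private theorem rbb_inv (m : MT) (s : ℝ) : rbbG (rbbG m s) (-s) = m := by
  unfold rbbG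
  have h1 : m.1.1.1 * Circle.exp (-(2 * Real.pi * s)) * Circle.exp (-(2 * Real.pi * -s)) =
      m.1.1.1 := by
    rw [mul_assoc, ← Circle.exp_add]
    simp
  have h2 : m.2 * Circle.exp (2 * Real.pi / 3 * s) * Circle.exp (2 * Real.pi / 3 * -s) = m.2 := by
    rw [mul_assoc, ← Circle.exp_add]
    simp
  simp only [h1, h2]

private theorem rbb_zero (m : MT) : rbbG m 0 = m := by
  unfold rbbG
  simp

private theorem rbb_one (m : MT) : rbbG m 1 = TB m := by
  unfold rbbG TB om
  have h1 : Circle.exp (-(2 * Real.pi * 1)) = 1 := by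
    rw [mul_one, Circle.exp_neg, Circle.exp_two_pi, inv_one]
  rw [h1, mul_one, mul_one, mul_comm]

private theorem rbb_hom : SHomotopy IsCompact IsCompact MB MB rbbG where
  cont := rbb_cont.continuousOn
  maps x hx s _ := rbb_mem hx s
  supp K hK hKc _ := by
    have h1 : {x | x ∈ MB ∧ ∃ s ∈ Icc (0 : ℝ) 1, rbbG x s ∈ K} =
        (fun p : MT × ℝ => rbbG p.1 (-p.2)) '' (K ×ˢ Icc (0 : ℝ) 1) := by
      ext x
      constructor
      · rintro ⟨_, s, hs, hx⟩
        exact ⟨(rbbG x s, s), ⟨hx, hs⟩, rbb_inv x s⟩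
      · rintro ⟨⟨k, s⟩, ⟨hk, hs⟩, rfl⟩
        refine ⟨rbb_mem (hK hk) _, s, hs, ?_⟩
        have h2 := rbb_inv k (-s)
        rw [neg_neg] at h2
        show rbbG (rbbG k (-s)) s ∈ K
        rw [h2]
        exact hk
    rw [h1]
    apply (hKc.prod isCompact_Icc).image
    exact rbb_cont.comp (f := fun p : MT × ℝ => (p.1, -p.2)) (by fun_prop)

theorem mb_homotopy {f : List MT → ZMod 2} (hf : f ∈ cocycles (ZMod 2) IsCompact MB 2) :
    pull TB f - f ∈ coboundaries (ZMod 2) IsCompact MB 2 := by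
  have h := rbb_hom.mem_coboundaries (rbb_good rbb_MB_closed) hf
  have e1 : (fun x => rbbG x 1) = TB := funext rbb_one
  have e0 : (fun x : MT => rbbG x 0) = fun x => x := funext rbb_zero
  rw [e1, e0] at h
  have e2 : pull (fun x : MT => x) f = f := by
    funext l
    simp [pull]
  rwa [e2] at h

private theorem rbb_TU {u : UT} (hu : u ∈ U3 ∩ B1F) : TU u ∈ U3 ∩ B1F :=
  ⟨TU_mem_U3 hu.1, hu.2⟩

theorem rb_T {f : List UT → ZMod 2} (hf : f ∈ cocycles (ZMod 2) IsCompact (U3 ∩ B1F) 2) :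
    pull TU f - f ∈ coboundaries (ZMod 2) IsCompact (U3 ∩ B1F) 2 := by
  obtain ⟨φ, ψ, h, hφ⟩ := rb_homeo
  have h1 := h.symm.smap.pull_mem_cocycles hf
  have h2 := mb_homotopy h1
  have h3 := h.smap.pull_mem_coboundaries h2
  have h4 : (pull TU f - f) - pull φ (pull TB (pull ψ f) - pull ψ f) ∈
      coboundaries (ZMod 2) IsCompact (U3 ∩ B1F) 2 := by
    refine LZ.mem_coboundaries fun x _ => LZat.of_eq_zero x fun l _ hl => ?_
    have e1 : l.map TU = ((l.map φ).map TB).map ψ := by
      rw [List.map_map, List.map_map]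
      refine List.map_congr_left fun y hy => ?_
      show TU y = ψ (TB (φ y))
      rw [← hφ y (hl y hy), h.l _ (rbb_TU (hl y hy))]
    have e2 : (l.map φ).map ψ = l := by
      rw [List.map_map]
      conv_rhs => rw [← List.map_id l]
      exact List.map_congr_left fun y hy => h.l _ (hl y hy)
    show (f (l.map TU) - f l) - (f (((l.map φ).map TB).map ψ) - f ((l.map φ).map ψ)) = 0
    rw [e1, e2, sub_self]
  have h5 := add_mem h4 h3
  rwa [sub_add_cancel] at h5

theorem vpU {f : List UT → ZMod 2} (hf : f ∈ cocycles (ZMod 2) IsCompact U3 2)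
    (he : e3 TU f ∈ coboundaries (ZMod 2) IsCompact U3 2) :
    f ∈ coboundaries (ZMod 2) IsCompact (U3 ∩ BF) 2 := by
  have hid : ∀ g : List UT → ZMod 2, pull (fun x : UT => x) g = g := fun g => by
    funext l
    simp [pull]
  have hBF := (SMap.incl IsCompact U3 BF isClosed_BF).pull_mem_cocycles hf
  have hB1 := (SMap.incl IsCompact U3 B1F isClosed_B1F).pull_mem_cocycles hf
  have he1 := (SMap.incl IsCompact U3 B1F isClosed_B1F).pull_mem_coboundaries he
  rw [hid] at hBF hB1 he1
  have h1 := rb_T hB1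
  have h2 : pull TU f ∈ cocycles (ZMod 2) IsCompact (U3 ∩ B1F) 2 := by
    have := add_mem (coboundaries_le_cocycles IsCompact (U3 ∩ B1F) 2 h1) hB1
    rwa [sub_add_cancel] at this
  have h3 := rb_T h2
  have h4 : f ∈ coboundaries (ZMod 2) IsCompact (U3 ∩ B1F) 2 := by
    have h5 := sub_mem (sub_mem (sub_mem he1 h1) h1) h3
    have h6 : e3 TU f - (pull TU f - f) - (pull TU f - f) - (pull TU (pull TU f) - pull TU f) = f := by
      funext l
      simp only [e3, Pi.sub_apply, Pi.add_apply]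
      generalize f l = a
      generalize pull TU f l = b
      generalize pull TU (pull TU f) l = c
      have h7 : (2 : ZMod 2) = 0 := rfl
      linear_combination a * h7
    rwa [h6] at h5
  have hset : (U3 ∩ BF) ∩ B1F = U3 ∩ B1F := by
    ext u
    constructor
    · rintro ⟨⟨h, _⟩, h'⟩
      exact ⟨h, h'⟩
    · rintro ⟨h, h'⟩
      exact ⟨⟨h, h'.1⟩, h'⟩
  refine restr_cob isClosed_B1F (rbb_good (isClosed_U3.inter isClosed_BF)) HcZ_rd hBF ?_
  rw [hset]
  exact h4

end Pool.Agent.Helper77.DS
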