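import Pool.Agent.Helper77.DS.FinL
import Pool.Agent.Helper77.DS.ChB
import Pool.Agent.Helper77.DS.CjC
import Pool.Agent.Helper77.DS.EoB
import Pool.Agent.Helper77.DS.RbB

/-!
# Block C: the classes on `O3` and `U3`
-/

namespace Pool.Agent.Helper77.DS

open Set Complex Helper36.AS

theorem good_U3 : Good IsCompact U3 := by
  have := good_locallyClosed U3 ∅ isClosed_U3 isClosed_empty
  rwa [sdiff_empty] at this

theorem om_cube : om * (om * om) = 1 := by
  unfold om
  rw [← Circle.exp_add, ← Circle.exp_add]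
  have : 2 * Real.pi / 3 + (2 * Real.pi / 3 + 2 * Real.pi / 3) = 2 * Real.pi := by ring
  rw [this, Circle.exp_two_pi]

theorem TU3 (u : UT) : TU (TU (TU u)) = u := by
  unfold TU
  ext1
  · rfl
  · show om * (om * (om * u.2)) = u.2
    have h : om * (om * (om * u.2)) = om * (om * om) * u.2 := by simp only [mul_assoc]
    rw [h, om_cube, one_mul]

theorem TU_homeo {A : Set UT} (hA : ∀ u ∈ A, TU u ∈ A) : SHomeo A A TU (TU ∘ TU) where
  c₁ := TU_continuous.continuousOn
  c₂ := (TU_continuous.comp TU_continuous).continuousOn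
  m₁ := hA
  m₂ := fun _ hu => hA _ (hA _ hu)
  l := fun u _ => TU3 u
  r := fun u _ => TU3 u

theorem coc_congr {X : Type*} [TopologicalSpace X] {A : Set X} {n : ℕ} {f g : List X → ZMod 2}
    (h : LZ A (n + 1) (f - g)) (hf : f ∈ cocycles (ZMod 2) IsCompact A n) :
    g ∈ cocycles (ZMod 2) IsCompact A n := by
  have h1 : f - g ∈ cocycles (ZMod 2) IsCompact A n :=
    coboundaries_le_cocycles _ _ _ h.mem_coboundaries
  have := sub_mem hf h1
  rwa [sub_sub_cancel] at this

theorem LZ_of_eq {X : Type*} [TopologicalSpace X] {A : Set X} {m : ℕ} {f g : List X → ZMod 2}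
    (h : ∀ l : List X, l.length = m → f l = g l) : LZ A m (f - g) := fun x _ =>
  LZat.of_eq_zero x fun l hl _ => by rw [Pi.sub_apply, h l hl, sub_self]

theorem x1_eq (l : List UT) (h : l.length = 3) :
    prodc [pull cA (yc h1), pull c3 al] l = x1 l := by
  match l, h with
  | [a, b, c], _ => simp [x1, prodc, cup]

theorem x1_coc : x1 ∈ cocycles (ZMod 2) IsCompact O3 2 := by
  refine coc_congr (LZ_of_eq x1_eq) (prodc_mem (fs := [pull cA (yc h1), pull c3 al]) ?_ ?_)
  · intro f hf
    refine fs0_cocycle f ?_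
    simp only [fs0, List.mem_cons, List.mem_nil_iff, or_false] at hf ⊢
    tauto
  · obtain ⟨K, hK, hKc, h⟩ := exists_K
    refine ⟨K, hK, hKc, fun p hp hpK => ?_⟩
    rcases h p hp hpK with h | h
    · exact ⟨_, by simp, h⟩
    · exact ⟨_, by simp, h⟩

theorem fs0_eq (l : List UT) (h : l.length = 8) :
    cup 1 (pull cV k1) (cup 2 x1 (cup 2 x1 (pull TU x1))) l = prodc fs0 l := by
  match l, h with
  | [a, b, c, d, e, f, g, i], _ =>
    have e : ∀ u, cA (TU u) = cA u := fun _ => rfl
    simp only [cup, x1, fs0, prodc, pull, List.take, List.drop, List.map, c3_TU, mul_one, e,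
      mul_assoc]

/-- The 7-fold product on `O3`. -/
theorem prod_O3 : cup 1 (pull cV k1) (cup 2 x1 (cup 2 x1 (pull TU x1))) - prodc fs1 ∈
    coboundaries (ZMod 2) IsCompact O3 7 := by
  refine cob_congr (f := prodc fs0 - prodc fs1) ?_ fs0_fs1
  rw [sub_sub_sub_cancel_right]
  exact LZ_of_eq fun l hl => (fs0_eq l hl).symm

end Pool.Agent.Helper77.DS
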