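import Pool.Agent.Helper77.DS.FDefs
import Pool.Agent.Helper77.DS.ExA

/-!
# Block C: transport of ball cocycles
-/

namespace Pool.Agent.Helper77.DS

open Set Helper36.AS

section
variable {X Y : Type*} [TopologicalSpace X] [TopologicalSpace Y] {A : Set X} {B : Set Y}
  {φ : X → Y} {ψ : Y → X}

theorem SHomeo.push_coc (h : SHomeo A B φ ψ) {n : ℕ} {f : List X → ZMod 2}
    (hf : f ∈ cocycles (ZMod 2) IsCompact A n) : pull ψ f ∈ cocycles (ZMod 2) IsCompact B n :=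
  h.symm.smap.pull_mem_cocycles hf

theorem SHomeo.push_cob (h : SHomeo A B φ ψ) {n : ℕ} {f : List X → ZMod 2}
    (hf : f ∈ coboundaries (ZMod 2) IsCompact A n) :
    pull ψ f ∈ coboundaries (ZMod 2) IsCompact B n :=
  h.symm.smap.pull_mem_coboundaries hf

theorem SHomeo.trans {Z : Type*} [TopologicalSpace Z] {C : Set Z} {φ' : Y → Z} {ψ' : Z → Y}
    (h : SHomeo A B φ ψ) (h' : SHomeo B C φ' ψ') : SHomeo A C (φ' ∘ φ) (ψ ∘ ψ') where
  c₁ := h'.c₁.comp h.c₁ h.m₁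
  c₂ := h.c₂.comp h'.c₂ h'.m₂
  m₁ := h'.m₁.comp h.m₁
  m₂ := h.m₂.comp h'.m₂
  l := fun x hx => by simp only [Function.comp]; rw [h'.l _ (h.m₁ hx), h.l _ hx]
  r := fun x hx => by simp only [Function.comp]; rw [h.r _ (h'.m₂ hx), h'.r _ hx]

/-- Restriction of a homeomorphism to subsets which correspond to each other. -/
theorem SHomeo.restrict (h : SHomeo A B φ ψ) {A' : Set X} {B' : Set Y} (hA : A' ⊆ A) (hB : B' ⊆ B)
    (h1 : MapsTo φ A' B') (h2 : MapsTo ψ B' A') : SHomeo A' B' φ ψ where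
  c₁ := h.c₁.mono hA
  c₂ := h.c₂.mono hB
  m₁ := h1
  m₂ := h2
  l := fun x hx => h.l x (hA hx)
  r := fun x hx => h.r x (hB hx)

/-- Only the values at lists of points of the set matter. -/
theorem cob_congr {n : ℕ} {f g : List X → ZMod 2} (h : LZ A (n + 1) (f - g))
    (hf : f ∈ coboundaries (ZMod 2) IsCompact A n) :
    g ∈ coboundaries (ZMod 2) IsCompact A n := by
  have h1 : f - g ∈ coboundaries (ZMod 2) IsCompact A n := h.mem_coboundaries
  have := sub_mem hf h1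
  rwa [sub_sub_cancel] at this

theorem pull_map_eq {f : List X → ZMod 2} {m : ℕ} (α β : X → X) (h : EqOn α β A) :
    LZ A m (pull α f - pull β f) := fun x _ => LZat.of_eq_zero x fun l _ hl => by
  have : l.map α = l.map β := List.map_congr_left fun y hy => h (hl y hy)
  simp [pull, this]

theorem IsBall.homeo {m : ℕ} {f : List X → ZMod 2} (h : SHomeo A B φ ψ) (hf : IsBall A m f) :
    IsBall B m (pull ψ f) := by
  obtain ⟨hmem, W, j, ψ', hW, hj, ⟨K, hKA, hK, hKf⟩, hne⟩ := hf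
  obtain ⟨W', hW', hWW'⟩ := (continuousOn_iff'.1 h.c₂) W hW
  have hset : B ∩ W' = ψ ⁻¹' W ∩ B := by rw [inter_comm, ← hWW']
  refine ⟨h.push_coc hmem, W', φ ∘ j, ψ' ∘ ψ, hW', ?_, ⟨φ '' K, ?_, ?_, ?_⟩, ?_⟩
  · refine hj.trans (h.restrict inter_subset_left inter_subset_left ?_ ?_)
    · intro x hx
      have h1 : φ x ∈ ψ ⁻¹' W ∩ B := ⟨by
        show ψ (φ x) ∈ W
        rw [h.l x hx.1]; exact hx.2, h.m₁ hx.1⟩
      rwa [← hset] at h1
    · intro y hy
      rw [hset] at hy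
      exact ⟨h.m₂ hy.2, hy.1⟩
  · rintro _ ⟨x, hx, rfl⟩
    have hx' := hKA hx
    rw [hset]
    refine ⟨?_, h.m₁ hx'.1⟩
    show ψ (φ x) ∈ W
    rw [h.l x hx'.1]; exact hx'.2
  · exact hK.image_of_continuousOn (h.c₁.mono fun x hx => (hKA hx).1)
  · intro y hy hy'
    have h1 : ψ y ∉ K := fun hk => hy' ⟨ψ y, hk, h.r y hy⟩
    exact (hKf (ψ y) (h.m₂ hy) h1).pull (h.c₂ y hy) h.m₂
  · intro hc
    refine hne (cob_congr (fun x _ => LZat.of_eq_zero x fun l _ _ => ?_) hc)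
    have : (l.map (φ ∘ j)).map ψ = l.map j := by
      rw [List.map_map]
      refine List.map_congr_left fun y _ => ?_
      exact h.l (j y) (hj.m₁ (mem_univ y)).1
    simp only [Pi.sub_apply, pull]
    rw [this, sub_self]

end

section
variable {E : Type*} [MetricSpace E] {X F : Set E}

theorem IsBall.ext {m : ℕ} {f' f : List E → ZMod 2} (hF : IsClosed F) (h : IsExt X F m f' f)
    (hf : IsBall (X \ F) m f') : IsBall X m f := by
  obtain ⟨hmem, W, j, ψ', hW, hj, ⟨K, hKA, hK, hKf⟩, hne⟩ := hf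
  have hset : X ∩ (W ∩ Fᶜ) = (X \ F) ∩ W := by
    ext x; simp only [mem_inter_iff, mem_compl_iff, mem_sdiff]; tauto
  refine ⟨h.mem, W ∩ Fᶜ, j, ψ', hW.inter hF.isOpen_compl, ?_, ⟨K, ?_, hK, ?_⟩, ?_⟩
  · rw [hset]; exact hj
  · rw [hset]; exact hKA
  · intro x hx hxK
    by_cases hxF : x ∈ F
    · exact h.zero x ⟨hx, hxF⟩
    · have h1 := h.eq x ⟨hx, hxF⟩
      have h2 := (LZat_sdiff_iff hF hxF).1 (hKf x ⟨hx, hxF⟩ hxK)
      have := h1.add h2
      rwa [sub_add_cancel] at this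
  · intro hc
    refine hne (cob_congr (f := pull j f) (g := pull j f') ?_ hc)
    rw [← pull_sub]
    intro x hx
    have h3 := (hj.m₁ hx).1
    exact ((h.eq (j x) h3).mono sdiff_subset).pull (hj.c₁ x hx) fun y hy => (hj.m₁ hy).1

end

end Pool.Agent.Helper77.DS
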