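import Pool.Agent.Helper77.DS.CDefs
import Pool.Agent.Helper36.AS.Homotopy

/-!
# DS-HzA: homeomorphic subsets and vanishing of `Hc` by strata

* `SHomeo.smap`: for compact `K ⊆ B` the set `A ∩ φ⁻¹ K = ψ '' K` is compact.
* `SHomeo.pull_cob`: `f` cocycle on `B` with `pull φ f` a coboundary on `A` is a coboundary on `B` (apply
  `pull_mem_coboundaries` of the other map and `pull ψ (pull φ f) = f` on lists of points of `B`).
* `HcZ_of_homeo`: follows.
* `HcZ_strat`, `restr_cob`: `incl_eq_zero_iff_ext`, `incl_cls` (`AS/Pair.lean`): a class on `T` whose restriction to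
  `T ∩ F` is zero comes from `Hc (T \ F)`.
* `good_locallyClosed`: `T = C ∩ W` with `C` closed, `W` open; for compact `K ⊆ T` take (proper space) a compact
  neighbourhood `L'` of `K` with `L' ⊆ W`: `L = L' ∩ C`, `V = interior L'`.
-/

namespace Pool.Agent.Helper77.DS

open Set Helper36.AS

section
variable {X Y : Type*} [TopologicalSpace X] [TopologicalSpace Y] {A : Set X} {B : Set Y}
  {φ : X → Y} {ψ : Y → X}

theorem SHomeo.symm (h : SHomeo A B φ ψ) : SHomeo B A ψ φ := ⟨h.c₂, h.c₁, h.m₂, h.m₁, h.r, h.l⟩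

theorem SHomeo.smap (h : SHomeo A B φ ψ) : SMap IsCompact IsCompact A B φ := by
  refine ⟨h.c₁, h.m₁, fun K hK hKc => ?_⟩
  have h1 : A ∩ φ ⁻¹' K = ψ '' K := by
    ext x
    constructor
    · rintro ⟨hx, hx'⟩
      exact ⟨φ x, hx', h.l x hx⟩
    · rintro ⟨y, hy, rfl⟩
      refine ⟨h.m₂ (hK hy), ?_⟩
      rw [mem_preimage, h.r y (hK hy)]
      exact hy
  rw [h1]
  exact hKc.image_of_continuousOn (h.c₂.mono hK)

theorem SHomeo.pull_cob (h : SHomeo A B φ ψ) {n : ℕ} {f : List Y → ZMod 2}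
    (hf : f ∈ cocycles (ZMod 2) IsCompact B n)
    (h' : pull φ f ∈ coboundaries (ZMod 2) IsCompact A n) :
    f ∈ coboundaries (ZMod 2) IsCompact B n := by
  have h1 : pull ψ (pull φ f) ∈ coboundaries (ZMod 2) IsCompact B n :=
    h.symm.smap.pull_mem_coboundaries h'
  have h2 : f - pull ψ (pull φ f) ∈ coboundaries (ZMod 2) IsCompact B n := by
    refine LZ.mem_coboundaries fun x _ => LZat.of_eq_zero x fun l _ hl => ?_
    have h3 : (l.map ψ).map φ = l := by
      rw [List.map_map]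
      conv_rhs => rw [← List.map_id l]
      exact List.map_congr_left fun y hy => h.r y (hl y hy)
    simp [pull, h3]
  have h3 := add_mem h2 h1
  rwa [sub_add_cancel] at h3

theorem HcZ_iff {n : ℕ} : HcZ A n ↔ ∀ f ∈ cocycles (ZMod 2) IsCompact A n,
    f ∈ coboundaries (ZMod 2) IsCompact A n := by
  constructor
  · intro h f hf
    exact cls_eq_zero_iff.1 (h (cls f hf))
  · intro h α
    obtain ⟨f, hf, rfl⟩ := cls_surj α
    exact cls_eq_zero_iff.2 (h f hf)

theorem HcZ_of_homeo (h : SHomeo A B φ ψ) {n : ℕ} (hB : HcZ B n) : HcZ A n := by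
  rw [HcZ_iff] at hB ⊢
  intro f hf
  exact h.symm.pull_cob hf (hB _ (h.symm.smap.pull_mem_cocycles hf))

end

section
variable {X : Type*} [MetricSpace X] {A F : Set X}

/-- Locally closed subsets of proper spaces. -/
theorem good_locallyClosed [ProperSpace X] (C G : Set X) (hC : IsClosed C) (hG : IsClosed G) :
    Good IsCompact (C \ G) := by
  intro K hK hKc _
  obtain ⟨L, hL, hKL, hLG⟩ := exists_compact_between hKc hG.isOpen_compl fun x hx => (hK hx).2
  refine ⟨interior L, isOpen_interior, hKL, L ∩ C, ?_, hL.inter_right hC, ?_, ?_⟩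
  · exact fun x hx => ⟨hx.2, hLG hx.1⟩
  · exact fun x hx => ⟨interior_subset hx.1, hx.2.1⟩
  · rw [(hL.inter_right hC).isClosed.closure_eq]
    exact inter_subset_left

theorem restr_cob (hF : IsClosed F) (hA : Good IsCompact A) {n : ℕ} (h : HcZ (A \ F) n)
    {f : List X → ZMod 2} (hf : f ∈ cocycles (ZMod 2) IsCompact A n)
    (h' : f ∈ coboundaries (ZMod 2) IsCompact (A ∩ F) n) :
    f ∈ coboundaries (ZMod 2) IsCompact A n := by
  have h1 : (SMap.incl IsCompact A F hF).map (ZMod 2) n (cls f hf) = 0 := by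
    rw [incl_cls hF, cls_eq_zero_iff]
    exact h'
  obtain ⟨β, hβ⟩ := (incl_eq_zero_iff_ext hF hA _).1 h1
  rw [h β, map_zero] at hβ
  exact cls_eq_zero_iff.1 hβ.symm

theorem HcZ_strat (hF : IsClosed F) (hA : Good IsCompact A) {n : ℕ} (h : HcZ (A \ F) n)
    (h' : HcZ (A ∩ F) n) : HcZ A n := by
  rw [HcZ_iff]
  intro f hf
  exact restr_cob hF hA h hf
    (HcZ_iff.1 h' f (restr_mem_cocycles hF hf.1 fun x hx => hf.2 x hx.1))

end

end Pool.Agent.Helper77.DS
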