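import Pool.Agent.Helper77.DS.DDefs
import Pool.Agent.Helper36.AS.Line

/-!
# DS-HzB: sets of the form line times `B` (uses `Helper36/AS/Line.lean` when it is on main)

`AS/Line.lean`: for `B` with `Good IsCompact B`: (a) `Hc R (univ ×ˢ B) 0 = 0`; (b) every class of degree `n + 1` is the class
of `cup 1 (d st) (pull Prod.snd f)`, `f ∈ cocycles R IsCompact B n`, `st [p] = if 0 < p.1 then 1 else 0`; (c) it is zero only
if `cls f = 0`. Transport along the homeomorphism with `HcZ_of_homeo`.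
-/

namespace Pool.Agent.Helper77.DS

open Set Helper36.AS

variable {X Y : Type*} [MetricSpace X] [MetricSpace Y] {A : Set X} {B : Set Y}
  {φ : X → ℝ × Y} {ψ : ℝ × Y → X}

private theorem hzb_lcpt (hB : Good IsCompact B) : LCpt B := by
  intro x hx
  obtain ⟨V, hV, hxV, L, hL, hLc, hVL, -⟩ := hB {x} (singleton_subset_iff.2 hx)
    isCompact_singleton (by rw [closure_singleton]; exact inter_subset_left)
  exact ⟨V, hV.mem_nhds (singleton_subset_iff.1 hxV), L, hL, hLc, hVL⟩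

theorem HcZ_line0 (hB : Good IsCompact B) (h : SHomeo A ((univ : Set ℝ) ×ˢ B) φ ψ) : HcZ A 0 := by
  refine HcZ_of_homeo h ?_
  intro α
  have := line_zero (R := ZMod 2) (hzb_lcpt hB)
  exact Subsingleton.elim _ _

theorem HcZ_line (hB : Good IsCompact B) (h : SHomeo A ((univ : Set ℝ) ×ˢ B) φ ψ) {n : ℕ}
    (h' : HcZ B n) : HcZ A (n + 1) := by
  refine HcZ_of_homeo h ?_
  intro α
  have hB' := hzb_lcpt hB
  obtain ⟨f, hf, rfl⟩ := line_surj hB' α
  have h1 : f ∈ coboundaries (ZMod 2) IsCompact B n := cls_eq_zero_iff.1 (h' (cls f hf))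
  have hc : Continuous fun y : Y => ((0 : ℝ), y) := by fun_prop
  have hm : SMap IsCompact IsCompact ((Iic (0 : ℝ) ×ˢ B) ∩ (Ici (0 : ℝ) ×ˢ B)) B
      (Prod.snd : ℝ × Y → Y) := by
    refine SMap.of_homeo (ψ := fun y => ((0 : ℝ), y)) continuous_snd.continuousOn
      (fun p hp => hp.1.2) hc.continuousOn
      (fun y hy => ⟨⟨le_refl (0 : ℝ), hy⟩, ⟨le_refl (0 : ℝ), hy⟩⟩) ?_
    intro p hp
    have h0 : p.1 = 0 := le_antisymm hp.1.1 hp.2.1
    exact Prod.ext h0.symm rfl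
  have h2 := hm.pull_mem_coboundaries h1
  have h3 : (cls _ (mid_mem hf) :
      Hc (ZMod 2) ((Iic (0 : ℝ) ×ˢ B) ∩ (Ici (0 : ℝ) ×ˢ B)) n) = 0 := cls_eq_zero_iff.2 h2
  rw [← line_delta hB' hf, h3, map_zero]

end Pool.Agent.Helper77.DS
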