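import Pool.Agent.Helper77.DS.DDefs

/-!
# DS-SrA: the complement of a star shaped closed set is homeomorphic to the space

`K` closed, `0 ∉ K`, `t K ⊆ K` for `t ≥ 1`. Let `δ x = infDist x K` (`K` non empty; if `K = ∅` take the identity)
and `φ x = (1 + 1 / δ x) • x` on `Kᶜ`. For `x ≠ 0` in `Kᶜ` the ray `t ↦ t x` is in `Kᶜ` for `0 ≤ t < t₀(x)`,
`t₀ ∈ (1, ∞]`; since `K ⊇ t K` for `t ≥ 1` one has `δ (t x) ≤ t δ x` for `t ≥ 1`, so `‖x‖ / δ x` is
non-decreasing along rays and `t ↦ ‖φ (t x)‖ = t ‖x‖ + t ‖x‖ / δ (t x)` is strictly increasing,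
continuous, `0` at `0` and tends to `∞` at `t₀` (either `t → ∞` or `δ → 0` while `t ‖x‖` stays bounded below).
So `φ : Kᶜ → E` is bijective. Continuity of the inverse: if `φ (xₙ) → φ x` then `‖xₙ‖ ≤ ‖φ xₙ‖` is bounded;
`E` is proper, so a subsequence converges to some `x'`; `x' ∉ K` (else `δ xₙ → 0`, `‖xₙ‖` bounded below
since `0 ∉ K`, and `‖φ xₙ‖ → ∞`), so `φ x' = φ x` and `x' = x`.
-/

namespace Pool.Agent.Helper77.DS

open Set Helper36.AS

open scoped Topology

private theorem dl_smul {E : Type*} [NormedAddCommGroup E] [NormedSpace ℝ E] {K : Set E}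
    (hne : K.Nonempty) (hs : ∀ t : ℝ, 1 ≤ t → ∀ x ∈ K, t • x ∈ K) {t : ℝ} (ht : 1 ≤ t) (x : E) :
    Metric.infDist (t • x) K ≤ t * Metric.infDist x K := by
  by_contra hcon
  push Not at hcon
  have htp : 0 < t := by linarith
  have h1 : Metric.infDist x K < Metric.infDist (t • x) K / t := by
    rw [lt_div_iff₀ htp]; linarith
  obtain ⟨y, hy, hxy⟩ := (Metric.infDist_lt_iff hne).mp h1
  rw [lt_div_iff₀ htp] at hxy
  have h2 : Metric.infDist (t • x) K ≤ dist (t • x) (t • y) :=
    Metric.infDist_le_dist_of_mem (hs t ht y hy)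
  rw [dist_smul₀, Real.norm_eq_abs, abs_of_pos htp] at h2
  linarith

private theorem ph_inj {E : Type*} [NormedAddCommGroup E] [NormedSpace ℝ E] {K : Set E}
    (hne : K.Nonempty) (hK : IsClosed K) (hs : ∀ t : ℝ, 1 ≤ t → ∀ x ∈ K, t • x ∈ K) {x x' : E}
    (hx : x ∉ K) (hx' : x' ∉ K)
    (h : (1 + 1 / Metric.infDist x K) • x = (1 + 1 / Metric.infDist x' K) • x') : x = x' := by
  have hd : 0 < Metric.infDist x K := (hK.notMem_iff_infDist_pos hne).mp hx
  have hd' : 0 < Metric.infDist x' K := (hK.notMem_iff_infDist_pos hne).mp hx'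
  have key : ∀ {u v : E}, 0 < Metric.infDist u K → 0 < Metric.infDist v K →
      (1 + 1 / Metric.infDist u K) • u = (1 + 1 / Metric.infDist v K) • v →
      (1 + 1 / Metric.infDist v K) ≤ (1 + 1 / Metric.infDist u K) → u = v := by
    intro u v hu hv huv hle
    have pv : 0 < 1 + 1 / Metric.infDist v K := by positivity
    set c : ℝ := (1 + 1 / Metric.infDist u K) / (1 + 1 / Metric.infDist v K) with hc
    have hc1 : 1 ≤ c := by
      rw [hc, le_div_iff₀ pv]; linarith
    have hvc : v = c • u := by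
      have : v = (1 + 1 / Metric.infDist v K)⁻¹ • ((1 + 1 / Metric.infDist v K) • v) := by
        rw [smul_smul, inv_mul_cancel₀ pv.ne', one_smul]
      rw [this, ← huv, smul_smul, hc]
      congr 1
      rw [div_eq_inv_mul (1 + 1 / Metric.infDist u K)]
    have h1 : Metric.infDist v K ≤ c * Metric.infDist u K := by
      conv_lhs => rw [hvc]
      exact dl_smul hne hs hc1 u
    have h2 : c * (1 + 1 / Metric.infDist v K) = 1 + 1 / Metric.infDist u K := by
      rw [hc]; field_simp
    have h3 : 1 / Metric.infDist u K ≤ c * (1 / Metric.infDist v K) := by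
      rw [mul_one_div, div_le_div_iff₀ hu hv]
      linarith
    have h4 : c ≤ 1 := by nlinarith
    have h5 : c = 1 := le_antisymm h4 hc1
    rw [hvc, h5, one_smul]
  rcases le_total (1 + 1 / Metric.infDist x' K) (1 + 1 / Metric.infDist x K) with hle | hle
  · exact key hd hd' h hle
  · exact (key hd' hd h.symm hle).symm

private theorem ph_surj {E : Type*} [NormedAddCommGroup E] [NormedSpace ℝ E] {K : Set E}
    (hne : K.Nonempty) (hK : IsClosed K) (h0 : (0 : E) ∉ K) (y : E) :
    ∃ x : E, x ∉ K ∧ ‖x‖ ≤ ‖y‖ ∧ (1 + 1 / Metric.infDist x K) • x = y := by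
  have hd0 : 0 < Metric.infDist (0 : E) K := (hK.notMem_iff_infDist_pos hne).mp h0
  set h : ℝ → ℝ := fun s => s * (Metric.infDist (s • y) K + 1) - Metric.infDist (s • y) K with hh
  have hcδ : Continuous fun s : ℝ => Metric.infDist (s • y) K :=
    (Metric.continuous_infDist_pt K).comp (by fun_prop)
  have hc : Continuous h := (continuous_id.mul (hcδ.add continuous_const)).sub hcδ
  have e0 : h 0 < 0 := by simp only [hh, zero_smul, zero_mul]; linarith
  have e1 : h 1 = 1 := by simp only [hh, one_smul]; ring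
  have hiv : (0 : ℝ) ∈ h '' Icc 0 1 := by
    apply intermediate_value_Icc (by norm_num) hc.continuousOn
    exact ⟨e0.le, by rw [e1]; norm_num⟩
  obtain ⟨s, ⟨hs0, hs1⟩, hs⟩ := hiv
  have hsp : 0 < s := by
    rcases hs0.lt_or_eq with h' | h'
    · exact h'
    · exfalso; rw [← h'] at hs; linarith
  have hs' : s * (Metric.infDist (s • y) K + 1) = Metric.infDist (s • y) K := by
    simp only [hh] at hs; linarith
  have hδ : 0 < Metric.infDist (s • y) K := by
    have h1 : 0 ≤ Metric.infDist (s • y) K := Metric.infDist_nonneg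
    nlinarith
  refine ⟨s • y, (hK.notMem_iff_infDist_pos hne).mpr hδ, ?_, ?_⟩
  · rw [norm_smul, Real.norm_eq_abs, abs_of_pos hsp]
    nlinarith [norm_nonneg y]
  · rw [smul_smul]
    have : (1 + 1 / Metric.infDist (s • y) K) * s = 1 := by
      field_simp
      linarith
    rw [this, one_smul]

theorem star_homeo {E : Type*} [NormedAddCommGroup E] [NormedSpace ℝ E] [ProperSpace E] (K : Set E)
    (hK : IsClosed K) (h0 : (0 : E) ∉ K) (hs : ∀ t : ℝ, 1 ≤ t → ∀ x ∈ K, t • x ∈ K) :
    ∃ φ ψ : E → E, SHomeo Kᶜ univ φ ψ := by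
  classical
  rcases K.eq_empty_or_nonempty with he | hne
  · subst he
    exact ⟨id, id, continuousOn_id, continuousOn_id, fun x _ => mem_univ _,
      fun x _ => by simp, fun x _ => rfl, fun x _ => rfl⟩
  choose ψ hψ1 hψ2 hψ3 using fun y : E => ph_surj hne hK h0 y
  set φ : E → E := fun x => (1 + 1 / Metric.infDist x K) • x with hφ
  have hpos : ∀ x ∉ K, 0 < Metric.infDist x K := fun x hx =>
    (hK.notMem_iff_infDist_pos hne).mp hx
  have hleft : ∀ x ∈ Kᶜ, ψ (φ x) = x := by
    intro x hx
    exact ph_inj hne hK hs (hψ1 _) hx (hψ3 (φ x))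
  have hgraph : IsClosed {p : E × E |
      (Metric.infDist p.2 K) • p.1 = (Metric.infDist p.2 K + 1) • p.2} := by
    have hc : Continuous fun p : E × E => Metric.infDist p.2 K :=
      (Metric.continuous_infDist_pt K).comp continuous_snd
    exact isClosed_eq (hc.smul continuous_fst) ((hc.add continuous_const).smul continuous_snd)
  have hg1 : ∀ y : E, (Metric.infDist (ψ y) K) • y = (Metric.infDist (ψ y) K + 1) • ψ y := by
    intro y
    have hp := hpos _ (hψ1 y)
    have h3 : Metric.infDist (ψ y) K • ((1 + 1 / Metric.infDist (ψ y) K) • ψ y) =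
        (Metric.infDist (ψ y) K + 1) • ψ y := by
      rw [smul_smul]
      congr 1
      field_simp
    rw [hψ3 y] at h3
    exact h3
  have hg2 : ∀ y x : E, (Metric.infDist x K) • y = (Metric.infDist x K + 1) • x → ψ y = x := by
    intro y x h
    have hx : x ∉ K := by
      intro hx
      rw [Metric.infDist_zero_of_mem hx, zero_smul, zero_add, one_smul] at h
      rw [← h] at hx
      exact h0 hx
    have hp := hpos x hx
    have : φ x = y := by
      have h' : y = (Metric.infDist x K)⁻¹ • ((Metric.infDist x K + 1) • x) := by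
        rw [← h, smul_smul, inv_mul_cancel₀ hp.ne', one_smul]
      rw [h', smul_smul, hφ]
      simp only
      congr 1
      field_simp
    rw [← this]
    exact hleft x hx
  refine ⟨φ, ψ, ?_, ?_, fun x _ => mem_univ _, fun y _ => hψ1 y, hleft, fun y _ => hψ3 y⟩
  · refine ContinuousOn.smul ?_ continuousOn_id
    refine continuousOn_const.add ?_
    refine continuousOn_const.div (Metric.continuous_infDist_pt K).continuousOn ?_
    intro x hx
    exact (hpos x hx).ne'
  · refine Continuous.continuousOn ?_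
    rw [continuous_iff_continuousAt]
    intro y
    rw [ContinuousAt, Filter.tendsto_iff_ultrafilter]
    intro g hg
    have hcpt : IsCompact (Metric.closedBall (0 : E) (‖y‖ + 1)) := isCompact_closedBall _ _
    have hmem : ∀ᶠ z in (g : Filter E), ‖z‖ ≤ ‖y‖ + 1 := by
      have h1 : ∀ᶠ z in 𝓝 y, ‖z‖ < ‖y‖ + 1 :=
        (continuous_norm.tendsto y).eventually (gt_mem_nhds (by linarith))
      exact hg (h1.mono fun z hz => le_of_lt hz)
    have hle : (g.map ψ : Filter E) ≤ Filter.principal (Metric.closedBall (0 : E) (‖y‖ + 1)) := by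
      rw [Filter.le_principal_iff, Ultrafilter.coe_map, Filter.mem_map]
      filter_upwards [hmem] with z hz
      rw [mem_preimage, mem_closedBall_zero_iff]
      exact (hψ2 z).trans hz
    obtain ⟨x, -, hx⟩ := hcpt.ultrafilter_le_nhds (g.map ψ) hle
    have ht1 : Filter.Tendsto (fun z => (z, ψ z)) (g : Filter E) (𝓝 (y, x)) := by
      have hid : Filter.Tendsto (fun z : E => z) (g : Filter E) (𝓝 y) := hg
      have hps : Filter.Tendsto ψ (g : Filter E) (𝓝 x) := hx
      exact hid.prodMk_nhds hps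
    have hin : (y, x) ∈ {p : E × E |
        (Metric.infDist p.2 K) • p.1 = (Metric.infDist p.2 K + 1) • p.2} :=
      hgraph.mem_of_tendsto ht1 (Filter.Eventually.of_forall fun z => hg1 z)
    have hxy : ψ y = x := hg2 y x hin
    rw [hxy]
    exact hx

theorem KK_homeo : ∃ φ : ℂ → ℝ × ℝ, ∃ ψ : ℝ × ℝ → ℂ, SHomeo KKᶜ univ φ ψ := by
  have hcl : IsClosed KK := by
    unfold KK
    have h1 : IsClosed {v : ℂ | (v ^ 3).im = 0} :=
      isClosed_eq (Complex.continuous_im.comp (continuous_pow 3)) continuous_const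
    have h2 : IsClosed {v : ℂ | 2 ≤ (v ^ 3).re} :=
      isClosed_le continuous_const (Complex.continuous_re.comp (continuous_pow 3))
    exact h1.inter h2
  have h0 : (0 : ℂ) ∉ KK := by
    rintro ⟨-, h⟩
    norm_num at h
  have hs : ∀ t : ℝ, 1 ≤ t → ∀ x ∈ KK, t • x ∈ KK := by
    rintro t ht x ⟨h1, h2⟩
    have e : (t • x) ^ 3 = ((t ^ 3 : ℝ) : ℂ) * x ^ 3 := by
      rw [Complex.real_smul, mul_pow, Complex.ofReal_pow]
    refine ⟨?_, ?_⟩
    · rw [e, Complex.im_ofReal_mul, h1, mul_zero]
    · rw [e, Complex.re_ofReal_mul]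
      have : (1 : ℝ) ≤ t ^ 3 := one_le_pow₀ ht
      nlinarith
  obtain ⟨φ, ψ, h⟩ := star_homeo KK hcl h0 hs
  refine ⟨fun v => Complex.equivRealProdCLM (φ v), fun p => ψ (Complex.equivRealProdCLM.symm p),
    ?_, ?_, ?_, ?_, ?_, ?_⟩
  · exact Complex.equivRealProdCLM.continuous.comp_continuousOn h.c₁
  · exact h.c₂.comp Complex.equivRealProdCLM.symm.continuous.continuousOn fun _ _ => mem_univ _
  · exact fun _ _ => mem_univ _
  · exact fun p _ => h.m₂ (mem_univ _)
  · intro x hx
    simp only [ContinuousLinearEquiv.symm_apply_apply]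
    exact h.l x hx
  · intro p _
    simp only [h.r _ (mem_univ _), ContinuousLinearEquiv.apply_symm_apply]

end Pool.Agent.Helper77.DS
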