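import Pool.Agent.Helper77.DS.HzB
import Pool.Agent.Helper77.DS.SrA
import Pool.Agent.Helper77.DS.ZsA

/-!
# DS-HzC: vanishing of `Hc⁰` of the pieces of `Z3`

All sets are differences of closed sets in proper spaces, so `good_locallyClosed` applies.
`HcZ_TP`: the closed subset `T₁ = {ρ | ρ ≥ 0} ∪ {ρ ω | ρ ≥ 0}` of `TP` is homeomorphic to `ℝ` (`t ↦ t` for `t ≥ 0`,
`t ↦ -t ω` for `t ≤ 0`), i.e. to `univ ×ˢ {()}`, and `TP \ T₁ = {ρ ω² | ρ > 0} ≅ ℝ`; `HcZ_line0` and `HcZ_strat`.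
`HcZ_KKc`: `KKᶜ ≅ ℝ × ℝ` (`KK_homeo`).
`HcZ_FF`: strata `FF ∩ XG ≅ TP` and `FF \ XG ≅ KKᶜ`.
`HcZ_Z3`: strata `Z3 ∩ {ζ = 1} = FF` and `Z3 \ {ζ = 1} ≅ ℝ × FF`.
`HcZ_CZ`: `S¹ × Z3`: strata `θ = 1` (`≅ Z3`) and `θ ≠ 1` (`≅ ℝ × Z3`, `S¹ \ {1} ≅ ℝ`).
`HcZ_IZ`: `[-1, 1] × (S¹ × Z3)`: strata `s = -1`, `s = 1`, `-1 < s < 1`.
-/

namespace Pool.Agent.Helper77.DS

open Set Complex Helper36.AS

namespace HzCaux

theorem good_closed {X : Type*} [MetricSpace X] [ProperSpace X] {C : Set X} (hC : IsClosed C) :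
    Good IsCompact C := by
  have h := good_locallyClosed C ∅ hC isClosed_empty
  rwa [sdiff_empty] at h

theorem mem_TP (y : ℂ) :
    y ∈ TP ↔ (y.im = 0 ∧ 0 ≤ y.re) ∨ (y.im ^ 2 = 3 * y.re ^ 2 ∧ y.re ≤ 0) := by
  have h1 : (y ^ 3).im = y.im * (3 * y.re ^ 2 - y.im ^ 2) := by
    simp [pow_succ]
    ring
  have h2 : (y ^ 3).re = y.re * (y.re ^ 2 - 3 * y.im ^ 2) := by
    simp [pow_succ]
    ring
  unfold TP
  rw [mem_ofPred_eq, h1, h2]
  constructor
  · rintro ⟨h3, h4⟩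
    rcases mul_eq_zero.1 h3 with h5 | h5
    · left
      refine ⟨h5, ?_⟩
      rw [h5] at h4
      by_contra hneg
      push Not at hneg
      have : y.re * (y.re ^ 2 - 3 * 0 ^ 2) < 0 := by
        have h7 : y.re ≠ 0 := hneg.ne
        have h6 : 0 < y.re ^ 2 := by positivity
        nlinarith
      linarith
    · right
      have h6 : y.im ^ 2 = 3 * y.re ^ 2 := by linarith
      refine ⟨h6, ?_⟩
      rw [h6] at h4
      by_contra hpos
      push Not at hpos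
      have h7 : 0 < y.re ^ 2 := by positivity
      nlinarith
  · rintro (⟨h3, h4⟩ | ⟨h3, h4⟩)
    · rw [h3]
      refine ⟨by ring, ?_⟩
      have : 0 ≤ y.re ^ 2 := by positivity
      have h5 := mul_nonneg h4 this
      linarith
    · rw [h3]
      refine ⟨by ring, ?_⟩
      have : 0 ≤ y.re ^ 2 := by positivity
      nlinarith

theorem isClosed_TP : IsClosed TP := by
  have h : TP = {y : ℂ | (y ^ 3).im = 0} ∩ {y : ℂ | 0 ≤ (y ^ 3).re} := rfl
  rw [h]
  exact (isClosed_eq (by fun_prop) (by fun_prop)).inter (isClosed_le (by fun_prop) (by fun_prop))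

theorem homeo1 : SHomeo (TP ∩ {y : ℂ | 0 ≤ y.im}) ((univ : Set ℝ) ×ˢ (univ : Set Unit))
    (fun y : ℂ => (y.re, ())) (fun p : ℝ × Unit => (⟨p.1, √3 * max (-p.1) 0⟩ : ℂ)) := by
  have h3 : (√3 : ℝ) ^ 2 = 3 := Real.sq_sqrt (by norm_num)
  refine ⟨?_, ?_, fun _ _ => ⟨mem_univ _, mem_univ _⟩, ?_, ?_, ?_⟩
  · fun_prop
  · apply Continuous.continuousOn
    have : Continuous (fun p : ℝ × Unit => (Complex.equivRealProdCLM.symm
        (p.1, √3 * max (-p.1) 0) : ℂ)) := by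
      fun_prop
    exact this
  · rintro ⟨t, u⟩ -
    refine ⟨?_, ?_⟩
    · rw [mem_TP]
      rcases le_total 0 t with ht | ht
      · left
        refine ⟨?_, ht⟩
        show √3 * max (-t) 0 = 0
        rw [max_eq_right (by linarith), mul_zero]
      · right
        refine ⟨?_, ht⟩
        show (√3 * max (-t) 0) ^ 2 = 3 * t ^ 2
        rw [max_eq_left (by linarith), mul_pow, h3]
        ring
    · show 0 ≤ √3 * max (-t) 0
      positivity
  · rintro y ⟨hy, hy'⟩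
    rw [mem_TP] at hy
    have hy' : 0 ≤ y.im := hy'
    apply Complex.ext
    · rfl
    · show √3 * max (-y.re) 0 = y.im
      rcases hy with ⟨h1, h2⟩ | ⟨h1, h2⟩
      · rw [max_eq_right (by linarith), mul_zero, h1]
      · rw [max_eq_left (by linarith)]
        rw [← sq_eq_sq₀ (mul_nonneg (Real.sqrt_nonneg _) (by linarith)) hy', mul_pow, h3, h1]
        ring
  · rintro ⟨t, u⟩ -
    rfl

theorem homeo2 : SHomeo (TP \ {y : ℂ | 0 ≤ y.im}) ((univ : Set ℝ) ×ˢ (univ : Set Unit))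
    (fun y : ℂ => (Real.log (-y.im), ()))
    (fun p : ℝ × Unit => (⟨-Real.exp p.1 / √3, -Real.exp p.1⟩ : ℂ)) := by
  have h3 : (√3 : ℝ) ^ 2 = 3 := Real.sq_sqrt (by norm_num)
  have h30 : (0 : ℝ) < √3 := by positivity
  refine ⟨?_, ?_, fun _ _ => ⟨mem_univ _, mem_univ _⟩, ?_, ?_, ?_⟩
  · apply ContinuousOn.prodMk
    · apply ContinuousOn.log
      · fun_prop
      · intro y hy
        have : ¬ 0 ≤ y.im := hy.2
        have : 0 < -y.im := by linarith [not_le.1 this]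
        exact this.ne'
    · fun_prop
  · apply Continuous.continuousOn
    have : Continuous (fun p : ℝ × Unit => (Complex.equivRealProdCLM.symm
        (-Real.exp p.1 / √3, -Real.exp p.1) : ℂ)) := by
      fun_prop
    exact this
  · rintro ⟨t, u⟩ -
    have ht := Real.exp_pos t
    refine ⟨?_, ?_⟩
    · rw [mem_TP]
      right
      refine ⟨?_, ?_⟩
      · show (-Real.exp t) ^ 2 = 3 * (-Real.exp t / √3) ^ 2
        rw [div_pow, h3]
        ring
      · show -Real.exp t / √3 ≤ 0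
        apply div_nonpos_of_nonpos_of_nonneg
        · linarith
        · exact h30.le
    · show ¬ 0 ≤ -Real.exp t
      linarith
  · rintro y ⟨hy, hy'⟩
    rw [mem_TP] at hy
    have hy' : ¬ 0 ≤ y.im := hy'
    have hy'' : 0 < -y.im := by linarith [not_le.1 hy']
    have he : Real.exp (Real.log (-y.im)) = -y.im := Real.exp_log hy''
    rcases hy with ⟨h1, h2⟩ | ⟨h1, h2⟩
    · exact absurd h1 (by linarith)
    · apply Complex.ext
      · show -Real.exp (Real.log (-y.im)) / √3 = y.re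
        rw [he, neg_neg, div_eq_iff h30.ne']
        have : -y.im = -y.re * √3 := by
          rw [← sq_eq_sq₀ hy''.le (mul_nonneg (by linarith) h30.le), mul_pow, h3, neg_sq, h1]
          ring
        linarith
      · show -Real.exp (Real.log (-y.im)) = y.im
        rw [he, neg_neg]
  · rintro ⟨t, u⟩ -
    show (Real.log (- -Real.exp t), ()) = (t, u)
    rw [neg_neg, Real.log_exp]

theorem good_unit : Good IsCompact (univ : Set Unit) := good_closed isClosed_univ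

end HzCaux

open HzCaux

theorem HcZ_TP : HcZ TP 0 := by
  have hF : IsClosed {y : ℂ | 0 ≤ y.im} := isClosed_le (by fun_prop) (by fun_prop)
  exact HcZ_strat hF (good_closed isClosed_TP) (HcZ_line0 good_unit homeo2)
    (HcZ_line0 good_unit homeo1)

theorem HcZ_KKc : HcZ KKᶜ 0 := by
  obtain ⟨φ, ψ, h⟩ := KK_homeo
  rw [← univ_prod_univ] at h
  exact HcZ_line0 (good_closed isClosed_univ) h

theorem HcZ_FF : HcZ FF 0 := by
  refine HcZ_strat isClosed_XG (good_closed isClosed_FF) ?_ ?_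
  · obtain ⟨φ, ψ, h⟩ := FF_homeo
    exact HcZ_of_homeo h HcZ_KKc
  · obtain ⟨ψ, h⟩ := tri_homeo
    exact HcZ_of_homeo h HcZ_TP

namespace HzCaux

theorem isClosed_Z3 : IsClosed Z3 := by
  unfold Z3 thetaZ
  exact isClosed_eq (by fun_prop) (by fun_prop)

theorem isClosed_CZ : IsClosed ((univ : Set Circle) ×ˢ Z3) := isClosed_univ.prod isClosed_Z3

end HzCaux

theorem HcZ_Z3 : HcZ Z3 0 := by
  have hF : IsClosed {w : (ℂ × ℂ) × Circle | w.2 = 1} := isClosed_eq (by fun_prop) (by fun_prop)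
  refine HcZ_strat hF (good_closed isClosed_Z3) ?_ ?_
  · obtain ⟨φ, ψ, h⟩ := Z3_homeo
    exact HcZ_line0 (good_closed isClosed_FF) h
  · exact HcZ_FF

namespace HzCaux

theorem ne_zero_aux (t : ℝ) : ((t : ℂ) - I) ≠ 0 := by
  intro h
  have := congrArg Complex.im h
  simp at this

/-- the point of the circle with stereographic coordinate `t` -/
noncomputable def st (t : ℝ) : Circle := Circle.ofConjDivSelf ((t : ℂ) - I) (ne_zero_aux t)

theorem coe_st (t : ℝ) : (st t : ℂ) = ((t : ℂ) + I) / ((t : ℂ) - I) := by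
  show (starRingEnd ℂ) ((t : ℂ) - I) / ((t : ℂ) - I) = _
  simp

theorem coe_st' (t : ℝ) : (st t : ℂ) =
    (((t ^ 2 - 1) / (t ^ 2 + 1) : ℝ) : ℂ) + ((2 * t / (t ^ 2 + 1) : ℝ) : ℂ) * I := by
  have h1 : (t ^ 2 + 1 : ℝ) ≠ 0 := by positivity
  have h2 : ((t : ℂ) ^ 2 + 1) ≠ 0 := by exact_mod_cast h1
  rw [coe_st, div_eq_iff (ne_zero_aux t)]
  push_cast
  field_simp
  ring_nf
  rw [I_sq]
  ring

theorem st_re (t : ℝ) : (st t : ℂ).re = (t ^ 2 - 1) / (t ^ 2 + 1) := by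
  rw [coe_st']
  simp [-ofReal_div, -ofReal_sub, -ofReal_add, -ofReal_mul, -ofReal_pow]

theorem st_im (t : ℝ) : (st t : ℂ).im = 2 * t / (t ^ 2 + 1) := by
  rw [coe_st']
  simp [-ofReal_div, -ofReal_sub, -ofReal_add, -ofReal_mul, -ofReal_pow]

theorem st_cont : Continuous st := by
  have h : Continuous (fun t : ℝ => (st t : ℂ)) := by
    have e : (fun t : ℝ => (st t : ℂ)) = fun t : ℝ => ((t : ℂ) + I) / ((t : ℂ) - I) := by
      ext1 t
      exact coe_st t
    rw [e]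
    exact Continuous.div (by fun_prop) (by fun_prop) ne_zero_aux
  exact continuous_induced_rng.2 h

theorem re_ne_one (z : Circle) (hz : z ≠ 1) : 1 - (z : ℂ).re ≠ 0 := by
  intro h
  apply hz
  have h1 : (z : ℂ).re = 1 := by linarith
  have h2 : (z : ℂ).re * (z : ℂ).re + (z : ℂ).im * (z : ℂ).im = 1 := by
    have := Circle.normSq_coe z
    rwa [normSq_apply] at this
  have h3 : (z : ℂ).im = 0 := by
    rw [h1] at h2
    have : (z : ℂ).im * (z : ℂ).im = 0 := by linarith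
    exact mul_self_eq_zero.1 this
  apply Circle.ext
  apply Complex.ext
  · rw [h1]; simp
  · rw [h3]; simp

theorem circ_eq (z : Circle) : (z : ℂ).im ^ 2 = 1 - (z : ℂ).re ^ 2 := by
  have := Circle.normSq_coe z
  rw [normSq_apply] at this
  linarith

theorem homeo3 {Y : Type*} [MetricSpace Y] (B : Set Y) :
    SHomeo (((univ : Set Circle) ×ˢ B) \ {w : Circle × Y | w.1 = 1}) ((univ : Set ℝ) ×ˢ B)
      (fun w => ((w.1 : ℂ).im / (1 - (w.1 : ℂ).re), w.2)) (fun p => (st p.1, p.2)) := by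
  refine ⟨?_, ?_, ?_, ?_, ?_, ?_⟩
  · apply ContinuousOn.prodMk
    · apply ContinuousOn.div (by fun_prop) (by fun_prop)
      rintro ⟨z, y⟩ ⟨-, hz⟩
      exact re_ne_one z hz
    · fun_prop
  · apply Continuous.continuousOn
    exact (st_cont.comp continuous_fst).prodMk continuous_snd
  · rintro ⟨z, y⟩ ⟨hz, -⟩
    exact ⟨mem_univ _, hz.2⟩
  · rintro ⟨t, y⟩ ht
    refine ⟨⟨mem_univ _, ht.2⟩, ?_⟩
    show ¬ st t = 1
    intro h
    have h1 := st_re t
    rw [h] at h1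
    simp only [Circle.coe_one, one_re] at h1
    rw [eq_div_iff (by positivity)] at h1
    linarith
  · rintro ⟨z, y⟩ ⟨-, hz⟩
    have hz' : z ≠ 1 := hz
    have h0 := re_ne_one z hz'
    have hc := circ_eq z
    show (st ((z : ℂ).im / (1 - (z : ℂ).re)), y) = (z, y)
    congr 1
    have hD : ((z : ℂ).im / (1 - (z : ℂ).re)) ^ 2 = (1 + (z : ℂ).re) / (1 - (z : ℂ).re) := by
      rw [div_pow, hc]
      field_simp
      ring
    apply Circle.ext
    apply Complex.ext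
    · rw [st_re, hD]
      field_simp
      ring
    · rw [st_im, hD]
      field_simp
      ring
  · rintro ⟨t, y⟩ -
    show ((st t : ℂ).im / (1 - (st t : ℂ).re), y) = (t, y)
    congr 1
    rw [st_re, st_im]
    have h1 : (t ^ 2 + 1 : ℝ) ≠ 0 := by positivity
    field_simp
    ring

theorem homeo4 {X Y : Type*} [MetricSpace X] [MetricSpace Y] (A : Set (X × Y)) (B : Set Y) (x : X)
    (hA : ∀ p : X × Y, p ∈ A ↔ p.1 = x ∧ p.2 ∈ B) :
    SHomeo A B Prod.snd (fun y => (x, y)) := by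
  refine ⟨by fun_prop, by fun_prop, fun p hp => ((hA p).1 hp).2, fun y hy => (hA _).2 ⟨rfl, hy⟩,
    ?_, fun _ _ => rfl⟩
  rintro ⟨a, b⟩ hp
  have := ((hA _).1 hp).1
  show (x, b) = (a, b)
  rw [← this]

end HzCaux

theorem HcZ_CZ : HcZ ((univ : Set Circle) ×ˢ Z3) 0 := by
  have hF : IsClosed {w : Circle × ((ℂ × ℂ) × Circle) | w.1 = 1} :=
    isClosed_eq (by fun_prop) (by fun_prop)
  refine HcZ_strat hF (good_closed isClosed_CZ) ?_ ?_
  · exact HcZ_line0 (good_closed isClosed_Z3) (homeo3 Z3)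
  · refine HcZ_of_homeo (homeo4 _ Z3 (1 : Circle) ?_) HcZ_Z3
    intro p
    simp only [mem_inter_iff, mem_prod, mem_univ, true_and, mem_ofPred_eq]
    exact and_comm

namespace HzCaux

theorem homeo5 {Y : Type*} [MetricSpace Y] (B : Set Y) (A : Set (ℝ × Y))
    (hA : ∀ p : ℝ × Y, p ∈ A ↔ (-1 < p.1 ∧ p.1 < 1) ∧ p.2 ∈ B) :
    SHomeo A ((univ : Set ℝ) ×ˢ B)
      (fun w => (w.1 / (1 - |w.1|), w.2)) (fun p => (p.1 / (1 + |p.1|), p.2)) := by
  have habs : ∀ s : ℝ, -1 < s → s < 1 → 0 < 1 - |s| := by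
    intro s h1 h2
    have := abs_lt.2 ⟨h1, h2⟩
    linarith
  refine ⟨?_, ?_, ?_, ?_, ?_, ?_⟩
  · apply ContinuousOn.prodMk
    · apply ContinuousOn.div (by fun_prop) (by fun_prop)
      rintro ⟨s, y⟩ hs
      have := (hA _).1 hs
      exact (habs s this.1.1 this.1.2).ne'
    · fun_prop
  · apply Continuous.continuousOn
    apply Continuous.prodMk
    · apply Continuous.div (by fun_prop) (by fun_prop)
      rintro ⟨t, y⟩
      have : 0 ≤ |t| := abs_nonneg t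
      show 1 + |t| ≠ 0
      positivity
    · fun_prop
  · rintro ⟨s, y⟩ hs
    exact ⟨mem_univ _, ((hA _).1 hs).2⟩
  · rintro ⟨t, y⟩ ht
    rw [hA]
    refine ⟨?_, ht.2⟩
    have h0 : 0 ≤ |t| := abs_nonneg t
    have h1 : 0 < 1 + |t| := by positivity
    show -1 < t / (1 + |t|) ∧ t / (1 + |t|) < 1
    rw [lt_div_iff₀ h1, div_lt_iff₀ h1]
    have := le_abs_self t
    have := neg_abs_le t
    constructor <;> linarith
  · rintro ⟨s, y⟩ hs
    have hs' := ((hA _).1 hs).1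
    have h0 := habs s hs'.1 hs'.2
    show (s / (1 - |s|) / (1 + |s / (1 - |s|)|), y) = (s, y)
    congr 1
    rw [abs_div, abs_of_pos h0]
    have e : 1 + |s| / (1 - |s|) = 1 / (1 - |s|) := by
      field_simp
      ring
    rw [e]
    field_simp
  · rintro ⟨t, y⟩ -
    have h0 : 0 ≤ |t| := abs_nonneg t
    have h1 : 0 < 1 + |t| := by positivity
    show (t / (1 + |t|) / (1 - |t / (1 + |t|)|), y) = (t, y)
    congr 1
    rw [abs_div, abs_of_pos h1]
    have e : 1 - |t| / (1 + |t|) = 1 / (1 + |t|) := by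
      field_simp
      ring
    rw [e]
    field_simp

end HzCaux

theorem HcZ_IZ : HcZ (Icc (-1 : ℝ) 1 ×ˢ ((univ : Set Circle) ×ˢ Z3)) 0 := by
  have hF1 : IsClosed {w : ℝ × (Circle × ((ℂ × ℂ) × Circle)) | w.1 = -1} :=
    isClosed_eq (by fun_prop) (by fun_prop)
  have hF2 : IsClosed {w : ℝ × (Circle × ((ℂ × ℂ) × Circle)) | w.1 = 1} :=
    isClosed_eq (by fun_prop) (by fun_prop)
  have hA : IsClosed (Icc (-1 : ℝ) 1 ×ˢ ((univ : Set Circle) ×ˢ Z3)) :=
    isClosed_Icc.prod isClosed_CZ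
  refine HcZ_strat hF1 (good_closed hA) ?_ ?_
  · refine HcZ_strat hF2 (good_locallyClosed _ _ hA hF1) ?_ ?_
    · refine HcZ_line0 (good_closed isClosed_CZ) (homeo5 ((univ : Set Circle) ×ˢ Z3) _ ?_)
      intro p
      simp only [mem_sdiff, mem_prod, mem_univ, true_and, mem_ofPred_eq, mem_Icc]
      constructor
      · rintro ⟨⟨⟨⟨h1, h2⟩, h3⟩, h4⟩, h5⟩
        exact ⟨⟨lt_of_le_of_ne h1 (Ne.symm h4), lt_of_le_of_ne h2 h5⟩, h3⟩
      · rintro ⟨⟨h1, h2⟩, h3⟩
        exact ⟨⟨⟨⟨h1.le, h2.le⟩, h3⟩, h1.ne'⟩, h2.ne⟩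
    · refine HcZ_of_homeo (homeo4 _ ((univ : Set Circle) ×ˢ Z3) (1 : ℝ) ?_) HcZ_CZ
      intro p
      simp only [mem_sdiff, mem_inter_iff, mem_prod, mem_univ, true_and, mem_ofPred_eq, mem_Icc]
      constructor
      · rintro ⟨⟨⟨_, h3⟩, _⟩, h5⟩
        exact ⟨h5, h3⟩
      · rintro ⟨h1, h3⟩
        refine ⟨⟨⟨⟨?_, ?_⟩, h3⟩, ?_⟩, h1⟩
        · rw [h1]; norm_num
        · rw [h1]
        · rw [h1]; norm_num
  · refine HcZ_of_homeo (homeo4 _ ((univ : Set Circle) ×ˢ Z3) (-1 : ℝ) ?_) HcZ_CZ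
    intro p
    simp only [mem_inter_iff, mem_prod, mem_univ, true_and, mem_ofPred_eq, mem_Icc]
    constructor
    · rintro ⟨⟨_, h3⟩, h5⟩
      exact ⟨h5, h3⟩
    · rintro ⟨h1, h3⟩
      refine ⟨⟨⟨?_, ?_⟩, h3⟩, h1⟩
      · rw [h1]
      · rw [h1]; norm_num

end Pool.Agent.Helper77.DS
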