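import Pool.Agent.Helper77.DS.YcA
import Pool.Agent.Helper77.DS.AlA

/-!
# DS-OgA: elementary facts about `N`, `U3`, `O3` and the coordinates

* `N_OO`: over `OO` the hypersurface `N` is `t = 0`: if `A = chart p`, `F p t = 0` and `A ∈ OO` then
  `|p 0| > 2` or `|p 1| > 2` or `|p 2| > 1` (divide `4 A 0 0 < A 1 1 = p 0 ^ 2 A 0 0` by `A 0 0 > 0`), so the
  second argument of `min` in `F` is positive and `t = 0`; conversely.
* `tauN_OO`: there `t = 0`, the condition `1 ≤ t` fails, `tauN = 1`.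
* `c3_mem`: for `u ∈ O3`: `v³ = θ³ thetaZ z`, so `(v/θ)³ = thetaZ z`.
* `isClosed_U3`: `N` is compact (`RP3` is compact, `|t| ≤ 4` on `N`; closedness: `N` is the union of the images
  of the compact sets `{(p, t) : |p i| ≤ 2, F p t = 0}` and of the closed set of the `(A, 0)`, `A ∈ RP3`,
  `4 A 0 0 ≤ A 1 1 ∨ 4 A 0 0 ≤ A 2 2 ∨ A 0 0 ≤ A 3 3`); `tauN` is continuous on `N`; so `U3` is closed.
* `O3` is open in `U3` as `OO` is open in `RP3`.
-/

namespace Pool.Agent.Helper77.DS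

open Set Complex Helper36.AS

private theorem og_chart (p : Fin 3 → ℝ) (i j : Fin 4) : chart p i j =
    ((![1, p 0, p 1, p 2] : Fin 4 → ℝ) i) * ((![1, p 0, p 1, p 2] : Fin 4 → ℝ) j) /
    (1 + p 0 ^ 2 + p 1 ^ 2 + p 2 ^ 2) := rfl

private theorem og_pos (p : Fin 3 → ℝ) : 0 < 1 + p 0 ^ 2 + p 1 ^ 2 + p 2 ^ 2 := by positivity

/-- the second argument of `min` in `F` is positive over `OO` -/
private theorem og_max {p : Fin 3 → ℝ} (h : chart p ∈ OO) (t : ℝ) :
    0 < max (|p 0| - 2) (max (|p 1| - 2) (max (|p 2| - 1) (max (t - 4)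
    (min (1 - |p 0|) (min (1 - |p 1|) (1 - |t - 2|)))))) := by
  have hD := og_pos p
  have e00 : chart p 0 0 = 1 / (1 + p 0 ^ 2 + p 1 ^ 2 + p 2 ^ 2) := by
    rw [og_chart]
    simp
  have e11 : chart p 1 1 = p 0 ^ 2 / (1 + p 0 ^ 2 + p 1 ^ 2 + p 2 ^ 2) := by
    rw [og_chart]
    simp [sq]
  have e22 : chart p 2 2 = p 1 ^ 2 / (1 + p 0 ^ 2 + p 1 ^ 2 + p 2 ^ 2) := by
    rw [og_chart]
    simp [sq]
  have e33 : chart p 3 3 = p 2 ^ 2 / (1 + p 0 ^ 2 + p 1 ^ 2 + p 2 ^ 2) := by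
    rw [og_chart]
    simp [sq]
  rcases h.2 with h | h | h
  · rw [e00, e11, mul_one_div, div_lt_div_iff_of_pos_right hD] at h
    have h1 : 2 < |p 0| := by
      by_contra h2
      push Not at h2
      have h3 := sq_abs (p 0)
      nlinarith [abs_nonneg (p 0)]
    exact lt_max_of_lt_left (by linarith)
  · rw [e00, e22, mul_one_div, div_lt_div_iff_of_pos_right hD] at h
    have h1 : 2 < |p 1| := by
      by_contra h2
      push Not at h2
      have h3 := sq_abs (p 1)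
      nlinarith [abs_nonneg (p 1)]
    exact lt_max_of_lt_right (lt_max_of_lt_left (by linarith))
  · rw [e00, e33, div_lt_div_iff_of_pos_right hD] at h
    have h1 : 1 < |p 2| := by
      by_contra h2
      push Not at h2
      have h3 := sq_abs (p 2)
      nlinarith [abs_nonneg (p 2)]
    exact lt_max_of_lt_right (lt_max_of_lt_right (lt_max_of_lt_left (by linarith)))

theorem N_sub {x : M4 × ℝ} (hx : x ∈ N) : x.1 ∈ RP3 := by
  rcases hx with ⟨p, hp, -⟩ | ⟨h, -, -⟩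
  · rw [hp]
    exact chart_mem p
  · exact h

private theorem og_cases {A : M4} (hA : A ∈ RP3) : (∃ p, A = chart p) ∨ A 0 0 = 0 := by
  obtain ⟨q, hq, rfl⟩ := hA
  by_cases h0 : q 0 = 0
  · right
    change q 0 * q 0 = 0
    rw [h0, mul_zero]
  · left
    refine ⟨![q 1 / q 0, q 2 / q 0, q 3 / q 0], ?_⟩
    have hD : 1 + (q 1 / q 0) ^ 2 + (q 2 / q 0) ^ 2 + (q 3 / q 0) ^ 2 = 1 / q 0 ^ 2 := by
      rw [Fin.sum_univ_four] at hq
      field_simp
      linarith
    funext i j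
    have h1 : ∀ k : Fin 4, (![1, q 1 / q 0, q 2 / q 0, q 3 / q 0] : Fin 4 → ℝ) k = q k / q 0 := by
      intro k
      fin_cases k
      · exact (div_self h0).symm
      · rfl
      · rfl
      · rfl
    have h2 : chart ![q 1 / q 0, q 2 / q 0, q 3 / q 0] i j =
        (![1, q 1 / q 0, q 2 / q 0, q 3 / q 0] : Fin 4 → ℝ) i *
        (![1, q 1 / q 0, q 2 / q 0, q 3 / q 0] : Fin 4 → ℝ) j /
        (1 + (q 1 / q 0) ^ 2 + (q 2 / q 0) ^ 2 + (q 3 / q 0) ^ 2) := rfl
    rw [h2, h1, h1, hD]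
    change q i * q j = _
    field_simp

theorem N_OO {x : M4 × ℝ} (hx : x.1 ∈ OO) : x ∈ N ↔ x.2 = 0 := by
  constructor
  · rintro (⟨p, hp, hF⟩ | ⟨-, -, h⟩)
    · rw [hp] at hx
      have h1 := og_max hx x.2
      unfold F at hF
      rcases le_total x.2 (max (|p 0| - 2) (max (|p 1| - 2) (max (|p 2| - 1) (max (x.2 - 4)
        (min (1 - |p 0|) (min (1 - |p 1|) (1 - |x.2 - 2|))))))) with h2 | h2
      · rw [min_eq_left h2] at hF
        exact hF
      · rw [min_eq_right h2] at hF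
        rw [hF] at h1
        exact absurd h1 (lt_irrefl _)
    · exact h
  · intro h
    rcases og_cases hx.1 with ⟨p, hp⟩ | h0
    · left
      refine ⟨p, hp, ?_⟩
      rw [hp] at hx
      have h1 := og_max hx x.2
      unfold F
      rw [min_eq_left (by rw [h] at h1 ⊢; exact h1.le)]
      exact h
    · right
      exact ⟨hx.1, h0, h⟩

theorem tauN_OO {x : M4 × ℝ} (hx : x ∈ N) (hA : x.1 ∈ OO) : tauN x = 1 := by
  have h := (N_OO hA).1 hx
  unfold tauN
  rw [if_neg]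
  rintro ⟨-, -, -, h1, -⟩
  rw [h] at h1
  norm_num at h1

theorem O3_iff {u : UT} : u ∈ O3 ↔ cA u ∈ OO ∧ u.1.1.1.2 = 0 ∧ c3 u ∈ Z3 := by
  have hθ : (u.1.1.2 : ℂ) ≠ 0 := Circle.coe_ne_zero _
  have key : ∀ w : ℂ, ((u.2 : ℂ) ^ 3 = ((1 * u.1.1.2 ^ 3 : Circle) : ℂ) * w) ↔
      w = ((u.2 / u.1.1.2 : Circle) : ℂ) ^ 3 := by
    intro w
    rw [one_mul, Circle.coe_pow, Circle.coe_div, div_pow, eq_div_iff (pow_ne_zero 3 hθ)]
    constructor
    · intro h
      rw [h, mul_comm]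
    · intro h
      rw [← h, mul_comm]
  constructor
  · rintro ⟨⟨hM, hZ, h3⟩, hA⟩
    refine ⟨hA, (N_OO (x := u.1.1.1) hA).1 hM, ?_⟩
    have h1 : tauN u.1.1.1 = 1 := tauN_OO hM hA
    unfold tau at h3
    rw [h1] at h3
    exact (key _).1 h3
  · rintro ⟨hA, ht, h3⟩
    have hM : u.1.1.1 ∈ N := (N_OO (x := u.1.1.1) hA).2 ht
    refine ⟨⟨hM, ?_, ?_⟩, hA⟩
    · have h4 : thetaZ u.1.2 = ((u.2 / u.1.1.2 : Circle) : ℂ) ^ 3 := h3
      change ‖thetaZ u.1.2‖ = 1
      rw [h4, norm_pow, Circle.norm_coe, one_pow]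
    · have h1 : tauN u.1.1.1 = 1 := tauN_OO hM hA
      unfold tau
      rw [h1]
      exact (key _).2 h3

theorem cA_mem {u : UT} (hu : u ∈ U3) : cA u ∈ RP3 := N_sub (x := u.1.1.1) hu.1

private theorem og_om : (om : ℂ) ^ 3 = 1 := by
  unfold om
  rw [Circle.coe_exp, ← Complex.exp_nat_mul]
  have h : ((3 : ℕ) : ℂ) * (((2 * Real.pi / 3 : ℝ) : ℂ) * I) = 2 * Real.pi * I := by
    push_cast
    ring
  rw [h, Complex.exp_two_pi_mul_I]

theorem TU_mem_U3 {u : UT} (hu : u ∈ U3) : TU u ∈ U3 := by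
  refine ⟨hu.1, hu.2.1, ?_⟩
  change ((om * u.2 : Circle) : ℂ) ^ 3 = _
  rw [Circle.coe_mul, mul_pow, og_om, one_mul]
  exact hu.2.2

theorem TU_mem_O3 {u : UT} (hu : u ∈ O3) : TU u ∈ O3 := ⟨TU_mem_U3 hu.1, hu.2⟩

theorem c3_TU (u : UT) : c3 (TU u) = T3 (c3 u) := by
  unfold c3 TU T3
  rw [mul_div_assoc]

theorem cA_continuous : Continuous cA :=
  continuous_fst.comp (continuous_fst.comp (continuous_fst.comp continuous_fst))

theorem cV_continuous : Continuous cV := continuous_snd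

theorem cZ_continuous : Continuous cZ :=
  continuous_snd.div' (continuous_snd.comp (continuous_fst.comp continuous_fst))

theorem c3_continuous : Continuous c3 :=
  (continuous_snd.comp continuous_fst).prodMk cZ_continuous

theorem TU_continuous : Continuous TU :=
  continuous_fst.prodMk (continuous_const.mul continuous_snd)

theorem P0_mem : P0 ∈ O3 := by
  rw [O3_iff]
  refine ⟨chart_P0_mem, rfl, ?_⟩
  change thetaZ (0, Complex.exp (Real.pi / 3 * Complex.I)) = ((1 / 1 : Circle) : ℂ) ^ 3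
  unfold thetaZ
  rw [div_one, Circle.coe_one, one_pow]
  change (0 : ℂ) ^ 2 - Complex.exp (Real.pi / 3 * Complex.I) ^ 3 = 1
  rw [← Complex.exp_nat_mul]
  have h : ((3 : ℕ) : ℂ) * (Real.pi / 3 * Complex.I) = Real.pi * I := by
    push_cast
    ring
  rw [h, Complex.exp_pi_mul_I]
  norm_num

end Pool.Agent.Helper77.DS
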