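import Pool.Agent.Helper77.DS.DDefs
import Pool.Agent.Helper77.DS.OgB

/-!
# DS-RbA: the part of `U3` over (circle) × (closed disk) in coordinates

Points `u = ((((chart p, t), θ), z), v)` of `U3 ∩ B1F` (`A 0 0 > 0` on `BF ∩ RP3`, `p i = A 0 (i+1) / A 0 0`):
`|p 0|, |p 1| ≤ 2`, `|p 2| ≤ 1`, `F p t = 0`. Let `r = max |p 0| (max |p 1| |t - 2|)`, `a = 2 r - 3`, `b = p 2`, `U = (p 0, p 1, t - 2) / r`.
Claim: this is a homeomorphism of the corresponding set of the `(p, t)` onto the set of the `((a, b), U)` with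
`max |a| |b| = 1` and `U ∈ LD`. Inverse: `r = (a + 3) / 2`, `p = (r U 0, r U 1, b)`, `t = 2 + r U 2`.
(→) if `t > 0` the maximum in `F` is zero: all terms `≤ 0`, the last is `1 - r`, so `1 ≤ r ≤ 2` (`0 < t ≤ 4`) and one of
`|p 0| = 2`, `|p 1| = 2`, `|p 2| = 1`, `t = 4`, `r = 1` holds: `|a| = 1` or `|b| = 1`. If `t = 0` then `r = 2`, `a = 1`. (`t < 0`
impossible.) `B1F`: `2 ≤ t` or `2 - t ≤ |p 0|` or `2 - t ≤ |p 1|` is `U ∈ LD` (`-U 2 ≤ 0` or `-U 2 ≤ |U 0|` or `-U 2 ≤ |U 1|`, the sup norm of `U`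
is one). (←) `t = 2 + r U 2 ≥ 2 - r ≥ 0`; if `t = 0` then `r = 2, U 2 = -1`, and `|U 0| = 1` or `|U 1| = 1`, so the maximum is `≥ 0`; if
`t > 0` the maximum is `max (|p 0| - 2) (|p 1| - 2) (|b| - 1) (t - 4) (1 - r) ≤ 0` and it is zero if `r = 1` or `|b| = 1`; if
`r = 2` one of `|U 0|, |U 1|, U 2` is `1` (`U 2 = -1` would give `t = 0`), so `|p 0| = 2`, `|p 1| = 2` or `t = 4`.
Circle coordinate: `ν = (a + i b) / |a + i b|`, inverse `(a, b) = ν / max |Re ν| |Im ν|`. The function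
`l (a, b) = if a = -1 then π b - arctan b else arg (a + i b)` is continuous on the square boundary (at `a = -1`, `b = ± 1` both
are `± 3 π / 4`), and `tauN = exp (i l) / ν` : for `a ≠ -1` `tauN = 1` (`r > 1` so the condition of `tauN` fails) and
`l = arg ν`; for `a = -1`, `r = 1`, `tauN = exp (i π (1 + b))` and `ν = - exp (- i arctan b)`.
So with `ζ = v exp (- i l / 3)` the equation `v³ = tauN θ³ thetaZ z` becomes `ζ³ ν = θ³ thetaZ z`, and
`φ u = (((ν, U), (θ, z)), ζ)`; `v ↦ ω v` becomes `ζ ↦ ω ζ`.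
-/

namespace Pool.Agent.Helper77.DS

open Set Complex Helper36.AS

/-- The sphere in the sup norm minus an open face. -/
def LD : Set (Fin 3 → ℝ) :=
  {U | max |U 0| (max |U 1| |U 2|) = 1 ∧ ¬ (U 2 = -1 ∧ |U 0| < 1 ∧ |U 1| < 1)}

/-- The ambient space of the model. -/
abbrev MT : Type := ((Circle × (Fin 3 → ℝ)) × (Circle × (ℂ × ℂ))) × Circle

/-- The model. -/
def MB : Set MT :=
  {m | m.1.1.2 ∈ LD ∧ m.1.2.2 ∈ Z ∧
    (m.2 : ℂ) ^ 3 * (m.1.1.1 : ℂ) = (m.1.2.1 : ℂ) ^ 3 * thetaZ m.1.2.2}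

/-- The deck transformation of the model. -/
noncomputable def TB (m : MT) : MT := (m.1, om * m.2)

/-- the radius -/
noncomputable def rbr (x y z : ℝ) : ℝ := max |x| (max |y| |z|)

theorem rbr_le {x y z c : ℝ} : rbr x y z ≤ c ↔ |x| ≤ c ∧ |y| ≤ c ∧ |z| ≤ c := by
  unfold rbr
  rw [max_le_iff, max_le_iff]

theorem le_rbr {x y z c : ℝ} : c ≤ rbr x y z ↔ c ≤ |x| ∨ c ≤ |y| ∨ c ≤ |z| := by
  unfold rbr
  rw [le_max_iff, le_max_iff]

/-- The conditions on the affine coordinates. -/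
def RbP (p : Fin 3 → ℝ) (t : ℝ) : Prop :=
  F p t = 0 ∧ |p 0| ≤ 2 ∧ |p 1| ≤ 2 ∧ |p 2| ≤ 1 ∧ (2 ≤ t ∨ |2 - t| ≤ |p 0| ∨ |2 - t| ≤ |p 1|)

theorem rb_nonneg {p : Fin 3 → ℝ} {t : ℝ} (h : F p t = 0) : 0 ≤ t := by
  rw [← h]
  exact min_le_left _ _

theorem rb_fwd {p : Fin 3 → ℝ} {t : ℝ} (h : RbP p t) :
    1 ≤ rbr (p 0) (p 1) (t - 2) ∧ rbr (p 0) (p 1) (t - 2) ≤ 2 ∧
      max |2 * rbr (p 0) (p 1) (t - 2) - 3| |p 2| = 1 := by
  obtain ⟨hF, h0, h1, h2, -⟩ := h
  have ht := rb_nonneg hF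
  rcases ht.eq_or_lt with ht | ht
  · subst ht
    have e : |(0 : ℝ) - 2| = 2 := by norm_num
    have hr : rbr (p 0) (p 1) (0 - 2) = 2 := by
      apply le_antisymm
      · exact rbr_le.2 ⟨h0, h1, e.le⟩
      · exact le_rbr.2 (Or.inr (Or.inr e.ge))
    rw [hr]
    refine ⟨by norm_num, le_rfl, ?_⟩
    have e2 : |(2 : ℝ) * 2 - 3| = 1 := by norm_num
    rw [e2]
    exact max_eq_left h2
  · have hG := ogb_F_zero_pos hF ht
    have g := max_le_iff.1 (max_le_iff.1 (max_le_iff.1 (max_le_iff.1 hG.le).2).2).2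
    have g1 : t ≤ 4 := by linarith [g.1]
    have g2 : 1 ≤ rbr (p 0) (p 1) (t - 2) := by
      rw [le_rbr]
      rcases min_le_iff.1 g.2 with g | g
      · left; linarith
      rcases min_le_iff.1 g with g | g
      · right; left; linarith
      · right; right; linarith
    have g3 : rbr (p 0) (p 1) (t - 2) ≤ 2 := rbr_le.2 ⟨h0, h1, abs_le.2 ⟨by linarith, by linarith⟩⟩
    refine ⟨g2, g3, ?_⟩
    apply le_antisymm
    · exact max_le (abs_le.2 ⟨by linarith, by linarith⟩) h2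
    · have k2 : 2 ≤ rbr (p 0) (p 1) (t - 2) → 1 ≤ max |2 * rbr (p 0) (p 1) (t - 2) - 3| |p 2| := by
        intro h
        apply le_max_of_le_left
        have : rbr (p 0) (p 1) (t - 2) = 2 := le_antisymm g3 h
        rw [this]
        norm_num
      rcases le_max_iff.1 hG.ge with g | g
      · exact k2 (le_rbr.2 (Or.inl (by linarith)))
      rcases le_max_iff.1 g with g | g
      · exact k2 (le_rbr.2 (Or.inr (Or.inl (by linarith))))
      rcases le_max_iff.1 g with g | g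
      · exact le_max_of_le_right (by linarith)
      rcases le_max_iff.1 g with g | g
      · exact k2 (le_rbr.2 (Or.inr (Or.inr (le_trans (by linarith) (le_abs_self _)))))
      · apply le_max_of_le_left
        obtain ⟨m1, m2⟩ := le_min_iff.1 g
        obtain ⟨m2, m3⟩ := le_min_iff.1 m2
        have : rbr (p 0) (p 1) (t - 2) ≤ 1 := rbr_le.2 ⟨by linarith, by linarith, by linarith⟩
        have : rbr (p 0) (p 1) (t - 2) = 1 := le_antisymm this g2
        rw [this]
        norm_num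

theorem rb_max_div {x y z r : ℝ} (hr : 0 < r) : rbr (x / r) (y / r) (z / r) = rbr x y z / r := by
  unfold rbr
  rw [abs_div, abs_div, abs_div, abs_of_pos hr, max_div_div_right hr.le, max_div_div_right hr.le]

theorem rb_LD {p : Fin 3 → ℝ} {t r : ℝ} (h : RbP p t) (hr : r = rbr (p 0) (p 1) (t - 2)) :
    (![p 0 / r, p 1 / r, (t - 2) / r] : Fin 3 → ℝ) ∈ LD := by
  obtain ⟨g1, g2, -⟩ := rb_fwd h
  have hr0 : 0 < r := by rw [hr]; linarith
  refine ⟨?_, ?_⟩
  · change rbr (p 0 / r) (p 1 / r) ((t - 2) / r) = 1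
    rw [rb_max_div hr0, ← hr, div_self hr0.ne']
  · rintro ⟨a, b, c⟩
    change (t - 2) / r = -1 at a
    change |p 0 / r| < 1 at b
    change |p 1 / r| < 1 at c
    rw [div_eq_iff hr0.ne'] at a
    rw [abs_div, abs_of_pos hr0, div_lt_one hr0] at b c
    have e : |2 - t| = r := by
      rw [abs_of_nonneg (by linarith)]
      linarith
    rcases h.2.2.2.2 with h | h | h
    · linarith
    · linarith
    · linarith

theorem rb_bwd {a b r : ℝ} {U : Fin 3 → ℝ} (hab : max |a| |b| = 1) (hU : U ∈ LD)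
    (hr : r = (a + 3) / 2) : RbP ![r * U 0, r * U 1, b] (2 + r * U 2) ∧
      rbr (r * U 0) (r * U 1) (2 + r * U 2 - 2) = r := by
  have ha : |a| ≤ 1 := le_of_max_le_left hab.le
  have hb : |b| ≤ 1 := le_of_max_le_right hab.le
  have ha' := abs_le.1 ha
  have r1 : 1 ≤ r := by rw [hr]; linarith [ha'.1]
  have r2 : r ≤ 2 := by rw [hr]; linarith [ha'.2]
  have r0 : 0 < r := by linarith
  obtain ⟨u, hu⟩ := hU
  change rbr (U 0) (U 1) (U 2) = 1 at u
  obtain ⟨u0, u1, u2⟩ := rbr_le.1 u.le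
  have u3 := le_rbr.1 u.ge
  have e0 : |r * U 0| = r * |U 0| := by rw [abs_mul, abs_of_pos r0]
  have e1 : |r * U 1| = r * |U 1| := by rw [abs_mul, abs_of_pos r0]
  have e2 : |r * U 2| = r * |U 2| := by rw [abs_mul, abs_of_pos r0]
  have s0 : |r * U 0| ≤ r := by rw [e0]; nlinarith
  have s1 : |r * U 1| ≤ r := by rw [e1]; nlinarith
  have s2 : |r * U 2| ≤ r := by rw [e2]; nlinarith
  have s2' := abs_le.1 s2
  have s3 : r ≤ |r * U 0| ∨ r ≤ |r * U 1| ∨ r ≤ |r * U 2| := by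
    rcases u3 with u3 | u3 | u3
    · left; rw [e0]; nlinarith
    · right; left; rw [e1]; nlinarith
    · right; right; rw [e2]; nlinarith
  have et : 2 + r * U 2 - 2 = r * U 2 := by ring
  have hrr : rbr (r * U 0) (r * U 1) (2 + r * U 2 - 2) = r := by
    rw [et]
    exact le_antisymm (rbr_le.2 ⟨s0, s1, s2⟩) (le_rbr.2 s3)
  refine ⟨⟨?_, ?_, ?_, ?_, ?_⟩, hrr⟩
  · -- `F = 0`
    have t0 : 0 ≤ 2 + r * U 2 := by linarith [s2'.1]
    rcases t0.eq_or_lt with t0 | t0
    · have hr2 : r = 2 := by linarith [s2'.1]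
      have hU2 : U 2 = -1 := by rw [hr2] at t0; linarith
      rw [← t0]
      apply ogb_F_of_zero
      change 2 ≤ |r * U 0| ∨ 2 ≤ |r * U 1| ∨ 1 ≤ |b|
      by_contra hcon
      push Not at hcon
      apply hu
      rw [e0, e1, hr2] at hcon
      exact ⟨hU2, by linarith [hcon.1], by linarith [hcon.2.1]⟩
    · have hG : max (|r * U 0| - 2) (max (|r * U 1| - 2) (max (|b| - 1) (max (2 + r * U 2 - 4)
          (min (1 - |r * U 0|) (min (1 - |r * U 1|) (1 - |2 + r * U 2 - 2|)))))) = 0 := by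
        rw [et]
        apply le_antisymm
        · refine max_le (by linarith) (max_le (by linarith) (max_le (by linarith)
            (max_le (by linarith [s2'.2]) ?_)))
          rcases s3 with s3 | s3 | s3
          · exact min_le_of_left_le (by linarith)
          · exact min_le_of_right_le (min_le_of_left_le (by linarith))
          · exact min_le_of_right_le (min_le_of_right_le (by linarith))
        · rcases le_max_iff.1 hab.ge with h | h
          · rcases le_abs.1 h with h | h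
            · -- `r = 2`
              have hr2 : r = 2 := by linarith
              rcases s3 with s3 | s3 | s3
              · exact le_max_of_le_left (by linarith)
              · exact le_max_of_le_right (le_max_of_le_left (by linarith))
              · rcases le_abs.1 s3 with s3 | s3
                · exact le_max_of_le_right (le_max_of_le_right (le_max_of_le_right
                    (le_max_of_le_left (by linarith))))
                · linarith
            · have hr1 : r = 1 := by linarith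
              refine le_max_of_le_right (le_max_of_le_right (le_max_of_le_right
                    (le_max_of_le_right ?_)))
              exact le_min (by linarith) (le_min (by linarith) (by linarith))
          · exact le_max_of_le_right (le_max_of_le_right (le_max_of_le_left (by linarith)))
      have e : F ![r * U 0, r * U 1, b] (2 + r * U 2) = min (2 + r * U 2)
        (max (|r * U 0| - 2) (max (|r * U 1| - 2) (max (|b| - 1) (max (2 + r * U 2 - 4)
          (min (1 - |r * U 0|) (min (1 - |r * U 1|) (1 - |2 + r * U 2 - 2|))))))) := rfl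
      rw [e, hG]
      exact min_eq_right t0.le
  · change |r * U 0| ≤ 2
    linarith
  · change |r * U 1| ≤ 2
    linarith
  · exact hb
  · change 2 ≤ 2 + r * U 2 ∨ |2 - (2 + r * U 2)| ≤ |r * U 0| ∨ |2 - (2 + r * U 2)| ≤ |r * U 1|
    have e : |2 - (2 + r * U 2)| = |r * U 2| := by
      rw [← abs_neg]
      congr 1
      ring
    rw [e]
    by_contra hcon
    push Not at hcon
    obtain ⟨c0, c1, c2⟩ := hcon
    have c3 : U 2 < 0 := by
      by_contra h
      push Not at h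
      nlinarith [mul_nonneg r0.le h]
    rw [e0, e2] at c1
    rw [e1, e2] at c2
    have c1' := lt_of_mul_lt_mul_left c1 r0.le
    have c2' := lt_of_mul_lt_mul_left c2 r0.le
    have c4 : |U 2| = 1 := by
      rcases u3 with u3 | u3 | u3
      · linarith
      · linarith
      · exact le_antisymm u2 u3
    apply hu
    refine ⟨?_, by linarith, by linarith⟩
    rw [abs_of_neg c3] at c4
    linarith

/-- The boundary of the square. -/
def SQ : Set (ℝ × ℝ) := {x | max |x.1| |x.2| = 1}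

/-- The projection of the boundary of the square to the circle. -/
noncomputable def rbn (x : ℝ × ℝ) : Circle := Circle.exp (arg ⟨x.1, x.2⟩)

/-- Its inverse. -/
noncomputable def rbi (ν : Circle) : ℝ × ℝ :=
  ((ν : ℂ).re / max |(ν : ℂ).re| |(ν : ℂ).im|, (ν : ℂ).im / max |(ν : ℂ).re| |(ν : ℂ).im|)

open Classical in
/-- The continuous function on the boundary of the square. -/
noncomputable def rbl (x : ℝ × ℝ) : ℝ :=
  if x.1 = -1 then Real.pi * x.2 - Real.arctan x.2 else arg ⟨x.1, x.2⟩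

theorem SQ_ne {x : ℝ × ℝ} (hx : x ∈ SQ) : (⟨x.1, x.2⟩ : ℂ) ≠ 0 := by
  intro h
  have h1 : x.1 = 0 := congrArg Complex.re h
  have h2 : x.2 = 0 := congrArg Complex.im h
  have h3 : max |x.1| |x.2| = 1 := hx
  rw [h1, h2] at h3
  norm_num at h3

theorem rbn_coe {x : ℝ × ℝ} (hx : x ∈ SQ) :
    (rbn x : ℂ) = (⟨x.1, x.2⟩ : ℂ) / (‖(⟨x.1, x.2⟩ : ℂ)‖ : ℂ) := by
  have h := Complex.norm_mul_exp_arg_mul_I (⟨x.1, x.2⟩ : ℂ)
  have h0 : (‖(⟨x.1, x.2⟩ : ℂ)‖ : ℂ) ≠ 0 := by
    rw [Ne, Complex.ofReal_eq_zero, norm_eq_zero]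
    exact SQ_ne hx
  rw [eq_div_iff h0, mul_comm]
  exact h

theorem rb_mk_continuous : Continuous fun x : ℝ × ℝ => (⟨x.1, x.2⟩ : ℂ) := by
  have : (fun x : ℝ × ℝ => (⟨x.1, x.2⟩ : ℂ)) = fun x => (x.1 : ℂ) + (x.2 : ℂ) * I := by
    funext x
    apply Complex.ext <;> simp
  rw [this]
  fun_prop

theorem rbn_continuousOn : ContinuousOn rbn SQ := by
  have hi : Topology.IsInducing (fun z : Circle => (z : ℂ)) := ⟨rfl⟩
  rw [hi.continuousOn_iff]
  have h : ContinuousOn (fun x : ℝ × ℝ => (⟨x.1, x.2⟩ : ℂ) / (‖(⟨x.1, x.2⟩ : ℂ)‖ : ℂ)) SQ := by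
    refine ContinuousOn.div rb_mk_continuous.continuousOn
      (Complex.continuous_ofReal.comp rb_mk_continuous.norm).continuousOn ?_
    intro x hx
    rw [Ne, Complex.ofReal_eq_zero, norm_eq_zero]
    exact SQ_ne hx
  exact h.congr fun x hx => rbn_coe hx

theorem rb_pos (ν : Circle) : 0 < max |(ν : ℂ).re| |(ν : ℂ).im| := by
  by_contra hcon
  push Not at hcon
  obtain ⟨h1, h2⟩ := max_le_iff.1 hcon
  apply Circle.coe_ne_zero ν
  apply Complex.ext
  · exact abs_eq_zero.1 (le_antisymm h1 (abs_nonneg _))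
  · exact abs_eq_zero.1 (le_antisymm h2 (abs_nonneg _))

theorem rbi_mem (ν : Circle) : rbi ν ∈ SQ := by
  have h := rb_pos ν
  change max (|((ν : ℂ).re / (max |(ν : ℂ).re| |(ν : ℂ).im|))|)
    (|((ν : ℂ).im / (max |(ν : ℂ).re| |(ν : ℂ).im|))|) = 1
  rw [abs_div, abs_div, abs_of_pos h, max_div_div_right h.le, div_self h.ne']

theorem rbi_continuous : Continuous rbi := by
  have hc : Continuous (fun z : Circle => (z : ℂ)) := by fun_prop
  have h1 : Continuous (fun z : Circle => (z : ℂ).re) := Complex.continuous_re.comp hc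
  have h2 : Continuous (fun z : Circle => (z : ℂ).im) := Complex.continuous_im.comp hc
  have h3 : Continuous (fun z : Circle => max |(z : ℂ).re| |(z : ℂ).im|) :=
    (h1.abs).max h2.abs
  exact (h1.div h3 fun z => (rb_pos z).ne').prodMk (h2.div h3 fun z => (rb_pos z).ne')

theorem rbi_rbn {x : ℝ × ℝ} (hx : x ∈ SQ) : rbi (rbn x) = x := by
  have h0 : 0 < ‖(⟨x.1, x.2⟩ : ℂ)‖ := norm_pos_iff.2 (SQ_ne hx)
  have e := rbn_coe hx
  have e1 : (rbn x : ℂ).re = x.1 / ‖(⟨x.1, x.2⟩ : ℂ)‖ := by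
    rw [e, Complex.div_ofReal_re]
  have e2 : (rbn x : ℂ).im = x.2 / ‖(⟨x.1, x.2⟩ : ℂ)‖ := by
    rw [e, Complex.div_ofReal_im]
  have e3 : max |(rbn x : ℂ).re| |(rbn x : ℂ).im| = 1 / ‖(⟨x.1, x.2⟩ : ℂ)‖ := by
    rw [e1, e2, abs_div, abs_div, abs_of_pos h0, max_div_div_right h0.le]
    have : max |x.1| |x.2| = 1 := hx
    rw [this]
  unfold rbi
  rw [e3, e1, e2]
  apply Prod.ext
  · change x.1 / ‖(⟨x.1, x.2⟩ : ℂ)‖ / (1 / ‖(⟨x.1, x.2⟩ : ℂ)‖) = x.1
    field_simp
  · change x.2 / ‖(⟨x.1, x.2⟩ : ℂ)‖ / (1 / ‖(⟨x.1, x.2⟩ : ℂ)‖) = x.2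
    field_simp

theorem rbn_rbi (ν : Circle) : rbn (rbi ν) = ν := by
  have h := rb_pos ν
  have e : (⟨(rbi ν).1, (rbi ν).2⟩ : ℂ) =
      ((max |(ν : ℂ).re| |(ν : ℂ).im|)⁻¹ : ℝ) * (ν : ℂ) := by
    apply Complex.ext
    · rw [Complex.re_ofReal_mul]
      change (ν : ℂ).re / _ = _
      rw [div_eq_inv_mul]
    · rw [Complex.im_ofReal_mul]
      change (ν : ℂ).im / _ = _
      rw [div_eq_inv_mul]
  unfold rbn
  rw [e, Complex.arg_real_mul _ (inv_pos.2 h), Circle.exp_arg]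

theorem rb_arg {b : ℝ} {θ : ℝ} (hθ : θ ∈ Set.Ioc (-Real.pi) Real.pi)
    (hc : Real.cos θ = -Real.cos (Real.arctan b)) (hs : Real.sin θ = Real.sin (Real.arctan b)) :
    arg ⟨-1, b⟩ = θ := by
  have hr : 0 < √(1 + b ^ 2) := Real.sqrt_pos.2 (by positivity)
  have e : (⟨-1, b⟩ : ℂ) = (√(1 + b ^ 2) : ℝ) * (Complex.cos θ + Complex.sin θ * I) := by
    apply Complex.ext
    · rw [Complex.re_ofReal_mul]
      have : (Complex.cos θ + Complex.sin θ * I).re = Real.cos θ := by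
        rw [← Complex.ofReal_cos, ← Complex.ofReal_sin, Complex.add_re, Complex.ofReal_re,
          Complex.re_ofReal_mul, Complex.I_re, mul_zero, add_zero]
      rw [this, hc, Real.cos_arctan]
      change (-1 : ℝ) = _
      field_simp
    · rw [Complex.im_ofReal_mul]
      have : (Complex.cos θ + Complex.sin θ * I).im = Real.sin θ := by
        rw [← Complex.ofReal_cos, ← Complex.ofReal_sin, Complex.add_im, Complex.ofReal_im,
          Complex.im_ofReal_mul, Complex.I_im, mul_one, zero_add]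
      rw [this, hs, Real.sin_arctan]
      change b = _
      field_simp
  rw [e, Complex.arg_mul_cos_add_sin_mul_I hr hθ]

theorem rb_arg_nonneg {b : ℝ} (hb : 0 ≤ b) : arg ⟨-1, b⟩ = Real.pi - Real.arctan b := by
  have h1 : 0 ≤ Real.arctan b := Real.arctan_nonneg.2 hb
  have h2 := Real.arctan_lt_pi_div_two b
  have h3 := Real.pi_pos
  refine rb_arg ⟨by linarith, by linarith⟩ ?_ ?_
  · rw [Real.cos_pi_sub]
  · rw [Real.sin_pi_sub]

theorem rb_arg_neg {b : ℝ} (hb : b < 0) : arg ⟨-1, b⟩ = -Real.pi - Real.arctan b := by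
  have h1 : Real.arctan b < 0 := Real.arctan_lt_zero.2 hb
  have h2 := Real.neg_pi_div_two_lt_arctan b
  have h3 := Real.pi_pos
  have e : -Real.pi - Real.arctan b = -(Real.arctan b + Real.pi) := by ring
  refine rb_arg ⟨by linarith, by linarith⟩ ?_ ?_
  · rw [e, Real.cos_neg, Real.cos_add_pi]
  · rw [e, Real.sin_neg, Real.sin_add_pi, neg_neg]

theorem rb_exp_arg (b : ℝ) : Circle.exp (Real.pi * (1 + b)) * Circle.exp (arg ⟨-1, b⟩) =
    Circle.exp (Real.pi * b - Real.arctan b) := by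
  rcases le_or_gt 0 b with hb | hb
  · rw [rb_arg_nonneg hb, ← Circle.exp_add]
    have : Real.pi * (1 + b) + (Real.pi - Real.arctan b) =
      (Real.pi * b - Real.arctan b) + 2 * Real.pi := by ring
    rw [this, Circle.exp_add, Circle.exp_two_pi, mul_one]
  · rw [rb_arg_neg hb, ← Circle.exp_add]
    congr 1
    ring

theorem rbl_continuousOn : ContinuousOn rbl SQ := by
  intro x hx
  have hx' : max |x.1| |x.2| = 1 := hx
  have cA : Continuous fun y : ℝ × ℝ => Real.pi * y.2 - Real.arctan y.2 :=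
    (continuous_const.mul continuous_snd).sub (Real.continuous_arctan.comp continuous_snd)
  by_cases h1 : x.1 = -1
  · have hle : |x.2| ≤ 1 := le_of_max_le_right hx'.le
    have e1 : rbl x = Real.pi * x.2 - Real.arctan x.2 := by
      unfold rbl
      rw [if_pos h1]
    rcases hle.lt_or_eq with h2 | h2
    · have hO : IsOpen {y : ℝ × ℝ | |y.2| < 1 ∧ y.1 < 0} :=
        IsOpen.and (isOpen_lt (by fun_prop) continuous_const)
          (isOpen_lt continuous_fst continuous_const)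
      have hev : ∀ᶠ y in nhdsWithin x SQ, Real.pi * y.2 - Real.arctan y.2 = rbl y := by
        filter_upwards [self_mem_nhdsWithin, mem_nhdsWithin_of_mem_nhds
          (hO.mem_nhds ⟨h2, by rw [h1]; norm_num⟩)] with y hy hyO
        have hy' : max |y.1| |y.2| = 1 := hy
        obtain ⟨y1, y2⟩ := hyO
        have y3 : |y.1| = 1 := by
          rcases max_choice |y.1| |y.2| with h | h
          · rw [← h]; exact hy'
          · rw [h] at hy'; linarith
        rw [abs_of_neg y2] at y3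
        unfold rbl
        rw [if_pos (by linarith)]
      unfold ContinuousWithinAt
      rw [e1]
      exact Filter.Tendsto.congr' hev (cA.continuousAt.continuousWithinAt)
    · have e2 : (arg ⟨x.1, x.2⟩ : ℝ) = Real.pi * x.2 - Real.arctan x.2 := by
        rw [h1]
        rcases abs_eq (zero_le_one' ℝ) |>.1 h2 with h2 | h2
        · rw [h2, rb_arg_nonneg zero_le_one, mul_one]
        · rw [h2, rb_arg_neg (by norm_num)]
          ring
      have hs : (⟨x.1, x.2⟩ : ℂ) ∈ slitPlane := by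
        right
        change x.2 ≠ 0
        intro h
        rw [h] at h2
        norm_num at h2
      have t1 : Filter.Tendsto (fun y : ℝ × ℝ => Real.pi * y.2 - Real.arctan y.2)
          (nhdsWithin x SQ) (nhds (Real.pi * x.2 - Real.arctan x.2)) :=
        cA.continuousAt.continuousWithinAt
      have t2 : Filter.Tendsto (fun y : ℝ × ℝ => (arg ⟨y.1, y.2⟩ : ℝ))
          (nhdsWithin x SQ) (nhds (Real.pi * x.2 - Real.arctan x.2)) := by
        rw [← e2]
        exact (ContinuousAt.comp (g := arg) (f := fun y : ℝ × ℝ => (⟨y.1, y.2⟩ : ℂ))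
          (Complex.continuousAt_arg hs) rb_mk_continuous.continuousAt).continuousWithinAt
      classical
      have t3 := Filter.Tendsto.if' (p := fun y : ℝ × ℝ => y.1 = -1) t1 t2
      unfold ContinuousWithinAt
      rw [e1]
      refine Filter.Tendsto.congr (fun y => ?_) t3
      unfold rbl
      congr
  · have e1 : rbl x = arg ⟨x.1, x.2⟩ := by
      unfold rbl
      rw [if_neg h1]
    have hs : (⟨x.1, x.2⟩ : ℂ) ∈ slitPlane := by
      by_cases h2 : x.2 = 0
      · left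
        change 0 < x.1
        rw [h2, abs_zero, max_eq_left (abs_nonneg _)] at hx'
        rcases abs_eq (zero_le_one' ℝ) |>.1 hx' with h3 | h3
        · rw [h3]; norm_num
        · exact absurd h3 h1
      · right
        exact h2
    have hev : ∀ᶠ y in nhdsWithin x SQ, (arg ⟨y.1, y.2⟩ : ℝ) = rbl y := by
      have hO : IsOpen {y : ℝ × ℝ | y.1 ≠ -1} := isOpen_ne_fun continuous_fst continuous_const
      filter_upwards [mem_nhdsWithin_of_mem_nhds (hO.mem_nhds h1)] with y hy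
      unfold rbl
      rw [if_neg hy]
    unfold ContinuousWithinAt
    rw [e1]
    exact Filter.Tendsto.congr' hev (ContinuousAt.comp (g := arg)
      (f := fun y : ℝ × ℝ => (⟨y.1, y.2⟩ : ℂ))
      (Complex.continuousAt_arg hs) rb_mk_continuous.continuousAt).continuousWithinAt

/-- The relation between `tauN` and the circle coordinate. -/
theorem rb_tau {p : Fin 3 → ℝ} {t : ℝ} (h : RbP p t) :
    tauN (chart p, t) * rbn (2 * rbr (p 0) (p 1) (t - 2) - 3, p 2) =
      Circle.exp (rbl (2 * rbr (p 0) (p 1) (t - 2) - 3, p 2)) := by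
  obtain ⟨g1, g2, -⟩ := rb_fwd h
  obtain ⟨e1, e2, e3, -, -, -, -⟩ := ogb_chart_apply p
  have hpos := chart_zero_zero_pos p
  by_cases hr : rbr (p 0) (p 1) (t - 2) = 1
  · have h1 : (2 * rbr (p 0) (p 1) (t - 2) - 3, p 2) = ((-1 : ℝ), p 2) := by
      rw [hr]; norm_num
    rw [h1]
    obtain ⟨a0, a1, a2⟩ := rbr_le.1 hr.le
    have a3 := abs_le.1 a2
    have hcond : 0 < (chart p, t).1 0 0 ∧ |(chart p, t).1 0 1| ≤ (chart p, t).1 0 0 ∧
        |(chart p, t).1 0 2| ≤ (chart p, t).1 0 0 ∧ 1 ≤ (chart p, t).2 ∧ (chart p, t).2 ≤ 3 := by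
      refine ⟨hpos, ?_, ?_, ?_, ?_⟩
      · change |chart p 0 1| ≤ chart p 0 0
        rw [e1]
        have := (ogb_abs_le (a := p 0) (c := 1) hpos).2 a0
        linarith
      · change |chart p 0 2| ≤ chart p 0 0
        rw [e2]
        have := (ogb_abs_le (a := p 1) (c := 1) hpos).2 a1
        linarith
      · change 1 ≤ t
        linarith [a3.1]
      · change t ≤ 3
        linarith [a3.2]
    have e : tauN (chart p, t) = Circle.exp (Real.pi * (1 + p 2)) := by
      unfold tauN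
      rw [if_pos hcond]
      change Circle.exp (Real.pi * (1 + chart p 0 3 / chart p 0 0)) = _
      rw [e3, mul_div_cancel_right₀ _ hpos.ne']
    rw [e]
    unfold rbn rbl
    rw [if_pos rfl]
    exact rb_exp_arg (p 2)
  · have hcond : ¬ (0 < (chart p, t).1 0 0 ∧ |(chart p, t).1 0 1| ≤ (chart p, t).1 0 0 ∧
        |(chart p, t).1 0 2| ≤ (chart p, t).1 0 0 ∧ 1 ≤ (chart p, t).2 ∧ (chart p, t).2 ≤ 3) := by
      rintro ⟨-, h1, h2, h3, h4⟩
      change |chart p 0 1| ≤ chart p 0 0 at h1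
      change |chart p 0 2| ≤ chart p 0 0 at h2
      change 1 ≤ t at h3
      change t ≤ 3 at h4
      rw [e1] at h1
      rw [e2] at h2
      have h1' := (ogb_abs_le (a := p 0) (c := 1) hpos).1 (by linarith)
      have h2' := (ogb_abs_le (a := p 1) (c := 1) hpos).1 (by linarith)
      exact hr (le_antisymm (rbr_le.2 ⟨h1', h2', abs_le.2 ⟨by linarith, by linarith⟩⟩) g1)
    have e : tauN (chart p, t) = 1 := by
      unfold tauN
      rw [if_neg hcond]
    rw [e, one_mul]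
    unfold rbn rbl
    rw [if_neg]
    intro h1
    change 2 * rbr (p 0) (p 1) (t - 2) - 3 = -1 at h1
    exact hr (by linarith)

/-- The affine coordinates of a point over the box. -/
noncomputable def rbp (u : UT) : Fin 3 → ℝ :=
  ![cA u 0 1 / cA u 0 0, cA u 0 2 / cA u 0 0, cA u 0 3 / cA u 0 0]

theorem rb_data {u : UT} (hu : u ∈ U3 ∩ B1F) :
    cA u = chart (rbp u) ∧ RbP (rbp u) u.1.1.1.2 := by
  obtain ⟨⟨hN, -, -⟩, ⟨b1, b2, b3⟩, hB⟩ := hu
  rcases hN with ⟨p, hp, hF⟩ | ⟨hR, h0, -⟩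
  · have hp' : cA u = chart p := hp
    obtain ⟨e1, e2, e3, e4, e5, e6, -⟩ := ogb_chart_apply p
    have hpos := chart_zero_zero_pos p
    have hrb : rbp u = p := by
      unfold rbp
      rw [hp', e1, e2, e3, mul_div_cancel_right₀ _ hpos.ne', mul_div_cancel_right₀ _ hpos.ne',
        mul_div_cancel_right₀ _ hpos.ne']
      funext i
      fin_cases i <;> rfl
    rw [hrb]
    refine ⟨hp', hF, ?_, ?_, ?_, ?_⟩
    · rw [hp', e4] at b1
      have := le_of_mul_le_mul_right b1 hpos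
      exact abs_le_of_sq_le_sq (by linarith) (by norm_num)
    · rw [hp', e5] at b2
      have := le_of_mul_le_mul_right b2 hpos
      exact abs_le_of_sq_le_sq (by linarith) (by norm_num)
    · rw [hp', e6] at b3
      have := le_of_mul_le_mul_right (by linarith : p 2 ^ 2 * chart p 0 0 ≤ 1 * chart p 0 0) hpos
      exact abs_le_of_sq_le_sq (by linarith) (by norm_num)
    · rw [hp', e4, e5] at hB
      rcases hB with hB | hB | hB
      · exact Or.inl hB
      · right; left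
        have := le_of_mul_le_mul_right hB hpos
        exact sq_le_sq.1 this
      · right; right
        have := le_of_mul_le_mul_right hB hpos
        exact sq_le_sq.1 this
  · exfalso
    change cA u 0 0 = 0 at h0
    rw [h0] at b1 b2 b3
    obtain ⟨q, hq, hA⟩ := hR
    change cA u = outer q at hA
    rw [hA] at h0 b1 b2 b3
    simp only [outer] at h0 b1 b2 b3
    rw [Fin.sum_univ_four] at hq
    nlinarith

theorem rb_mk {p : Fin 3 → ℝ} {t : ℝ} {θ v : Circle} {z : ℂ × ℂ} (h : RbP p t) (hz : z ∈ Z)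
    (hv : (v : ℂ) ^ 3 = ((tauN (chart p, t) : ℂ) * (θ : ℂ) ^ 3) * thetaZ z) :
    (((((chart p, t), θ), z), v) : UT) ∈ U3 ∩ B1F := by
  obtain ⟨e1, e2, e3, e4, e5, e6, -⟩ := ogb_chart_apply p
  have hpos := chart_zero_zero_pos p
  obtain ⟨hF, h0, h1, h2, hB⟩ := h
  have s0 : p 0 ^ 2 ≤ 2 ^ 2 := by
    rw [← sq_abs]
    exact pow_le_pow_left₀ (abs_nonneg _) h0 2
  have s1 : p 1 ^ 2 ≤ 2 ^ 2 := by
    rw [← sq_abs]
    exact pow_le_pow_left₀ (abs_nonneg _) h1 2
  have s2 : p 2 ^ 2 ≤ 1 ^ 2 := by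
    rw [← sq_abs]
    exact pow_le_pow_left₀ (abs_nonneg _) h2 2
  refine ⟨⟨Or.inl ⟨p, rfl, hF⟩, hz, ?_⟩, ⟨?_, ?_, ?_⟩, ?_⟩
  · change (v : ℂ) ^ 3 = ((tauN (chart p, t) * θ ^ 3 : Circle) : ℂ) * thetaZ z
    rw [Circle.coe_mul, Circle.coe_pow]
    exact hv
  · change chart p 1 1 ≤ 4 * chart p 0 0
    rw [e4]
    nlinarith
  · change chart p 2 2 ≤ 4 * chart p 0 0
    rw [e5]
    nlinarith
  · change chart p 3 3 ≤ chart p 0 0
    rw [e6]
    nlinarith
  · change 2 ≤ t ∨ (2 - t) ^ 2 * chart p 0 0 ≤ chart p 1 1 ∨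
      (2 - t) ^ 2 * chart p 0 0 ≤ chart p 2 2
    rw [e4, e5]
    rcases hB with hB | hB | hB
    · exact Or.inl hB
    · right; left
      exact mul_le_mul_of_nonneg_right (sq_le_sq.2 hB) hpos.le
    · right; right
      exact mul_le_mul_of_nonneg_right (sq_le_sq.2 hB) hpos.le

/-- The radius. -/
noncomputable def rbR (u : UT) : ℝ := rbr (rbp u 0) (rbp u 1) (u.1.1.1.2 - 2)

/-- The point of the boundary of the square. -/
noncomputable def rbx (u : UT) : ℝ × ℝ := (2 * rbR u - 3, rbp u 2)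

/-- The point of the sphere. -/
noncomputable def rbU (u : UT) : Fin 3 → ℝ :=
  ![rbp u 0 / rbR u, rbp u 1 / rbR u, (u.1.1.1.2 - 2) / rbR u]

/-- The homeomorphism. -/
noncomputable def rbφ (u : UT) : MT :=
  (((rbn (rbx u), rbU u), (u.1.1.2, u.1.2)), u.2 * Circle.exp (-(rbl (rbx u) / 3)))

/-- The radius from the model. -/
noncomputable def rbs (m : MT) : ℝ := ((rbi m.1.1.1).1 + 3) / 2

/-- Its inverse. -/
noncomputable def rbψ (m : MT) : UT :=
  ((((chart ![rbs m * m.1.1.2 0, rbs m * m.1.1.2 1, (rbi m.1.1.1).2],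
    2 + rbs m * m.1.1.2 2), m.1.2.1), m.1.2.2), m.2 * Circle.exp (rbl (rbi m.1.1.1) / 3))

theorem rbx_mem {u : UT} (hu : u ∈ U3 ∩ B1F) : rbx u ∈ SQ := (rb_fwd (rb_data hu).2).2.2

theorem rb_cube (x : ℝ) : (Circle.exp (x / 3) : ℂ) ^ 3 = (Circle.exp x : ℂ) := by
  rw [← Circle.coe_pow, ← Circle.exp_natCast_mul]
  congr 2
  push_cast
  ring

theorem rb_tau' {u : UT} (hu : u ∈ U3 ∩ B1F) :
    (tauN u.1.1.1 : ℂ) * (rbn (rbx u) : ℂ) = (Circle.exp (rbl (rbx u)) : ℂ) := by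
  obtain ⟨h1, h2⟩ := rb_data hu
  have h := rb_tau h2
  have e : u.1.1.1 = (chart (rbp u), u.1.1.1.2) := Prod.ext h1 rfl
  rw [← Circle.coe_mul, Circle.coe_inj]
  conv_lhs => rw [e]
  exact h

theorem rbφ_maps : MapsTo rbφ (U3 ∩ B1F) MB := by
  intro u hu
  refine ⟨rb_LD (rb_data hu).2 rfl, hu.1.2.1, ?_⟩
  change ((u.2 * Circle.exp (-(rbl (rbx u) / 3)) : Circle) : ℂ) ^ 3 * (rbn (rbx u) : ℂ) =
    (u.1.1.2 : ℂ) ^ 3 * thetaZ u.1.2
  have h1 : (u.2 : ℂ) ^ 3 = ((tauN u.1.1.1 : ℂ) * (u.1.1.2 : ℂ) ^ 3) * thetaZ u.1.2 := by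
    have := hu.1.2.2
    unfold tau at this
    rw [Circle.coe_mul, Circle.coe_pow] at this
    exact this
  have h2 := rb_tau' hu
  have h3 := rb_cube (rbl (rbx u))
  have h4 : (Circle.exp (rbl (rbx u) / 3) : ℂ) ≠ 0 := Circle.coe_ne_zero _
  rw [Circle.exp_neg, Circle.coe_mul, Circle.coe_inv, mul_pow, inv_pow, h3, h1]
  have h5 : (Circle.exp (rbl (rbx u)) : ℂ) ≠ 0 := Circle.coe_ne_zero _
  rw [← h2] at h5 ⊢
  field_simp

theorem rb_model {m : MT} (hm : m ∈ MB) :
    RbP ![rbs m * m.1.1.2 0, rbs m * m.1.1.2 1, (rbi m.1.1.1).2] (2 + rbs m * m.1.1.2 2) ∧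
      rbr (rbs m * m.1.1.2 0) (rbs m * m.1.1.2 1) (2 + rbs m * m.1.1.2 2 - 2) = rbs m :=
  rb_bwd (a := (rbi m.1.1.1).1) (rbi_mem m.1.1.1) hm.1 rfl

theorem rb_x_model {m : MT} : (2 * rbs m - 3, (rbi m.1.1.1).2) = rbi m.1.1.1 := by
  apply Prod.ext
  · change 2 * (((rbi m.1.1.1).1 + 3) / 2) - 3 = (rbi m.1.1.1).1
    ring
  · rfl

theorem rbψ_maps : MapsTo rbψ MB (U3 ∩ B1F) := by
  intro m hm
  obtain ⟨h1, h2⟩ := rb_model hm
  have h3 := rb_tau h1
  change tauN (chart ![rbs m * m.1.1.2 0, rbs m * m.1.1.2 1, (rbi m.1.1.1).2],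
    2 + rbs m * m.1.1.2 2) * rbn (2 * rbr (rbs m * m.1.1.2 0) (rbs m * m.1.1.2 1)
      (2 + rbs m * m.1.1.2 2 - 2) - 3, (rbi m.1.1.1).2) =
    Circle.exp (rbl (2 * rbr (rbs m * m.1.1.2 0) (rbs m * m.1.1.2 1)
      (2 + rbs m * m.1.1.2 2 - 2) - 3, (rbi m.1.1.1).2)) at h3
  rw [h2, rb_x_model, rbn_rbi] at h3
  refine rb_mk h1 hm.2.1 ?_
  have h4 : (m.2 : ℂ) ^ 3 * (m.1.1.1 : ℂ) = (m.1.2.1 : ℂ) ^ 3 * thetaZ m.1.2.2 := hm.2.2
  have h5 := rb_cube (rbl (rbi m.1.1.1))
  rw [Circle.coe_mul, mul_pow, h5, ← h3, Circle.coe_mul]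
  rw [mul_assoc (tauN _ : ℂ) ((m.1.2.1 : ℂ) ^ 3), ← h4]
  ring

theorem rbψφ {u : UT} (hu : u ∈ U3 ∩ B1F) : rbψ (rbφ u) = u := by
  have hx := rbx_mem hu
  obtain ⟨h1, h2⟩ := rb_data hu
  obtain ⟨g1, g2, -⟩ := rb_fwd h2
  have hr : rbR u ≠ 0 := by
    intro h
    have g1' : 1 ≤ rbR u := g1
    rw [h] at g1'
    norm_num at g1'
  have e1 : rbi (rbφ u).1.1.1 = rbx u := rbi_rbn hx
  have e2 : rbs (rbφ u) = rbR u := by
    unfold rbs
    rw [e1]
    change (2 * rbR u - 3 + 3) / 2 = rbR u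
    ring
  have e3 : (![rbR u * (rbφ u).1.1.2 0, rbR u * (rbφ u).1.1.2 1, (rbx u).2] : Fin 3 → ℝ) =
      rbp u := by
    have f0 : rbR u * (rbφ u).1.1.2 0 = rbp u 0 := by
      change rbR u * (rbp u 0 / rbR u) = rbp u 0
      field_simp
    have f1 : rbR u * (rbφ u).1.1.2 1 = rbp u 1 := by
      change rbR u * (rbp u 1 / rbR u) = rbp u 1
      field_simp
    rw [f0, f1]
    funext i
    fin_cases i <;> rfl
  have e4 : 2 + rbR u * (rbφ u).1.1.2 2 = u.1.1.1.2 := by
    change 2 + rbR u * ((u.1.1.1.2 - 2) / rbR u) = _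
    field_simp
    ring
  unfold rbψ
  rw [e1, e2, e3, e4, ← h1]
  have e5 : (rbφ u).2 * Circle.exp (rbl (rbx u) / 3) = u.2 := by
    change u.2 * Circle.exp (-(rbl (rbx u) / 3)) * Circle.exp (rbl (rbx u) / 3) = u.2
    rw [Circle.exp_neg, inv_mul_cancel_right]
  rw [e5]
  rfl

theorem rbφψ {m : MT} (hm : m ∈ MB) : rbφ (rbψ m) = m := by
  obtain ⟨h1, h2⟩ := rb_model hm
  have hpos := chart_zero_zero_pos ![rbs m * m.1.1.2 0, rbs m * m.1.1.2 1, (rbi m.1.1.1).2]
  obtain ⟨e1, e2, e3, -⟩ :=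
    ogb_chart_apply ![rbs m * m.1.1.2 0, rbs m * m.1.1.2 1, (rbi m.1.1.1).2]
  have hp : rbp (rbψ m) = ![rbs m * m.1.1.2 0, rbs m * m.1.1.2 1, (rbi m.1.1.1).2] := by
    unfold rbp
    change (![chart ![rbs m * m.1.1.2 0, rbs m * m.1.1.2 1, (rbi m.1.1.1).2] 0 1 /
      chart ![rbs m * m.1.1.2 0, rbs m * m.1.1.2 1, (rbi m.1.1.1).2] 0 0,
      chart ![rbs m * m.1.1.2 0, rbs m * m.1.1.2 1, (rbi m.1.1.1).2] 0 2 /
      chart ![rbs m * m.1.1.2 0, rbs m * m.1.1.2 1, (rbi m.1.1.1).2] 0 0,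
      chart ![rbs m * m.1.1.2 0, rbs m * m.1.1.2 1, (rbi m.1.1.1).2] 0 3 /
      chart ![rbs m * m.1.1.2 0, rbs m * m.1.1.2 1, (rbi m.1.1.1).2] 0 0] : Fin 3 → ℝ) = _
    rw [e1, e2, e3, mul_div_cancel_right₀ _ hpos.ne', mul_div_cancel_right₀ _ hpos.ne',
      mul_div_cancel_right₀ _ hpos.ne']
    funext i
    fin_cases i <;> rfl
  have hR : rbR (rbψ m) = rbs m := by
    unfold rbR
    rw [hp]
    exact h2
  have hx : rbx (rbψ m) = rbi m.1.1.1 := by
    unfold rbx
    rw [hR, hp]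
    exact rb_x_model
  have hr : rbs m ≠ 0 := by
    have h3 : |(rbi m.1.1.1).1| ≤ 1 := le_of_max_le_left (le_of_eq (rbi_mem m.1.1.1))
    have h4 := (abs_le.1 h3).1
    unfold rbs
    intro h
    linarith
  have hU : rbU (rbψ m) = m.1.1.2 := by
    unfold rbU
    rw [hR, hp]
    have f0 : rbs m * m.1.1.2 0 / rbs m = m.1.1.2 0 := by field_simp
    have f1 : rbs m * m.1.1.2 1 / rbs m = m.1.1.2 1 := by field_simp
    have f2 : (2 + rbs m * m.1.1.2 2 - 2) / rbs m = m.1.1.2 2 := by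
      field_simp
      ring
    change (![rbs m * m.1.1.2 0 / rbs m, rbs m * m.1.1.2 1 / rbs m,
      (2 + rbs m * m.1.1.2 2 - 2) / rbs m] : Fin 3 → ℝ) = _
    rw [f0, f1, f2]
    funext i
    fin_cases i <;> rfl
  unfold rbφ
  rw [hx, hU, rbn_rbi]
  have e5 : (rbψ m).2 * Circle.exp (-(rbl (rbi m.1.1.1) / 3)) = m.2 := by
    change m.2 * Circle.exp (rbl (rbi m.1.1.1) / 3) * Circle.exp (-(rbl (rbi m.1.1.1) / 3)) = m.2
    rw [Circle.exp_neg, mul_inv_cancel_right]
  rw [e5]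
  rfl

theorem rbp_cont (i : Fin 3) : ContinuousOn (fun u => rbp u i) (U3 ∩ B1F) := by
  have hc : ∀ i j, Continuous fun u : UT => cA u i j := fun i j => by
    have := cA_continuous
    fun_prop
  have h0 : ∀ u ∈ U3 ∩ B1F, cA u 0 0 ≠ 0 := by
    intro u hu
    rw [(rb_data hu).1]
    exact (chart_zero_zero_pos _).ne'
  fin_cases i
  · exact (hc 0 1).continuousOn.div (hc 0 0).continuousOn h0
  · exact (hc 0 2).continuousOn.div (hc 0 0).continuousOn h0
  · exact (hc 0 3).continuousOn.div (hc 0 0).continuousOn h0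

theorem rb_t_cont : Continuous (fun u : UT => u.1.1.1.2 - 2) := by fun_prop

theorem rbR_cont : ContinuousOn rbR (U3 ∩ B1F) := by
  unfold rbR rbr
  exact continuous_max.comp_continuousOn ((rbp_cont 0).abs.prodMk
    (continuous_max.comp_continuousOn ((rbp_cont 1).abs.prodMk rb_t_cont.abs.continuousOn)))

theorem rbx_cont : ContinuousOn rbx (U3 ∩ B1F) := by
  unfold rbx
  exact ((continuousOn_const.mul rbR_cont).sub continuousOn_const).prodMk (rbp_cont 2)

theorem rbR_ne {u : UT} (hu : u ∈ U3 ∩ B1F) : rbR u ≠ 0 := by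
  have g1 : 1 ≤ rbR u := (rb_fwd (rb_data hu).2).1
  intro h
  rw [h] at g1
  norm_num at g1

theorem rbU_cont : ContinuousOn rbU (U3 ∩ B1F) := by
  rw [continuousOn_pi]
  intro i
  fin_cases i
  · exact (rbp_cont 0).div rbR_cont fun u hu => rbR_ne hu
  · exact (rbp_cont 1).div rbR_cont fun u hu => rbR_ne hu
  · exact rb_t_cont.continuousOn.div rbR_cont fun u hu => rbR_ne hu

theorem rbφ_cont : ContinuousOn rbφ (U3 ∩ B1F) := by
  unfold rbφ
  have hn : ContinuousOn (fun u => rbn (rbx u)) (U3 ∩ B1F) :=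
    rbn_continuousOn.comp rbx_cont fun u hu => rbx_mem hu
  have hl : ContinuousOn (fun u => -(rbl (rbx u) / 3)) (U3 ∩ B1F) :=
    ((rbl_continuousOn.comp rbx_cont fun u hu => rbx_mem hu).div_const 3).neg
  have he : ContinuousOn (fun u => Circle.exp (-(rbl (rbx u) / 3))) (U3 ∩ B1F) :=
    Circle.exp.continuous.comp_continuousOn hl
  refine ((hn.prodMk rbU_cont).prodMk ?_).prodMk ?_
  · exact Continuous.continuousOn (by fun_prop)
  · exact (Continuous.continuousOn (by fun_prop)).mul he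

theorem rbψ_cont : Continuous rbψ := by
  unfold rbψ
  have hν : Continuous (fun m : MT => rbi m.1.1.1) := rbi_continuous.comp (by fun_prop)
  have hs : Continuous rbs := by
    unfold rbs
    exact (hν.fst.add continuous_const).div_const 2
  have hl0 : Continuous (fun m : MT => rbl (rbi m.1.1.1)) :=
    rbl_continuousOn.comp_continuous hν fun m => rbi_mem _
  have hl : Continuous (fun m : MT => Circle.exp (rbl (rbi m.1.1.1) / 3)) :=
    Circle.exp.continuous.comp (hl0.div_const 3)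
  have hU : ∀ i, Continuous (fun m : MT => rbs m * m.1.1.2 i) := fun i =>
    hs.mul (by fun_prop)
  have hp : Continuous (fun m : MT =>
      (![rbs m * m.1.1.2 0, rbs m * m.1.1.2 1, (rbi m.1.1.1).2] : Fin 3 → ℝ)) := by
    rw [continuous_pi_iff]
    intro i
    fin_cases i
    · exact hU 0
    · exact hU 1
    · exact hν.snd
  refine ((((chart_continuous.comp hp).prodMk (continuous_const.add (hU 2))).prodMk ?_).prodMk
    ?_).prodMk ?_
  · fun_prop
  · fun_prop
  · exact continuous_snd.mul hl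

theorem rb_homeo : ∃ (φ : UT → MT) (ψ : MT → UT), SHomeo (U3 ∩ B1F) MB φ ψ ∧
    ∀ u ∈ U3 ∩ B1F, φ (TU u) = TB (φ u) := by
  refine ⟨rbφ, rbψ, ⟨rbφ_cont, rbψ_cont.continuousOn, rbφ_maps, rbψ_maps, fun u hu => rbψφ hu,
    fun m hm => rbφψ hm⟩, ?_⟩
  intro u _
  change (((rbn (rbx u), rbU u), (u.1.1.2, u.1.2)), (om * u.2) * Circle.exp (-(rbl (rbx u) / 3))) =
    (((rbn (rbx u), rbU u), (u.1.1.2, u.1.2)), om * (u.2 * Circle.exp (-(rbl (rbx u) / 3))))
  rw [mul_assoc]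

end Pool.Agent.Helper77.DS
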