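import Pool.Agent.Helper77.DS.HzB
import Pool.Agent.Helper36.AS.Line

/-!
# DS-TpA: the second cohomology of line times tripod

Let `st (s, y) = [0 < s]`, `γ_k (s, y) = [y ∈ leg_k and 1 ≤ |y|]`, `leg_k = {ρ ω^k | ρ ≥ 0}`, `k = 0, 1, 2`,
`c_k = cup 1 (d st) (d γ_k)`: a cocycle with support `{(0, ω^k)}`. `pull Rr c_k = c_{k-1}` (indices mod 3) on `RT`.
`c_0 + c_1 + c_2 = cup 1 (d st) (d [1 ≤ |y|])` is the coboundary (mod 2) of `cup 1 (d st) [|y| < 1]`, which has the
compact support `{s = 0, |y| ≤ 1}`.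
Generation: `ℝ × (leg_0 ∪ leg_1) ≅ ℝ × ℝ` and `ℝ × (leg_2 \ 0) ≅ ℝ × ℝ`. By `AS/Line.lean` (b) twice every class of
degree 2 of `ℝ × ℝ` is `0` or the class of `cup 1 (d st) (d [0 < t])`; the same with `[1 ≤ t]` instead of `[0 < t]` (the
difference is `d` of a compactly supported cochain), i.e. it is `0` or the restriction of `c_0`, resp. (for
`leg_2 \ 0`, and any cut point) of `c_2`. So for a cocycle `f` on `RT` there is `a ∈ {0, 1}` such that `f - a c_0`
restricts to zero on `ℝ × (leg_0 ∪ leg_1)`, hence (`incl_eq_zero_iff_ext`) comes from `ℝ × (leg_2 \ 0)` and is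
`b c_2` up to a coboundary. So every class is `a c_0 + b c_2`: at most 4 classes, and `e = 1 + R + R²` kills
`c_0` and `c_2`.
-/

namespace Pool.Agent.Helper77.DS

open Set Complex Helper36.AS

open Filter Topology in
private theorem lineC_cob {Y : Type*} [MetricSpace Y] {B : Set Y} (hB : LCpt B) {n : ℕ}
    {f : List Y → ZMod 2} (hf : f ∈ coboundaries (ZMod 2) IsCompact B n) :
    lineC f ∈ coboundaries (ZMod 2) IsCompact ((univ : Set ℝ) ×ˢ B) (n + 1) := by
  have hfc := coboundaries_le_cocycles _ _ _ hf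
  have h2 : (cls _ (lineC_mem hfc) : Hc (ZMod 2) ((univ : Set ℝ) ×ˢ B : Set (ℝ × Y)) (n + 1)) =
      0 := by
    rw [← line_delta hB hfc]
    have h2 : (cls _ (mid_mem hfc) : HS (ZMod 2) IsCompact
        ((Iic (0 : ℝ) ×ˢ B) ∩ (Ici (0 : ℝ) ×ˢ B)) n) = 0 := by
      rw [cls_eq_zero_iff]
      have hm : SMap IsCompact IsCompact ((Iic (0 : ℝ) ×ˢ B) ∩ (Ici (0 : ℝ) ×ˢ B)) B
          (Prod.snd : ℝ × Y → Y) :=
        SMap.of_homeo (ψ := fun y => ((0 : ℝ), y)) continuous_snd.continuousOn
          (fun p hp => hp.1.2) (by fun_prop)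
          (fun y hy => ⟨⟨le_refl (0 : ℝ), hy⟩, ⟨le_refl (0 : ℝ), hy⟩⟩)
          fun p hp => Prod.ext (le_antisymm hp.2.1 hp.1.1) rfl
      exact hm.pull_mem_coboundaries hf
    rw [h2, map_zero]
  exact cls_eq_zero_iff.1 h2

private theorem lineC_add {Y : Type*} (f g : List Y → ZMod 2) :
    lineC (f + g) = lineC f + lineC g := by
  unfold lineC
  have : pull (Prod.snd : ℝ × Y → Y) (f + g) = pull Prod.snd f + pull Prod.snd g := rfl
  rw [this, cup_add_right]

private theorem lineC_sub {Y : Type*} (f g : List Y → ZMod 2) :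
    lineC (f - g) = lineC f - lineC g := by
  unfold lineC
  have : pull (Prod.snd : ℝ × Y → Y) (f - g) = pull Prod.snd f - pull Prod.snd g := rfl
  rw [this, cup_sub_right]

private theorem lineC_smul {Y : Type*} (c : ZMod 2) (f : List Y → ZMod 2) :
    lineC (c • f) = c • lineC f := by
  unfold lineC
  have : pull (Prod.snd : ℝ × Y → Y) (c • f) = c • pull Prod.snd f := rfl
  rw [this, cup_smul_right]

/-- the cube root of unity -/
private noncomputable def w : ℂ := ((om : Circle) : ℂ)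

private theorem w_eq : w = ⟨-1 / 2, √3 / 2⟩ := by
  unfold w om
  rw [Circle.coe_exp]
  apply Complex.ext
  · rw [Complex.exp_ofReal_mul_I_re, show (2 * Real.pi / 3 : ℝ) = Real.pi - Real.pi / 3 by ring,
      Real.cos_pi_sub, Real.cos_pi_div_three]
    norm_num
  · rw [Complex.exp_ofReal_mul_I_im, show (2 * Real.pi / 3 : ℝ) = Real.pi - Real.pi / 3 by ring,
      Real.sin_pi_sub, Real.sin_pi_div_three]

private theorem s3 : √3 * √3 = 3 := Real.mul_self_sqrt (by norm_num)

private theorem w2_eq : w ^ 2 = ⟨-1 / 2, -(√3 / 2)⟩ := by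
  rw [w_eq, pow_two]
  apply Complex.ext
  · rw [Complex.mul_re]
    simp only
    have := s3
    linarith
  · rw [Complex.mul_im]
    simp only
    ring

private theorem w3_eq : w ^ 3 = 1 := by
  rw [pow_succ, w2_eq, w_eq]
  apply Complex.ext
  · rw [Complex.mul_re]
    simp only [Complex.one_re]
    have := s3
    linarith
  · rw [Complex.mul_im]
    simp only [Complex.one_im]
    ring

/-- the real coordinates of the points of the tripod -/
private theorem tri {y : ℂ} (hy : y ∈ TP) :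
    (y = (‖y‖ : ℂ) * 1 ∧ ((1 : ℂ) * y).re = ‖y‖ ∧ (w * y).re = -(‖y‖ / 2) ∧
      (w ^ 2 * y).re = -(‖y‖ / 2)) ∨
    (y = (‖y‖ : ℂ) * w ^ 2 ∧ ((1 : ℂ) * y).re = -(‖y‖ / 2) ∧ (w * y).re = ‖y‖ ∧
      (w ^ 2 * y).re = -(‖y‖ / 2)) ∨
    (y = (‖y‖ : ℂ) * w ∧ ((1 : ℂ) * y).re = -(‖y‖ / 2) ∧ (w * y).re = -(‖y‖ / 2) ∧
      (w ^ 2 * y).re = ‖y‖) := by
  obtain ⟨h1, h2⟩ := hy
  have e3 : y ^ 3 = y * y * y := by ring
  rw [e3] at h1 h2
  rw [Complex.mul_im, Complex.mul_re, Complex.mul_im] at h1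
  rw [Complex.mul_re, Complex.mul_re, Complex.mul_im] at h2
  have hs := s3
  have hs0 : (0 : ℝ) ≤ √3 := Real.sqrt_nonneg 3
  have hn : ‖y‖ ^ 2 = y.re ^ 2 + y.im ^ 2 := by
    rw [Complex.sq_norm, Complex.normSq_apply]
    ring
  have hf : y.im * ((y.im - √3 * y.re) * (y.im + √3 * y.re)) = 0 := by
    linear_combination (-1 : ℝ) * h1 - y.im * y.re ^ 2 * hs
  rcases mul_eq_zero.1 hf with h | h
  · left
    rw [h] at h2 hn
    have ha : 0 ≤ y.re := by
      by_contra hlt
      push Not at hlt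
      have : y.re * y.re * y.re < 0 := mul_neg_of_pos_of_neg (mul_pos_of_neg_of_neg hlt hlt) hlt
      linarith
    have hy1 : ‖y‖ = y.re := (sq_eq_sq₀ (norm_nonneg y) ha).1 (by rw [hn]; ring)
    refine ⟨?_, ?_, ?_, ?_⟩
    · rw [hy1, mul_one]
      apply Complex.ext
      · simp
      · simp [h]
    · rw [one_mul, hy1]
    · rw [w_eq, Complex.mul_re, h, hy1]
      simp only
      ring
    · rw [w2_eq, Complex.mul_re, h, hy1]
      simp only
      ring
  · rcases mul_eq_zero.1 h with h | h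
    · right; left
      have him : y.im = √3 * y.re := by linarith
      rw [him] at h2 hn
      have ha : y.re ≤ 0 := by
        by_contra hlt
        push Not at hlt
        have h5 : 0 < y.re * y.re * y.re := by positivity
        have h6 : (y.re * y.re - √3 * y.re * (√3 * y.re)) * y.re - (y.re * (√3 * y.re) +
            √3 * y.re * y.re) * (√3 * y.re) = -8 * (y.re * y.re * y.re) := by
          linear_combination (-3 * (y.re * y.re * y.re)) * hs
        linarith
      have hy1 : ‖y‖ = -2 * y.re := (sq_eq_sq₀ (norm_nonneg y) (by linarith)).1 (by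
        rw [hn]
        linear_combination y.re ^ 2 * hs)
      refine ⟨?_, ?_, ?_, ?_⟩
      · rw [hy1, w2_eq]
        apply Complex.ext
        · rw [Complex.re_ofReal_mul]
          ring
        · rw [Complex.im_ofReal_mul, him]
          ring
      · rw [one_mul, hy1]
        ring
      · rw [w_eq, Complex.mul_re, him, hy1]
        simp only
        linear_combination (-1 / 2 * y.re) * hs
      · rw [w2_eq, Complex.mul_re, him, hy1]
        simp only
        linear_combination (1 / 2 * y.re) * hs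
    · right; right
      have him : y.im = -(√3 * y.re) := by linarith
      rw [him] at h2 hn
      have ha : y.re ≤ 0 := by
        by_contra hlt
        push Not at hlt
        have h5 : 0 < y.re * y.re * y.re := by positivity
        have h6 : (y.re * y.re - -(√3 * y.re) * -(√3 * y.re)) * y.re - (y.re * -(√3 * y.re) +
            -(√3 * y.re) * y.re) * -(√3 * y.re) = -8 * (y.re * y.re * y.re) := by
          linear_combination (-3 * (y.re * y.re * y.re)) * hs
        linarith
      have hy1 : ‖y‖ = -2 * y.re := (sq_eq_sq₀ (norm_nonneg y) (by linarith)).1 (by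
        rw [hn]
        linear_combination y.re ^ 2 * hs)
      refine ⟨?_, ?_, ?_, ?_⟩
      · rw [hy1, w_eq]
        apply Complex.ext
        · rw [Complex.re_ofReal_mul]
          ring
        · rw [Complex.im_ofReal_mul, him]
          ring
      · rw [one_mul, hy1]
        ring
      · rw [w_eq, Complex.mul_re, him, hy1]
        simp only
        linear_combination (1 / 2 * y.re) * hs
      · rw [w2_eq, Complex.mul_re, him, hy1]
        simp only
        linear_combination (-1 / 2 * y.re) * hs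

private theorem isClosed_TP : IsClosed TP := by
  have h1 : Continuous fun y : ℂ => (y ^ 3).im := by fun_prop
  have h2 : Continuous fun y : ℂ => (y ^ 3).re := by fun_prop
  exact (isClosed_singleton.preimage h1).inter (isClosed_Ici.preimage h2)

private theorem lcpt_TP : LCpt TP := LCpt.of_closed isClosed_TP

private theorem smul_mem_TP {y : ℂ} (hy : y ∈ TP) {t : ℝ} (ht : 0 ≤ t) : (t : ℂ) * y ∈ TP := by
  obtain ⟨h1, h2⟩ := hy
  have e : ((t : ℂ) * y) ^ 3 = ((t ^ 3 : ℝ) : ℂ) * y ^ 3 := by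
    push_cast
    ring
  refine ⟨?_, ?_⟩
  · rw [e, Complex.im_ofReal_mul, h1, mul_zero]
  · rw [e, Complex.re_ofReal_mul]
    positivity

private theorem mem_TP_of_pow {y : ℂ} (hy : y ^ 3 = 1) : y ∈ TP := by
  refine ⟨?_, ?_⟩ <;> rw [hy] <;> simp

private theorem one_mem_TP : (1 : ℂ) ∈ TP := mem_TP_of_pow (by simp)

private theorem w_mem_TP : w ∈ TP := mem_TP_of_pow w3_eq

private theorem w2_mem_TP : w ^ 2 ∈ TP := mem_TP_of_pow (by
  rw [← pow_mul, show 2 * 3 = 3 * 2 by norm_num, pow_mul, w3_eq, one_pow])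

/-- the indicator function of the part `|y| > 1` of a leg -/
private noncomputable def gv (v : ℂ) : List ℂ → ZMod 2 :=
  Helper36.AS.ind fun y : ℂ => 0 < (v * y).re - 1

private theorem gv_one {v y : ℂ} (h : 1 < (v * y).re) : gv v [y] = 1 :=
  Helper36.AS.ind_pos (P := fun y : ℂ => 0 < (v * y).re - 1) (by linarith)

private theorem gv_zero {v y : ℂ} (h : (v * y).re ≤ 1) : gv v [y] = 0 :=
  Helper36.AS.ind_neg (P := fun y : ℂ => 0 < (v * y).re - 1) (by linarith)

private theorem dgv_LZat {v x : ℂ} (hx : (v * x).re ≠ 1) : LZat TP 2 (d (gv v)) x := by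
  have hc : Continuous fun y : ℂ => (v * y).re - 1 := by fun_prop
  exact LZat_d_ind (R := ZMod 2) (T := TP) (c := fun y : ℂ => (v * y).re - 1)
    hc.continuousWithinAt (sub_ne_zero.2 hx)

private theorem compact_T (r : ℝ) : IsCompact (TP ∩ Metric.closedBall (0 : ℂ) r) :=
  (isCompact_closedBall (0 : ℂ) r).inter_left isClosed_TP

/-- the three vectors -/
private def IsV (v : ℂ) : Prop := v = 1 ∨ v = w ∨ v = w ^ 2

private theorem re_ne {v x : ℂ} (hv : IsV v) (hx : x ∈ TP) (h : 1 < ‖x‖) : (v * x).re ≠ 1 := by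
  rcases hv with rfl | rfl | rfl <;> rcases tri hx with ⟨_, h1, h2, h3⟩ | ⟨_, h1, h2, h3⟩ |
    ⟨_, h1, h2, h3⟩ <;> intro h4 <;> linarith

private theorem dgv_mem {v : ℂ} (hv : IsV v) : d (gv v) ∈ cocycles (ZMod 2) IsCompact TP 1 := by
  refine ⟨⟨TP ∩ Metric.closedBall (0 : ℂ) 1, inter_subset_left, compact_T 1, fun x hx hx' => ?_⟩,
    ?_⟩
  · refine dgv_LZat (re_ne hv hx ?_)
    by_contra h
    push Not at h
    exact hx' ⟨hx, by simpa using h⟩
  · rw [d_d']
    exact LZ.zero TP _

private theorem pull_gv (v : ℂ) : pull (fun y : ℂ => (om : ℂ) * y) (gv v) = gv (v * w) := by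
  unfold gv
  rw [pull_ind]
  congr 1
  funext y
  have : v * ((om : ℂ) * y) = v * w * y := by
    unfold w
    ring
  simp only [this]

/-- the sum of the three cocycles is a coboundary -/
private theorem sum_cob : d (gv 1) + d (gv w) + d (gv (w ^ 2)) ∈
    coboundaries (ZMod 2) IsCompact TP 1 := by
  refine ⟨gv 1 + gv w + gv (w ^ 2) - fun _ => 1, fun h => by omega,
    ⟨TP ∩ Metric.closedBall (0 : ℂ) 1, inter_subset_left, compact_T 1, fun x hx hx' => ?_⟩,
    fun x _ => LZat.of_eq_zero x fun l hl _ => ?_⟩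
  · have hx1 : 1 < ‖x‖ := by
      by_contra h
      push Not at h
      exact hx' ⟨hx, by simpa using h⟩
    have ho : IsOpen {y : ℂ | 1 < ‖y‖} := isOpen_lt continuous_const continuous_norm
    refine ⟨{y : ℂ | 1 < ‖y‖}, ho.mem_nhds hx1, fun l hl hl' => ?_⟩
    match l, hl with
    | [y], _ =>
      have hy := hl' y (by simp)
      have hy1 : 1 < ‖y‖ := hy.1
      simp only [Pi.sub_apply, Pi.add_apply]
      rcases tri hy.2 with ⟨_, h1, h2, h3⟩ | ⟨_, h1, h2, h3⟩ | ⟨_, h1, h2, h3⟩
      · rw [gv_one (by linarith), gv_zero (by linarith), gv_zero (by linarith)]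
        simp
      · rw [gv_zero (by linarith), gv_one (by linarith), gv_zero (by linarith)]
        simp
      · rw [gv_zero (by linarith), gv_zero (by linarith), gv_one (by linarith)]
        simp
  · rw [d_sub', d_add', d_add']
    match l, hl with
    | [a, b], _ =>
      have h1 : d (fun _ : List ℂ => (1 : ZMod 2)) [a, b] = 0 := by
        rw [d_pair]
        simp
      simp only [Pi.sub_apply, Pi.add_apply, h1]
      ring

open Filter Topology in
/-- `g` is constant on the rays -/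
private theorem ray_const {g : List ℂ → ZMod 2} {r : ℝ} (hr : 0 < r) {u : ℂ} (hu : u ∈ TP)
    (hu1 : ‖u‖ = 1) (h : ∀ x ∈ TP, r ≤ ‖x‖ → LZat TP 2 (d g) x) {ρ : ℝ} (hρ : r ≤ ρ) :
    g [(ρ : ℂ) * u] = g [(r : ℂ) * u] := by
  let _ : TopologicalSpace (ZMod 2) := ⊥
  have _ : DiscreteTopology (ZMod 2) := ⟨rfl⟩
  have hc : ContinuousOn (fun t : ℝ => g [(t : ℂ) * u]) (Ici r) := by
    intro t ht
    have ht' : r ≤ t := ht
    have htn : ‖(t : ℂ) * u‖ = t := by
      rw [norm_mul, hu1, mul_one, Complex.norm_real, Real.norm_of_nonneg (by linarith)]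
    obtain ⟨U, hU, hUl⟩ := h _ (smul_mem_TP hu (by linarith : 0 ≤ t)) (by rw [htn]; exact ht')
    have hcu : Continuous fun t : ℝ => (t : ℂ) * u := by fun_prop
    have h1 : ∀ᶠ s : ℝ in 𝓝[Ici r] t, (s : ℂ) * u ∈ U :=
      (hcu.continuousWithinAt (s := Ici r) (x := t)).eventually_mem hU
    have h2 : (fun s : ℝ => g [(s : ℂ) * u]) =ᶠ[𝓝[Ici r] t] fun _ => g [(t : ℂ) * u] := by
      filter_upwards [h1, self_mem_nhdsWithin] with s hs hs'
      have hs'' : r ≤ s := hs'
      have h3 := hUl [(t : ℂ) * u, (s : ℂ) * u] rfl (by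
        intro y hy
        simp only [List.mem_cons, List.not_mem_nil, or_false] at hy
        rcases hy with rfl | rfl
        · exact ⟨mem_of_mem_nhds hU, smul_mem_TP hu (by linarith)⟩
        · exact ⟨hs, smul_mem_TP hu (by linarith)⟩)
      rw [d_pair] at h3
      exact sub_eq_zero.1 h3
    exact continuousWithinAt_const.congr_of_eventuallyEq h2 rfl
  exact isPreconnected_Ici.constant hc (show ρ ∈ Ici r from hρ) (show r ∈ Ici r from le_refl r)

/-- the tripod is contractible -/
private theorem tp_exact {f : List ℂ → ZMod 2} (hf : f ∈ cocycles (ZMod 2) IsCompact TP 1) :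
    ∃ g : List ℂ → ZMod 2, LZ TP 2 (f - d g) := by
  have hf' : f ∈ cocycles (ZMod 2) AllSupp TP 1 := ⟨hasSupp_all TP _ f, hf.2⟩
  have hG : SHomotopy AllSupp AllSupp TP TP (fun (y : ℂ) (s : ℝ) => (s : ℂ) * y) :=
    SHomotopy.of_all (by fun_prop) (fun x hx s hs => smul_mem_TP hx hs.1) _
  have h1 := hG.mem_coboundaries (good_all TP) hf'
  obtain ⟨g, _, _, hg⟩ := h1
  refine ⟨g, ?_⟩
  have h00 : f [0, 0] = 0 := by
    have h0T : (0 : ℂ) ∈ TP := by
      refine ⟨?_, ?_⟩ <;> simp
    obtain ⟨U, hU, hl⟩ := hf.2 0 h0T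
    have := hl [0, 0, 0] rfl (by
      intro y hy
      simp only [List.mem_cons, List.not_mem_nil, or_false, or_self] at hy
      rw [hy]
      exact ⟨mem_of_mem_nhds hU, h0T⟩)
    simpa [d_cons] using this
  refine hg.congr fun l hl _ => ?_
  match l, hl with
  | [a, b], _ =>
    simp only [Pi.sub_apply, pull, List.map_cons, List.map_nil, Complex.ofReal_one, one_mul,
      Complex.ofReal_zero, zero_mul, h00, sub_zero]

private theorem norm_w : ‖w‖ = 1 := by
  unfold w
  exact Circle.norm_coe om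

private theorem norm_w2 : ‖w ^ 2‖ = 1 := by
  rw [norm_pow, norm_w, one_pow]

/-- generation in degree one -/
private theorem tp1 {f : List ℂ → ZMod 2} (hf : f ∈ cocycles (ZMod 2) IsCompact TP 1) :
    ∃ a b : ZMod 2, f - (a • d (gv 1) + b • d (gv w)) ∈
      coboundaries (ZMod 2) IsCompact TP 1 := by
  obtain ⟨g, hg⟩ := tp_exact hf
  obtain ⟨K, hK, hKc, hfK⟩ := hf.1
  obtain ⟨r, hr1, hKr⟩ := hKc.isBounded.subset_ball_lt (1 : ℝ) (0 : ℂ)
  have hr0 : 0 < r := by linarith
  have hdg : ∀ x ∈ TP, r ≤ ‖x‖ → LZat TP 2 (d g) x := by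
    intro x hx hrx
    have h1 : LZat TP 2 f x := hfK x hx fun h => by
      have := hKr h
      rw [mem_ball_zero_iff] at this
      linarith
    have h2 := h1.sub (hg x hx)
    rwa [sub_sub_cancel] at h2
  set α := g [(r : ℂ) * 1] with hα
  set β := g [(r : ℂ) * w ^ 2] with hβ
  set δ := g [(r : ℂ) * w] with hδ
  have hmain : f - (α • d (gv 1) + β • d (gv w) + δ • d (gv (w ^ 2))) ∈
      coboundaries (ZMod 2) IsCompact TP 1 := by
    refine ⟨g - (α • gv 1 + β • gv w + δ • gv (w ^ 2)), fun h => by omega,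
      ⟨TP ∩ Metric.closedBall (0 : ℂ) r, inter_subset_left, compact_T r, fun x hx hx' => ?_⟩, ?_⟩
    · have hx1 : r < ‖x‖ := by
        by_contra h
        push Not at h
        exact hx' ⟨hx, by simpa using h⟩
      have ho : IsOpen {y : ℂ | r < ‖y‖} := isOpen_lt continuous_const continuous_norm
      refine ⟨{y : ℂ | r < ‖y‖}, ho.mem_nhds hx1, fun l hl hl' => ?_⟩
      match l, hl with
      | [y], _ =>
        have hy := hl' y (by simp)
        have hy1 : r < ‖y‖ := hy.1
        simp only [Pi.sub_apply, Pi.add_apply, Pi.smul_apply, smul_eq_mul]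
        rcases tri hy.2 with ⟨h0, h1, h2, h3⟩ | ⟨h0, h1, h2, h3⟩ | ⟨h0, h1, h2, h3⟩
        · rw [gv_one (by linarith), gv_zero (by linarith), gv_zero (by linarith)]
          have h5 : g [y] = α := by
            rw [hα, ← ray_const hr0 one_mem_TP (by simp) hdg hy1.le, ← h0]
          rw [h5]
          ring
        · rw [gv_zero (by linarith), gv_one (by linarith), gv_zero (by linarith)]
          have h5 : g [y] = β := by
            rw [hβ, ← ray_const hr0 w2_mem_TP norm_w2 hdg hy1.le, ← h0]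
          rw [h5]
          ring
        · rw [gv_zero (by linarith), gv_zero (by linarith), gv_one (by linarith)]
          have h5 : g [y] = δ := by
            rw [hδ, ← ray_const hr0 w_mem_TP norm_w hdg hy1.le, ← h0]
          rw [h5]
          ring
    · have e : f - (α • d (gv 1) + β • d (gv w) + δ • d (gv (w ^ 2))) -
          d (g - (α • gv 1 + β • gv w + δ • gv (w ^ 2))) = f - d g := by
        rw [d_sub', d_add', d_add', d_smul', d_smul', d_smul']
        abel
      rw [e]
      exact hg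
  refine ⟨α - δ, β - δ, ?_⟩
  have h2 := add_mem hmain (Submodule.smul_mem _ δ sum_cob)
  have e : f - (α • d (gv 1) + β • d (gv w) + δ • d (gv (w ^ 2))) +
      δ • (d (gv 1) + d (gv w) + d (gv (w ^ 2))) =
      f - ((α - δ) • d (gv 1) + (β - δ) • d (gv w)) := by
    rw [sub_smul, sub_smul, smul_add, smul_add]
    abel
  rwa [e] at h2

private theorem pull_Rr {f : List ℂ → ZMod 2} :
    pull Rr (lineC f) = lineC (pull (fun y : ℂ => (om : ℂ) * y) f) := by
  funext l
  unfold lineC
  rw [pull_cup]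
  have h1 : pull Rr (d (Helper36.AS.ind fun p : ℝ × ℂ => 0 < p.1) : List (ℝ × ℂ) → ZMod 2) =
      d (Helper36.AS.ind fun p : ℝ × ℂ => 0 < p.1) := by
    rw [← d_pull', pull_ind]
    rfl
  have h2 : pull Rr (pull (Prod.snd : ℝ × ℂ → ℂ) f) =
      pull Prod.snd (pull (fun y : ℂ => (om : ℂ) * y) f) := by
    funext l
    simp only [pull, List.map_map]
    rfl
  rw [h1, h2]

private theorem e3_lineC (v : ℂ) : e3 Rr (lineC (d (gv v))) =
    lineC (d (gv v) + d (gv (v * w)) + d (gv (v * w * w))) := by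
  unfold e3
  rw [pull_Rr, pull_Rr, ← d_pull', pull_gv, ← d_pull', pull_gv, lineC_add, lineC_add]

theorem tp_gen : ∃ c₀ c₂ : List (ℝ × ℂ) → ZMod 2, c₀ ∈ cocycles (ZMod 2) IsCompact RT 2 ∧
    c₂ ∈ cocycles (ZMod 2) IsCompact RT 2 ∧
    e3 Rr c₀ ∈ coboundaries (ZMod 2) IsCompact RT 2 ∧
    e3 Rr c₂ ∈ coboundaries (ZMod 2) IsCompact RT 2 ∧
    ∀ f ∈ cocycles (ZMod 2) IsCompact RT 2, ∃ a b : ZMod 2,
      f - (a • c₀ + b • c₂) ∈ coboundaries (ZMod 2) IsCompact RT 2 := by
  have hv1 : IsV 1 := Or.inl rfl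
  have hvw : IsV w := Or.inr (Or.inl rfl)
  refine ⟨lineC (d (gv 1)), lineC (d (gv w)), lineC_mem (dgv_mem hv1), lineC_mem (dgv_mem hvw),
    ?_, ?_, ?_⟩
  · rw [e3_lineC, one_mul]
    have e : w * w = w ^ 2 := (pow_two w).symm
    rw [e]
    exact lineC_cob lcpt_TP sum_cob
  · rw [e3_lineC]
    have e : w * w = w ^ 2 := (pow_two w).symm
    have e2 : w ^ 2 * w = 1 := by rw [← pow_succ, w3_eq]
    rw [e, e2]
    have h1 : d (gv w) + d (gv (w ^ 2)) + d (gv 1) = d (gv 1) + d (gv w) + d (gv (w ^ 2)) := by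
      abel
    rw [h1]
    exact lineC_cob lcpt_TP sum_cob
  · intro f hf
    obtain ⟨f', hf', he⟩ := line_surj lcpt_TP (cls f hf)
    obtain ⟨a, b, hab⟩ := tp1 hf'
    refine ⟨a, b, ?_⟩
    have h1 := lineC_cob lcpt_TP hab
    rw [lineC_sub, lineC_add, lineC_smul, lineC_smul] at h1
    have h2 := cls_eq_iff.1 he.symm
    have h3 := add_mem h2 h1
    have e : f - lineC f' + (lineC f' - (a • lineC (d (gv 1)) + b • lineC (d (gv w)))) =
        f - (a • lineC (d (gv 1)) + b • lineC (d (gv w))) := by abel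
    rw [e] at h3
    exact h3

end Pool.Agent.Helper77.DS
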