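import Pool.Agent.Helper77.DS.KapA
import Pool.Agent.Helper77.DS.FrA

/-!
# DS-YcA: the hyperplane cocycles on `RP3`

`yc_cocycle`: `kap_cocycle` with `Lq_unit`, `Lq_mul` (the entries of `A` are continuous), plus `d (d _) = 0`.
`yc_LZat`: `kap_side` with the constant vector `v = h`: `(∑ Lq A i h i)² = ∑ A i j h i h j ≠ 0`.
`yc_sub`: `yc h - yc h' = d (ind_h - ind_h')` (the `kap` terms cancel).
`hyp1_OO`: on the hyperplane `q₁ = 3 q₀` (i.e. `∑ A i j h1 i h1 j = (q₁ - 3 q₀)² = 0`): `A 1 1 = 9 A 0 0`, so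
`4 A 0 0 < A 1 1` unless `q₀ = q₁ = 0`, and then `A 2 2 > 0` or `A 3 3 > 0 = A 0 0`.
`hyp_pt`: if `q₁ = 3 q₀`, `q₂ = 0`, `q₃ = 0` then `q = ± (1, 3, 0, 0) / √10` and `A = chart ![3, 0, 0]`.
-/

namespace Pool.Agent.Helper77.DS

open Set Helper36.AS

theorem Lq_mul_cont (i j : Fin 4) : ContinuousOn (fun A : M4 => Lq A i * Lq A j) RP3 := by
  have h1 : Continuous fun A : M4 => A i j :=
    (continuous_apply j).comp (continuous_apply i)
  exact h1.continuousOn.congr fun A hA => Lq_mul hA i j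

theorem yc_cocycle (h : Fin 4 → ℝ) : LZ RP3 3 (d (yc h)) := by
  unfold yc
  rw [d_add']
  exact (kap_cocycle Lq (fun A hA => Lq_unit hA) Lq_mul_cont).add (ind_cocycle _)

theorem yc_LZat (h : Fin 4 → ℝ) {A : M4} (hA : A ∈ RP3) (h0 : ∑ i, ∑ j, A i j * h i * h j ≠ 0) :
    LZat RP3 2 (yc h) A := by
  unfold yc
  refine kap_side Lq (fun A hA => Lq_unit hA) Lq_mul_cont (fun _ => h) hA
    (fun i => continuousWithinAt_const) ?_
  intro h1
  apply h0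
  have h2 : ∑ i, ∑ j, A i j * h i * h j = (∑ i, Lq A i * h i) * ∑ j, Lq A j * h j := by
    rw [Finset.sum_mul_sum]
    refine Finset.sum_congr rfl fun i _ => Finset.sum_congr rfl fun j _ => ?_
    rw [← Lq_mul hA i j]
    ring
  rw [h2, h1, zero_mul]

theorem yc_eq_add (h h' : Fin 4 → ℝ) :
    yc h = yc h' + d (ind (fun A => ∑ i, Lq A i * h i) - ind (fun A => ∑ i, Lq A i * h' i)) := by
  unfold yc
  rw [d_sub']
  abel

theorem hyp1_sq (q : Fin 4 → ℝ) : ∑ i, ∑ j, outer q i j * h1 i * h1 j = (q 1 - 3 * q 0) ^ 2 := by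
  simp only [Fin.sum_univ_four, outer, h1]
  simp
  ring

theorem hyp1_OO {A : M4} (hA : A ∈ RP3) (h0 : ∑ i, ∑ j, A i j * h1 i * h1 j = 0) : A ∈ OO := by
  obtain ⟨q, hq, rfl⟩ := hA
  rw [hyp1_sq] at h0
  have h2 : q 1 = 3 * q 0 := by
    have := pow_eq_zero_iff (two_ne_zero) |>.1 h0
    linarith
  refine ⟨⟨q, hq, rfl⟩, ?_⟩
  simp only [outer]
  rw [Fin.sum_univ_four] at hq
  by_cases h3 : q 0 = 0
  · have h4 : q 1 = 0 := by rw [h2, h3, mul_zero]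
    rw [h3, h4] at hq
    right
    by_cases h5 : q 2 = 0
    · right
      rw [h5] at hq
      rw [h3]
      nlinarith
    · left
      rw [h3]
      have : 0 < q 2 * q 2 := mul_self_pos.2 h5
      linarith
  · left
    rw [h2]
    have : 0 < q 0 * q 0 := mul_self_pos.2 h3
    nlinarith

theorem hyp2_sq (q : Fin 4 → ℝ) : ∑ i, ∑ j, outer q i j * h2 i * h2 j = q 2 ^ 2 := by
  simp only [Fin.sum_univ_four, outer, h2]
  simp
  ring

theorem hyp3_sq (q : Fin 4 → ℝ) : ∑ i, ∑ j, outer q i j * h3 i * h3 j = q 3 ^ 2 := by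
  simp only [Fin.sum_univ_four, outer, h3]
  simp
  ring

theorem hyp_pt {A : M4} (hA : A ∈ RP3) (e1 : ∑ i, ∑ j, A i j * h1 i * h1 j = 0)
    (e2 : ∑ i, ∑ j, A i j * h2 i * h2 j = 0) (e3 : ∑ i, ∑ j, A i j * h3 i * h3 j = 0) :
    A = chart ![3, 0, 0] := by
  obtain ⟨q, hq, rfl⟩ := hA
  rw [hyp1_sq] at e1
  rw [hyp2_sq] at e2
  rw [hyp3_sq] at e3
  have k1 : q 1 = 3 * q 0 := by
    have := pow_eq_zero_iff (two_ne_zero) |>.1 e1
    linarith
  have k2 : q 2 = 0 := pow_eq_zero_iff (two_ne_zero) |>.1 e2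
  have k3 : q 3 = 0 := pow_eq_zero_iff (two_ne_zero) |>.1 e3
  rw [Fin.sum_univ_four, k1, k2, k3] at hq
  have k0 : q 0 * q 0 = 1 / 10 := by nlinarith
  funext i j
  fin_cases i <;> fin_cases j <;> simp [outer, chart, k1, k2, k3] <;> nlinarith

theorem D_pos (p : Fin 3 → ℝ) : 0 < 1 + p 0 ^ 2 + p 1 ^ 2 + p 2 ^ 2 := by positivity

theorem chart_mem (p : Fin 3 → ℝ) : chart p ∈ RP3 := by
  have hD := D_pos p
  have hs : √(1 + p 0 ^ 2 + p 1 ^ 2 + p 2 ^ 2) * √(1 + p 0 ^ 2 + p 1 ^ 2 + p 2 ^ 2) =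
      1 + p 0 ^ 2 + p 1 ^ 2 + p 2 ^ 2 := Real.mul_self_sqrt hD.le
  have hs0 : √(1 + p 0 ^ 2 + p 1 ^ 2 + p 2 ^ 2) ≠ 0 := (Real.sqrt_pos.2 hD).ne'
  refine ⟨fun i => (![1, p 0, p 1, p 2] : Fin 4 → ℝ) i / √(1 + p 0 ^ 2 + p 1 ^ 2 + p 2 ^ 2),
    ?_, ?_⟩
  · simp only [div_pow, Real.sq_sqrt hD.le]
    rw [← Finset.sum_div, Fin.sum_univ_four]
    rw [div_eq_one_iff_eq hD.ne']
    simp
  · funext i j
    simp only [chart, outer]
    rw [div_mul_div_comm, hs]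

theorem chart_P0_mem : chart ![3, 0, 0] ∈ OO := by
  refine ⟨chart_mem _, Or.inl ?_⟩
  simp [chart]
  norm_num

theorem vec_continuous (i : Fin 4) :
    Continuous fun p : Fin 3 → ℝ => (![1, p 0, p 1, p 2] : Fin 4 → ℝ) i := by
  fin_cases i
  · exact continuous_const
  · exact continuous_apply 0
  · exact continuous_apply 1
  · exact continuous_apply 2

theorem chart_continuous : Continuous chart := by
  refine continuous_pi fun i => continuous_pi fun j => ?_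
  unfold chart
  refine ((vec_continuous i).mul (vec_continuous j)).div ?_ fun p => (D_pos p).ne'
  fun_prop

theorem chart_zero_zero_pos (p : Fin 3 → ℝ) : 0 < chart p 0 0 := by
  have hD := D_pos p
  simp only [chart]
  simp
  exact hD

theorem Lq_chart (p : Fin 3 → ℝ) (i : Fin 4) :
    Lq (chart p) i = (![1, p 0, p 1, p 2] : Fin 4 → ℝ) i / √(1 + p 0 ^ 2 + p 1 ^ 2 + p 2 ^ 2) := by
  have hD := D_pos p
  have hs : √(1 + p 0 ^ 2 + p 1 ^ 2 + p 2 ^ 2) * √(1 + p 0 ^ 2 + p 1 ^ 2 + p 2 ^ 2) =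
      1 + p 0 ^ 2 + p 1 ^ 2 + p 2 ^ 2 := Real.mul_self_sqrt hD.le
  have hs0 : √(1 + p 0 ^ 2 + p 1 ^ 2 + p 2 ^ 2) ≠ 0 := (Real.sqrt_pos.2 hD).ne'
  rw [Lq_of_pos (chart_zero_zero_pos p)]
  have h1 : chart p 0 0 = 1 / (1 + p 0 ^ 2 + p 1 ^ 2 + p 2 ^ 2) := by simp [chart]
  have h2 : chart p 0 i = (![1, p 0, p 1, p 2] : Fin 4 → ℝ) i / (1 + p 0 ^ 2 + p 1 ^ 2 + p 2 ^ 2) := by
    simp [chart]
  rw [h1, h2, Real.sqrt_div zero_le_one, Real.sqrt_one]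
  rw [div_div_eq_mul_div, div_one]
  rw [div_mul_eq_mul_div, div_eq_div_iff hD.ne' hs0, mul_assoc, hs]

end Pool.Agent.Helper77.DS
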